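/-
MP_a8fbd7_nt, blocks OX and EX, reduction of boxes with long slots (reflection), generic in the family of slots.  Author: helper62.
-/
import Mathlib
import Pool.Agent.Work.MP_a8fbd7_nt.OX.ASM.Stmts
import Pool.Agent.Work.MP_56b8f5_nt.UC.I_Bc
import Pool.Agent.Work.MP_a8fbd7_nt.OX.ASM.I_Rg
import Pool.Agent.Work.MP_a8fbd7_nt.OX.ASM.I_Rp
import Pool.Agent.Work.MP_a8fbd7_nt.OX.ASM.I_F4
import Pool.Agent.Work.MP_a8fbd7_nt.OX.CW.Slots

set_option autoImplicit false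

open MeasureTheory Set Filter Topology

noncomputable section

namespace Pool.Agent.Work.MP_a8fbd7_nt.EX.RedA

open Pool.Agent.Work.MP_56b8f5_nt.UC (IsWt Bl Dp Om psi eta Sep)
open Pool.Agent.Work.MP_a8fbd7_nt.OX
open Pool.Agent.Work.MP_a8fbd7_nt.OX.ID (Rough roughOne pb rg)
open Pool.Agent.Work.MP_a8fbd7_nt.OX.ASM
open Pool.Agent.Work.MP_a8fbd7_nt.OX.ASM.Rg_aux

/-- A family of slots `i : ι` of scales `sc (o i)` with functions `f i`; `J` are the long slots (sieve weights `lw i` of level `D`),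
the other slots are general blocks, unused slots are `1`. -/
structure Slots (T κ3 η D : ℝ) {ι : Type} (o : ι → Option ℕ) (f : ι → ArithmeticFunction ℝ) (J : Finset ι) (lw : ι → ℕ → ℝ) : Prop where
  long : ∀ i ∈ J, ∃ l, o i = some l ∧ f i = tb (lw i) l ∧ T ^ (1 / 2 + κ3) < (2 : ℝ) ^ l
  un : ∀ i, i ∉ J → o i = none → f i = 1
  blk : ∀ i, i ∉ J → o i ≠ none → IsBlk (fun n => ((f i n : ℝ) : ℂ)) (sc (o i)) ∧ T ^ η / 2 ≤ sc (o i)
  bd : ∀ i ∈ J, ∀ d, |lw i d| ≤ 2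
  sup : ∀ i ∈ J, ∀ d, lw i d ≠ 0 → 1 ≤ d ∧ (d : ℝ) ≤ D

theorem Slots.supp {T κ3 η D : ℝ} {ι : Type} {o : ι → Option ℕ} {f : ι → ArithmeticFunction ℝ} {J : Finset ι} {lw : ι → ℕ → ℝ}
    (h : Slots T κ3 η D o f J lw) (i : ι) (n : ℕ) (hn : f i n ≠ 0) : n ≤ Yn (o i) := by
  by_cases hi : i ∈ J
  · obtain ⟨l, hl, hf, -⟩ := h.long i hi
    rw [hf] at hn
    have h1 : psi ((n : ℝ) / 2 ^ l) * th (lw i) n ≠ 0 := hn
    rw [hl]
    exact (psi_supp2 l n (left_ne_zero_of_mul h1)).2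
  · by_cases ho : o i = none
    · rw [h.un i hi ho] at hn
      rw [ho]
      exact (one_supp n hn).2
    · have h1 := (h.blk i hi ho).1.supp n (by simpa using hn)
      have h2 : (n : ℝ) ≤ ((Yn (o i) : ℕ) : ℝ) := by
        rw [Yn_cast]
        exact h1.2
      exact_mod_cast h2

theorem index_finset {ι : Type} (U : Finset ι) : ∃ e : Fin U.card → ι, Function.Injective e ∧ (∀ i, e i ∈ U) ∧
    (∀ x ∈ U, ∃ i, e i = x) ∧ ∀ (M : Type) [CommMonoid M] (F : ι → M), ∏ i, F (e i) = ∏ x ∈ U, F x := by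
  refine ⟨fun i => (U.equivFin.symm i : ι), ?_, ?_, ?_, ?_⟩
  · intro a b hab
    exact U.equivFin.symm.injective (Subtype.ext hab)
  · intro i
    exact (U.equivFin.symm i).2
  · intro x hx
    exact ⟨U.equivFin ⟨x, hx⟩, by simp⟩
  · intro M _ F
    rw [Equiv.prod_comp U.equivFin.symm (fun x : U => F (x : ι))]
    exact Finset.prod_coe_sort U F

theorem Dp_prod (hPd : StPd) {T κ3 η D : ℝ} {ι : Type} [Fintype ι] {o : ι → Option ℕ} {f : ι → ArithmeticFunction ℝ} {J : Finset ι}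
    {lw : ι → ℕ → ℝ} (h : Slots T κ3 η D o f J lw) (Y : ℕ) (hY : ∏ i, Yn (o i) ≤ Y) (t : ℝ) :
    Dp Y (fun n => (((∏ i, f i) n : ℝ) : ℂ)) t = ∏ i, Dp (Yn (o i)) (fun n => ((f i n : ℝ) : ℂ)) t :=
  (hPd ι Finset.univ f (fun _ => 0) (fun i => Yn (o i)) (fun _ _ => le_rfl)
    (fun i _ n hn => ⟨Nat.cast_nonneg n, h.supp i n hn⟩)).2.2 Y t hY

theorem Dp_long (hTb : StTb) {T κ3 η D : ℝ} {ι : Type} {o : ι → Option ℕ} {f : ι → ArithmeticFunction ℝ} {J : Finset ι}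
    {lw : ι → ℕ → ℝ} (h : Slots T κ3 η D o f J lw) (i : ι) (hi : i ∈ J) (t : ℝ) :
    ‖Dp (Yn (o i)) (fun n => ((f i n : ℝ) : ℂ)) t‖ ≤ ∑ d ∈ Finset.Icc 1 ⌊D⌋₊, 2 * ‖Bl psi (sc (o i) / d) t‖ := by
  obtain ⟨l, hl, hf, -⟩ := h.long i hi
  rw [hf, hl, hTb.1 (lw i) l D t (Yn (some l)) (h.sup i hi) le_rfl]
  refine (norm_sum_le _ _).trans (Finset.sum_le_sum ?_)
  intro d hd
  rw [norm_mul, norm_mul]
  have h1 : ‖((lw i d : ℝ) : ℂ)‖ ≤ 2 := by
    rw [Complex.norm_real]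
    exact h.bd i hi d
  have h2 : ‖(d : ℂ) ^ (-(t * Complex.I))‖ = 1 := by
    have hd0 : 0 < (d : ℝ) := by
      have := (Finset.mem_Icc.1 hd).1
      exact_mod_cast this
    have h3 : ((d : ℝ) : ℂ) = (d : ℂ) := by simp
    rw [← h3, Complex.norm_cpow_eq_rpow_re_of_pos hd0]
    simp
  rw [h2, mul_one]
  exact mul_le_mul_of_nonneg_right h1 (norm_nonneg _)

/-- one tuple of divisors carries its share of the integral -/
theorem pick (r : ℕ) (E : Finset ℕ) (T' : ℝ) (H : ℝ → ℝ) (hH : Continuous H) (B : Fin r → ℕ → ℝ → ℝ)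
    (hB : ∀ k, ∀ d ∈ E, Continuous (B k d)) (I0 : ℝ) (hE : E.Nonempty)
    (h : I0 ≤ ∫ t in T'..(2 * T'), H t * ∏ k, ∑ d ∈ E, B k d t) :
    ∃ p : Fin r → ℕ, (∀ k, p k ∈ E) ∧ I0 ≤ (E.card : ℝ) ^ r * ∫ t in T'..(2 * T'), H t * ∏ k, B k (p k) t := by
  have h1 : ∀ t, H t * ∏ k, ∑ d ∈ E, B k d t = ∑ p ∈ Fintype.piFinset (fun _ : Fin r => E), H t * ∏ k, B k (p k) t := by
    intro t
    rw [Finset.prod_univ_sum, Finset.mul_sum]
  have h2 : (∫ t in T'..(2 * T'), H t * ∏ k, ∑ d ∈ E, B k d t) =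
      ∑ p ∈ Fintype.piFinset (fun _ : Fin r => E), ∫ t in T'..(2 * T'), H t * ∏ k, B k (p k) t := by
    simp_rw [h1]
    rw [intervalIntegral.integral_finsetSum]
    intro p hp
    refine Continuous.intervalIntegrable ?_ _ _
    exact hH.mul (continuous_finsetProd _ (fun k _ => hB k (p k) (Fintype.mem_piFinset.1 hp k)))
  have hne : (Fintype.piFinset (fun _ : Fin r => E)).Nonempty := Fintype.piFinset_nonempty.2 (fun _ => hE)
  have hcard : ((Fintype.piFinset (fun _ : Fin r => E)).card : ℝ) = (E.card : ℝ) ^ r := by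
    rw [Fintype.card_piFinset]
    simp
  have hc0 : 0 < (E.card : ℝ) ^ r := by
    have : 0 < (E.card : ℝ) := by exact_mod_cast Finset.card_pos.2 hE
    positivity
  by_contra hc
  push Not at hc
  have h3 : ∑ p ∈ Fintype.piFinset (fun _ : Fin r => E), (E.card : ℝ) ^ r * ∫ t in T'..(2 * T'), H t * ∏ k, B k (p k) t <
      ∑ _p ∈ Fintype.piFinset (fun _ : Fin r => E), I0 :=
    Finset.sum_lt_sum_of_nonempty hne (fun p hp => hc p (fun k => Fintype.mem_piFinset.1 hp k))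
  rw [← Finset.mul_sum, ← h2, Finset.sum_const, nsmul_eq_mul, hcard] at h3
  have h4 := lt_of_mul_lt_mul_left h3 hc0.le
  linarith

/-- facts for large `T` in the second part -/
theorem ev2 (κ2 κ3 ε C1 CR : ℝ) (hκ3' : κ3 ≤ κ2 / 10) (hε : 0 < ε) (hε' : ε ≤ κ3 / 10) :
    ∃ C : ℝ, 1 ≤ C ∧ ∀ T : ℝ, C ≤ T → 3 ≤ T ∧ 8 * C1 * Real.sqrt CR ≤ T ^ (ε - 6 * (ε / 1000)) ∧
      C1 ≤ T ^ (2 * κ3 - 2 * (ε / 1000)) ∧ CR * C1 ≤ T ^ (κ2 - 2 * (ε / 1000)) ∧ CR < T ^ (4 * κ3) ∧ CR ≤ T := by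
  have e1 : ∀ (a K : ℝ), 0 < a → ∀ᶠ T : ℝ in atTop, K ≤ T ^ a := fun a K ha => (tendsto_rpow_atTop ha).eventually_ge_atTop _
  have e2 := (((((e1 (ε - 6 * (ε / 1000)) (8 * C1 * Real.sqrt CR) (by linarith)).and
    (e1 (2 * κ3 - 2 * (ε / 1000)) C1 (by linarith))).and
    (e1 (κ2 - 2 * (ε / 1000)) (CR * C1) (by linarith))).and
    (e1 (4 * κ3) (CR + 1) (by linarith))).and (eventually_ge_atTop (3 : ℝ))).and (eventually_ge_atTop CR)
  obtain ⟨C, hC⟩ := Filter.eventually_atTop.1 e2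
  refine ⟨max C 1, le_max_right _ _, ?_⟩
  intro T hT
  obtain ⟨⟨⟨⟨⟨h1, h2⟩, h3⟩, h4⟩, h5⟩, h6⟩ := hC T ((le_max_left _ _).trans hT)
  exact ⟨h5, h1, h2, h3, by linarith, h6⟩

theorem sc_ge (o : Option ℕ) : 1 ≤ sc o := CW.sc_one_le o

/-- at most three long slots -/
theorem card_long {T κ3 CR : ℝ} {ι : Type} [Fintype ι] {o : ι → Option ℕ}
    {J : Finset ι} (h : ∀ i ∈ J, ∃ l, o i = some l ∧ T ^ (1 / 2 + κ3) < (2 : ℝ) ^ l) (hT : 1 ≤ T) (hκ3 : 0 < κ3)
    (hPS : ∏ i, sc (o i) ≤ CR * T ^ 2) (hCR : CR < T ^ (4 * κ3)) : J.card ≤ 3 := by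
  classical
  by_contra hc
  push Not at hc
  have hT0 : 0 < T := by linarith
  have h1 : (T ^ (1 / 2 + κ3)) ^ J.card ≤ ∏ i ∈ J, sc (o i) := by
    rw [← Finset.prod_const]
    refine Finset.prod_le_prod (fun _ _ => by positivity) ?_
    intro i hi
    obtain ⟨l, hl, h2⟩ := h i hi
    rw [hl]
    exact h2.le
  have h2 : ∏ i ∈ J, sc (o i) ≤ ∏ i, sc (o i) := by
    refine Finset.prod_le_prod_of_subset_of_one_le (Finset.subset_univ J) ?_ ?_
    · intro i _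
      exact (zero_lt_one.trans_le (sc_ge _)).le
    · intro i _ _
      exact sc_ge _
  have hx : 1 ≤ T ^ (1 / 2 + κ3) := Real.one_le_rpow hT (by linarith)
  have h3 : (T ^ (1 / 2 + κ3)) ^ 4 ≤ (T ^ (1 / 2 + κ3)) ^ J.card := pow_le_pow_right₀ hx hc
  have h4 : (T ^ (1 / 2 + κ3)) ^ 4 = T ^ (4 * κ3) * T ^ 2 := by
    rw [← Real.rpow_natCast (T ^ (1 / 2 + κ3)) 4, ← Real.rpow_mul hT0.le, ← Real.rpow_two, ← Real.rpow_add hT0]
    congr 1
    push_cast
    ring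
  have h5 : 0 < T ^ 2 := by positivity
  have h6 : T ^ (4 * κ3) * T ^ 2 ≤ CR * T ^ 2 := by
    rw [← h4]
    exact h3.trans (h1.trans (h2.trans hPS))
  have h7 := le_of_mul_le_mul_right h6 h5
  linarith

/-- the factor of the length for one long slot -/
theorem psi_fac {T κ κ' C1 T' N L p : ℝ} (hT : 1 ≤ T) (hN : T ^ (1 / 2 + κ) < N) (hp : p ≤ T ^ κ') (hp1 : 1 ≤ p)
    (hT' : T' ≤ T ^ (1 + κ')) (hC1 : 0 < C1) (hLN : L * (N / p) ≤ C1 * T') : L / N ≤ C1 * T ^ (2 * κ' - 2 * κ) := by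
  have hT0 : 0 < T := by linarith
  have hx : 0 < T ^ (1 / 2 + κ) := Real.rpow_pos_of_pos hT0 _
  have hN0 : 0 < N := hx.trans hN
  have hp0 : 0 < p := by linarith
  have h1 : L * N ≤ C1 * T' * p := by
    have : L * (N / p) = L * N / p := by ring
    rw [this, div_le_iff₀ hp0] at hLN
    exact hLN
  have h2 : L * N ≤ C1 * T ^ (1 + κ') * T ^ κ' := by
    refine h1.trans ?_
    have h3 : C1 * T' ≤ C1 * T ^ (1 + κ') := mul_le_mul_of_nonneg_left hT' hC1.le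
    have h4 : 0 ≤ C1 * T ^ (1 + κ') := by positivity
    exact (mul_le_mul_of_nonneg_right h3 hp0.le).trans (mul_le_mul_of_nonneg_left hp h4)
  have h3 : T ^ (1 + 2 * κ) ≤ N ^ 2 := by
    have h4 : (T ^ (1 / 2 + κ)) ^ 2 ≤ N ^ 2 := pow_le_pow_left₀ hx.le hN.le 2
    have h5 : (T ^ (1 / 2 + κ)) ^ 2 = T ^ (1 + 2 * κ) := by
      rw [← Real.rpow_natCast, ← Real.rpow_mul hT0.le]
      congr 1
      push_cast
      ring
    rwa [h5] at h4
  have h6 : T ^ (1 + κ') * T ^ κ' = T ^ (2 * κ' - 2 * κ) * T ^ (1 + 2 * κ) := by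
    rw [← Real.rpow_add hT0, ← Real.rpow_add hT0]
    congr 1
    ring
  rw [div_le_iff₀ hN0]
  have h7 : L * N ≤ (C1 * T ^ (2 * κ' - 2 * κ) * N) * N := by
    calc L * N ≤ C1 * (T ^ (1 + κ') * T ^ κ') := by rw [← mul_assoc]; exact h2
      _ = C1 * T ^ (2 * κ' - 2 * κ) * T ^ (1 + 2 * κ) := by rw [h6]; ring
      _ ≤ C1 * T ^ (2 * κ' - 2 * κ) * N ^ 2 := mul_le_mul_of_nonneg_left h3 (by positivity)
      _ = (C1 * T ^ (2 * κ' - 2 * κ) * N) * N := by ring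
  exact le_of_mul_le_mul_right h7 hN0

/-- **Second part of the reduction** (`T' ≥ T^(1/10)`): the long slots are reflected. -/
theorem part2 (hPd : StPd) (hRp : StRp) (hTb : StTb) (κ2 κ3 ε η CR : ℝ) (hκ2' : κ2 ≤ 1 / 20) (hκ3 : 0 < κ3)
    (hκ3' : κ3 ≤ κ2 / 10) (hε : 0 < ε) (hε' : ε ≤ κ3 / 10) (hη' : η ≤ ε / 1000) (hCR : 1 ≤ CR) :
    ∃ C : ℝ, 1 ≤ C ∧ ∀ (ι : Type) [Fintype ι] [DecidableEq ι] (T T' X : ℝ) (Y : ℕ) (o : ι → Option ℕ)
      (f : ι → ArithmeticFunction ℝ) (J : Finset ι) (lw : ι → ℕ → ℝ) (G : ℝ → ℝ), C ≤ T →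
      Slots T κ3 η (T ^ (ε / 1000)) o f J lw → (∃ i ∈ J, T ^ (1 / 2 + κ2) < sc (o i)) →
      ∏ i, sc (o i) ≤ CR * T ^ 2 → ∏ i, Yn (o i) ≤ Y → T ^ (1 / 10 : ℝ) ≤ T' → T' ≤ T ^ (1 + ε / 1000) → Continuous G →
      (∀ t, 0 ≤ G t) → 0 ≤ X →
      X * T ^ (2 - ε / 1000) ≤ ∫ t in T'..(2 * T'), G t * ‖Dp Y (fun n => (((∏ i, f i) n : ℝ) : ℂ)) t‖ →
      ∃ (ν : ℝ) (m : ℕ) (a : Fin m → ℕ → ℂ) (N : Fin m → ℝ) (e : Fin m → ι), Function.Injective e ∧
        (∀ i, IsBlk (a i) (N i)) ∧ (∀ i, T ^ η / 2 ≤ N i) ∧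
        (∀ i, (e i ∈ J ∧ N i ≤ T ^ (1 / 2 : ℝ)) ∨ (e i ∉ J ∧ o (e i) ≠ none ∧ N i = sc (o (e i)))) ∧
        ∏ i, N i = T ^ ν ∧ ν ≤ 2 - κ2 ∧ X * T ^ (1 + ν / 2 - ε) ≤ ∫ t in T'..(2 * T'), G t * ∏ i, ‖PB (a i) (N i) t‖ := by
  set κ' : ℝ := ε / 1000 with hκ'
  have hκ'0 : 0 < κ' := by positivity
  obtain ⟨C1, hC1, hR⟩ := hRp κ' hκ'0 (by linarith)
  obtain ⟨C2, hC2, hE⟩ := ev2 κ2 κ3 ε C1 CR hκ3' hε hε'
  refine ⟨max C1 C2, hC1.trans (le_max_left _ _), ?_⟩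
  intro ι _ _ T T' X Y o f J lw G hT hS hlong hPS hY hT'1 hT'2 hG hG0 hX hint
  have hTC1 : C1 ≤ T := (le_max_left _ _).trans hT
  obtain ⟨hT3, hEa, hEb, hEc, hEd, hEe⟩ := hE T ((le_max_right _ _).trans hT)
  rw [← hκ'] at hEa hEb hEc
  have hT1 : 1 ≤ T := by linarith
  have hT0 : 0 < T := by linarith
  have hT'0 : 0 < T' := lt_of_lt_of_le (Real.rpow_pos_of_pos hT0 _) hT'1
  have hle : T' ≤ 2 * T' := by linarith
  have hBl : ∀ N : ℝ, 0 < N → Continuous (Bl psi N) := (Pool.Agent.Work.MP_56b8f5_nt.UC.iBc psi Rp_aux.isWt_psi).2.1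
  have hr3 : J.card ≤ 3 := card_long (fun i hi => by
    obtain ⟨l, hl, -, h2⟩ := hS.long i hi
    exact ⟨l, hl, h2⟩) hT1 hκ3 hPS hEd
  obtain ⟨eJ, eJi, eJm, eJs, eJp⟩ := index_finset J
  -- notation
  set E : Finset ℕ := Finset.Icc 1 ⌊T ^ κ'⌋₊ with hEdef
  have hTκ : 1 ≤ T ^ κ' := Real.one_le_rpow hT1 hκ'0.le
  have hEne : E.Nonempty := by
    rw [hEdef, Finset.nonempty_Icc]
    exact Nat.le_floor (by simpa using hTκ)
  have hEcard : (E.card : ℝ) ≤ T ^ κ' := by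
    rw [hEdef, Nat.card_Icc]
    simpa using Nat.floor_le (by positivity : 0 ≤ T ^ κ')
  set F : ι → ℝ → ℝ := fun i t => ‖Dp (Yn (o i)) (fun n => ((f i n : ℝ) : ℂ)) t‖ with hF
  have hFc : ∀ i, Continuous (F i) := fun i => (Pool.Agent.Work.MP_a8fbd7_nt.OX.ASM.F4_aux.cont_Dp _ _).norm
  set H : ℝ → ℝ := fun t => G t * ∏ i ∈ Jᶜ, F i t with hH
  have hHc : Continuous H := hG.mul (continuous_finsetProd _ (fun i _ => hFc i))
  have hH0 : ∀ t, 0 ≤ H t := fun t => mul_nonneg (hG0 t) (Finset.prod_nonneg fun i _ => norm_nonneg _)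
  set Nk : Fin J.card → ℝ := fun k => sc (o (eJ k)) with hNk
  have hNk0 : ∀ k, T ^ (1 / 2 + κ3) < Nk k := by
    intro k
    obtain ⟨l, hl, -, h2⟩ := hS.long (eJ k) (eJm k)
    rw [hNk]
    simp only [hl]
    exact h2
  have hNk1 : ∀ k, 1 ≤ Nk k := fun k => sc_ge _
  have hsplit : ∀ t, G t * ‖Dp Y (fun n => (((∏ i, f i) n : ℝ) : ℂ)) t‖ = H t * ∏ k, F (eJ k) t := by
    intro t
    rw [Dp_prod hPd hS Y hY t, norm_prod, eJp ℝ (fun i => F i t), hH]
    simp only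
    rw [mul_assoc, Finset.prod_compl_mul_prod]
  have hstep1 : X * T ^ (2 - κ') ≤ ∫ t in T'..(2 * T'), H t * ∏ k, ∑ d ∈ E, 2 * ‖Bl psi (Nk k / d) t‖ := by
    refine hint.trans ?_
    simp_rw [hsplit]
    refine intervalIntegral.integral_mono_on hle ?_ ?_ ?_
    · exact (hHc.mul (continuous_finsetProd _ (fun k _ => hFc _))).intervalIntegrable _ _
    · refine (hHc.mul (continuous_finsetProd _ (fun k _ => continuous_finsetSum _ ?_))).intervalIntegrable _ _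
      intro d hd
      have hd1 : 0 < (d : ℝ) := by
        have := (Finset.mem_Icc.1 hd).1
        exact_mod_cast this
      exact continuous_const.mul (hBl _ (div_pos (by linarith [hNk1 k]) hd1)).norm
    · intro t _
      refine mul_le_mul_of_nonneg_left (Finset.prod_le_prod (fun k _ => norm_nonneg _) ?_) (hH0 t)
      intro k _
      exact Dp_long hTb hS (eJ k) (eJm k) t
  obtain ⟨p, hpE, hp⟩ := pick J.card E T' H hHc (fun k d t => 2 * ‖Bl psi (Nk k / d) t‖) (by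
    intro k d hd
    have hd1 : 0 < (d : ℝ) := by
      have := (Finset.mem_Icc.1 hd).1
      exact_mod_cast this
    exact continuous_const.mul (hBl _ (div_pos (by linarith [hNk1 k]) hd1)).norm) _ hEne hstep1
  have hp1 : ∀ k, 1 ≤ (p k : ℝ) := fun k => by exact_mod_cast (Finset.mem_Icc.1 (hpE k)).1
  have hp2 : ∀ k, (p k : ℝ) ≤ T ^ κ' := fun k => (Nat.le_floor_iff (by positivity)).1 (Finset.mem_Icc.1 (hpE k)).2
  have hNp : ∀ k, T ^ (1 / 2 + 2 * κ') ≤ Nk k / p k ∧ Nk k / p k ≤ T ^ 3 := by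
    intro k
    have hpk : 0 < (p k : ℝ) := by linarith [hp1 k]
    constructor
    · rw [le_div_iff₀ hpk]
      calc T ^ (1 / 2 + 2 * κ') * p k ≤ T ^ (1 / 2 + 2 * κ') * T ^ κ' := mul_le_mul_of_nonneg_left (hp2 k) (by positivity)
        _ = T ^ (1 / 2 + 2 * κ' + κ') := by rw [← Real.rpow_add hT0]
        _ ≤ T ^ (1 / 2 + κ3) := Real.rpow_le_rpow_of_exponent_le hT1 (by linarith)
        _ ≤ Nk k := (hNk0 k).le
    · have h1 : Nk k ≤ ∏ i, sc (o i) := by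
        have h2 : ∏ i ∈ {eJ k}, sc (o i) ≤ ∏ i, sc (o i) := by
          refine Finset.prod_le_prod_of_subset_of_one_le (Finset.subset_univ _) ?_ ?_
          · intro i _
            exact (zero_lt_one.trans_le (sc_ge _)).le
          · intro i _ _
            exact sc_ge _
        simpa using h2
      have h3 : Nk k / p k ≤ Nk k := div_le_self (by linarith [hNk1 k]) (hp1 k)
      have h4 : CR * T ^ 2 ≤ T * T ^ 2 := mul_le_mul_of_nonneg_right hEe (by positivity)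
      calc Nk k / p k ≤ CR * T ^ 2 := h3.trans (h1.trans hPS)
        _ ≤ T * T ^ 2 := h4
        _ = T ^ 3 := by ring
  obtain ⟨I, b, L, hIL, hRint⟩ := hR J.card T T' (fun k => Nk k / p k) H hr3 hTC1 hT'1 hT'2 hNp hHc hH0
  have hL0 : ∀ k ∈ I, 0 < L k := fun k hk => lt_of_lt_of_le (by positivity) (hIL k hk).2.1
  set q : ℝ := ∏ k ∈ I, Real.sqrt (L k) with hq
  have hq0 : 0 < q := Finset.prod_pos fun k hk => Real.sqrt_pos.2 (hL0 k hk)
  set Int : ℝ := ∫ t in T'..(2 * T'), H t * ∏ k ∈ I, ‖PB (b k) (L k) t‖ with hInt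
  have hInt0 : 0 ≤ Int := intervalIntegral.integral_nonneg hle
    (fun t _ => mul_nonneg (hH0 t) (Finset.prod_nonneg fun k _ => norm_nonneg _))
  have hRint2 : (∫ t in T'..(2 * T'), H t * ∏ k ∈ I, (‖PB (b k) (L k) t‖ / Real.sqrt (L k))) = Int / q := by
    rw [hInt, ← intervalIntegral.integral_div]
    refine intervalIntegral.integral_congr ?_
    intro t _
    simp only [Finset.prod_div_distrib]
    rw [mul_div_assoc]
  rw [hRint2] at hRint
  set s : ℝ := ∏ k, Real.sqrt (Nk k / p k) with hs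
  set Po : ℝ := ∏ i ∈ Jᶜ, sc (o i) with hPo
  have hPo1 : 1 ≤ Po := by
    rw [hPo]
    calc (1 : ℝ) = ∏ i ∈ Jᶜ, (1 : ℝ) := by simp
      _ ≤ ∏ i ∈ Jᶜ, sc (o i) := Finset.prod_le_prod (fun _ _ => zero_le_one) (fun i _ => sc_ge _)
  set PI : ℝ := ∏ k ∈ I, L k with hPI
  have hPI0 : 0 < PI := Finset.prod_pos hL0
  have hqPI : q = Real.sqrt PI := by
    rw [hPI, Real.sqrt_prod _ (fun k hk => (hL0 k hk).le)]
  have hprodN : Po * ∏ k, Nk k = ∏ i, sc (o i) := by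
    rw [hPo, hNk, eJp ℝ (fun i => sc (o i)), Finset.prod_compl_mul_prod]
  have hNkp0 : 0 < ∏ k, Nk k := Finset.prod_pos fun k _ => by linarith [hNk1 k]
  have hs1 : Real.sqrt Po * s ≤ Real.sqrt CR * T := by
    have h1 : s ≤ Real.sqrt (∏ k, Nk k) := by
      rw [hs, ← Real.sqrt_prod _ (fun k _ => div_nonneg (by linarith [hNk1 k]) (by linarith [hp1 k]))]
      refine Real.sqrt_le_sqrt (Finset.prod_le_prod (fun k _ => div_nonneg (by linarith [hNk1 k]) (by linarith [hp1 k])) ?_)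
      intro k _
      exact div_le_self (by linarith [hNk1 k]) (hp1 k)
    calc Real.sqrt Po * s ≤ Real.sqrt Po * Real.sqrt (∏ k, Nk k) := mul_le_mul_of_nonneg_left h1 (Real.sqrt_nonneg _)
      _ = Real.sqrt (∏ i, sc (o i)) := by rw [← Real.sqrt_mul (by linarith), hprodN]
      _ ≤ Real.sqrt (CR * T ^ 2) := Real.sqrt_le_sqrt hPS
      _ = Real.sqrt CR * T := by rw [Real.sqrt_mul (by linarith), Real.sqrt_sq hT0.le]
  have hs0 : 0 ≤ s := Finset.prod_nonneg fun k _ => Real.sqrt_nonneg _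
  -- main inequality
  have hmain : X * T ^ (2 - κ') * q ≤ 8 * C1 * T ^ (5 * κ') * s * Int := by
    have h1 : (∫ t in T'..(2 * T'), H t * ∏ k, (2 * ‖Bl psi (Nk k / p k) t‖)) =
        2 ^ J.card * ∫ t in T'..(2 * T'), H t * ∏ k, ‖Bl psi (Nk k / p k) t‖ := by
      rw [← intervalIntegral.integral_const_mul]
      refine intervalIntegral.integral_congr ?_
      intro t _
      simp only [Finset.prod_mul_distrib, Finset.prod_const, Finset.card_univ, Fintype.card_fin]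
      ring
    rw [h1] at hp
    have h2 : (E.card : ℝ) ^ J.card ≤ T ^ (3 * κ') := by
      calc (E.card : ℝ) ^ J.card ≤ (T ^ κ') ^ J.card := pow_le_pow_left₀ (by positivity) hEcard _
        _ ≤ (T ^ κ') ^ 3 := pow_le_pow_right₀ hTκ hr3
        _ = T ^ (3 * κ') := by
            rw [← Real.rpow_natCast, ← Real.rpow_mul hT0.le]
            congr 1
            push_cast
            ring
    have h3 : (2 : ℝ) ^ J.card ≤ 8 := by
      calc (2 : ℝ) ^ J.card ≤ 2 ^ 3 := pow_le_pow_right₀ (by norm_num) hr3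
        _ = 8 := by norm_num
    have h4 : X * T ^ (2 - κ') ≤ T ^ (3 * κ') * (8 * (C1 * s * T ^ (2 * κ') * (Int / q))) := by
      refine hp.trans ?_
      have h5 : 0 ≤ ∫ t in T'..(2 * T'), H t * ∏ k, ‖Bl psi (Nk k / p k) t‖ := intervalIntegral.integral_nonneg hle
        (fun t _ => mul_nonneg (hH0 t) (Finset.prod_nonneg fun k _ => norm_nonneg _))
      refine mul_le_mul h2 ?_ (by positivity) (by positivity)
      exact mul_le_mul h3 hRint h5 (by norm_num)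
    have h5 : T ^ (5 * κ') = T ^ (3 * κ') * T ^ (2 * κ') := by
      rw [← Real.rpow_add hT0]
      congr 1
      ring
    calc X * T ^ (2 - κ') * q ≤ T ^ (3 * κ') * (8 * (C1 * s * T ^ (2 * κ') * (Int / q))) * q :=
          mul_le_mul_of_nonneg_right h4 hq0.le
      _ = 8 * C1 * (T ^ (3 * κ') * T ^ (2 * κ')) * s * Int := by
          field_simp
      _ = 8 * C1 * T ^ (5 * κ') * s * Int := by rw [h5]
  -- the exponent
  have hPP : 0 < Po * PI := mul_pos (by linarith) hPI0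
  have hlogT : 0 < Real.log T := Real.log_pos (by linarith)
  set ν : ℝ := Real.log (Po * PI) / Real.log T with hν
  have hTν : T ^ ν = Po * PI := by
    rw [hν, Real.rpow_def_of_pos hT0]
    have : Real.log T * (Real.log (Po * PI) / Real.log T) = Real.log (Po * PI) := by field_simp
    rw [this, Real.exp_log hPP]
  have hlen : T ^ ν ≤ T ^ (2 - κ2) := by
    obtain ⟨i0, hi0, hi0'⟩ := hlong
    obtain ⟨k0, hk0⟩ := eJs i0 hi0
    set ψ : Fin J.card → ℝ := fun k => (if k ∈ I then L k else 1) / Nk k with hψ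
    have hψprod : Po * PI = (∏ i, sc (o i)) * ∏ k, ψ k := by
      have h1 : ∏ k, ψ k = PI / ∏ k, Nk k := by
        rw [hψ, Finset.prod_div_distrib, Finset.prod_ite_mem, Finset.univ_inter]
      rw [h1, ← hprodN]
      field_simp
    have hψ0 : ∀ k, 0 ≤ ψ k := by
      intro k
      simp only [hψ]
      refine div_nonneg ?_ (by linarith [hNk1 k])
      split_ifs with hk
      · exact (hL0 k hk).le
      · exact zero_le_one
    have hψ1 : ∀ k, ψ k ≤ 1 := by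
      intro k
      simp only [hψ]
      split_ifs with hk
      · have h1 := psi_fac (κ := κ3) (κ' := κ') (C1 := C1) (T' := T') (L := L k) hT1 (hNk0 k) (hp2 k) (hp1 k) hT'2 (by linarith)
          (hIL k hk).2.2.2
        refine h1.trans ?_
        have h2 : T ^ (2 * κ' - 2 * κ3) = (T ^ (2 * κ3 - 2 * κ'))⁻¹ := by
          rw [← Real.rpow_neg hT0.le]
          congr 1
          ring
        rw [h2, ← div_eq_mul_inv, div_le_one (by positivity)]
        exact hEb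
      · rw [div_le_one (by linarith [hNk1 k])]
        exact hNk1 k
    have hψk0 : ψ k0 ≤ C1 * T ^ (2 * κ' - 2 * κ2) := by
      have hN0 : T ^ (1 / 2 + κ2) < Nk k0 := by
        simp only [hNk]
        rw [hk0]
        exact hi0'
      simp only [hψ]
      split_ifs with hk
      · exact psi_fac (κ := κ2) (κ' := κ') (C1 := C1) (T' := T') (L := L k0) hT1 hN0 (hp2 k0) (hp1 k0) hT'2 (by linarith)
          (hIL k0 hk).2.2.2
      · have h1 : 1 / Nk k0 ≤ 1 / T ^ (1 / 2 + κ2) := one_div_le_one_div_of_le (Real.rpow_pos_of_pos hT0 _) hN0.le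
        have h2 : 1 / T ^ (1 / 2 + κ2) = T ^ (-(1 / 2 + κ2)) := by
          rw [Real.rpow_neg hT0.le, one_div]
        have h3 : T ^ (-(1 / 2 + κ2)) ≤ T ^ (2 * κ' - 2 * κ2) := Real.rpow_le_rpow_of_exponent_le hT1 (by linarith)
        have h4 : T ^ (2 * κ' - 2 * κ2) ≤ C1 * T ^ (2 * κ' - 2 * κ2) := le_mul_of_one_le_left (by positivity) hC1
        linarith
    have hψall : ∏ k, ψ k ≤ C1 * T ^ (2 * κ' - 2 * κ2) := by
      rw [← Finset.mul_prod_erase _ _ (Finset.mem_univ k0)]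
      have h1 : ∏ k ∈ Finset.univ.erase k0, ψ k ≤ 1 := Finset.prod_le_one (fun k _ => hψ0 k) (fun k _ => hψ1 k)
      calc ψ k0 * ∏ k ∈ Finset.univ.erase k0, ψ k ≤ ψ k0 * 1 := mul_le_mul_of_nonneg_left h1 (hψ0 k0)
        _ = ψ k0 := mul_one _
        _ ≤ C1 * T ^ (2 * κ' - 2 * κ2) := hψk0
    rw [hTν, hψprod]
    calc (∏ i, sc (o i)) * ∏ k, ψ k ≤ (CR * T ^ 2) * (C1 * T ^ (2 * κ' - 2 * κ2)) :=
          mul_le_mul hPS hψall (Finset.prod_nonneg fun k _ => hψ0 k) (by positivity)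
      _ = (CR * C1) * (T ^ 2 * T ^ (2 * κ' - 2 * κ2)) := by ring
      _ ≤ T ^ (κ2 - 2 * κ') * (T ^ 2 * T ^ (2 * κ' - 2 * κ2)) := mul_le_mul_of_nonneg_right hEc (by positivity)
      _ = T ^ (2 - κ2) := by
          rw [← Real.rpow_two, ← Real.rpow_add hT0, ← Real.rpow_add hT0]
          congr 1
          ring
  have hνle : ν ≤ 2 - κ2 := (Real.rpow_le_rpow_left_iff (by linarith)).1 hlen
  -- lower bound of the integral
  have hfin : X * T ^ (1 + ν / 2 - ε) ≤ Int := by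
    have h1 : T ^ (ν / 2) = Real.sqrt Po * q := by
      have h2 : T ^ (ν / 2) = Real.sqrt (T ^ ν) := by
        rw [Real.sqrt_eq_rpow, ← Real.rpow_mul hT0.le]
        congr 1
        ring
      rw [h2, hTν, Real.sqrt_mul (by linarith), hqPI]
    have h3 : X * T ^ (2 - κ') * T ^ (ν / 2) ≤ 8 * C1 * T ^ (5 * κ') * (Real.sqrt CR * T) * Int := by
      calc X * T ^ (2 - κ') * T ^ (ν / 2) = Real.sqrt Po * (X * T ^ (2 - κ') * q) := by rw [h1]; ring
        _ ≤ Real.sqrt Po * (8 * C1 * T ^ (5 * κ') * s * Int) := mul_le_mul_of_nonneg_left hmain (Real.sqrt_nonneg _)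
        _ = 8 * C1 * T ^ (5 * κ') * (Real.sqrt Po * s) * Int := by ring
        _ ≤ 8 * C1 * T ^ (5 * κ') * (Real.sqrt CR * T) * Int :=
            mul_le_mul_of_nonneg_right (mul_le_mul_of_nonneg_left hs1 (by positivity)) hInt0
    have h4 : X * T ^ (1 + ν / 2 - ε) * (T ^ (5 * κ') * T * T ^ (ε - 6 * κ')) = X * T ^ (2 - κ') * T ^ (ν / 2) := by
      have h5 : T ^ (1 + ν / 2 - ε) * (T ^ (5 * κ') * T * T ^ (ε - 6 * κ')) = T ^ (2 - κ') * T ^ (ν / 2) := by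
        have hTT : T = T ^ (1 : ℝ) := (Real.rpow_one T).symm
        nth_rewrite 3 [hTT]
        rw [← Real.rpow_add hT0, ← Real.rpow_add hT0, ← Real.rpow_add hT0, ← Real.rpow_add hT0]
        congr 1
        ring
      rw [mul_assoc, h5, ← mul_assoc]
    have h6 : 0 < T ^ (5 * κ') * T * T ^ (ε - 6 * κ') := by positivity
    have h7 : X * T ^ (1 + ν / 2 - ε) * (T ^ (5 * κ') * T * T ^ (ε - 6 * κ')) ≤ Int * (T ^ (5 * κ') * T * T ^ (ε - 6 * κ')) := by
      rw [h4]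
      calc X * T ^ (2 - κ') * T ^ (ν / 2) ≤ 8 * C1 * T ^ (5 * κ') * (Real.sqrt CR * T) * Int := h3
        _ = (8 * C1 * Real.sqrt CR) * (T ^ (5 * κ') * T * Int) := by ring
        _ ≤ T ^ (ε - 6 * κ') * (T ^ (5 * κ') * T * Int) := mul_le_mul_of_nonneg_right hEa (by positivity)
        _ = Int * (T ^ (5 * κ') * T * T ^ (ε - 6 * κ')) := by ring
    exact le_of_mul_le_mul_right h7 h6
  -- the blocks
  obtain ⟨i0, hi0, -⟩ := hlong
  obtain ⟨k0, -⟩ := eJs i0 hi0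
  have : Nonempty (Fin J.card) := ⟨k0⟩
  have hinv : ∀ k, Function.invFun eJ (eJ k) = k := fun k => Function.leftInverse_invFun eJi k
  set U1 : Finset ι := Jᶜ.filter (fun i => o i ≠ none) with hU1
  set U2 : Finset ι := I.image eJ with hU2
  have hdisj : Disjoint U1 U2 := by
    rw [Finset.disjoint_left]
    intro x hx1 hx2
    rw [hU1, Finset.mem_filter, Finset.mem_compl] at hx1
    rw [hU2, Finset.mem_image] at hx2
    obtain ⟨k, -, hk⟩ := hx2
    exact hx1.1 (hk ▸ eJm k)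
  obtain ⟨e, he1, he2, -, he4⟩ := index_finset (U1 ∪ U2)
  set aι : ι → ℕ → ℂ := fun i => if i ∈ J then b (Function.invFun eJ i) else fun n => ((f i n : ℝ) : ℂ) with haι
  set Nι : ι → ℝ := fun i => if i ∈ J then L (Function.invFun eJ i) else sc (o i) with hNι
  have hprodall : ∀ (M : Type) [CommMonoid M] (Fm : ι → M), ∏ x, Fm (e x) = (∏ i ∈ U1, Fm i) * ∏ k ∈ I, Fm (eJ k) := by
    intro M _ Fm
    rw [he4 M Fm, Finset.prod_union hdisj, hU2, Finset.prod_image (fun a _ b _ hab => eJi hab)]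
  have hcase : ∀ x, (e x ∈ J ∧ ∃ k ∈ I, eJ k = e x) ∨ (e x ∉ J ∧ o (e x) ≠ none) := by
    intro x
    rcases Finset.mem_union.1 (he2 x) with h1 | h1
    · rw [hU1, Finset.mem_filter, Finset.mem_compl] at h1
      exact Or.inr h1
    · rw [hU2, Finset.mem_image] at h1
      obtain ⟨k, hk, hk2⟩ := h1
      exact Or.inl ⟨hk2 ▸ eJm k, k, hk, hk2⟩
  refine ⟨ν, (U1 ∪ U2).card, fun x => aι (e x), fun x => Nι (e x), e, he1, ?_, ?_, ?_, ?_, hνle, ?_⟩
  · intro x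
    rcases hcase x with ⟨h1, k, hk, hk2⟩ | ⟨h1, h2⟩
    · simp only [haι, hNι, if_pos h1]
      rw [← hk2, hinv]
      exact (hIL k hk).1
    · simp only [haι, hNι, if_neg h1]
      exact (hS.blk _ h1 h2).1
  · intro x
    rcases hcase x with ⟨h1, k, hk, hk2⟩ | ⟨h1, h2⟩
    · simp only [hNι, if_pos h1]
      rw [← hk2, hinv]
      have h3 : T ^ η ≤ T ^ κ' := Real.rpow_le_rpow_of_exponent_le hT1 hη'
      linarith [(hIL k hk).2.1]
    · simp only [hNι, if_neg h1]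
      exact (hS.blk _ h1 h2).2
  · intro x
    rcases hcase x with ⟨h1, k, hk, hk2⟩ | ⟨h1, h2⟩
    · left
      refine ⟨h1, ?_⟩
      simp only [hNι, if_pos h1]
      rw [← hk2, hinv]
      exact (hIL k hk).2.2.1
    · right
      refine ⟨h1, h2, ?_⟩
      simp only [hNι, if_neg h1]
  · rw [hTν, hprodall ℝ Nι]
    congr 1
    · have h1 : ∏ i ∈ U1, Nι i = ∏ i ∈ U1, sc (o i) := by
        refine Finset.prod_congr rfl ?_
        intro i hi
        rw [hU1, Finset.mem_filter, Finset.mem_compl] at hi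
        simp only [hNι, if_neg hi.1]
      rw [h1, hPo, hU1]
      refine Finset.prod_filter_of_ne ?_
      intro i _ hi hn
      apply hi
      rw [hn]
      rfl
    · refine Finset.prod_congr rfl ?_
      intro k _
      simp only [hNι, if_pos (eJm k), hinv]
  · have h1 : (∫ t in T'..(2 * T'), G t * ∏ x, ‖PB (aι (e x)) (Nι (e x)) t‖) = Int := by
      rw [hInt]
      refine intervalIntegral.integral_congr ?_
      intro t _
      simp only
      rw [hprodall ℝ (fun i => ‖PB (aι i) (Nι i) t‖), hH]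
      simp only
      rw [mul_assoc]
      congr 1
      congr 1
      · have h2 : ∏ i ∈ Jᶜ, F i t = ∏ i ∈ U1, F i t := by
          rw [hU1]
          refine (Finset.prod_filter_of_ne ?_).symm
          intro i hi hi2 hn
          apply hi2
          rw [Finset.mem_compl] at hi
          simp only [hF]
          rw [hS.un i hi hn, hn]
          have : Yn none = 2 := rfl
          rw [this, CW.dp_one, norm_one]
        rw [h2]
        refine Finset.prod_congr rfl ?_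
        intro i hi
        rw [hU1, Finset.mem_filter, Finset.mem_compl] at hi
        simp only [haι, hNι, hF, if_neg hi.1]
        rw [CW.dp_slot]
      · refine Finset.prod_congr rfl ?_
        intro k _
        simp only [haι, hNι, if_pos (eJm k), hinv]
    rw [h1]
    exact hfin

end Pool.Agent.Work.MP_a8fbd7_nt.EX.RedA
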