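import Mathlib
import Pool.Agent.Work.MP_a8fbd7_nt.OX.ASM.Stmts
import Pool.Agent.Work.MP_a8fbd7_nt.EX.Defs

/-!
MP_a8fbd7_nt, block EX, part ASM (assembly): definitions and statements of the items, each with its proof in the docstring.
The part is modelled on `OX/ASM` (helper51): same windows `SW`, `DD`, same slots `ms`, `ps`, `msA`, same sieve weights `IsSv`.

THE IDEA.  `R = rg z` is the indicator function of the `z`-rough numbers, `z = ⌊T^cE⌋`, `cE = .238`, so `z`-rough `n ≤ T^(2.05)` have at most `8` prime factors and, if squarefree, `(R^k) n = k^(Ω n)`.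
`g = (104/35) R - (57/35) R² + (8/15) R³ - (11/140)(R⁴ - α⁴)`, `α = R` restricted to `(T^(1/2-κ1), T^(1/2+κ1)]`.  On squarefree rough `n` with `J` prime factors `g - (11/140) α⁴` is
`1, 0, -24/35, 0, 0, -240/7, -1632/5, -2064` for `J = 1, .., 8`, so `g ≤ 1_prime + (11/140) α⁴` up to numbers with a square factor.  `α⁴` is small in mean (dropped).  `R^k` and `R⁴ - α⁴` are
expanded into BOXES: four variables `n_i = m_i p p' ..`, `m_i` `y`-rough (`y = ⌊T^η⌋`), `p` primes in `(y, z]`.  `u : Fin 4 → Option ℕ` are the scales of the `m_i`, `v : Fin (4 S) → Option ℕ` the scales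
of the primes; the slot `r` of `v` belongs to the variable `own r`.
-/

set_option autoImplicit false

open MeasureTheory Set Filter Topology

noncomputable section

namespace Pool.Agent.Work.MP_a8fbd7_nt.EX.ASM

open Pool.Agent.Work.MP_56b8f5_nt.UC (IsWt Bl Dp Om psi eta Sep)
open Pool.Agent.Work.MP_a8fbd7_nt.OX
open Pool.Agent.Work.MP_a8fbd7_nt.OX.ID (Rough roughOne pb rg)
open Pool.Agent.Work.MP_a8fbd7_nt.OX.ASM
open Pool.Agent.Work.MP_a8fbd7_nt.EX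

/-! ### Definitions -/

/-- exponent after the union over the boxes, `.1198 < 3/25` -/
def r1E : ℝ := 599 / 5000

/-- box function -/
def BX (y z : ℕ) {n : ℕ} (u : Fin 4 → Option ℕ) (v : Fin n → Option ℕ) : ArithmeticFunction ℝ :=
  (∏ i, ms y (u i)) * ∏ r, ps y z (v r)

/-- box function with sieve weights in the long slots -/
def BXA (y z : ℕ) (T κ : ℝ) (lw : Fin 4 → ℕ → ℝ) {n : ℕ} (u : Fin 4 → Option ℕ) (v : Fin n → Option ℕ) : ArithmeticFunction ℝ :=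
  (∏ i, msA y T κ (lw i) (u i)) * ∏ r, ps y z (v r)

/-- total scale of a box -/
def PX {n : ℕ} (u : Fin 4 → Option ℕ) (v : Fin n → Option ℕ) : ℝ := (∏ i, sc (u i)) * ∏ r, sc (v r)

/-- the variable to which the prime slot `r` belongs -/
def own {S : ℕ} (r : Fin (4 * S)) : Fin 4 := (finProdFinEquiv.symm r).1

open Classical in
/-- scale of the variable `i` -/
def svr {S : ℕ} (u : Fin 4 → Option ℕ) (v : Fin (4 * S) → Option ℕ) (i : Fin 4) : ℝ :=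
  sc (u i) * ∏ r ∈ Finset.univ.filter (fun r => own r = i), sc (v r)

/-- the box is kept in `R⁴ - α⁴` (not all four variables are near `T^(1/2)`) -/
def kept (T κ1 : ℝ) {S : ℕ} (u : Fin 4 → Option ℕ) (v : Fin (4 * S) → Option ℕ) : Prop :=
  ¬ ∀ i, T ^ (1 / 2 - κ1) ≤ svr u v i ∧ svr u v i ≤ T ^ (1 / 2 + κ1)

open Classical in
/-- number of used prime slots of the variable `i` -/
def nsi {S : ℕ} (v : Fin (4 * S) → Option ℕ) (i : Fin 4) : ℕ :=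
  (Finset.univ.filter (fun r : Fin (4 * S) => own r = i ∧ (v r).isSome)).card

/-- the variable `i` is not used -/
def triv {S : ℕ} (u : Fin 4 → Option ℕ) (v : Fin (4 * S) → Option ℕ) (i : Fin 4) : Prop :=
  u i = none ∧ ∀ r : Fin (4 * S), own r = i → v r = none

open Classical in
/-- coefficient of the box `(u, v)` -/
def ccX (T κ1 : ℝ) {S : ℕ} (u : Fin 4 → Option ℕ) (v : Fin (4 * S) → Option ℕ) : ℝ :=
  (∏ i, (-1 : ℝ) ^ nsi v i * ((S - nsi v i).factorial : ℝ) / (S.factorial : ℝ)) *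
    ((if ∀ i : Fin 4, 1 ≤ i.val → triv u v i then (104 / 35 : ℝ) else 0) -
      (if ∀ i : Fin 4, 2 ≤ i.val → triv u v i then (57 / 35 : ℝ) else 0) +
      (if ∀ i : Fin 4, 3 ≤ i.val → triv u v i then (8 / 15 : ℝ) else 0) - (if kept T κ1 u v then (11 / 140 : ℝ) else 0))

/-- bound for `|ccX|` -/
def cwX {S : ℕ} (v : Fin (4 * S) → Option ℕ) : ℝ := 6 * ∏ i, ((S - nsi v i).factorial : ℝ) / (S.factorial : ℝ)

open Classical in
/-- `α`: rough numbers near `T^(1/2)` -/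
def al (z : ℕ) (T κ1 : ℝ) : ArithmeticFunction ℝ :=
  ⟨fun n => if n ≠ 0 ∧ T ^ (1 / 2 - κ1) < n ∧ (n : ℝ) ≤ T ^ (1 / 2 + κ1) then rg z n else 0, by simp⟩

/-- the sieve function `g` -/
def gX (z : ℕ) (T κ1 : ℝ) (n : ℕ) : ℝ :=
  104 / 35 * rg z n - 57 / 35 * (rg z ^ 2) n + 8 / 15 * (rg z ^ 3) n - 11 / 140 * ((rg z ^ 4) n - (al z T κ1 ^ 4) n)

open Classical in
/-- rough numbers near the ends of the window of `α` -/
def bw (y : ℕ) (T κ1 K : ℝ) : ArithmeticFunction ℝ :=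
  ⟨fun n => if n ≠ 0 ∧ ((T ^ (1 / 2 - κ1) / K ≤ n ∧ (n : ℝ) ≤ K * T ^ (1 / 2 - κ1)) ∨
    (T ^ (1 / 2 + κ1) / K ≤ n ∧ (n : ℝ) ≤ K * T ^ (1 / 2 + κ1))) then rg y n else 0, by simp⟩

open Classical in
/-- `n` is divisible by the square of a prime `p > y` -/
def sqr (y n : ℕ) : ℝ := if ∃ p : ℕ, p.Prime ∧ y < p ∧ p ^ 2 ∣ n then 1 else 0

open Classical in
/-- `z`-rough numbers with `J` prime factors -/
def aJ (z J n : ℕ) : ℝ := if Rough z n ∧ ArithmeticFunction.cardFactors n = J then 1 else 0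

/-- upper bound for the relative density of products of `n + 1` primes `> z`, times `n!`, `500` cells (`cE · 500 = 119`, `(2 - cE) · 500 = 881`) -/
def mass (n : ℕ) : ℝ := ∑ f ∈ (Fintype.piFinset (fun _ : Fin n => Finset.Icc (119 : ℕ) 881)).filter (fun f => ∑ i, f i ≤ 881),
  ∏ i, Real.log (((f i : ℝ) + 1) / (f i : ℝ))

/-! ### Part 1: boxes -/

/-- ITEM XRg (relevant boxes; uses StPd).  As `OX.ASM.StRg` (`OX/ASM/I_Rg.lean`) with four `u`-slots and `n` prime slots. -/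
def StXRg : Prop := ∀ w : ℝ → ℝ, IsWt w → ∀ n : ℕ, ∃ C : ℝ, 1 ≤ C ∧ ∀ (T κ x T' : ℝ) (y z : ℕ) (lw : Fin 4 → ℕ → ℝ) (u : Fin 4 → Option ℕ)
  (v : Fin n → Option ℕ), 1 ≤ T → 1 ≤ T' → T ^ 2 ≤ x → x ≤ 4 * T ^ 2 →
  (SW w (BX y z u v) x T' ≠ 0 ∨ SW w (BXA y z T κ lw u v) x T' ≠ 0) → T ^ 2 / C ≤ PX u v ∧ PX u v ≤ C * T ^ 2

/-- ITEM XBB (boxes without long slots; uses `EX.StCellXB rE cE`, StF4, StPd, StXRg, StSa; copy of `OX/ASM/I_BB.lean`).  `κ = κ_cell/4`.  Groups: the slots `u 0`, `u 1` are in group `0`, `u 2`, `u 3` in group `1` (two slots of scale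
`≤ T^(1/2+κ)`: product `≤ T^(1+κ_cell)`), the prime slots are in group `2`: scale `≤ 2z ≤ 2T^cE ≤ T^(cE+κ_cell)` (otherwise the box function is `0`), total scale `≥ T^β` by hypothesis (unused slots have scale `1`).  Parameters as in `OX.ASM.StBB`.
Please prove the reduction to the hypothesis of the cell theorem as a separate theorem for arbitrary `S`, `g0`. -/
def StXBB : Prop := ∀ β : ℝ, 0 < β → β ≤ 1 / 20 → ∃ κ : ℝ, 0 < κ ∧ κ ≤ β / 100 ∧ ∀ w : ℝ → ℝ, IsWt w → ∀ η A : ℝ, 0 < η → η ≤ 1 / 20 →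
  0 < A → ∃ B0 : ℝ, 1 ≤ B0 ∧ ∀ B : ℝ, B0 ≤ B → ∃ C : ℝ, 1 ≤ C ∧
  ∀ (T : ℝ) (u : Fin 4 → Option ℕ) (v : Fin (4 * SS η) → Option ℕ), C ≤ T → (∀ i, ¬ Lg T κ (u i)) → T ^ β ≤ ∏ r, sc (v r) →
  PackLe T (fun x => 1 / Real.log T ^ A ≤ |DD w (BX (zz η T) (zz cE T) u v) x T (Real.log T ^ B)|) (C * T ^ rE)

/-- ITEM XAA (boxes with a long slot; uses `EX.StCellXA rE cE`, StF4, StPd, StXRg, StRp, StTb, UC.StKp; copy of `OX/ASM/I_AA.lean`).  As `OX.ASM.StAA`, with the groups of XBB: a reflected block (`L_i ≤ T^(1/2)`) stays in the group of its slot, the others are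
`≤ T^(1/2+κ3)`, so both groups have total length `≤ T^(1+2κ3)`; the prime slots (`≤ 2T^cE`) are small blocks.  At most three slots are longer than `T^(1/2+κ3)` (`PX ≤ C T²`), so `StRp` (`r ≤ 3`) applies. -/
def StXAA : Prop := ∀ κ2 : ℝ, 0 < κ2 → κ2 ≤ 1 / 20 → ∃ κ3 κ' : ℝ, 0 < κ3 ∧ κ3 ≤ κ2 / 10 ∧ 0 < κ' ∧ κ' ≤ κ3 / 10 ∧ ∀ w : ℝ → ℝ, IsWt w →
  ∀ η A : ℝ, 0 < η → η ≤ κ' → 0 < A → ∃ B0 : ℝ, 1 ≤ B0 ∧ ∀ B : ℝ, B0 ≤ B → ∃ C : ℝ, 1 ≤ C ∧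
  ∀ (T : ℝ) (u : Fin 4 → Option ℕ) (v : Fin (4 * SS η) → Option ℕ) (lw : Fin 4 → ℕ → ℝ), C ≤ T → (∃ i, Lg T κ2 (u i)) →
  (∀ i d, |lw i d| ≤ 2) → (∀ i d, lw i d ≠ 0 → 1 ≤ d ∧ (d : ℝ) ≤ T ^ κ') →
  PackLe T (fun x => 1 / Real.log T ^ A ≤
    |DD w (BXA (zz η T) (zz cE T) T κ3 lw u v) x T (Real.log T ^ B)|) (C * T ^ rE)

open Classical in
/-- ITEM XV1 (sandwich; copy of `OX/ASM/I_V1.lean` with four `u`-slots). -/
def StXV1 : Prop := ∀ (T κ D C0 E : ℝ) (y z n0 : ℕ) (lp lm : ℕ → ℝ) (u : Fin 4 → Option ℕ) (v : Fin n0 → Option ℕ) (n : ℕ), 3 ≤ T → 0 < κ →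
  IsSv y D C0 E lp lm →
  |BX y z u v n - BXA y z T κ (fun _ => lp) u v n| ≤ ∑ i ∈ Finset.univ.filter (fun i => Lg T κ (u i)),
    BXA y z T κ (Function.update (fun _ => lp) i (fun d => lp d - lm d)) u v n ∧
  ∀ i : Fin 4, 0 ≤ BXA y z T κ (Function.update (fun _ => lp) i (fun d => lp d - lm d)) u v n

open Classical in
/-- ITEM XSE (total sieve error; uses StMa, StIn, StPd, StXRg; copy of `OX/ASM/I_SE.lean`).  Three other `u`-slots (masses `≤ C/η` each), prime slots with the weights `cwX`: `6 (∑_s (1/s!) (∑_{y<p≤z} 1/p)^s)^4 ≤ 6 exp(4 ∑ 1/p) ≤ C η^(-4)`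
(for each variable the number of choices of the used slots with `s` given scales is `S!/(s!(S-s)!)`); total `(C/η)^9 E/log T`.  For given values of all other slots only `O(1)` scales of the long slot count (see the docstring of `OX.ASM.StSE`). -/
def StXSE : Prop := ∀ w : ℝ → ℝ, IsWt w → (∀ u, 0 ≤ w u) → ∀ C0 : ℝ, 1 ≤ C0 → ∃ C3 : ℝ, 1 ≤ C3 ∧ ∀ η κ3 κ' E B : ℝ, 0 < η → η ≤ 1 / 20 →
  0 < κ3 → κ3 ≤ 1 / 20 → 0 < κ' → κ' ≤ 1 / 20 → 0 < E → 1 ≤ B → ∃ C : ℝ, 1 ≤ C ∧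
  ∀ (T x : ℝ) (lp lm : ℕ → ℝ), C ≤ T → T ^ 2 ≤ x → x ≤ 4 * T ^ 2 → IsSv (zz η T) (T ^ κ') C0 E lp lm →
  ∑ u ∈ Bx 4 T, ∑ v ∈ Bx (4 * SS η) T, cwX v * ∑ i ∈ Finset.univ.filter (fun i => Lg T κ3 (u i)),
    Real.log T ^ B / x * SW w (BXA (zz η T) (zz cE T) T κ3 (Function.update (fun _ => lp) i (fun d => lp d - lm d)) u v) x
      (Real.log T ^ B) ≤ (C3 / η) ^ 12 * E / Real.log T + C / Real.log T ^ 2

/-- ITEM XSh (the primes of a kept box without long slots have total scale `≥ T^(κ1/2)`; arithmetic).  Suppose `∏ sc (v r) < T^(κ1/2)`.  Every `sc (u i) ≤ T^(1/2+κ2)`, so `sc (u i) ≥ T^(2-κ1/100-κ1/2-3(1/2+κ2)) ≥ T^(1/2-κ1)`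
(`κ1/100 + κ1/2 + 3κ2 ≤ κ1`), and `sc (u i) ≤ svr u v i ≤ sc (u i) ∏ sc (v r) ≤ T^(1/2+κ2+κ1/2) ≤ T^(1/2+κ1)` (all scales are `≥ 1`): the box is not kept. -/
def StXSh : Prop := ∀ (κ1 κ2 T : ℝ) (S : ℕ) (u : Fin 4 → Option ℕ) (v : Fin (4 * S) → Option ℕ), 0 < κ1 → κ1 ≤ 1 / 20 → 0 < κ2 → κ2 ≤ κ1 / 100 →
  1 ≤ T → (∀ i, ¬ Lg T κ2 (u i)) → kept T κ1 u v → T ^ (2 - κ1 / 100) ≤ PX u v → T ^ (κ1 / 2) ≤ ∏ r, sc (v r)

/-- ITEM XCc (bound for the coefficients): `|ccX| ≤ cwX` (`104/35 + 57/35 + 8/15 + 11/140 < 6`; `ite`s). -/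
def StXCc : Prop := ∀ (T κ1 : ℝ) (S : ℕ) (u : Fin 4 → Option ℕ) (v : Fin (4 * S) → Option ℕ), |ccX T κ1 u v| ≤ cwX v

/-! ### Part 2: the identity -/

/-- ITEM XEx (expansion of `g` into boxes; uses `OX/ID/Expand.lean`, `Expand2.lean`, compare `OX/ASM/I_Ex.lean`).  `y = zz η T ≤ z = zz cE T`, `S = SS η`, `K = 2^(S+1)`, `n ≤ T^(2+1/20) ≤ 2^(LL T - 1)`, `n < y^(S+1)`.
ONE VARIABLE: `R~ := ∑_{(u0, v0)} c(v0) ms y u0 ∏ ps y z (v0 r)`, `v0 : Fin S → Option ℕ`, `c(v0) = (-1)^s (S-s)!/S!`, `s = ns v0`.  As in `I_Ex.lean` (`expand_error`, partition of unity): `|R - R~| ≤ C sqr y` at all `m | n`, and both vanish unless `m` is `y`-rough.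
`α~ :=` the part of `R~` with scale in `[T^(1/2-κ1), T^(1/2+κ1)]`.  A summand with scale `σ` is supported in `[σ/2^(S+1), 2^(S+1) σ]`, so `α~ = R~` resp. `α~ = 0` at `m` which are inside resp. outside of the window and not in the support of `bw y T κ1 K`: `|α - α~| ≤ C (sqr y · rg y + bw)`
(`|R~|, |α~| ≤ C rg y`; the coefficients and the number of summands which are non-zero at `m` are bounded in terms of `S`: `∑ psi(m/2^l) ≤ 1`).  Then `R^k - R~^k`, `α⁴ - α~⁴` are `≤ C ((sqr y · rg y + bw) * (rg y)^3)` (telescoping; all functions are `≤ C rg y`; for `k < 4` use `rg y * rg y ≥ rg y`), and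
`((sqr y · rg y) * (rg y)^3) n ≤ 4^(Ω n) sqr y n`, `Ω n ≤ S`.  Finally `(104/35) R~ - (57/35) R~² + (8/15) R~³ - (11/140)(R~⁴ - α~⁴)` at `n` is `∑ ccX · BX` : `R~^k` is the sum over the boxes whose variables `i ≥ k` are not used (`Fin (4S)` = four times `Fin S`, `finProdFinEquiv`); the coefficient of an unused
variable is `1`, its scale is `1`, so such a box is kept.  (`n = 1` excluded: constants.) -/
def StXEx : Prop := ∀ η κ1 : ℝ, 0 < η → η ≤ 1 / 20 → 0 < κ1 → κ1 ≤ 1 / 20 → ∃ C : ℝ, 1 ≤ C ∧ ∀ (T : ℝ) (n : ℕ), C ≤ T → 2 ≤ n →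
  (n : ℝ) ≤ T ^ (2 + 1 / 20 : ℝ) →
  |gX (zz cE T) T κ1 n - ∑ u ∈ Bx 4 T, ∑ v ∈ Bx (4 * SS η) T, ccX T κ1 u v * BX (zz η T) (zz cE T) u v n| ≤
    C * (sqr (zz η T) n + (bw (zz η T) T κ1 (2 ^ (SS η + 1)) * rg (zz η T) ^ 3) n)

/-- ITEM XPw (pointwise values of `g`).  `z = zz cE T`, `T ≤ n ≤ T^(2+1/20) < z^9`.  If `n` is not `z`-rough, everything vanishes (`n ≥ T > z`, so a prime `n` is rough; `(rg z ^ k) n = 0`).  If `n` is `z`-rough and squarefree: `J = Ω n`, `1 ≤ J ≤ 8` (`z^J < n`), `(rg z ^ k) n = k^J` for `k = 1, .., 4`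
(induction on `k`: `∑_{d | n} k^(Ω(n/d)) = (k+1)^(Ω n)`, `OX.ID.sum_divisors_pow_omega`), and `(104/35) - (57/35) 2^J + (8/15) 3^J - (11/140) 4^J` is `1, 0, -24/35, 0, 0, -240/7, -1632/5, -2064` for `J = 1, .., 8`; `pr n = 1` iff `J = 1`.
If `n` is rough and not squarefree then `sqr z n = 1` and everything is bounded (`(rg z ^ k) n ≤ k^(Ω n)`, `OX.ID.dom_rg`). -/
def StXPw : Prop := ∃ C : ℝ, 1 ≤ C ∧ ∀ (T κ1 : ℝ) (n : ℕ), C ≤ T → T ≤ n → (n : ℝ) ≤ T ^ (2 + 1 / 20 : ℝ) →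
  |gX (zz cE T) T κ1 n - (pr n - 24 / 35 * aJ (zz cE T) 3 n - 240 / 7 * aJ (zz cE T) 6 n - 1632 / 5 * aJ (zz cE T) 7 n -
    2064 * aJ (zz cE T) 8 n + 11 / 140 * (al (zz cE T) T κ1 ^ 4) n)| ≤ C * sqr (zz cE T) n

/-! ### Part 3: what is dropped -/

/-- ITEM XSq (square factors).  `n ∈ (x1, x1 + h]`, `h = C x/T'` (see `OX/ASM/Win.lean`), `h ≥ T`, `x1 ≤ C T²`, divisible by `p²`, `p > y`: for `p ≤ T^(3/5)`: `≤ ∑ (h/p² + 1) ≤ 2h/y + T^(3/5)`.  For `p > T^(3/5)`: `n = p² m`, `m ≤ C T^(4/5)`, and for each `m` the `p` lie in an interval of length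
`√((x1+h)/m) - √(x1/m) ≤ h/√(x1 m)`: `≤ ∑_m (h/√(x1 m) + 1) ≤ C h T^(2/5)/T + C T^(4/5)`.  (`p^2 | 0`, but `w(0) = 0`.)  All is `≤ C h/(log T)²`. -/
def StXSq : Prop := ∀ w : ℝ → ℝ, IsWt w → (∀ u, 0 ≤ w u) → ∀ η : ℝ, 0 < η → η ≤ 1 / 4 → ∃ C : ℝ, 1 ≤ C ∧
  ∀ T T' x : ℝ, C ≤ T → 1 ≤ T' → T' ≤ T → T ^ 2 ≤ x → x ≤ 4 * T ^ 2 →
  T' / x * SW w (sqr (zz η T)) x T' ≤ C / Real.log T ^ 2

/-- ITEM XDr (the dropped term `α⁴`; uses `OX.SV.drop_tuples`; compare `OX/ASM/I_Dr.lean`).  `(al ^ 4) n` = number of `4`-tuples of `z`-rough numbers in `(T^(1/2-κ1), T^(1/2+κ1)]` with product `n`; they are `⌊T^(1/20)⌋`-rough: `drop_tuples` with `k = 4`, `K = 44`,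
`Y1 = T^(1/2-κ1)`, `Y2 = T^(1/2+κ1)`, `h = C x/T' ≥ C T`: `≤ C h (1 + 2κ1 log T)/(log T)²`. -/
def StXDr : Prop := ∀ w : ℝ → ℝ, IsWt w → (∀ u, 0 ≤ w u) → ∃ C1 : ℝ, 1 ≤ C1 ∧ ∀ κ1 : ℝ, 0 < κ1 → κ1 ≤ 1 / 20 → ∃ C : ℝ, 1 ≤ C ∧
  ∀ T T' x : ℝ, C ≤ T → 1 ≤ T' → T' ≤ T → T ^ 2 ≤ x → x ≤ 4 * T ^ 2 →
  T' / x * SW w (fun n => (al (zz cE T) T κ1 ^ 4) n) x T' ≤ C1 * κ1 / Real.log T

/-- ITEM XBd (the boundary terms; uses `OX.SV.drop_tuples`).  `4`-tuples of `y`-rough numbers (`1` is allowed) with product `n`, one of which lies in one of two windows `[Y/K, K Y]`, `Y = T^(1/2 ± κ1)`: `drop_tuples` at level `y` with `Y1 = Y/(2K)`, `Y2 = K Y`, `K' = ⌈3/η⌉`; `y³ Y2 ≤ T ≤ h`: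
`≤ C(η, K) h/(log T)²`. -/
def StXBd : Prop := ∀ w : ℝ → ℝ, IsWt w → (∀ u, 0 ≤ w u) → ∀ η κ1 K : ℝ, 0 < η → η ≤ 1 / 20 → 0 < κ1 → κ1 ≤ 1 / 20 → 1 ≤ K → ∃ C : ℝ, 1 ≤ C ∧
  ∀ T T' x : ℝ, C ≤ T → 1 ≤ T' → T' ≤ T → T ^ 2 ≤ x → x ≤ 4 * T ^ 2 →
  T' / x * SW w (fun n => (bw (zz η T) T κ1 K * rg (zz η T) ^ 3) n) x T' ≤ C / Real.log T ^ 2

/-- ITEM XLi (primes and boxes; uses StXEx, StXPw, StXSq, StXDr, StXBd; compare `OX/ASM/I_Li.lean`).  In the window all `n` satisfy `T ≤ n ≤ T^(2+1/20)`; `0 ≤ aJ`; finite sums.  First inequality: `∑ cc BX ≤ g + C (sqr + bw ..) ≤ pr + (11/140) α⁴ + C (..)`; second one: `∑ cc BX ≥ g - C (..) ≥ pr - .. - C (..)`. -/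
def StXLi : Prop := ∀ w : ℝ → ℝ, IsWt w → (∀ u, 0 ≤ w u) → ∃ C1 : ℝ, 1 ≤ C1 ∧ ∀ η κ1 : ℝ, 0 < η → η ≤ 1 / 20 → 0 < κ1 → κ1 ≤ 1 / 20 → ∃ C : ℝ, 1 ≤ C ∧
  ∀ T T' x : ℝ, C ≤ T → 1 ≤ T' → T' ≤ T → T ^ 2 ≤ x → x ≤ 4 * T ^ 2 →
  (∑ u ∈ Bx 4 T, ∑ v ∈ Bx (4 * SS η) T, ccX T κ1 u v * (T' / x * SW w (BX (zz η T) (zz cE T) u v) x T')) ≤
    T' / x * SW w pr x T' + C1 * κ1 / Real.log T + C / Real.log T ^ 2 ∧
  T' / x * SW w pr x T' - 24 / 35 * (T' / x * SW w (aJ (zz cE T) 3) x T') - 240 / 7 * (T' / x * SW w (aJ (zz cE T) 6) x T') -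
    1632 / 5 * (T' / x * SW w (aJ (zz cE T) 7) x T') - 2064 * (T' / x * SW w (aJ (zz cE T) 8) x T') - C / Real.log T ^ 2 ≤
    ∑ u ∈ Bx 4 T, ∑ v ∈ Bx (4 * SS η) T, ccX T κ1 u v * (T' / x * SW w (BX (zz η T) (zz cE T) u v) x T')

/-! ### Part 4: almost primes in long windows -/

/-- ITEM XPN (the prime number theorem in long windows at lower levels; uses ZF.StPnt; copy of `OX/ASM/I_PN.lean` with `T^(1/5) ≤ x` instead of `T² ≤ x`: `log x ≥ (log T)/5`). -/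
def StXPN : Prop := ∀ w : ℝ → ℝ, IsWt w → (∀ u, 0 ≤ w u) → ∀ B δ : ℝ, 1 ≤ B → 0 < δ → ∃ C : ℝ, 1 ≤ C ∧ ∀ T x : ℝ, C ≤ T → T ^ (1 / 5 : ℝ) ≤ x → x ≤ 4 * T ^ 2 →
  |Real.log x * (Real.log T ^ B / x * SW w pr x (Real.log T ^ B)) - Iw w| ≤ δ

open Classical in
/-- ITEM XMe (Mertens in cells; uses ZF.StPnt and partial summation, or any form of Mertens' theorem with error `o(1)`). -/
def StXMe : Prop := ∀ δ : ℝ, 0 < δ → ∃ C : ℝ, 1 ≤ C ∧ ∀ (T : ℝ) (j : ℕ), C ≤ T → 119 ≤ j → j ≤ 1000 →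
  ∑ p ∈ (Finset.Ioc ⌊T ^ ((j : ℝ) / 500)⌋₊ ⌊T ^ (((j : ℝ) + 1) / 500)⌋₊).filter Nat.Prime, (1 : ℝ) / p ≤ Real.log (((j : ℝ) + 1) / j) + δ

/-- ITEM XAl (almost primes in long windows; uses StXPN, StXMe, StXSq).  `T1 = (log T)^B`, `z = zz cE T`.  A squarefree rough `n` with `J` prime factors is the product of `J!` ordered `J`-tuples of primes `> z`, and the sum of `log p_J` over these tuples is `(J-1)! log n`; so
`aJ z J n log n ≤ (1/(J-1)!) ∑_{p_1 .. p_J = n} log p_J + C sqr z n log n`, and `log n = log x + O(1)` in the window.  For `P = p_1 .. p_{J-1}`: `∑_p log p · w((pP/x)^T1) ≤ (log (x/P) + C) · SW w pr (x/P) T1 ≤ (x/(P T1)) (Iw w + δ')` by StXPN (`x/P ≥ z/C ≥ T^(1/5)`, since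
`p ≍ x/P` and `p > z`).  So `log x · (T1/x) SW w (aJ z J) x T1 ≤ ((Iw w + δ')(1 + C/log T)/(J-1)!) ∑_{P} 1/P + C log T · (..)/(log T)²`, the sum over `(J-1)`-tuples of primes `> z` with `P ≤ C x/z ≤ C T^(2-cE)`.  Let `p_i` be in the cell `(T^(j_i/500), T^((j_i+1)/500)]`:
`j_i ≥ 119` (`cE = 119/500`; `p > ⌊T^cE⌋` means `p > T^cE`), `∑ j_i/500 ≤ 2 - cE + C/log T`, so `∑ j_i ≤ 881` for large `T` (an integer `< 882`), in particular `j_i ≤ 881`.  StXMe: `∑_P 1/P ≤ ∑_{(j_i)} ∏ (log((j_i+1)/j_i) + δ'')`. -/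
def StXAl : Prop := ∀ w : ℝ → ℝ, IsWt w → (∀ u, 0 ≤ w u) → ∀ B δ : ℝ, 1 ≤ B → 0 < δ → ∃ C : ℝ, 1 ≤ C ∧ ∀ T x : ℝ, C ≤ T → T ^ 2 ≤ x → x ≤ 4 * T ^ 2 →
  ∀ J : ℕ, 3 ≤ J → J ≤ 8 →
  Real.log x * (Real.log T ^ B / x * SW w (aJ (zz cE T) J) x (Real.log T ^ B)) ≤ mass (J - 1) / ((J - 1).factorial : ℝ) * Iw w + δ

/-- ITEM XNu (the numerical constant).  True value `.9534`.  `log((j+1)/j) ≤ (2j+1)/(2j(j+1))` (trapezoid rule for the convex function `1/u`); with `D = 10^12`, `a_j = ⌈D(2j+1)/(2j(j+1))⌉` for `119 ≤ j ≤ 881` (`a_j = 0` otherwise): `D^n mass n ≤ ` (sum of the coefficients of `X^s`, `s ≤ 881`, of `(∑ a_j X^j)^n`).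
KRONECKER SUBSTITUTION: `U = ∑_j a_j B^j` with `B = 2^400` (`(∑ a_j)^n < B - 1`): the base-`B` digits of `U^n` are these coefficients, so their sum is `((U^n) % B^882) % (B - 1)`: closed arithmetic of natural numbers (`decide`/`norm_num`; build `U` by a recursive function with binary splitting; do not use `native_decide`).
Values: `24/35 · mass 2/2! = .90823`, `240/7 · mass 5/5! = .04326`, `1632/5 · mass 6/6! = .00191`, `2064 · mass 7/7! = .0000002`. -/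
def StXNu : Prop := 24 / 35 * (mass 2 / 2) + 240 / 7 * (mass 5 / 120) + 1632 / 5 * (mass 6 / 720) + 2064 * (mass 7 / 5040) ≤ 24 / 25

/-! ### Part 5: the theorem -/

/-- ITEM XMn (main theorem for smooth windows; uses StXBB, StXAA, StXSh, StXCc, StXRg, StXV1, StSv, StXSE, StXLi, StXPN, StXAl, StXNu; copy of `OX/ASM/I_Mn.lean`).  Given `w ≥ 0` and `δ`: `κ1` with `C1 κ1 ≤ δ/100` (StXLi), `β = κ1/2`; `κ2 = min` of StXBB(β) and `κ1/100`; `κ3, κ'` of StXAA(κ2); `η ≤ κ'` with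
`s = κ'/η ≥ C0` and `(C3/η)^12 e^{-s} ≤ δ/100` (StSv, StXSE); `A = 8 (SS η + 4)`, `B` large, `T1 = (log T)^B`.  For `x` outside the exceptional sets of all boxes: (B) boxes without slot longer than `T^(1/2+κ2)`: `PX ≍ T²` (StXRg, else `DD = 0`); if the box is kept: StXSh, StXBB.  If it is not kept then `ccX = 0`
or a variable is unused; the latter is impossible for boxes which are not kept (the scale of an unused variable is `1`), so `ccX u v = 0`.  (A) the others: StXV1, StXAA.  So with `Σ(T') = ∑ ccX (T'/x SW w BX x T')`: `Σ(T) ≥ Σ(T1) - (δ/10)/log T - C/(log T)²`.  StXLi: `T/x SW w pr x T ≥ Σ(T) - C1 κ1/log T - C/(log T)²`,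
`Σ(T1) ≥ T1/x SW w pr x T1 - ..`, and StXPN, StXAl, StXNu: `log x · Σ(T1) ≥ Iw w (1 - 24/25) - δ/10`.  The exceptional set has at most `(4 log T + 1)^(4 SS η + 4) · 9 · C T^rE ≤ C T^r1E` points. -/
def StXMn : Prop := ∀ w : ℝ → ℝ, IsWt w → (∀ u, 0 ≤ w u) → ∀ δ : ℝ, 0 < δ → ∃ C : ℝ, 1 ≤ C ∧ ∀ T : ℝ, C ≤ T →
  PackLe T (fun x => Real.log x * (T / x * SW w pr x T) < Iw w / 25 - δ) (C * T ^ r1E)

/-- ITEM XCo (the core statement; uses StXMn, StWt; copy of `OX/ASM/I_Co.lean`, only the weights `w₋`).  `τ` small: `B(n) ≥ ∑_p w₋((p/x)^T)`, `w₋` of StWt(τ, 1-3τ, τ), `Iw w₋ ≥ 1 - 4τ`; `x/T ≥ n`, `log x = 2 log n`: outside the exceptional set `B(n) ≥ (x/T)(Iw w₋/25 - δ)/log x ≥ (1/50 - small) n/log n ≥ n/(60 log n)`.  The same for `A(n)`. -/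
def StXCo : Prop := ∃ C : ℝ, 1 ≤ C ∧ ∀ N : ℕ, 1 ≤ N →
  (({n : ℕ | 1 ≤ n ∧ n ≤ N ∧ ((FIN.cA n : ℝ) < n / (60 * Real.log n) ∨ (FIN.cB n : ℝ) < n / (60 * Real.log n))}.ncard : ℕ) : ℝ) ≤ C * (N : ℝ) ^ r1E

/-- ITEM XGa (gaps; uses StXMn, StWt).  Let `0 < λ ≤ 1`.  Dyadic block `p ∈ [T²/2, 2T²]`... use blocks `[T², 2T²]`.  If `q - p ≥ λ √p` (`q` the next prime), the gap contains `⌊(q-p)/(λ√p/4)⌋ - 2 ≥ 1` points `x = p + j λ√p/4`, `j ≥ 1`, with `x + λ√p/4·(1+..) < q`, so no prime lies in `(x, x e^{λ/(8T)})`,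
and `w` of StWt(λ/100, λ/50, λ/200) has `SW w pr x T = 0` while `Iw w > 0` (`δ = Iw w/50`): all these points are exceptional for StXMn.  They are `c λ/T`-separated in log scale; every `⌈8/λ⌉`-th of them gives an LSep set; so their number is `≤ C T^r1E`.  The number of gaps and `(1/T) ∑ (q-p)` are bounded by a constant times this
number.  Sum over the blocks: number of `p ≤ X`: `≤ C X^(r1E/2) ≤ C X^(3/50)`; sum of the lengths: `≤ C X^(1/2+r1E/2) ≤ C X^(14/25)`.  (`nextPrime p` is the smallest prime `> p`.) -/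
def StXGa : Prop := ∀ lam : ℝ, 0 < lam → lam ≤ 1 → ∃ C : ℝ, 1 ≤ C ∧ ∀ X : ℕ, 1 ≤ X →
  ∀ G : Finset (ℕ × ℕ), (∀ g ∈ G, g.1.Prime ∧ g.2.Prime ∧ g.1 < g.2 ∧ g.1 ≤ X ∧ (∀ q : ℕ, q.Prime → g.1 < q → g.2 ≤ q) ∧
    lam * Real.sqrt g.1 ≤ (g.2 : ℝ) - g.1) →
  (G.card : ℝ) ≤ C * (X : ℝ) ^ (3 / 50 : ℝ) ∧ ∑ g ∈ G, ((g.2 : ℝ) - g.1) ≤ C * (X : ℝ) ^ (14 / 25 : ℝ)

end Pool.Agent.Work.MP_a8fbd7_nt.EX.ASM
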