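/-
MP_a8fbd7_nt, block EX, part ASM, item XAA: boxes with a long slot (reduction to the cell theorem XA).  Author: helper62.
-/
import Mathlib
import Pool.Agent.Work.MP_a8fbd7_nt.EX.ASM.Stmts
import Pool.Agent.Work.MP_a8fbd7_nt.EX.ASM.RedA
import Pool.Agent.Work.MP_a8fbd7_nt.OX.ASM.I_AA

set_option autoImplicit false

open MeasureTheory Set Filter Topology

noncomputable section

namespace Pool.Agent.Work.MP_a8fbd7_nt.EX.ASM

open Pool.Agent.Work.MP_56b8f5_nt.UC (IsWt Bl Dp Om psi eta Sep)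
open Pool.Agent.Work.MP_a8fbd7_nt.OX
open Pool.Agent.Work.MP_a8fbd7_nt.OX.ID (Rough roughOne pb rg)
open Pool.Agent.Work.MP_a8fbd7_nt.OX.ASM
open Pool.Agent.Work.MP_a8fbd7_nt.EX

namespace XAA_aux

theorem prod_ne {n : ℕ} (F : Fin 4 → ArithmeticFunction ℝ) (G : Fin n → ArithmeticFunction ℝ) (k : ℕ)
    (h : ((∏ i, F i) * ∏ r, G r) k ≠ 0) : (∀ i, F i ≠ 0) ∧ ∀ r, G r ≠ 0 := by
  constructor
  · intro i hi
    apply h
    rw [Finset.prod_eq_zero (Finset.mem_univ i) hi, zero_mul]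
    rfl
  · intro i hi
    apply h
    rw [Finset.prod_eq_zero (Finset.mem_univ i) hi, mul_zero]
    rfl

theorem PX_eq {n : ℕ} (u : Fin 4 → Option ℕ) (v : Fin n → Option ℕ) :
    ∏ i, sc (Sum.elim u v i) = PX u v := by
  rw [Fintype.prod_sum_type]
  rfl

/-- scales of the used prime slots of a nonempty box -/
theorem v_scale (η κ3 T : ℝ) {n : ℕ} (v : Fin n → Option ℕ) (hT : 1 ≤ T) (hκ3 : 2 ≤ T ^ κ3)
    (h2 : ∀ r, ps (zz η T) (zz cE T) (v r) ≠ 0) (r : Fin n) (l : ℕ) (hl : v r = some l) :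
    T ^ η / 2 ≤ (2 : ℝ) ^ l ∧ (2 : ℝ) ^ l ≤ T ^ (cE + κ3) := by
  have hT0 : 0 < T := by linarith
  have h3 := h2 r
  rw [hl] at h3
  obtain ⟨h4, h5⟩ := AAx.pbl_ge h3
  refine ⟨h4, h5.trans ?_⟩
  have h6 : ((zz cE T : ℕ) : ℝ) ≤ T ^ cE := Nat.floor_le (by positivity)
  calc 2 * ((zz cE T : ℕ) : ℝ) ≤ T ^ κ3 * T ^ cE := mul_le_mul hκ3 h6 (by positivity) (by positivity)
    _ = T ^ (κ3 + cE) := (Real.rpow_add hT0 _ _).symm
    _ = T ^ (cE + κ3) := by rw [add_comm]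

open Classical in
/-- the data of a nonempty box -/
theorem dat (η κ3 κ' T : ℝ) (lw : Fin 4 → ℕ → ℝ) {n : ℕ} (u : Fin 4 → Option ℕ) (v : Fin n → Option ℕ)
    (hT : 1 ≤ T) (hκ3 : 0 < κ3) (hκ3T : 2 ≤ T ^ κ3) (hw1 : ∀ i d, |lw i d| ≤ 2)
    (hw2 : ∀ i d, lw i d ≠ 0 → 1 ≤ d ∧ (d : ℝ) ≤ T ^ κ')
    (h1 : ∀ i, msA (zz η T) T κ3 (lw i) (u i) ≠ 0) (h2 : ∀ r, ps (zz η T) (zz cE T) (v r) ≠ 0)
    (hcard : (Finset.univ.filter fun i : Fin 4 ⊕ Fin n => Lg T κ3 (Sum.elim u v i)).card ≤ 3) :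
    AAx.Dat η κ3 κ' T (Sum.elim u v) (Sum.elim (fun i => msA (zz η T) T κ3 (lw i) (u i))
      (fun r => ps (zz η T) (zz cE T) (v r))) (Sum.elim lw (fun _ _ => 0))
      (Finset.univ.filter fun i => Lg T κ3 (Sum.elim u v i))
      (Finset.univ.filter fun i => Sum.elim u v i ≠ none ∧ ¬ Lg T κ3 (Sum.elim u v i)) := by
  have hT0 : 0 < T := by linarith
  have hv : ∀ r l, v r = some l → T ^ η / 2 ≤ (2 : ℝ) ^ l ∧ (2 : ℝ) ^ l ≤ T ^ (1 / 2 + κ3) := by
    intro r l hl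
    obtain ⟨h3, h4⟩ := v_scale η κ3 T v hT hκ3T h2 r l hl
    refine ⟨h3, h4.trans (Real.rpow_le_rpow_of_exponent_le hT ?_)⟩
    unfold cE
    linarith
  have hvL : ∀ r, ¬ Lg T κ3 (v r) := by
    rintro r ⟨l, hl, hlt⟩
    exact absurd (hv r l hl).2 (not_le.2 hlt)
  refine ⟨?_, hcard, ?_, ?_, ?_, ?_, ?_, ?_⟩
  · rw [Finset.disjoint_left]
    intro i h3 h4
    rw [Finset.mem_filter] at h3 h4
    exact h4.2.2 h3.2
  · rintro (i | r) n hn
    · exact Rg_aux.msA_supp _ _ _ _ _ n hn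
    · exact Rg_aux.ps_supp _ _ _ n hn
  · rintro (i | r) hi
    · obtain ⟨l, hl, hlt⟩ := (Finset.mem_filter.1 hi).2
      simp only [Sum.elim_inl] at hl ⊢
      refine ⟨l, hl, ?_, hlt⟩
      rw [hl]
      simp only [msA, if_pos hlt]
    · exact absurd (Finset.mem_filter.1 hi).2 (hvL r)
  · rintro (i | r) hi
    · obtain ⟨h3, h4⟩ := (Finset.mem_filter.1 hi).2
      simp only [Sum.elim_inl] at h3 h4 ⊢
      obtain ⟨l, hl⟩ := Option.ne_none_iff_exists'.1 h3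
      have hle : ¬ (T ^ (1 / 2 + κ3) < (2 : ℝ) ^ l) := fun h => h4 ⟨l, hl, h⟩
      have h5 := h1 i
      have e : msA (zz η T) T κ3 (lw i) (u i) = rb (zz η T) l := by
        rw [hl]
        simp only [msA, if_neg hle]
      rw [e] at h5
      refine ⟨l, hl, ?_, AAx.rb_ge h5, not_lt.1 hle⟩
      rw [e]
      exact AAx.rb_le _ _
    · obtain ⟨h3, -⟩ := (Finset.mem_filter.1 hi).2
      simp only [Sum.elim_inr] at h3 ⊢
      obtain ⟨l, hl⟩ := Option.ne_none_iff_exists'.1 h3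
      refine ⟨l, hl, ?_, (hv r l hl).1, (hv r l hl).2⟩
      rw [hl]
      exact AAx.pbl_le _ _ _
  · rintro (i | r) h3 h4
    · have h5 : u i = none := by
        by_contra h6
        by_cases h7 : Lg T κ3 (u i)
        · exact h3 (Finset.mem_filter.2 ⟨Finset.mem_univ _, h7⟩)
        · exact h4 (Finset.mem_filter.2 ⟨Finset.mem_univ _, h6, h7⟩)
      simp only [Sum.elim_inl]
      rw [h5]
      exact ⟨rfl, rfl⟩
    · have h5 : v r = none := by
        by_contra h6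
        exact h4 (Finset.mem_filter.2 ⟨Finset.mem_univ _, h6, hvL r⟩)
      simp only [Sum.elim_inr]
      rw [h5]
      exact ⟨rfl, rfl⟩
  · rintro (i | r) hi d
    · exact hw1 i d
    · exact absurd (Finset.mem_filter.1 hi).2 (hvL r)
  · rintro (i | r) hi d
    · exact hw2 i d
    · exact absurd (Finset.mem_filter.1 hi).2 (hvL r)

/-- the slots of the second part of the reduction -/
theorem slots_of_dat {ι : Type} {η κ3 κ' T : ℝ} {o : ι → Option ℕ} {f : ι → ArithmeticFunction ℝ} {lt : ι → ℕ → ℝ} {Ls Ss : Finset ι}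
    (h : AAx.Dat η κ3 κ' T o f lt Ls Ss) : RedA.Slots T κ3 η (T ^ κ') o f Ls lt := by
  refine ⟨h.long, ?_, ?_, h.wt, h.ws⟩
  · intro i hi ho
    by_cases h1 : i ∈ Ss
    · obtain ⟨l, hl, -⟩ := h.short i h1
      rw [ho] at hl
      cases hl
    · exact (h.rest i hi h1).2
  · intro i hi ho
    have h1 : i ∈ Ss := by
      by_contra h2
      exact ho (h.rest i hi h2).1
    obtain ⟨l, hl, h3, h4, -⟩ := h.short i h1
    rw [hl]
    exact ⟨AAx.isBlk_of (f i) l h3 (fun n hn => by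
      have := h.supp i n hn
      rwa [hl] at this), h4⟩

/-- group of a slot -/
def grp {n : ℕ} : Fin 4 ⊕ Fin n → Fin 3
  | Sum.inl i => if i.val < 2 then 0 else 1
  | Sum.inr _ => 2

open Classical in
theorem grp_prod (T κ : ℝ) (hT : 1 ≤ T) (hκ : 0 < κ) {m n : ℕ} (N : Fin m → ℝ) (e : Fin m → Fin 4 ⊕ Fin n)
    (he : Function.Injective e) (a : Fin 3) (ha : a = 0 ∨ a = 1) (hN0 : ∀ i, 0 ≤ N i) (hN : ∀ i, N i ≤ T ^ (1 / 2 + κ)) :
    ∏ i ∈ Finset.univ.filter (fun i => grp (e i) = a), N i ≤ T ^ (1 + 3 * κ) := by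
  have hT0 : 0 < T := by linarith
  have hcard : (Finset.univ.filter (fun i => grp (e i) = a)).card ≤ 2 := by
    rw [← Finset.card_image_of_injective _ he]
    have hsub : (Finset.univ.filter (fun i => grp (e i) = a)).image e ⊆
        (if a = 0 then {Sum.inl 0, Sum.inl 1} else {Sum.inl 2, Sum.inl 3} : Finset (Fin 4 ⊕ Fin n)) := by
      intro x hx
      rw [Finset.mem_image] at hx
      obtain ⟨i, hi, rfl⟩ := hx
      have h1 := (Finset.mem_filter.1 hi).2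
      rcases hei : e i with k | r
      · rw [hei] at h1
        rcases ha with rfl | rfl
        · rw [if_pos rfl]
          fin_cases k <;> simp [grp] at h1 ⊢
        · rw [if_neg (by decide)]
          fin_cases k <;> simp [grp] at h1 ⊢
      · rw [hei] at h1
        simp only [grp] at h1
        rcases ha with rfl | rfl
        · exact absurd h1 (by decide)
        · exact absurd h1 (by decide)
    refine (Finset.card_le_card hsub).trans ?_
    split_ifs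
    · exact Finset.card_le_two
    · exact Finset.card_le_two
  have hx : 1 ≤ T ^ (1 / 2 + κ) := Real.one_le_rpow hT (by linarith)
  calc ∏ i ∈ Finset.univ.filter (fun i => grp (e i) = a), N i
      ≤ ∏ _i ∈ Finset.univ.filter (fun i => grp (e i) = a), T ^ (1 / 2 + κ) :=
        Finset.prod_le_prod (fun i _ => hN0 i) (fun i _ => hN i)
    _ = (T ^ (1 / 2 + κ)) ^ (Finset.univ.filter (fun i => grp (e i) = a)).card := by rw [Finset.prod_const]
    _ ≤ (T ^ (1 / 2 + κ)) ^ 2 := pow_le_pow_right₀ hx hcard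
    _ = T ^ (1 + 2 * κ) := by
        rw [← Real.rpow_natCast, ← Real.rpow_mul hT0.le]
        congr 1
        push_cast
        ring
    _ ≤ T ^ (1 + 3 * κ) := Real.rpow_le_rpow_of_exponent_le hT (by linarith)

open Classical in
/-- **Reduction** of a box with a long slot to the hypothesis of the cell theorem XA, for arbitrary finite sets `S` of points of
`[T², 4T²]` and arbitrary coefficients `g0` of modulus `≤ 1` -/
theorem red (hF4 : StF4) (hPd : StPd) (hRg : StXRg) (hRp : StRp) (hTb : StTb)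
    (hKp : Pool.Agent.Work.MP_56b8f5_nt.UC.StKp) (κ2 κ3 ε : ℝ) (hκ21 : κ2 ≤ 1 / 20) (hκ3 : 0 < κ3)
    (hκ32 : κ3 ≤ κ2 / 10) (hε : 0 < ε) (hε3 : ε ≤ κ3 / 10) (w : ℝ → ℝ) (hw : IsWt w)
    (η A : ℝ) (hηκ : η ≤ ε / 1000) (hA : 0 < A) :
    ∀ B : ℝ, 3 * A + 25 ≤ B → ∃ C : ℝ, 1 ≤ C ∧
    ∀ (T : ℝ) (u : Fin 4 → Option ℕ) (v : Fin (4 * SS η) → Option ℕ) (lw : Fin 4 → ℕ → ℝ) (S : Finset ℝ) (g0 : ℝ → ℂ),
    C ≤ T → (∃ i, Lg T κ2 (u i)) → (∀ i d, |lw i d| ≤ 2) → (∀ i d, lw i d ≠ 0 → 1 ≤ d ∧ (d : ℝ) ≤ T ^ (ε / 1000)) →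
    (∀ x ∈ S, T ^ 2 ≤ x ∧ x ≤ 4 * T ^ 2) → S.Nonempty → (∀ x, ‖g0 x‖ ≤ 1) →
    S.card * (1 / Real.log T ^ A) ≤ ‖∑ x ∈ S, g0 x *
      ((DD w (BXA (zz η T) (zz cE T) T κ3 lw u v) x T (Real.log T ^ B) : ℝ) : ℂ)‖ →
    ∃ (T' ν : ℝ) (g : ℝ → ℂ) (m : ℕ) (a : Fin m → ℕ → ℂ) (N : Fin m → ℝ) (gr : Fin m → Fin 3),
      T ^ (1 / 10 : ℝ) ≤ T' ∧ T' ≤ T ^ (1 + ε / 1000) ∧
      ((∀ x, g x = if T ^ 2 ≤ x then g0 x * ((T ^ 2 / x : ℝ) : ℂ) else 0) ∨
        (∀ x, g x = if T ^ 2 ≤ x then (starRingEnd ℂ) (g0 x) * ((T ^ 2 / x : ℝ) : ℂ) else 0)) ∧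
      (∀ x, ‖g x‖ ≤ 1) ∧ (∀ i, IsBlk (a i) (N i)) ∧ (∀ i, T ^ η / 2 ≤ N i ∧ N i ≤ T ^ (1 : ℝ)) ∧
      ∏ i, N i = T ^ ν ∧ ν ≤ 2 - κ2 ∧
      (∏ i ∈ Finset.univ.filter (fun i => gr i = 0), N i) ≤ T ^ (1 + 3 * κ3) ∧
      (∏ i ∈ Finset.univ.filter (fun i => gr i = 1), N i) ≤ T ^ (1 + 3 * κ3) ∧
      (∀ i, gr i = 2 → N i ≤ T ^ (cE + κ3)) ∧
      S.card * T ^ (1 + ν / 2 - ε) ≤ ∫ t in T'..(2 * T'), ‖GS S g t‖ * ∏ i, ‖PB (a i) (N i) t‖ := by
  set κ' : ℝ := ε / 1000 with hκ'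
  have hκ : 0 < κ' := by positivity
  obtain ⟨CR, hCR, hR⟩ := hRg w hw (4 * SS η)
  obtain ⟨CF, hCF, hF⟩ := hF4 w hw κ' hκ (by linarith)
  obtain ⟨CT, hCT, hTb2⟩ := hTb.2
  obtain ⟨CK, hCK, hK⟩ := hKp psi Rp_aux.isWt_psi
  obtain ⟨C2, hC2, hpart2⟩ := RedA.part2 hPd hRp hTb κ2 κ3 ε η CR hκ21 hκ3 hκ32 hε hε3 hηκ hCR
  intro B hB
  set n : ℕ := Fintype.card (Fin 4 ⊕ Fin (4 * SS η)) with hn
  set MM : ℝ := CT ^ 3 * 2 ^ n * CR with hMM
  have hMM0 : 0 < MM := by positivity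
  set K0 : ℝ := 8 * CF * CK * CT ^ 3 * 2 ^ n * CR with hK0
  have hev : ∀ᶠ T : ℝ in atTop, (3 ≤ T ∧ 1 ≤ Real.log T ^ (1 : ℝ) ∧ 2 ≤ T ^ κ' ∧ 2 ≤ T ^ κ3) ∧
      (1 * Real.log T ^ (A + 10) ≤ T ^ (1 : ℝ) ∧ 1 * Real.log T ^ B ≤ T ^ (1 : ℝ) ∧
        2 * (CF * MM) ≤ Real.log T ^ (2 : ℝ) ∧ 2 * (CF * MM) * Real.log T ^ (3 + A) ≤ T ^ (1 : ℝ)) ∧
      (K0 + 1 ≤ Real.log T ^ (5 : ℝ) ∧ C2 ≤ T ∧ CR + 1 ≤ T ^ (4 * κ3)) ∧
      CF * Real.log T ^ (A + 1) ≤ T ^ κ' := by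
    refine ((eventually_ge_atTop 3).and ((AAx.ev_low 1 1 one_pos).and ((AAx.ev_pow 2 κ' hκ).and (AAx.ev_pow 2 κ3 hκ3)))).and
      (((AAx.ev_log _ _ 1 one_pos).and ((AAx.ev_log _ _ 1 one_pos).and ((AAx.ev_low _ 2 (by norm_num)).and
        (AAx.ev_log _ _ 1 one_pos)))).and
      (((AAx.ev_low _ 5 (by norm_num)).and ((eventually_ge_atTop _).and
        (AAx.ev_pow _ (4 * κ3) (by positivity)))).and (AAx.ev_log _ _ κ' hκ)))
  obtain ⟨C, hC⟩ := eventually_atTop.1 hev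
  refine ⟨max C 1, le_max_right _ _, ?_⟩
  intro T u v lw S g0 hCT' hlg hw1 hw2 hSx hSne hg0 hmain
  obtain ⟨⟨hT3, hlog1, hTκ, hTκ3⟩, ⟨hl1, hl2, hl3, hl4⟩, ⟨hl5, hTr, hTR⟩, hl6⟩ :=
    hC T ((le_max_left _ _).trans hCT')
  have hT1 : 1 < T := by linarith
  have hT0 : 0 < T := by linarith
  set L : ℝ := Real.log T with hL
  rw [Real.rpow_one] at hlog1 hl1 hl2
  rw [one_mul] at hl1 hl2
  have hL0 : 0 < L := by linarith
  set y := zz η T with hy
  set z := zz cE T with hz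
  set δ : ℝ := 1 / L ^ A with hδ
  have hδ0 : 0 < δ := by positivity
  have hcard : (0 : ℝ) < S.card := by exact_mod_cast hSne.card_pos
  set F : ArithmeticFunction ℝ := BXA y z T κ3 lw u v with hFdef
  -- a point with nonzero difference
  obtain ⟨x, hxS, hDD⟩ : ∃ x ∈ S, DD w F x T (L ^ B) ≠ 0 := by
    by_contra h
    push Not at h
    have h1 : ∑ x ∈ S, g0 x * ((DD w F x T (L ^ B) : ℝ) : ℂ) = 0 := by
      apply Finset.sum_eq_zero
      intro x hx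
      rw [h x hx]
      simp
    rw [h1, norm_zero] at hmain
    have := mul_pos hcard hδ0
    linarith
  have hTB1 : 1 ≤ L ^ B := Real.one_le_rpow hlog1 (by linarith)
  obtain ⟨T2, hT21, hSW⟩ : ∃ T2, 1 ≤ T2 ∧ SW w F x T2 ≠ 0 := by
    by_contra h
    push Not at h
    apply hDD
    unfold DD
    rw [h T hT1.le, h (L ^ B) hTB1]
    ring
  obtain ⟨-, hP2⟩ := hR T κ3 x T2 y z lw u v hT1.le hT21 (hSx x hxS).1 (hSx x hxS).2 (Or.inr hSW)
  obtain ⟨k, hk, -⟩ := Rg_aux.sw_ne w _ x T2 hSW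
  obtain ⟨hne1, hne2⟩ := prod_ne (fun i => msA y T κ3 (lw i) (u i)) (fun r => ps y z (v r)) k hk
  set o : Fin 4 ⊕ Fin (4 * SS η) → Option ℕ := Sum.elim u v with ho
  have hPo : ∏ i, sc (o i) ≤ CR * T ^ 2 := by
    rw [ho, PX_eq]
    exact hP2
  have hcard3 : (Finset.univ.filter fun i => Lg T κ3 (o i)).card ≤ 3 := by
    refine RedA.card_long (T := T) (κ3 := κ3) (CR := CR) ?_ hT1.le hκ3 hPo (by linarith)
    intro i hi
    exact (Finset.mem_filter.1 hi).2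
  -- the data
  have hD := dat η κ3 κ' T lw u v hT1.le hκ3 hTκ3 hw1 hw2 hne1 hne2 hcard3
  rw [← ho] at hD
  set f : Fin 4 ⊕ Fin (4 * SS η) → ArithmeticFunction ℝ := Sum.elim (fun i => msA (zz η T) T κ3 (lw i) (u i))
      (fun r => ps (zz η T) (zz cE T) (v r)) with hf
  set Ls := Finset.univ.filter fun i => Lg T κ3 (o i) with hLs
  have hFf : F = ∏ i, f i := by
    rw [hFdef, Fintype.prod_sum_type]
    rfl
  obtain ⟨i0, l0, hl0, hlt0⟩ := hlg
  have hi0 : (Sum.inl i0 : Fin 4 ⊕ Fin (4 * SS η)) ∈ Ls := by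
    rw [hLs, Finset.mem_filter]
    refine ⟨Finset.mem_univ _, l0, hl0, lt_of_le_of_lt ?_ hlt0⟩
    exact Real.rpow_le_rpow_of_exponent_le hT1.le (by linarith)
  have hlong : T ^ (1 / 2 + κ2) < sc (o (Sum.inl i0)) := by
    have e : o (Sum.inl i0) = some l0 := hl0
    rw [e]
    exact hlt0
  -- StPd
  obtain ⟨hp1, hp2, hp3⟩ := hPd (Fin 4 ⊕ Fin (4 * SS η)) Finset.univ f (fun i => sc (o i) / 2)
    (fun i => Rg_aux.Yn (o i)) (fun i _ => (div_pos (Rg_aux.sc_pos _) (by norm_num)).le)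
    (fun i _ n hn => hD.supp i n hn)
  rw [← hFf] at hp1 hp2 hp3
  set Y : ℕ := ∏ i, Rg_aux.Yn (o i) with hY
  have hmass : ∑ n ∈ Finset.Icc 1 Y, |F n| ≤ MM * L ^ 3 * T ^ 2 := by
    refine (hp2 Y).trans ?_
    have h1 : ∏ i, ∑ n ∈ Finset.Icc 1 (Rg_aux.Yn (o i)), |f i n| ≤
        ∏ i, (((if i ∈ Ls then CT * Real.log T else 1) * 2) * sc (o i)) :=
      Finset.prod_le_prod (fun i _ => Finset.sum_nonneg fun n _ => abs_nonneg _)
        fun i _ => AAx.mass hD CT hCT hTb2 hT1.le hlog1 hκ (by linarith) hκ3 hTκ i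
    refine h1.trans ?_
    rw [Finset.prod_mul_distrib]
    refine (mul_le_mul (AAx.prod_mass _ hD.card CT (Real.log T) hCT hlog1) hPo
      (Finset.prod_nonneg fun i _ => (Rg_aux.sc_pos _).le) (by positivity)).trans (le_of_eq ?_)
    rw [hMM, ← hn]
    ring
  have hcond : CF * (MM * L ^ 3) * ((L ^ (A + 10)) ^ 2 / L ^ B + 1 / T) ≤ δ := by
    have := AAx.cond (CF * MM) A B L T hlog1 hT0 hB (by positivity) hl3 hl4
    rw [← mul_assoc]
    exact this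
  obtain ⟨T', g, hT'1, hT'2, hg, hint⟩ := hF T (L ^ (A + 10)) (L ^ B) (MM * L ^ 3) δ Y F S g0 hT3
    (Real.one_le_rpow hlog1 (by linarith)) hl1 hTB1 hl2 (by positivity) hδ0
    (fun n hn => ⟨(hp1 n hn).1, (hp1 n hn).2.2⟩) hmass hcond (fun x hx => (hSx x hx).1) hg0 hmain
  have hgn : ∀ x, ‖g x‖ ≤ 1 := AAx.norm_g_le T hT0 g0 g hg0 hg
  have hSpos : ∀ x ∈ S, 0 < x := fun x hx => lt_of_lt_of_le (by positivity) (hSx x hx).1
  rcases le_total T' (T ^ (1 / 10 : ℝ)) with hle | hge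
  · exfalso
    have hint' : S.card * (δ * T ^ 2) ≤ CF * Real.log T * ∫ t in T'..(2 * T'), ‖GS S g t‖ *
        ∏ i, ‖Dp (Rg_aux.Yn (o i)) (fun n => ((f i n : ℝ) : ℂ)) t‖ := by
      refine hint.trans (le_of_eq ?_)
      congr 2
      funext t
      rw [hp3 Y t (le_refl _), norm_prod]
    have hT'11 : 1 ≤ T' := (Real.one_le_rpow hlog1 (by linarith)).trans hT'1
    have h := AAx.core_i hTb hD CT CK CF CR hCT hCK hCF hCR hTb2 hK hT1.le hlog1 hκ (by linarith) hκ3 hTκ S hSne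
      hSpos g hgn T' δ hT'11 hle (Sum.inl i0) hi0 hPo hint'
    rw [← hn, ← hK0, ← hL] at h
    have h1 : L ^ (A + 10) * δ ≤ T' * δ := mul_le_mul_of_nonneg_right hT'1 hδ0.le
    have h2 : L ^ (A + 10) * δ = L ^ 10 := by
      rw [hδ, Real.rpow_add hL0]
      have : L ^ A ≠ 0 := by positivity
      field_simp
      rw [← Real.rpow_natCast L 10]
      norm_num
    have h3 : L ^ 10 ≤ K0 * L ^ 5 := by linarith
    have h4 : L ^ (5 : ℝ) = L ^ 5 := by
      rw [← Real.rpow_natCast L 5]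
      norm_num
    rw [h4] at hl5
    have h5 : 0 < L ^ 5 := by positivity
    have h6 : L ^ 10 = L ^ 5 * L ^ 5 := by ring
    rw [h6] at h3
    have h7 := le_of_mul_le_mul_right h3 h5
    linarith
  · have hX : S.card * T ^ (2 - κ') ≤
        ∫ t in T'..(2 * T'), ‖GS S g t‖ * ‖Dp Y (fun n => (((∏ i, f i) n : ℝ) : ℂ)) t‖ := by
      rw [← hFf]
      set J : ℝ := ∫ t in T'..(2 * T'), ‖GS S g t‖ * ‖Dp Y (fun n => ((F n : ℝ) : ℂ)) t‖ with hJ
      have h1 : S.card * T ^ 2 ≤ CF * L ^ (A + 1) * J := by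
        have h2 : (S.card : ℝ) * (δ * T ^ 2) = S.card * T ^ 2 / L ^ A := by
          rw [hδ]
          field_simp
        have h3 := hint
        rw [h2, div_le_iff₀ (by positivity)] at h3
        refine h3.trans (le_of_eq ?_)
        rw [Real.rpow_add hL0, Real.rpow_one]
        ring
      have hJ0 : 0 ≤ J := by
        by_contra hc
        push Not at hc
        have h2 : CF * L ^ (A + 1) * J ≤ 0 := mul_nonpos_of_nonneg_of_nonpos (by positivity) hc.le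
        have h3 : 0 < (S.card : ℝ) * T ^ 2 := by positivity
        linarith
      have h4 : S.card * T ^ 2 ≤ T ^ κ' * J := h1.trans (mul_le_mul_of_nonneg_right hl6 hJ0)
      have h5 : S.card * T ^ (2 - κ') * T ^ κ' = S.card * T ^ 2 := by
        rw [mul_assoc, ← Real.rpow_add hT0, ← Real.rpow_two]
        congr 2
        ring
      have h6 : S.card * T ^ (2 - κ') * T ^ κ' ≤ J * T ^ κ' := by
        rw [h5]
        linarith
      exact le_of_mul_le_mul_right h6 (by positivity)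
    obtain ⟨ν, m, a, N, e, he, h1, h2, h3, h4, h5, h6⟩ := hpart2 (Fin 4 ⊕ Fin (4 * SS η)) T T' S.card Y o f Ls
      (Sum.elim lw (fun _ _ => 0)) (fun t => ‖GS S g t‖) hTr (slots_of_dat hD) ⟨Sum.inl i0, hi0, hlong⟩ hPo le_rfl hge hT'2
      (F4_aux.cont_GS S g hSpos).norm (fun t => norm_nonneg _) hcard.le hX
    have hN0 : ∀ i, 0 ≤ N i := fun i => le_trans (by positivity) (h2 i)
    have hNh : ∀ i, N i ≤ T ^ (1 / 2 + κ3) := by
      intro i
      rcases h3 i with ⟨-, h7⟩ | ⟨h7, h8, h9⟩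
      · exact h7.trans (Real.rpow_le_rpow_of_exponent_le hT1.le (by linarith))
      · rw [h9]
        obtain ⟨l, hl⟩ := Option.ne_none_iff_exists'.1 h8
        rw [hl]
        by_contra hc
        push Not at hc
        apply h7
        rw [hLs, Finset.mem_filter]
        exact ⟨Finset.mem_univ _, l, hl, hc⟩
    refine ⟨T', ν, g, m, a, N, fun i => grp (e i), hge, hT'2, hg, hgn, h1, ?_, h4, h5, ?_, ?_, ?_, h6⟩
    · intro i
      refine ⟨h2 i, (hNh i).trans (Real.rpow_le_rpow_of_exponent_le hT1.le (by linarith))⟩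
    · exact grp_prod T κ3 hT1.le hκ3 N e he 0 (Or.inl rfl) hN0 hNh
    · exact grp_prod T κ3 hT1.le hκ3 N e he 1 (Or.inr rfl) hN0 hNh
    · intro i hi
      change grp (e i) = 2 at hi
      rcases hei : e i with k | r
      · rw [hei] at hi
        simp only [grp] at hi
        split_ifs at hi
        · exact absurd hi (by decide)
        · exact absurd hi (by decide)
      · have hv : ∀ l, v r = some l → (2 : ℝ) ^ l ≤ T ^ (cE + κ3) := fun l hl =>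
          (v_scale η κ3 T v hT1.le hTκ3 hne2 r l hl).2
        rcases h3 i with ⟨h7, h8⟩ | ⟨h7, h8, h9⟩
        · exfalso
          rw [hLs, Finset.mem_filter, hei] at h7
          obtain ⟨-, l, hl, hlt⟩ := h7
          have h10 := hv l hl
          have h11 : T ^ (cE + κ3) ≤ T ^ (1 / 2 + κ3) := Real.rpow_le_rpow_of_exponent_le hT1.le (by
            unfold cE
            linarith)
          linarith
        · rw [h9]
          obtain ⟨l, hl⟩ := Option.ne_none_iff_exists'.1 h8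
          rw [hl]
          rw [hei] at hl
          exact hv l hl

end XAA_aux

theorem iXAA (hC : StCellXA rE cE) (hF4 : StF4) (hPd : StPd) (hRg : StXRg) (hRp : StRp) (hTb : StTb)
    (hKp : Pool.Agent.Work.MP_56b8f5_nt.UC.StKp) : StXAA := by
  classical
  intro κ2 hκ2 hκ21
  obtain ⟨κ3, ε, hκ3, hκ32, hε, hε3, hcell⟩ := hC κ2 hκ2 hκ21
  refine ⟨κ3, ε / 1000, hκ3, hκ32, by positivity, by linarith, ?_⟩
  intro w hw η A hη hηκ hA
  obtain ⟨C2, hC2, hcell2⟩ := hcell η hη (by linarith)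
  have hred := XAA_aux.red hF4 hPd hRg hRp hTb hKp κ2 κ3 ε hκ21 hκ3 hκ32 hε hε3 w hw η A hηκ hA
  refine ⟨3 * A + 25, by linarith, ?_⟩
  intro B hB
  obtain ⟨C1, hC1, hred1⟩ := hred B hB
  have hev : ∀ᶠ T : ℝ in atTop, C2 + 1 ≤ T ^ (1 / 3 - rE : ℝ) :=
    AAx.ev_pow _ _ (by unfold rE; norm_num)
  obtain ⟨C3, hC3⟩ := eventually_atTop.1 hev
  refine ⟨max (max C1 C2) (max C3 3), le_trans (by norm_num) (le_max_of_le_right (le_max_right _ _)), ?_⟩
  intro T u v lw hT hlg hw1 hw2 S hSep hS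
  have hT1 : C1 ≤ T := (le_max_left _ _).trans ((le_max_left _ _).trans hT)
  have hT2 : C2 ≤ T := (le_max_right _ _).trans ((le_max_left _ _).trans hT)
  have hT3 : C3 ≤ T := (le_max_left _ _).trans ((le_max_right _ _).trans hT)
  have hT4 : 3 ≤ T := (le_max_right _ _).trans ((le_max_right _ _).trans hT)
  have hT0 : 0 < T := by linarith
  have hTr0 : 1 ≤ T ^ rE := Real.one_le_rpow (by linarith) (by unfold rE; norm_num)
  by_contra hcon
  push Not at hcon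
  have hcard : C2 * T ^ rE < S.card := by
    refine lt_of_le_of_lt ?_ hcon
    exact mul_le_mul_of_nonneg_right (le_max_of_le_left (le_max_right _ _)) (by linarith)
  have hk : ⌊C2 * T ^ rE⌋₊ + 1 ≤ S.card := by
    have h := (Nat.floor_lt (show 0 ≤ C2 * T ^ rE by positivity)).2 hcard
    omega
  obtain ⟨S', hS'S, hS'c⟩ := Finset.exists_subset_card_eq hk
  have hS'1 : C2 * T ^ rE < S'.card := by
    rw [hS'c]
    exact_mod_cast Nat.lt_floor_add_one (C2 * T ^ rE)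
  have hS'2 : (S'.card : ℝ) ≤ T ^ (1 / 3 : ℝ) := by
    rw [hS'c]
    push_cast
    have h1 : ((⌊C2 * T ^ rE⌋₊ : ℕ) : ℝ) ≤ C2 * T ^ rE := Nat.floor_le (by positivity)
    have h2 := hC3 T hT3
    have e : T ^ (1 / 3 : ℝ) = T ^ (1 / 3 - rE : ℝ) * T ^ rE := by
      rw [← Real.rpow_add hT0]
      congr 1
      ring
    rw [e]
    have h3 : (C2 + 1) * T ^ rE ≤ T ^ (1 / 3 - rE : ℝ) * T ^ rE := mul_le_mul_of_nonneg_right h2 (by linarith)
    linarith
  have hS'ne : S'.Nonempty := by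
    rw [← Finset.card_pos, hS'c]
    omega
  have hSep' : LSep S' T := ⟨fun x hx => hSep.1 x (hS'S hx), fun x hx y hy => hSep.2 x (hS'S hx) y (hS'S hy)⟩
  set DF : ℝ → ℝ := fun x => DD w (BXA (zz η T) (zz cE T) T κ3 lw u v) x T (Real.log T ^ B) with hDF
  set g0 : ℝ → ℂ := fun x => if 0 ≤ DF x then 1 else -1 with hg0
  have hg0n : ∀ x, ‖g0 x‖ ≤ 1 := by
    intro x
    simp only [hg0]
    split_ifs <;> simp
  have hgD : ∀ x, g0 x * ((DF x : ℝ) : ℂ) = ((|DF x| : ℝ) : ℂ) := by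
    intro x
    simp only [hg0]
    split_ifs with h
    · rw [abs_of_nonneg h, one_mul]
    · rw [abs_of_neg (not_le.1 h)]
      push_cast
      ring
  have hmain : S'.card * (1 / Real.log T ^ A) ≤ ‖∑ x ∈ S', g0 x * ((DF x : ℝ) : ℂ)‖ := by
    have e : ∑ x ∈ S', g0 x * ((DF x : ℝ) : ℂ) = ((∑ x ∈ S', |DF x| : ℝ) : ℂ) := by
      push_cast
      exact Finset.sum_congr rfl fun x _ => hgD x
    rw [e, Complex.norm_real, Real.norm_of_nonneg (Finset.sum_nonneg fun x _ => abs_nonneg _),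
      ← nsmul_eq_mul]
    exact Finset.card_nsmul_le_sum _ _ _ fun x hx => (hS x (hS'S hx)).2.2
  obtain ⟨T', ν, g, m, a, N, gr, h1, h2, -, h3, h4, h5, h6, h7, h8, h9, h10, h11⟩ := hred1 T u v lw S' g0 hT1 hlg hw1 hw2
    (fun x hx => ⟨(hS x (hS'S hx)).1, (hS x (hS'S hx)).2.1⟩) hS'ne hg0n hmain
  have hT'1 : 1 ≤ T' := (Real.one_le_rpow (by linarith) (by norm_num)).trans h1
  have hT'2 : T' ≤ T ^ (1 + ε) := h2.trans (Real.rpow_le_rpow_of_exponent_le (by linarith) (by linarith))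
  have := hcell2 T T' ν m a N gr S' g hT2 hT'1 hT'2 h4 h5 h6 h7 h8 h9 h10 hSep' hS'2 h3 h11
  linarith

end Pool.Agent.Work.MP_a8fbd7_nt.EX.ASM
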