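import Mathlib
import Pool.Agent.Work.MP_a8fbd7_nt.EX.ASM.Stmts
import Pool.Agent.Work.MP_a8fbd7_nt.OX.ASM.Win

/-!
MP_a8fbd7_nt, EX/ASM, item XAl: almost primes in long windows.
-/

set_option autoImplicit false

open MeasureTheory Set Filter Topology

noncomputable section

namespace Pool.Agent.Work.MP_a8fbd7_nt.EX.ASM

open Pool.Agent.Work.MP_56b8f5_nt.UC (IsWt)
open Pool.Agent.Work.MP_a8fbd7_nt.OX
open Pool.Agent.Work.MP_a8fbd7_nt.OX.ID (Rough roughOne pb rg)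
open Pool.Agent.Work.MP_a8fbd7_nt.OX.ASM
open Pool.Agent.Work.MP_a8fbd7_nt.EX

namespace XAl_aux

/-- primes larger than `z` -/
def pz (z : ℕ) : ArithmeticFunction ℝ := ⟨fun n => if n.Prime ∧ z < n then 1 else 0, by simp [Nat.not_prime_zero]⟩

/-- primes larger than `z` with logarithmic weight -/
def lz (z : ℕ) : ArithmeticFunction ℝ := ⟨fun n => if n.Prime ∧ z < n then Real.log n else 0, by simp [Nat.not_prime_zero]⟩

theorem pz_apply (z n : ℕ) : pz z n = if n.Prime ∧ z < n then 1 else 0 := rfl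
theorem lz_apply (z n : ℕ) : lz z n = if n.Prime ∧ z < n then Real.log n else 0 := rfl

theorem pz_nonneg (z n : ℕ) : 0 ≤ pz z n := by
  rw [pz_apply]
  split_ifs <;> norm_num

theorem lz_nonneg (z n : ℕ) : 0 ≤ lz z n := by
  rw [lz_apply]
  split_ifs
  · exact Real.log_natCast_nonneg n
  · norm_num

theorem pzk_nonneg (z : ℕ) : ∀ (k n : ℕ), 0 ≤ (pz z ^ k) n
  | 0, n => by
    rw [pow_zero, ArithmeticFunction.one_apply]
    split_ifs <;> norm_num
  | k + 1, n => by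
    rw [pow_succ', ArithmeticFunction.mul_apply]
    exact Finset.sum_nonneg fun q _ => mul_nonneg (pz_nonneg z _) (pzk_nonneg z k _)

theorem rough_div {z m p : ℕ} (hr : Rough z m) (hp : p ∣ m) : Rough z (m / p) :=
  fun q hq hd => hr q hq (hd.trans (Nat.div_dvd_of_dvd hp))

/-- sum over the pairs `p m = n` -/
theorem sum_pairs (z : ℕ) (g : ℕ → ℝ) (h : ℕ → ℝ) (n : ℕ) (hr : Rough z n) (hn : n ≠ 0)
    (hg : ∀ a, ¬ (a.Prime ∧ z < a) → g a = 0) :
    ∑ q ∈ n.divisorsAntidiagonal, g q.1 * h q.2 = ∑ p ∈ n.primeFactors, g p * h (n / p) := by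
  rw [Nat.sum_divisorsAntidiagonal (f := fun a b => g a * h b)]
  symm
  apply Finset.sum_subset
  · intro p hp
    exact Nat.mem_divisors.2 ⟨Nat.dvd_of_mem_primeFactors hp, hn⟩
  · intro p hp hp'
    rw [hg p, zero_mul]
    rintro ⟨h1, _⟩
    exact hp' (Nat.mem_primeFactors.2 ⟨h1, Nat.dvd_of_mem_divisors hp, hn⟩)

theorem pzk_eq (z : ℕ) : ∀ (k m : ℕ), Squarefree m → Rough z m → ArithmeticFunction.cardFactors m = k →
    (pz z ^ k) m = (k.factorial : ℝ)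
  | 0, m => by
    intro hs _ hc
    have h0 : m ≠ 0 := hs.ne_zero
    have h1 : m = 1 := by
      rcases ArithmeticFunction.cardFactors_eq_zero_iff_eq_zero_or_one.1 hc with h | h
      · exact absurd h h0
      · exact h
    subst h1
    simp
  | k + 1, m => by
    intro hs hr hc
    have h0 : m ≠ 0 := hs.ne_zero
    rw [pow_succ', ArithmeticFunction.mul_apply,
      sum_pairs z (fun a => pz z a) (fun b => (pz z ^ k) b) m hr h0 (fun a ha => by simp only [pz_apply, if_neg ha])]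
    have h1 : ∀ p ∈ m.primeFactors, pz z p * (pz z ^ k) (m / p) = (k.factorial : ℝ) := by
      intro p hp
      have hpp := Nat.prime_of_mem_primeFactors hp
      have hpd := Nat.dvd_of_mem_primeFactors hp
      rw [pz_apply, if_pos ⟨hpp, hr p hpp hpd⟩, one_mul]
      apply pzk_eq z k
      · exact hs.squarefree_of_dvd (Nat.div_dvd_of_dvd hpd)
      · exact rough_div hr hpd
      · obtain ⟨c, rfl⟩ := hpd
        rw [Nat.mul_div_cancel_left _ hpp.pos]
        have hc0 : c ≠ 0 := by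
          rintro rfl
          exact h0 (mul_zero _)
        rw [ArithmeticFunction.cardFactors_mul hpp.ne_zero hc0, ArithmeticFunction.cardFactors_apply_prime hpp] at hc
        omega
    rw [Finset.sum_congr rfl h1, Finset.sum_const, nsmul_eq_mul]
    have h2 : m.primeFactors.card = k + 1 := by
      rw [← hc, ← (ArithmeticFunction.cardDistinctFactors_eq_cardFactors_iff_squarefree h0).2 hs]
      rw [ArithmeticFunction.cardDistinctFactors_apply]
      rfl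
    rw [h2, Nat.factorial_succ]
    push_cast
    ring

theorem fJ_eq (z k n : ℕ) (hs : Squarefree n) (hr : Rough z n) (hc : ArithmeticFunction.cardFactors n = k + 1) :
    (lz z * pz z ^ k) n = (k.factorial : ℝ) * Real.log n := by
  have h0 : n ≠ 0 := hs.ne_zero
  rw [ArithmeticFunction.mul_apply,
      sum_pairs z (fun a => lz z a) (fun b => (pz z ^ k) b) n hr h0 (fun a ha => by simp only [lz_apply, if_neg ha])]
  have h1 : ∀ p ∈ n.primeFactors, lz z p * (pz z ^ k) (n / p) = (k.factorial : ℝ) * Real.log p := by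
    intro p hp
    have hpp := Nat.prime_of_mem_primeFactors hp
    have hpd := Nat.dvd_of_mem_primeFactors hp
    rw [lz_apply, if_pos ⟨hpp, hr p hpp hpd⟩, mul_comm]
    congr 1
    apply pzk_eq z k
    · exact hs.squarefree_of_dvd (Nat.div_dvd_of_dvd hpd)
    · exact rough_div hr hpd
    · obtain ⟨c, rfl⟩ := hpd
      rw [Nat.mul_div_cancel_left _ hpp.pos]
      have hc0 : c ≠ 0 := by
        rintro rfl
        exact h0 (mul_zero _)
      rw [ArithmeticFunction.cardFactors_mul hpp.ne_zero hc0, ArithmeticFunction.cardFactors_apply_prime hpp] at hc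
      omega
  rw [Finset.sum_congr rfl h1, ← Finset.mul_sum]
  congr 1
  have h2 := Nat.prod_primeFactors_of_squarefree hs
  have h3 : Real.log n = Real.log ((∏ p ∈ n.primeFactors, p : ℕ) : ℝ) := by rw [h2]
  rw [h3]
  push_cast
  rw [Real.log_prod]
  intro p hp
  have := (Nat.prime_of_mem_primeFactors hp).ne_zero
  exact_mod_cast this

theorem fJ_nonneg (z k n : ℕ) : 0 ≤ (lz z * pz z ^ k) n := by
  rw [ArithmeticFunction.mul_apply]
  exact Finset.sum_nonneg fun q _ => mul_nonneg (lz_nonneg z _) (pzk_nonneg z k _)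

theorem aJ_nonneg (z J n : ℕ) : 0 ≤ aJ z J n := by
  unfold aJ
  split_ifs <;> norm_num

theorem sqr_nonneg (y n : ℕ) : 0 ≤ sqr y n := by
  unfold sqr
  split_ifs <;> norm_num

/-- pointwise bound -/
theorem aJ_le (z k n : ℕ) (hn : 1 ≤ n) :
    aJ z (k + 1) n * Real.log n ≤ (lz z * pz z ^ k) n / (k.factorial : ℝ) + sqr z n * Real.log n := by
  have hl : 0 ≤ Real.log n := Real.log_natCast_nonneg n
  have hf : (0 : ℝ) < k.factorial := by exact_mod_cast Nat.factorial_pos k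
  have hq := fJ_nonneg z k n
  have hq' : 0 ≤ (lz z * pz z ^ k) n / (k.factorial : ℝ) := by positivity
  have hs0 := sqr_nonneg z n
  by_cases h : Rough z n ∧ ArithmeticFunction.cardFactors n = k + 1
  · have e : aJ z (k + 1) n = 1 := by
      unfold aJ
      rw [if_pos h]
    rw [e, one_mul]
    by_cases hs : Squarefree n
    · rw [fJ_eq z k n hs h.1 h.2, mul_div_cancel_left₀ _ hf.ne']
      have : 0 ≤ sqr z n * Real.log n := mul_nonneg hs0 hl
      linarith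
    · have h1 : sqr z n = 1 := by
        unfold sqr
        rw [if_pos]
        rw [Nat.squarefree_iff_prime_squarefree] at hs
        push_neg at hs
        obtain ⟨p, hp, hpd⟩ := hs
        refine ⟨p, hp, h.1 p hp (dvd_trans (dvd_mul_right p p) hpd), ?_⟩
        rw [pow_two]
        exact hpd
      rw [h1, one_mul]
      linarith
  · have e : aJ z (k + 1) n = 0 := by
      unfold aJ
      rw [if_neg h]
    rw [e, zero_mul]
    have : 0 ≤ sqr z n * Real.log n := mul_nonneg hs0 hl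
    linarith

open Classical in
/-- primes in the cell `j` -/
def cell (T : ℝ) (j : ℕ) : Finset ℕ :=
  (Finset.Ioc ⌊T ^ ((j : ℝ) / 500)⌋₊ ⌊T ^ (((j : ℝ) + 1) / 500)⌋₊).filter Nat.Prime

/-- index of the cell of `p` -/
def ci (T : ℝ) (p : ℕ) : ℕ := ⌈500 * Real.log p / Real.log T⌉₊ - 1

theorem ci_spec {T : ℝ} (hT : 1 < T) {p : ℕ} (hp : 2 ≤ p) :
    T ^ ((ci T p : ℝ) / 500) < p ∧ (p : ℝ) ≤ T ^ (((ci T p : ℝ) + 1) / 500) := by
  have hL : 0 < Real.log T := Real.log_pos hT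
  have hp2 : (2 : ℝ) ≤ p := by exact_mod_cast hp
  have hp0 : (0 : ℝ) < p := by linarith
  have hlp : 0 < Real.log p := Real.log_pos (by linarith)
  have hT0 : 0 < T := by linarith
  set u : ℝ := 500 * Real.log p / Real.log T with hu
  have hu0 : 0 < u := by positivity
  have h1 : 1 ≤ ⌈u⌉₊ := Nat.one_le_ceil_iff.2 hu0
  have h2 : ((ci T p : ℕ) : ℝ) = (⌈u⌉₊ : ℝ) - 1 := by
    rw [ci, Nat.cast_sub h1]
    simp [hu]
  have h3 : u ≤ ⌈u⌉₊ := Nat.le_ceil u
  have h4 : (⌈u⌉₊ : ℝ) < u + 1 := Nat.ceil_lt_add_one hu0.le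
  have hlu : Real.log p = u / 500 * Real.log T := by
    rw [hu]
    field_simp
  constructor
  · rw [← Real.log_lt_log_iff (by positivity) hp0, Real.log_rpow hT0, hlu, h2]
    apply mul_lt_mul_of_pos_right _ hL
    linarith
  · rw [← Real.log_le_log_iff hp0 (by positivity), Real.log_rpow hT0, hlu, h2]
    apply mul_le_mul_of_nonneg_right _ hL.le
    linarith

theorem mem_cell {T : ℝ} (hT : 1 < T) {p : ℕ} (hp : p.Prime) : p ∈ cell T (ci T p) := by
  have h := ci_spec hT hp.two_le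
  unfold cell
  rw [Finset.mem_filter, Finset.mem_Ioc]
  exact ⟨⟨(Nat.floor_lt (by positivity)).2 h.1, Nat.le_floor h.2⟩, hp⟩

/-- the index set of `mass` -/
def FF (k : ℕ) : Finset (Fin k → ℕ) :=
  (Fintype.piFinset (fun _ : Fin k => Finset.Icc (119 : ℕ) 881)).filter (fun f => ∑ i, f i ≤ 881)

theorem ci_mem {T D : ℝ} (hT1 : 1 < T) (hD : 0 < D) (hT : (8 * D) ^ (500 : ℝ) < T) {k : ℕ} {g : Fin k → ℕ}
    (hg : ∀ i, (g i).Prime ∧ zz cE T < g i) (hY : ((∏ i, g i : ℕ) : ℝ) ≤ 8 * D * T ^ ((881 : ℝ) / 500)) :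
    (fun i => ci T (g i)) ∈ FF k := by
  have hT0 : 0 < T := by linarith
  have hL : 0 < Real.log T := Real.log_pos hT1
  have h1 : ∀ i, 119 ≤ ci T (g i) := by
    intro i
    have h2 := (ci_spec hT1 (hg i).1.two_le).2
    have h3 : T ^ cE < g i := by
      have := (hg i).2
      unfold zz at this
      exact (Nat.floor_lt (by positivity)).1 this
    have h4 : T ^ cE < T ^ (((ci T (g i) : ℝ) + 1) / 500) := h3.trans_le h2
    rw [Real.rpow_lt_rpow_left_iff hT1] at h4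
    unfold cE at h4
    have h5 : (119 : ℝ) < (ci T (g i) : ℝ) + 1 := by linarith
    have h6 : 119 < ci T (g i) + 1 := by exact_mod_cast h5
    omega
  have h2 : ∑ i, ci T (g i) ≤ 881 := by
    by_contra hc
    push_neg at hc
    have h3 : T ^ ((∑ i, (ci T (g i) : ℝ)) / 500) ≤ ((∏ i, g i : ℕ) : ℝ) := by
      push_cast
      have e : T ^ ((∑ i, (ci T (g i) : ℝ)) / 500) = ∏ i, T ^ ((ci T (g i) : ℝ) / 500) := by
        rw [Finset.sum_div, Real.rpow_sum_of_pos hT0]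
      rw [e]
      exact Finset.prod_le_prod (fun i _ => by positivity) (fun i _ => (ci_spec hT1 (hg i).1.two_le).1.le)
    have h4 : (882 : ℝ) ≤ ∑ i, (ci T (g i) : ℝ) := by
      have : 882 ≤ ∑ i, ci T (g i) := hc
      exact_mod_cast this
    have h5 : T ^ ((882 : ℝ) / 500) ≤ T ^ ((∑ i, (ci T (g i) : ℝ)) / 500) := by
      apply Real.rpow_le_rpow_of_exponent_le hT1.le
      linarith
    have h6 : T ^ ((882 : ℝ) / 500) = T ^ ((1 : ℝ) / 500) * T ^ ((881 : ℝ) / 500) := by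
      rw [← Real.rpow_add hT0]
      norm_num
    have h7 : T ^ ((1 : ℝ) / 500) * T ^ ((881 : ℝ) / 500) ≤ 8 * D * T ^ ((881 : ℝ) / 500) := by
      rw [← h6]
      exact (h5.trans h3).trans hY
    have h8 : T ^ ((1 : ℝ) / 500) ≤ 8 * D := le_of_mul_le_mul_right h7 (by positivity)
    have h9 : 8 * D < T ^ ((1 : ℝ) / 500) := by
      have := Real.rpow_lt_rpow (by positivity) hT (z := (1 : ℝ) / 500) (by norm_num)
      rwa [← Real.rpow_mul (by positivity), show (500 : ℝ) * (1 / 500) = 1 by norm_num, Real.rpow_one] at this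
    linarith
  unfold FF
  rw [Finset.mem_filter, Fintype.mem_piFinset]
  refine ⟨fun i => ?_, h2⟩
  rw [Finset.mem_Icc]
  refine ⟨h1 i, ?_⟩
  exact (Finset.single_le_sum (f := fun i => ci T (g i)) (fun _ _ => Nat.zero_le _) (Finset.mem_univ i)).trans h2

open Classical in
theorem sum_cells {T D ε : ℝ} (hT1 : 1 < T) (hD : 0 < D) (hT : (8 * D) ^ (500 : ℝ) < T) (k Y : ℕ)
    (hY : (Y : ℝ) ≤ 8 * D * T ^ ((881 : ℝ) / 500)) (hMe : ∀ j : ℕ, 119 ≤ j → j ≤ 1000 →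
      ∑ p ∈ cell T j, (1 : ℝ) / p ≤ Real.log (((j : ℝ) + 1) / j) + ε) :
    ∑ a ∈ Finset.Icc 1 Y, (pz (zz cE T) ^ k) a / (a : ℝ) ≤
      ∑ f ∈ FF k, ∏ i, (Real.log (((f i : ℝ) + 1) / (f i : ℝ)) + ε) := by
  set z := zz cE T with hz
  set S : Finset ((_ : ℕ) × (Fin k → ℕ)) := (Finset.Icc 1 Y).sigma (fun a =>
    (Nat.finMulAntidiag k a).filter (fun g => ∀ i, (g i).Prime ∧ z < g i)) with hS
  have h1 : ∑ a ∈ Finset.Icc 1 Y, (pz z ^ k) a / (a : ℝ) = ∑ x ∈ S, ∏ i, (1 : ℝ) / (x.2 i) := by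
    rw [hS, Finset.sum_sigma]
    refine Finset.sum_congr rfl fun a _ => ?_
    rw [Win.pow_apply, Finset.sum_div, Finset.sum_filter]
    refine Finset.sum_congr rfl fun g hg => ?_
    rw [Nat.mem_finMulAntidiag] at hg
    split_ifs with h
    · have e : ∏ i, pz z (g i) = 1 := Finset.prod_eq_one fun i _ => by rw [pz_apply, if_pos (h i)]
      rw [e, ← hg.1]
      push_cast
      rw [Finset.prod_div_distrib, Finset.prod_const_one]
    · push_neg at h
      obtain ⟨i, hi⟩ := h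
      have e : ∏ i, pz z (g i) = 0 := by
        apply Finset.prod_eq_zero (Finset.mem_univ i)
        rw [pz_apply, if_neg]
        rintro ⟨h2, h3⟩
        exact absurd (hi h2) (not_le.2 h3)
      rw [e, zero_div]
  set ι : ((_ : ℕ) × (Fin k → ℕ)) → ((_ : Fin k → ℕ) × (Fin k → ℕ)) := fun x => ⟨fun i => ci T (x.2 i), x.2⟩ with hι
  have h2 : ∑ x ∈ S, ∏ i, (1 : ℝ) / (x.2 i) = ∑ y ∈ S.image ι, ∏ i, (1 : ℝ) / (y.2 i) := by
    rw [Finset.sum_image]
    intro x hx x' hx' he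
    have hx := Finset.mem_coe.1 hx
    have hx' := Finset.mem_coe.1 hx'
    rw [hS, Finset.mem_sigma, Finset.mem_filter, Nat.mem_finMulAntidiag] at hx hx'
    have h3 : x.2 = x'.2 := by
      have := congrArg (fun y : ((_ : Fin k → ℕ) × (Fin k → ℕ)) => y.2) he
      exact this
    obtain ⟨a, g⟩ := x
    obtain ⟨a', g'⟩ := x'
    dsimp only at h3 hx hx' ⊢
    subst h3
    have : a = a' := by rw [← hx.2.1.1, ← hx'.2.1.1]
    rw [this]
  have h3 : ∑ y ∈ S.image ι, ∏ i, (1 : ℝ) / (y.2 i) ≤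
      ∑ y ∈ (FF k).sigma (fun f => Fintype.piFinset (fun i => cell T (f i))), ∏ i, (1 : ℝ) / (y.2 i) := by
    apply Finset.sum_le_sum_of_subset_of_nonneg
    · intro y hy
      rw [Finset.mem_image] at hy
      obtain ⟨x, hx, rfl⟩ := hy
      rw [hS, Finset.mem_sigma, Finset.mem_filter, Nat.mem_finMulAntidiag, Finset.mem_Icc] at hx
      rw [Finset.mem_sigma, Fintype.mem_piFinset]
      refine ⟨?_, fun i => mem_cell hT1 (hx.2.2 i).1⟩
      apply ci_mem hT1 hD hT hx.2.2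
      rw [hx.2.1.1]
      refine le_trans ?_ hY
      exact_mod_cast hx.1.2
    · intro y _ _
      exact Finset.prod_nonneg fun i _ => by positivity
  have h4 : ∑ y ∈ (FF k).sigma (fun f => Fintype.piFinset (fun i => cell T (f i))), ∏ i, (1 : ℝ) / (y.2 i) =
      ∑ f ∈ FF k, ∏ i, ∑ p ∈ cell T (f i), (1 : ℝ) / p := by
    rw [Finset.sum_sigma]
    refine Finset.sum_congr rfl fun f _ => ?_
    rw [Finset.prod_univ_sum]
  rw [h1, h2]
  refine h3.trans ?_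
  rw [h4]
  refine Finset.sum_le_sum fun f hf => ?_
  unfold FF at hf
  rw [Finset.mem_filter, Fintype.mem_piFinset] at hf
  apply Finset.prod_le_prod
  · intro i _
    exact Finset.sum_nonneg fun p _ => by positivity
  · intro i _
    have := Finset.mem_Icc.1 (hf.1 i)
    exact hMe (f i) this.1 (by omega)

theorem SW_sum {w : ℝ → ℝ} {x T1 D : ℝ} (hsup : ∀ n : ℕ, w (((n : ℝ) / x) ^ T1) ≠ 0 → 0 < n ∧ (n : ℝ) ≤ D * x)
    (c : ℕ → ℝ) {N : ℕ} (hN : ⌊D * x⌋₊ ≤ N) :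
    SW w c x T1 = ∑ n ∈ Finset.Icc 1 N, c n * w (((n : ℝ) / x) ^ T1) := by
  rw [SW]
  apply tsum_eq_sum
  intro n hn
  have : w (((n : ℝ) / x) ^ T1) = 0 := by
    by_contra h0
    have h1 := hsup n h0
    apply hn
    rw [Finset.mem_Icc]
    exact ⟨h1.1, (Nat.le_floor h1.2).trans hN⟩
  rw [this, mul_zero]

theorem SW_fJ_le {w : ℝ → ℝ} (hw0 : ∀ u, 0 ≤ w u) {x T1 D : ℝ} (hx : 0 < x) (hD : 1 ≤ D)
    (hsup : ∀ x' : ℝ, 0 < x' → ∀ n : ℕ, w (((n : ℝ) / x') ^ T1) ≠ 0 → 0 < n ∧ (n : ℝ) ≤ D * x') (z k : ℕ) (hz : 1 ≤ z) :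
    SW w (fun n => (lz z * pz z ^ k) n) x T1 ≤
      ∑ a ∈ Finset.Icc 1 ⌊D * x / z⌋₊, (pz z ^ k) a * ((Real.log (x / a) + Real.log D) * SW w pr (x / a) T1) := by
  set N := ⌊D * x⌋₊ with hN
  set Y := ⌊D * x / z⌋₊ with hY
  have hz0 : (0 : ℝ) < z := by exact_mod_cast hz
  rw [SW_sum (hsup x hx) _ (le_refl N)]
  set φ : ℕ × ℕ → ℝ := fun q => lz z q.1 * (pz z ^ k) q.2 * w ((((q.1 * q.2 : ℕ) : ℝ) / x) ^ T1) with hφ
  have hφ0 : ∀ q, 0 ≤ φ q := fun q => mul_nonneg (mul_nonneg (lz_nonneg z _) (pzk_nonneg z k _)) (hw0 _)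
  have h1 : ∑ n ∈ Finset.Icc 1 N, (lz z * pz z ^ k) n * w (((n : ℝ) / x) ^ T1) =
      ∑ y ∈ (Finset.Icc 1 N).sigma (fun n => n.divisorsAntidiagonal), φ y.2 := by
    rw [Finset.sum_sigma]
    refine Finset.sum_congr rfl fun n _ => ?_
    rw [ArithmeticFunction.mul_apply, Finset.sum_mul]
    refine Finset.sum_congr rfl fun q hq => ?_
    rw [Nat.mem_divisorsAntidiagonal] at hq
    rw [hφ]
    dsimp only
    rw [hq.1]
  have h2 : ∑ y ∈ (Finset.Icc 1 N).sigma (fun n => n.divisorsAntidiagonal), φ y.2 ≤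
      ∑ q ∈ Finset.Icc 1 N ×ˢ Finset.Icc 1 Y, φ q := by
    rw [← Finset.sum_filter_ne_zero]
    have h3 : ∑ y ∈ ((Finset.Icc 1 N).sigma (fun n => n.divisorsAntidiagonal)).filter (fun y => φ y.2 ≠ 0), φ y.2 =
        ∑ q ∈ (((Finset.Icc 1 N).sigma (fun n => n.divisorsAntidiagonal)).filter (fun y => φ y.2 ≠ 0)).image (fun y => y.2), φ q := by
      rw [Finset.sum_image]
      intro y hy y' hy' he
      have hy := Finset.mem_coe.1 hy
      have hy' := Finset.mem_coe.1 hy'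
      rw [Finset.mem_filter, Finset.mem_sigma, Nat.mem_divisorsAntidiagonal] at hy hy'
      obtain ⟨n, q⟩ := y
      obtain ⟨n', q'⟩ := y'
      dsimp only at he hy hy' ⊢
      subst he
      have : n = n' := by rw [← hy.1.2.1, ← hy'.1.2.1]
      rw [this]
    rw [h3]
    apply Finset.sum_le_sum_of_subset_of_nonneg
    · intro q hq
      rw [Finset.mem_image] at hq
      obtain ⟨y, hy, rfl⟩ := hq
      rw [Finset.mem_filter, Finset.mem_sigma, Nat.mem_divisorsAntidiagonal, Finset.mem_Icc] at hy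
      obtain ⟨⟨⟨h4, h5⟩, h6, h7⟩, h8⟩ := hy
      rw [hφ] at h8
      dsimp only at h8
      have h9 : w ((((y.2.1 * y.2.2 : ℕ) : ℝ) / x) ^ T1) ≠ 0 := right_ne_zero_of_mul h8
      have h10 : lz z y.2.1 ≠ 0 := left_ne_zero_of_mul (left_ne_zero_of_mul h8)
      rw [lz_apply] at h10
      have h11 : y.2.1.Prime ∧ z < y.2.1 := by
        by_contra hc
        rw [if_neg hc] at h10
        exact h10 rfl
      have h12 := (hsup x hx _ h9).2
      have hq1 : 1 ≤ y.2.1 := h11.1.one_lt.le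
      have hq2 : 1 ≤ y.2.2 := by
        rcases Nat.eq_zero_or_pos y.2.2 with h | h
        · rw [h, mul_zero] at h6
          omega
        · exact h
      rw [Finset.mem_product, Finset.mem_Icc, Finset.mem_Icc]
      refine ⟨⟨hq1, ?_⟩, hq2, ?_⟩
      · calc y.2.1 ≤ y.2.1 * y.2.2 := Nat.le_mul_of_pos_right _ (by omega)
          _ = y.1 := h6
          _ ≤ N := h5
      · apply Nat.le_floor
        rw [le_div_iff₀ hz0]
        push_cast at h12
        have h13 : (z : ℝ) ≤ y.2.1 := by exact_mod_cast h11.2.le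
        have h14 : (0 : ℝ) ≤ y.2.2 := Nat.cast_nonneg _
        nlinarith
    · intro q _ _
      exact hφ0 q
  rw [h1]
  refine h2.trans ?_
  rw [Finset.sum_product_right]
  refine Finset.sum_le_sum fun a ha => ?_
  rw [Finset.mem_Icc] at ha
  have ha0 : (0 : ℝ) < a := by exact_mod_cast ha.1
  have ha1 : (1 : ℝ) ≤ a := by exact_mod_cast ha.1
  have hxa : 0 < x / a := by positivity
  have hxle : x / a ≤ x := div_le_self hx.le ha1
  rw [SW_sum (hsup (x / a) hxa) _ (Nat.floor_le_floor (mul_le_mul_of_nonneg_left hxle (by linarith)) : _ ≤ N), Finset.mul_sum,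
    Finset.mul_sum]
  refine Finset.sum_le_sum fun p hp => ?_
  rw [hφ]
  dsimp only
  have e : (((p * a : ℕ) : ℝ) / x) = (p : ℝ) / (x / a) := by
    push_cast
    field_simp
  rw [e]
  have hk := pzk_nonneg z k a
  set W := w (((p : ℝ) / (x / a)) ^ T1) with hW
  have hW0 : 0 ≤ W := hw0 _
  rw [mul_comm (lz z p), mul_assoc]
  apply mul_le_mul_of_nonneg_left _ hk
  rcases eq_or_ne W 0 with h0 | h0
  · rw [h0]
    simp
  have h5 := hsup (x / a) hxa p h0
  have hp0 : (1 : ℝ) ≤ p := by exact_mod_cast h5.1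
  have h6 : Real.log p ≤ Real.log (x / a) + Real.log D := by
    rw [← Real.log_mul hxa.ne' (by linarith), mul_comm]
    exact Real.log_le_log (by linarith) h5.2
  have h7 : 0 ≤ Real.log (x / a) + Real.log D := (Real.log_nonneg hp0).trans h6
  rw [← mul_assoc]
  apply mul_le_mul_of_nonneg_right _ hW0
  rw [lz_apply]
  unfold pr
  by_cases hpp : p.Prime
  · rw [if_pos hpp, mul_one]
    split_ifs
    · exact h6
    · exact h7
  · rw [if_neg hpp, if_neg (fun h => hpp h.1), mul_zero]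

theorem mass_eq (k : ℕ) : mass k = ∑ f ∈ FF k, ∏ i, Real.log (((f i : ℝ) + 1) / (f i : ℝ)) := rfl

theorem mass_nonneg (k : ℕ) : 0 ≤ mass k := by
  rw [mass_eq]
  refine Finset.sum_nonneg fun f _ => Finset.prod_nonneg fun i _ => ?_
  rcases Nat.eq_zero_or_pos (f i) with h | h
  · rw [h]
    simp
  · have h0 : (0 : ℝ) < f i := by exact_mod_cast h
    apply Real.log_nonneg
    rw [le_div_iff₀ h0]
    linarith

theorem mass_cont (δ : ℝ) (hδ : 0 < δ) : ∃ ε : ℝ, 0 < ε ∧ ∀ k : ℕ, k < 8 →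
    ∑ f ∈ FF k, ∏ i, (Real.log (((f i : ℝ) + 1) / (f i : ℝ)) + ε) ≤ mass k + δ := by
  have h1 : ∀ k : ℕ, ∀ᶠ ε in 𝓝 (0 : ℝ), ∑ f ∈ FF k, ∏ i, (Real.log (((f i : ℝ) + 1) / (f i : ℝ)) + ε) < mass k + δ := by
    intro k
    have hc : Continuous fun ε : ℝ => ∑ f ∈ FF k, ∏ i, (Real.log (((f i : ℝ) + 1) / (f i : ℝ)) + ε) := by fun_prop
    have h2 := hc.tendsto 0
    have h3 : ∑ f ∈ FF k, ∏ i, (Real.log (((f i : ℝ) + 1) / (f i : ℝ)) + 0) = mass k := by
      rw [mass_eq]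
      simp only [add_zero]
    rw [h3] at h2
    exact h2.eventually (gt_mem_nhds (by linarith))
  have h2 : ∀ᶠ ε in 𝓝 (0 : ℝ), ∀ k ∈ Finset.range 8,
      ∑ f ∈ FF k, ∏ i, (Real.log (((f i : ℝ) + 1) / (f i : ℝ)) + ε) < mass k + δ := by
    rw [Filter.eventually_all_finset]
    exact fun k _ => h1 k
  have h3 : ∀ᶠ ε in 𝓝[>] (0 : ℝ), ∀ k ∈ Finset.range 8,
      ∑ f ∈ FF k, ∏ i, (Real.log (((f i : ℝ) + 1) / (f i : ℝ)) + ε) < mass k + δ := h2.filter_mono nhdsWithin_le_nhds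
  obtain ⟨ε, h4, h5⟩ := (h3.and self_mem_nhdsWithin).exists
  exact ⟨ε, h5, fun k hk => (h4 k (Finset.mem_range.2 hk)).le⟩

theorem ar_T {T x C0 : ℝ} (hT : 0 < T) (hC : C0 ≤ T) (hx : T ^ 2 ≤ x) : T * C0 ≤ x := by
  have h : T * C0 ≤ T * T := mul_le_mul_of_nonneg_left hC hT.le
  have e : T * T = T ^ 2 := by ring
  linarith

theorem ar_cube {T x D n : ℝ} (hD : 0 < D) (hT : 4 * D ≤ T) (hx : x ≤ 4 * T ^ 2) (hn : n ≤ D * x) : n ≤ T ^ 3 := by
  have h1 : D * x ≤ D * (4 * T ^ 2) := mul_le_mul_of_nonneg_left hx hD.le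
  have h2 : 4 * D * T ^ 2 ≤ T * T ^ 2 := mul_le_mul_of_nonneg_right hT (sq_nonneg T)
  have e : T * T ^ 2 = T ^ 3 := by ring
  linarith

theorem ar_A {L l a A R lx : ℝ} (hL : 0 < L) (hl : L ≤ l) (ha : 0 ≤ a) (hA : 0 ≤ A) (h7 : A * l ≤ R) (h5 : lx ≤ l + a) :
    lx * A ≤ (1 + a / L) * R := by
  have h9 : A ≤ R / L := by
    rw [le_div_iff₀ hL]
    exact (mul_le_mul_of_nonneg_left hl hA).trans h7
  calc lx * A ≤ (l + a) * A := mul_le_mul_of_nonneg_right h5 hA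
    _ = A * l + a * A := by ring
    _ ≤ R + a * (R / L) := add_le_add h7 (mul_le_mul_of_nonneg_left h9 ha)
    _ = (1 + a / L) * R := by ring

theorem stepA {w : ℝ → ℝ} (hw0 : ∀ u, 0 ≤ w u) {T T1 x C0 D : ℝ} (z k : ℕ) (hTone : 1 < T) (hC0 : 1 ≤ C0) (hD : 0 < D)
    (hT0 : C0 ≤ T) (hT4 : 4 * D ≤ T) (hx1 : T ^ 2 ≤ x) (hx2 : x ≤ 4 * T ^ 2) (hx0 : 0 < x)
    (hsup : ∀ n : ℕ, w (((n : ℝ) / x) ^ T1) ≠ 0 → 0 < n ∧ (n : ℝ) ≤ D * x)
    (hlo : ∀ n : ℕ, w (((n : ℝ) / x) ^ T1) ≠ 0 → x / C0 ≤ n) :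
    Real.log x * SW w (aJ z (k + 1)) x T1 ≤ (1 + Real.log C0 / Real.log T) *
      (SW w (fun n => (lz z * pz z ^ k) n) x T1 / (k.factorial : ℝ) + 3 * Real.log T * SW w (sqr z) x T1) := by
  rw [SW_sum hsup _ (le_refl ⌊D * x⌋₊), SW_sum hsup _ (le_refl ⌊D * x⌋₊), SW_sum hsup _ (le_refl ⌊D * x⌋₊),
    Finset.sum_div, Finset.mul_sum, Finset.mul_sum, ← Finset.sum_add_distrib, Finset.mul_sum]
  refine Finset.sum_le_sum fun n hn => ?_
  rw [Finset.mem_Icc] at hn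
  set W := w (((n : ℝ) / x) ^ T1) with hW
  have hW0 : 0 ≤ W := hw0 _
  rcases eq_or_ne W 0 with h0 | h0
  · rw [h0]
    simp
  have h1 := hlo n h0
  have h2 := (hsup n h0).2
  have hC00 : 0 < C0 := by linarith
  have hTp : 0 < T := by linarith
  have hn1 : (1 : ℝ) ≤ n := by exact_mod_cast hn.1
  have hn0 : (0 : ℝ) < n := by linarith
  have hx3 : x ≤ n * C0 := by
    rwa [div_le_iff₀ hC00] at h1
  have h3 : T ≤ n := le_trans ((le_div_iff₀ hC00).2 (ar_T hTp hT0 hx1)) h1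
  have hL0 : 0 < Real.log T := Real.log_pos hTone
  have h4 : Real.log T ≤ Real.log n := Real.log_le_log hTp h3
  have h5 : Real.log x ≤ Real.log n + Real.log C0 := by
    rw [← Real.log_mul hn0.ne' hC00.ne']
    exact Real.log_le_log hx0 hx3
  have h6 : Real.log n ≤ 3 * Real.log T := by
    have h8 := Real.log_le_log hn0 (ar_cube hD hT4 hx2 h2)
    rw [Real.log_pow] at h8
    exact_mod_cast h8
  have hln0 : 0 ≤ Real.log n := hL0.le.trans h4
  have ha0 : 0 ≤ Real.log C0 := Real.log_nonneg hC0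
  have hj0 := aJ_nonneg z (k + 1) n
  have hs0 := sqr_nonneg z n
  have h7 := aJ_le z k n hn.1
  have h8 := ar_A hL0 h4 ha0 hj0 h7 h5
  have h9 : (lz z * pz z ^ k) n / (k.factorial : ℝ) + sqr z n * Real.log n ≤
      (lz z * pz z ^ k) n / (k.factorial : ℝ) + 3 * Real.log T * sqr z n := by
    have h10 := mul_le_mul_of_nonneg_left h6 hs0
    have e : sqr z n * (3 * Real.log T) = 3 * Real.log T * sqr z n := by ring
    rw [e] at h10
    exact add_le_add_right h10 _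
  have haL : 0 ≤ 1 + Real.log C0 / Real.log T := add_nonneg zero_le_one (div_nonneg ha0 hL0.le)
  calc Real.log x * (aJ z (k + 1) n * W) = Real.log x * aJ z (k + 1) n * W := by ring
    _ ≤ (1 + Real.log C0 / Real.log T) * ((lz z * pz z ^ k) n / (k.factorial : ℝ) + 3 * Real.log T * sqr z n) * W := by
      apply mul_le_mul_of_nonneg_right _ hW0
      exact h8.trans (mul_le_mul_of_nonneg_left h9 haL)
    _ = (1 + Real.log C0 / Real.log T) * ((lz z * pz z ^ k) n * W / (k.factorial : ℝ) + 3 * Real.log T * (sqr z n * W)) := by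
      ring

theorem ar_q {T x D q z : ℝ} (hTone : 1 < T) (hD : 0 < D) (hT5 : (8 * D) ^ (500 : ℝ) < T) (hz0 : 0 < z)
    (hz2 : T ^ cE / 2 ≤ z) (hq0 : 0 < q) (h3 : q ≤ D * x / z) : T ^ ((1 : ℝ) / 5) ≤ x / q := by
  have hTp : 0 < T := by linarith
  have h4 : z / D ≤ x / q := by
    rw [div_le_div_iff₀ hD hq0]
    rw [le_div_iff₀ hz0] at h3
    linarith
  refine le_trans ?_ h4
  rw [le_div_iff₀ hD]
  have h5 : T ^ ((1 : ℝ) / 5) * T ^ ((1 : ℝ) / 500) ≤ T ^ cE := by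
    rw [← Real.rpow_add hTp]
    apply Real.rpow_le_rpow_of_exponent_le hTone.le
    norm_num [cE]
  have h9 : 8 * D < T ^ ((1 : ℝ) / 500) := by
    have := Real.rpow_lt_rpow (by positivity) hT5 (z := (1 : ℝ) / 500) (by norm_num)
    rwa [← Real.rpow_mul (by positivity), show (500 : ℝ) * (1 / 500) = 1 by norm_num, Real.rpow_one] at this
  have h10 : 0 < T ^ ((1 : ℝ) / 5) := by positivity
  have h11 : T ^ ((1 : ℝ) / 5) * (8 * D) ≤ T ^ ((1 : ℝ) / 5) * T ^ ((1 : ℝ) / 500) := mul_le_mul_of_nonneg_left h9.le h10.le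
  have h12 : 0 ≤ T ^ ((1 : ℝ) / 5) * D := by positivity
  have e : T ^ ((1 : ℝ) / 5) * (8 * D) = 8 * (T ^ ((1 : ℝ) / 5) * D) := by ring
  rw [e] at h11
  linarith

theorem ar_pr {X T1 S I1 l : ℝ} (hX : 0 < X) (hT : 0 < T1) (h : l * (T1 / X * S) ≤ I1) : l * S ≤ X / T1 * I1 := by
  calc l * S = X / T1 * (l * (T1 / X * S)) := by field_simp
    _ ≤ X / T1 * I1 := by gcongr

theorem stepB {w : ℝ → ℝ} (hw0 : ∀ u, 0 ≤ w u) {T T1 x D I1 mm : ℝ} (z k : ℕ) (hTone : 1 < T) (hD : 1 ≤ D) (hT5 : (8 * D) ^ (500 : ℝ) < T)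
    (hz1 : 1 ≤ z) (hz2 : T ^ cE / 2 ≤ (z : ℝ)) (hx2 : x ≤ 4 * T ^ 2) (hx0 : 0 < x) (hT10 : 0 < T1) (hI1 : 0 ≤ I1)
    (hsup : ∀ x' : ℝ, 0 < x' → ∀ n : ℕ, w (((n : ℝ) / x') ^ T1) ≠ 0 → 0 < n ∧ (n : ℝ) ≤ D * x')
    (hPN : ∀ X : ℝ, T ^ ((1 : ℝ) / 5) ≤ X → X ≤ 4 * T ^ 2 → Real.log X * (T1 / X * SW w pr X T1) ≤ I1)
    (hC : ∑ q ∈ Finset.Icc 1 ⌊D * x / z⌋₊, (pz z ^ k) q / (q : ℝ) ≤ mm) :
    SW w (fun n => (lz z * pz z ^ k) n) x T1 ≤ (1 + 5 * Real.log D / Real.log T) * I1 * (x / T1) * mm := by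
  have hTp : 0 < T := by linarith
  have hD0 : 0 < D := by linarith
  have hz0 : (0 : ℝ) < z := by exact_mod_cast hz1
  have hL0 : 0 < Real.log T := Real.log_pos hTone
  have hlD : 0 ≤ Real.log D := Real.log_nonneg hD
  refine (SW_fJ_le hw0 hx0 hD hsup z k hz1).trans ?_
  have h1 : ∑ q ∈ Finset.Icc 1 ⌊D * x / z⌋₊, (pz z ^ k) q * ((Real.log (x / q) + Real.log D) * SW w pr (x / q) T1) ≤
      ∑ q ∈ Finset.Icc 1 ⌊D * x / z⌋₊, (1 + 5 * Real.log D / Real.log T) * I1 * (x / T1) * ((pz z ^ k) q / (q : ℝ)) := by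
    refine Finset.sum_le_sum fun q hq => ?_
    rw [Finset.mem_Icc] at hq
    have hq1 : (1 : ℝ) ≤ q := by exact_mod_cast hq.1
    have hq0 : (0 : ℝ) < q := by linarith
    have hqY : (q : ℝ) ≤ D * x / z := (by exact_mod_cast hq.2 : (q : ℝ) ≤ (⌊D * x / z⌋₊ : ℕ)).trans (Nat.floor_le (by positivity))
    have hxq : 0 < x / q := by positivity
    have h2 : T ^ ((1 : ℝ) / 5) ≤ x / q := ar_q hTone hD0 hT5 hz0 hz2 hq0 hqY
    have h3 : x / q ≤ 4 * T ^ 2 := (div_le_self hx0.le hq1).trans hx2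
    have h4 := hPN (x / q) h2 h3
    have h5 : Real.log T / 5 ≤ Real.log (x / q) := by
      have h6 := Real.log_le_log (by positivity) h2
      rw [Real.log_rpow hTp] at h6
      linarith
    have hS0 : 0 ≤ SW w pr (x / q) T1 := tsum_nonneg fun n => mul_nonneg (by unfold pr; split_ifs <;> norm_num) (hw0 _)
    have h6 := ar_pr hxq hT10 h4
    have h7 : Real.log (x / q) + Real.log D ≤ (1 + 5 * Real.log D / Real.log T) * Real.log (x / q) := by
      have h8 : Real.log D ≤ 5 * Real.log D / Real.log T * Real.log (x / q) := by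
        calc Real.log D = 5 * Real.log D / Real.log T * (Real.log T / 5) := by field_simp
          _ ≤ 5 * Real.log D / Real.log T * Real.log (x / q) := mul_le_mul_of_nonneg_left h5 (by positivity)
      have e : (1 + 5 * Real.log D / Real.log T) * Real.log (x / q) =
          Real.log (x / q) + 5 * Real.log D / Real.log T * Real.log (x / q) := by ring
      rw [e]
      exact add_le_add_right h8 _
    have hk0 := pzk_nonneg z k q
    have hbL : 0 ≤ 1 + 5 * Real.log D / Real.log T := by positivity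
    calc (pz z ^ k) q * ((Real.log (x / q) + Real.log D) * SW w pr (x / q) T1) ≤
        (pz z ^ k) q * ((1 + 5 * Real.log D / Real.log T) * Real.log (x / q) * SW w pr (x / q) T1) :=
          mul_le_mul_of_nonneg_left (mul_le_mul_of_nonneg_right h7 hS0) hk0
      _ = (pz z ^ k) q * ((1 + 5 * Real.log D / Real.log T) * (Real.log (x / q) * SW w pr (x / q) T1)) := by ring
      _ ≤ (pz z ^ k) q * ((1 + 5 * Real.log D / Real.log T) * ((x / q) / T1 * I1)) :=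
          mul_le_mul_of_nonneg_left (mul_le_mul_of_nonneg_left h6 hbL) hk0
      _ = (1 + 5 * Real.log D / Real.log T) * I1 * (x / T1) * ((pz z ^ k) q / (q : ℝ)) := by ring
  refine h1.trans ?_
  rw [← Finset.mul_sum]
  exact mul_le_mul_of_nonneg_left hC (by positivity)

theorem ar_Y {T x D z : ℝ} (hTp : 0 < T) (hD : 0 < D) (hz0 : 0 < z) (hz2 : T ^ cE / 2 ≤ z) (hx2 : x ≤ 4 * T ^ 2) :
    D * x / z ≤ 8 * D * T ^ ((881 : ℝ) / 500) := by
  rw [div_le_iff₀ hz0]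
  have h1 : T ^ 2 = T ^ ((881 : ℝ) / 500) * T ^ cE := by
    rw [← Real.rpow_add hTp, ← Real.rpow_natCast]
    congr 1
    norm_num [cE]
  have h2 : D * x ≤ D * (4 * T ^ 2) := mul_le_mul_of_nonneg_left hx2 hD.le
  have h3 : 8 * D * T ^ ((881 : ℝ) / 500) * (T ^ cE / 2) ≤ 8 * D * T ^ ((881 : ℝ) / 500) * z :=
    mul_le_mul_of_nonneg_left hz2 (by positivity)
  refine le_trans h2 (le_trans (le_of_eq ?_) h3)
  rw [h1]
  ring

theorem ar_Q {I δ1 δ m M fk : ℝ} (hI : 0 ≤ I) (hδ1 : 0 < δ1) (hδ11 : δ1 ≤ 1) (hδ : 0 < δ) (hm0 : 0 ≤ m) (hmM : m ≤ M)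
    (hδ12 : δ1 * (M + I + 2) ≤ δ / 8) (hf : 1 ≤ fk) :
    (I + δ1) * (m + δ1) / fk ≤ (I + 1) * (M + 1) ∧ (I + δ1) * (m + δ1) / fk ≤ m / fk * I + δ / 8 := by
  have hf0 : 0 < fk := by linarith
  have hM0 : 0 ≤ M := hm0.trans hmM
  constructor
  · rw [div_le_iff₀ hf0]
    calc (I + δ1) * (m + δ1) ≤ (I + 1) * (M + 1) := by gcongr
      _ ≤ (I + 1) * (M + 1) * fk := le_mul_of_one_le_right (by positivity) hf
  · have h1 : (I + δ1) * (m + δ1) ≤ m * I + δ / 8 := by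
      have h2 : δ1 * (I + m + δ1) ≤ δ1 * (M + I + 2) := by
        apply mul_le_mul_of_nonneg_left _ hδ1.le
        linarith
      have e : (I + δ1) * (m + δ1) = m * I + δ1 * (I + m + δ1) := by ring
      rw [e]
      linarith
    rw [div_le_iff₀ hf0]
    have h2 : (m / fk * I + δ / 8) * fk = m * I + δ / 8 * fk := by
      field_simp
    rw [h2]
    have h3 : δ / 8 ≤ δ / 8 * fk := le_mul_of_one_le_right (by positivity) hf
    linarith

theorem ar_fin {lx T1 x SJ SF SQ a b L I1 mm C3 fk : ℝ} (hT1 : 0 < T1) (hx : 0 < x) (ha : 0 ≤ a) (hL : 0 < L) (hf : 0 < fk)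
    (hA : lx * SJ ≤ (1 + a / L) * (SF / fk + 3 * L * SQ)) (hB : SF ≤ (1 + b / L) * I1 * (x / T1) * mm)
    (hS : T1 / x * SQ ≤ C3 / L ^ 2) :
    lx * (T1 / x * SJ) ≤ (1 + a / L) * ((1 + b / L) * (I1 * mm / fk) + 3 * L * (C3 / L ^ 2)) := by
  have hTx : 0 < T1 / x := by positivity
  calc lx * (T1 / x * SJ) = T1 / x * (lx * SJ) := by ring
    _ ≤ T1 / x * ((1 + a / L) * (SF / fk + 3 * L * SQ)) := mul_le_mul_of_nonneg_left hA hTx.le
    _ = (1 + a / L) * ((T1 / x * SF) / fk + 3 * L * (T1 / x * SQ)) := by ring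
    _ ≤ (1 + a / L) * ((1 + b / L) * (I1 * mm / fk) + 3 * L * (C3 / L ^ 2)) := by
      have haL : 0 ≤ 1 + a / L := by positivity
      apply mul_le_mul_of_nonneg_left _ haL
      apply add_le_add
      · rw [div_le_iff₀ hf]
        calc T1 / x * SF ≤ T1 / x * ((1 + b / L) * I1 * (x / T1) * mm) := mul_le_mul_of_nonneg_left hB hTx.le
          _ = (1 + b / L) * (I1 * mm / fk) * fk := by field_simp
      · exact mul_le_mul_of_nonneg_left hS (by positivity)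

theorem ar_last {a b L Q Qm C3 : ℝ} (ha : 0 ≤ a) (hb : 0 ≤ b) (hL1 : 1 ≤ L) (hQ0 : 0 ≤ Q) (hQ1 : Q ≤ Qm) (hC3 : 0 ≤ C3) :
    (1 + a / L) * ((1 + b / L) * Q + 3 * L * (C3 / L ^ 2)) ≤ Q + ((a + b + a * b) * Qm + 3 * (1 + a) * C3) / L := by
  have hL0 : 0 < L := by linarith
  have e : (1 + a / L) * ((1 + b / L) * Q + 3 * L * (C3 / L ^ 2)) =
      Q + ((a + b + a * b / L) * Q + 3 * (1 + a / L) * C3) / L := by
    field_simp
    ring
  rw [e]
  have haL : a / L ≤ a := div_le_self ha hL1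
  have habL : a * b / L ≤ a * b := div_le_self (by positivity) hL1
  have h1 : (a + b + a * b / L) * Q ≤ (a + b + a * b) * Qm := by
    apply mul_le_mul _ hQ1 hQ0 (by positivity)
    linarith
  have h2 : 3 * (1 + a / L) * C3 ≤ 3 * (1 + a) * C3 := by
    apply mul_le_mul_of_nonneg_right _ hC3
    linarith
  have h3 : ((a + b + a * b / L) * Q + 3 * (1 + a / L) * C3) / L ≤ ((a + b + a * b) * Qm + 3 * (1 + a) * C3) / L :=
    div_le_div_of_nonneg_right (add_le_add h1 h2) hL0.le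
  linarith

theorem ev_log (B : ℝ) : ∀ᶠ T : ℝ in atTop, Real.log T ^ B ≤ T := by
  have h1 := (isLittleO_log_rpow_rpow_atTop B (zero_lt_one)).bound (one_pos)
  filter_upwards [h1, eventually_ge_atTop (1 : ℝ)] with T h2 h3
  have h4 := Real.rpow_nonneg (Real.log_nonneg h3) B
  rw [Real.rpow_one, one_mul, Real.norm_of_nonneg h4, Real.norm_of_nonneg (by linarith : (0 : ℝ) ≤ T)] at h2
  exact h2

theorem ar_z {T : ℝ} (hT32 : 32 ≤ T) : 1 ≤ zz cE T ∧ T ^ cE / 2 ≤ (zz cE T : ℝ) := by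
  have hTone : 1 < T := by linarith
  have hTc2 : 2 ≤ T ^ cE := by
    have h1 : (2 : ℝ) = (32 : ℝ) ^ ((1 : ℝ) / 5) := by
      rw [show (32 : ℝ) = 2 ^ (5 : ℝ) by norm_num, ← Real.rpow_mul (by norm_num)]
      norm_num
    calc (2 : ℝ) = (32 : ℝ) ^ ((1 : ℝ) / 5) := h1
      _ ≤ T ^ ((1 : ℝ) / 5) := Real.rpow_le_rpow (by norm_num) hT32 (by norm_num)
      _ ≤ T ^ cE := Real.rpow_le_rpow_of_exponent_le hTone.le (by norm_num [cE])
  have hz2 : T ^ cE / 2 ≤ (zz cE T : ℝ) := by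
    have := Nat.sub_one_lt_floor (T ^ cE)
    unfold zz
    linarith
  refine ⟨?_, hz2⟩
  have : (1 : ℝ) ≤ (zz cE T : ℝ) := by linarith
  exact_mod_cast this

end XAl_aux

open XAl_aux in
theorem iXAl (hPN : StXPN) (hMe : StXMe) (hSq : StXSq) : StXAl := by
  intro w hw hw0 B δ hB hδ
  obtain ⟨C0, hC0, _, hwin⟩ := Win.window w hw
  have hC00 : 0 < C0 := by linarith
  obtain ⟨D, hD⟩ : ∃ D : ℝ, D = 1 + C0 := ⟨_, rfl⟩
  have hD1 : 1 ≤ D := by linarith
  have hD0 : 0 < D := by linarith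
  have hI : 0 ≤ Iw w := by
    unfold Iw
    exact setIntegral_nonneg measurableSet_Ioi fun u hu => div_nonneg (hw0 u) (le_of_lt hu)
  obtain ⟨M, hMdef⟩ : ∃ M : ℝ, M = ∑ k ∈ Finset.range 8, mass k := ⟨_, rfl⟩
  have hM0 : 0 ≤ M := by
    rw [hMdef]
    exact Finset.sum_nonneg fun k _ => mass_nonneg k
  have hMk : ∀ k, k < 8 → mass k ≤ M := fun k hk => by
    rw [hMdef]
    exact Finset.single_le_sum (fun i _ => mass_nonneg i) (Finset.mem_range.2 hk)
  have hP0 : 0 < M + Iw w + 2 := by linarith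
  obtain ⟨δ1, hδ1def⟩ : ∃ δ1 : ℝ, δ1 = min 1 (δ / (8 * (M + Iw w + 2))) := ⟨_, rfl⟩
  have hδ1 : 0 < δ1 := by
    rw [hδ1def]
    exact lt_min one_pos (by positivity)
  have hδ11 : δ1 ≤ 1 := by
    rw [hδ1def]
    exact min_le_left _ _
  have hδ12 : δ1 * (M + Iw w + 2) ≤ δ / 8 := by
    have h1 : δ1 ≤ δ / (8 * (M + Iw w + 2)) := by
      rw [hδ1def]
      exact min_le_right _ _
    calc δ1 * (M + Iw w + 2) ≤ δ / (8 * (M + Iw w + 2)) * (M + Iw w + 2) := mul_le_mul_of_nonneg_right h1 hP0.le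
      _ = δ / 8 := by field_simp
  obtain ⟨ε, hε, hmass⟩ := mass_cont δ1 hδ1
  obtain ⟨C1, hC1, hPN'⟩ := hPN w hw hw0 B δ1 hB hδ1
  obtain ⟨C2, hC2, hMe'⟩ := hMe ε hε
  obtain ⟨C3, hC3, hSq'⟩ := hSq w hw hw0 cE (by norm_num [cE]) (by norm_num [cE])
  have ha0 : 0 ≤ Real.log C0 := Real.log_nonneg hC0
  have hb0 : 0 ≤ 5 * Real.log D := mul_nonneg (by norm_num) (Real.log_nonneg hD1)
  obtain ⟨Kf, hKf⟩ : ∃ Kf : ℝ, Kf = (Real.log C0 + 5 * Real.log D + Real.log C0 * (5 * Real.log D)) * ((Iw w + 1) * (M + 1)) +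
    3 * (1 + Real.log C0) * C3 := ⟨_, rfl⟩
  have hev : ∀ᶠ T : ℝ in atTop, C1 ≤ T ∧ C2 ≤ T ∧ C3 ≤ T ∧ C0 ≤ T ∧ 4 * D ≤ T ∧ 32 ≤ T ∧ (8 * D) ^ (500 : ℝ) < T ∧
      Real.log T ^ B ≤ T ∧ 1 ≤ Real.log T ∧ 2 * Kf / δ ≤ Real.log T := by
    filter_upwards [eventually_ge_atTop C1, eventually_ge_atTop C2, eventually_ge_atTop C3, eventually_ge_atTop C0,
      eventually_ge_atTop (4 * D), eventually_ge_atTop (32 : ℝ), eventually_gt_atTop ((8 * D) ^ (500 : ℝ)), ev_log B,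
      Real.tendsto_log_atTop.eventually_ge_atTop 1, Real.tendsto_log_atTop.eventually_ge_atTop (2 * Kf / δ)]
      with T h1 h2 h3 h4 h5 h6 h7 h8 h9 h10
    exact ⟨h1, h2, h3, h4, h5, h6, h7, h8, h9, h10⟩
  obtain ⟨C', hC'⟩ := eventually_atTop.1 hev
  refine ⟨max 1 C', le_max_left _ _, ?_⟩
  intro T x hT hx1 hx2 J hJ3 hJ8
  obtain ⟨hT1, hT2, hT3, hT0', hT4, hT32, hT5, hTB, hL1, hLK⟩ := hC' T ((le_max_right _ _).trans hT)
  obtain ⟨k, rfl⟩ : ∃ k, J = k + 1 := ⟨J - 1, by omega⟩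
  have hk8 : k < 8 := by omega
  rw [Nat.add_sub_cancel]
  have hL0 : 0 < Real.log T := by linarith
  have hTp : 0 < T := by linarith
  have hTone : 1 < T := by linarith
  obtain ⟨T1, hT1def⟩ : ∃ T1 : ℝ, T1 = Real.log T ^ B := ⟨_, rfl⟩
  have hT11 : 1 ≤ T1 := by
    rw [hT1def]
    exact Real.one_le_rpow hL1 (by linarith)
  have hT10 : 0 < T1 := by linarith
  have hx0 : 0 < x := lt_of_lt_of_le (by positivity) hx1
  obtain ⟨hz1, hz2⟩ := ar_z hT32
  have hz0 : (0 : ℝ) < (zz cE T : ℝ) := by exact_mod_cast hz1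
  have hsup : ∀ x' : ℝ, 0 < x' → ∀ n : ℕ, w (((n : ℝ) / x') ^ T1) ≠ 0 → 0 < n ∧ (n : ℝ) ≤ D * x' := by
    intro x' hx' n hn
    obtain ⟨x1, h1, h2, h3⟩ := hwin x' T1 hx' hT11
    obtain ⟨h4, h5⟩ := h3 n hn
    have h6 : 0 < x' / C0 := by positivity
    have h7 : (0 : ℝ) < n := by linarith
    refine ⟨by exact_mod_cast h7, ?_⟩
    have h8 : x' / T1 ≤ x' := div_le_self hx'.le hT11
    have h9 : C0 * (x' / T1) ≤ C0 * x' := mul_le_mul_of_nonneg_left h8 hC00.le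
    rw [hD, add_mul, one_mul]
    linarith
  have hlo : ∀ n : ℕ, w (((n : ℝ) / x) ^ T1) ≠ 0 → x / C0 ≤ n := by
    intro n hn
    obtain ⟨x1, h1, h2, h3⟩ := hwin x T1 hx0 hT11
    exact h1.trans (h3 n hn).1.le
  have hf : (1 : ℝ) ≤ (k.factorial : ℝ) := by exact_mod_cast Nat.factorial_pos k
  have hf0 : (0 : ℝ) < (k.factorial : ℝ) := by linarith
  have hA := stepA hw0 (zz cE T) k hTone hC0 hD0 hT0' hT4 hx1 hx2 hx0 (hsup x hx0) hlo
  have hY : ((⌊D * x / (zz cE T : ℝ)⌋₊ : ℕ) : ℝ) ≤ 8 * D * T ^ ((881 : ℝ) / 500) :=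
    (Nat.floor_le (by positivity)).trans (ar_Y hTp hD0 hz0 hz2 hx2)
  have hCe : ∑ q ∈ Finset.Icc 1 ⌊D * x / (zz cE T : ℝ)⌋₊, (pz (zz cE T) ^ k) q / (q : ℝ) ≤ mass k + δ1 := by
    refine (sum_cells hTone hD0 hT5 k _ hY (ε := ε) ?_).trans (hmass k hk8)
    intro j hj1 hj2
    exact hMe' T j hT2 hj1 hj2
  have hPN2 : ∀ X : ℝ, T ^ ((1 : ℝ) / 5) ≤ X → X ≤ 4 * T ^ 2 → Real.log X * (T1 / X * SW w pr X T1) ≤ Iw w + δ1 := by
    intro X h1 h2
    have h3 := (abs_le.1 (hPN' T X hT1 h1 h2)).2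
    rw [← hT1def] at h3
    linarith
  have hB' := stepB hw0 (zz cE T) k hTone hD1 hT5 hz1 hz2 hx2 hx0 hT10 (by linarith : 0 ≤ Iw w + δ1) hsup hPN2 hCe
  have hS := hSq' T T1 x hT3 hT11 (hT1def ▸ hTB) hx1 hx2
  have hQ := ar_Q hI hδ1 hδ11 hδ (mass_nonneg k) (hMk k hk8) hδ12 hf
  have hfin := ar_fin hT10 hx0 ha0 hL0 hf0 hA hB' hS
  have hQ0 : 0 ≤ (Iw w + δ1) * (mass k + δ1) / (k.factorial : ℝ) := by
    have := mass_nonneg k
    positivity
  have hlast := ar_last ha0 hb0 hL1 hQ0 hQ.1 (by linarith : 0 ≤ C3)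
  rw [← hKf] at hlast
  have hKL : Kf / Real.log T ≤ δ / 2 := by
    rw [div_le_iff₀ hL0]
    rw [div_le_iff₀ hδ] at hLK
    linarith
  rw [← hT1def]
  have hQ2 := hQ.2
  linarith

end Pool.Agent.Work.MP_a8fbd7_nt.EX.ASM
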