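/-
MP_a8fbd7_nt, block EX, part ASM, item XBB: boxes without long slots (reduction to the cell theorem XB).  Author: helper62.
-/
import Mathlib
import Pool.Agent.Work.MP_a8fbd7_nt.EX.ASM.Stmts
import Pool.Agent.Work.MP_a8fbd7_nt.EX.ASM.I_XAA
import Pool.Agent.Work.MP_a8fbd7_nt.OX.ASM.I_AA
import Pool.Agent.Work.MP_a8fbd7_nt.OX.ASM.I_BB

set_option autoImplicit false

open MeasureTheory Set Filter Topology

noncomputable section

namespace Pool.Agent.Work.MP_a8fbd7_nt.EX.ASM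

open Pool.Agent.Work.MP_56b8f5_nt.UC (IsWt Bl Dp Om psi eta Sep)
open Pool.Agent.Work.MP_a8fbd7_nt.OX
open Pool.Agent.Work.MP_a8fbd7_nt.OX.ID (Rough roughOne pb rg)
open Pool.Agent.Work.MP_a8fbd7_nt.OX.ASM
open Pool.Agent.Work.MP_a8fbd7_nt.EX

namespace XBB_aux

open Rg_aux

/-- the slots of a box in one family -/
def ol {n : ℕ} (u : Fin 4 → Option ℕ) (v : Fin n → Option ℕ) : Fin 4 ⊕ Fin n → Option ℕ := Sum.elim u v

/-- the slot functions of a box in one family -/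
def sl (y z : ℕ) {n : ℕ} (u : Fin 4 → Option ℕ) (v : Fin n → Option ℕ) : Fin 4 ⊕ Fin n → ArithmeticFunction ℝ :=
  Sum.elim (fun i => ms y (u i)) (fun r => ps y z (v r))

theorem BX_eq (y z : ℕ) {n : ℕ} (u : Fin 4 → Option ℕ) (v : Fin n → Option ℕ) : BX y z u v = ∏ j, sl y z u v j := by
  rw [Fintype.prod_sum_type]
  rfl

theorem PX_eq {n : ℕ} (u : Fin 4 → Option ℕ) (v : Fin n → Option ℕ) : PX u v = ∏ j, sc (ol u v j) := by
  rw [Fintype.prod_sum_type]
  rfl

theorem sl_supp (y z : ℕ) {n : ℕ} (u : Fin 4 → Option ℕ) (v : Fin n → Option ℕ) (j : Fin 4 ⊕ Fin n) (k : ℕ)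
    (h : sl y z u v j k ≠ 0) : sc (ol u v j) / 2 ≤ k ∧ k ≤ Yn (ol u v j) := by
  rcases j with i | i
  · exact ms_supp y (u i) k h
  · exact ps_supp y z (v i) k h

theorem sl_none (y z : ℕ) {n : ℕ} (u : Fin 4 → Option ℕ) (v : Fin n → Option ℕ) (j : Fin 4 ⊕ Fin n)
    (h : ol u v j = none) : sl y z u v j = 1 := by
  rcases j with i | i
  · change u i = none at h
    change ms y (u i) = 1
    rw [h]
    rfl
  · change v i = none at h
    change ps y z (v i) = 1
    rw [h]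
    rfl

theorem sl_le (y z : ℕ) {n : ℕ} (u : Fin 4 → Option ℕ) (v : Fin n → Option ℕ) (j : Fin 4 ⊕ Fin n) (k : ℕ) :
    |sl y z u v j k| ≤ 1 := by
  classical
  have h1 : |(1 : ArithmeticFunction ℝ) k| ≤ 1 := by
    rw [ArithmeticFunction.one_apply]
    exact BB_aux.abs_ind_le _
  rcases j with i | i
  · change |ms y (u i) k| ≤ 1
    rcases u i with _ | l
    · exact h1
    · change |roughOne y k * psi ((k : ℝ) / 2 ^ l)| ≤ 1
      rw [abs_mul]
      refine mul_le_one₀ ?_ (abs_nonneg _) (BB_aux.abs_psi_le _)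
      rw [ID.roughOne_apply]
      exact BB_aux.abs_ind_le _
  · change |ps y z (v i) k| ≤ 1
    rcases v i with _ | l
    · exact h1
    · change |pb y z k * psi ((k : ℝ) / 2 ^ l)| ≤ 1
      rw [abs_mul]
      refine mul_le_one₀ ?_ (abs_nonneg _) (BB_aux.abs_psi_le _)
      rw [ID.pb_apply]
      exact BB_aux.abs_ind_le _

/-- a nonzero slot function forces a lower bound for the scale of a used slot, and an upper bound for prime slots -/
theorem sl_scale (η κ T : ℝ) (hT : 1 ≤ T) (hκT : 2 ≤ T ^ κ) {n : ℕ} (u : Fin 4 → Option ℕ) (v : Fin n → Option ℕ)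
    (h : ∀ j, sl (zz η T) (zz cE T) u v j ≠ 0) (j : Fin 4 ⊕ Fin n) (l : ℕ) (hl : ol u v j = some l) :
    T ^ η / 2 ≤ (2 : ℝ) ^ l ∧ (∀ r, j = Sum.inr r → (2 : ℝ) ^ l ≤ T ^ (cE + κ)) := by
  have hps : ∀ r, ps (zz η T) (zz cE T) (v r) ≠ 0 := fun r => h (Sum.inr r)
  rcases j with i | r
  · refine ⟨?_, fun r hr => by cases hr⟩
    change u i = some l at hl
    have h1 : ms (zz η T) (u i) ≠ 0 := h (Sum.inl i)
    rw [hl] at h1
    exact AAx.rb_ge h1
  · change v r = some l at hl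
    obtain ⟨h1, h2⟩ := XAA_aux.v_scale η κ T v hT hκT hps r l hl
    exact ⟨h1, fun _ _ => h2⟩

/-- the used slots, indexed by `Fin m` -/
theorem exists_index {ι : Type} [Fintype ι] (o : ι → Option ℕ) : ∃ (m : ℕ) (e : Fin m → ι) (l : Fin m → ℕ),
    Function.Injective e ∧ (∀ i, o (e i) = some (l i)) ∧
    ∀ (M : Type) [CommMonoid M] (F : ι → M), (∀ j, o j = none → F j = 1) → ∏ i, F (e i) = ∏ j, F j := by
  classical
  let J := {j : ι // (o j).isSome}
  let e : Fin (Fintype.card J) ≃ J := (Fintype.equivFin J).symm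
  refine ⟨Fintype.card J, fun i => (e i : ι), fun i => (o (e i : ι)).get (e i).2, ?_, ?_, ?_⟩
  · exact Subtype.val_injective.comp e.injective
  · intro i
    simp
  · intro M _ F hF
    rw [Equiv.prod_comp e (fun j : J => F (j : ι)), ← Fintype.prod_subtype_mul_prod_subtype (fun j => (o j).isSome) F]
    have h1 : ∏ i : {x // ¬ (o x).isSome}, F i = 1 := by
      refine Finset.prod_eq_one ?_
      rintro ⟨x, hx⟩ -
      exact hF x (by simpa using hx)
    rw [h1, mul_one]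

/-- the product over the prime slots as the product over the group `2` of the used slots -/
theorem prod_grp {n m : ℕ} (u : Fin 4 → Option ℕ) (v : Fin n → Option ℕ) (e : Fin m → Fin 4 ⊕ Fin n) (N : Fin m → ℝ)
    (hN : ∀ i, sc (ol u v (e i)) = N i)
    (hprod : ∀ F : Fin 4 ⊕ Fin n → ℝ, (∀ j, ol u v j = none → F j = 1) → ∏ i, F (e i) = ∏ j, F j) :
    ∏ i ∈ Finset.univ.filter (fun i => XAA_aux.grp (e i) = 2), N i = ∏ r, sc (v r) := by
  rw [Finset.prod_filter]
  have h1 := hprod (fun j => if XAA_aux.grp j = 2 then sc (ol u v j) else 1) (by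
    intro j hj
    simp only [hj]
    split_ifs
    · rfl
    · rfl)
  simp only [hN] at h1
  rw [h1, Fintype.prod_sum_type]
  have h2 : ∏ i : Fin 4, (if XAA_aux.grp (n := n) (Sum.inl i) = 2 then sc (ol u v (Sum.inl i)) else 1) = 1 := by
    refine Finset.prod_eq_one ?_
    intro i _
    refine if_neg ?_
    simp only [XAA_aux.grp]
    split_ifs
    · decide
    · decide
  rw [h2, one_mul]
  refine Finset.prod_congr rfl ?_
  intro r _
  exact if_pos rfl

open Classical in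
/-- **Reduction of a large sum over any finite set to the hypothesis of the cell theorem XB** -/
theorem red (hF4 : StF4) (hPd : StPd) (hRg : StXRg) (hSa : StSa) (β κ : ℝ) (hκ : 0 < κ) (hκ2 : κ ≤ 1 / 10) (w : ℝ → ℝ)
    (hw : IsWt w) (η A ε A1 : ℝ) (hη : 0 < η) (hη2 : η ≤ 1 / 20) (hA : 0 < A) (hε : 0 < ε)
    (hε2 : ε ≤ 1 / 1000) (hA1 : 0 < A1) :
    ∃ B0 : ℝ, 1 ≤ B0 ∧ ∀ B : ℝ, B0 ≤ B → ∃ C : ℝ, 1 ≤ C ∧
      ∀ (T : ℝ) (u : Fin 4 → Option ℕ) (v : Fin (4 * SS η) → Option ℕ) (S : Finset ℝ) (g0 : ℝ → ℂ), C ≤ T →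
      (∀ i, ¬ Lg T (κ / 4) (u i)) → T ^ β ≤ ∏ r, sc (v r) → S.Nonempty → (∀ x ∈ S, T ^ 2 ≤ x ∧ x ≤ 4 * T ^ 2) →
      (∀ x, ‖g0 x‖ ≤ 1) →
      S.card * (1 / Real.log T ^ A) ≤
        ‖∑ x ∈ S, g0 x * ((DD w (BX (zz η T) (zz cE T) u v) x T (Real.log T ^ B) : ℝ) : ℂ)‖ →
      ∃ (T' : ℝ) (g : ℝ → ℂ) (m : ℕ) (a : Fin m → ℕ → ℂ) (N : Fin m → ℝ) (gr : Fin m → Fin 3), 1 ≤ T' ∧ T' ≤ T ^ (1 + ε) ∧
        ((∀ x, g x = if T ^ 2 ≤ x then g0 x * ((T ^ 2 / x : ℝ) : ℂ) else 0) ∨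
          (∀ x, g x = if T ^ 2 ≤ x then (starRingEnd ℂ) (g0 x) * ((T ^ 2 / x : ℝ) : ℂ) else 0)) ∧
        (∀ i, IsBlk (a i) (N i)) ∧ (∀ i, T ^ η / 2 ≤ N i ∧ N i ≤ T ^ (1 / 2 + κ)) ∧
        T ^ (2 - ε) ≤ ∏ i, N i ∧ ∏ i, N i ≤ T ^ (2 + ε) ∧
        (∏ i ∈ Finset.univ.filter (fun i => gr i = 0), N i) ≤ T ^ (1 + κ) ∧
        (∏ i ∈ Finset.univ.filter (fun i => gr i = 1), N i) ≤ T ^ (1 + κ) ∧
        (∀ i, gr i = 2 → N i ≤ T ^ (cE + κ)) ∧
        T ^ β ≤ ∏ i ∈ Finset.univ.filter (fun i => gr i = 2), N i ∧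
        (∀ i, ∀ t ∈ Icc T' (2 * T'), ‖PB (a i) (N i) t‖ ≤ N i / Real.log T ^ A1) ∧
        S.card * (∏ i, N i) / Real.log T ^ (A + 2) ≤ ∫ t in T'..(2 * T'), ‖GS S g t‖ * ∏ i, ‖PB (a i) (N i) t‖ := by
  obtain ⟨B', CS, hB', hCS, hSa'⟩ := hSa A1 η hA1 hη hη2
  obtain ⟨CF, hCF, hF⟩ := hF4 w hw ε hε (by linarith)
  obtain ⟨CR, hCR, hR⟩ := hRg w hw (4 * SS η)
  have h2S : (1 : ℝ) ≤ 2 ^ (4 + 4 * SS η) := one_le_pow₀ (by norm_num)
  set M : ℝ := 2 ^ (4 + 4 * SS η) * CR with hM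
  have hM1 : 1 ≤ M := one_le_mul_of_one_le_of_one_le h2S hCR
  have hMR : CR ≤ M := le_mul_of_one_le_left (by linarith) h2S
  have hK1 : 1 ≤ CF * M := one_le_mul_of_one_le_of_one_le hCF hM1
  have hKM : CF * CR ≤ CF * M := mul_le_mul_of_nonneg_left hMR (by linarith)
  have hKR : CR ≤ CF * M := hMR.trans (le_mul_of_one_le_left (by linarith) hCF)
  refine ⟨2 * B' + A + 1, by linarith, ?_⟩
  intro B hB
  obtain ⟨C0, hC0, hE⟩ := BB_aux.ev_facts κ ε A B B' (CF * M) hκ hε hB hK1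
  refine ⟨max C0 CS, hC0.trans (le_max_left _ _), ?_⟩
  intro T u v S g0 hT hLg hSh hne hx hg0 hbig
  obtain ⟨hT3, hlogK, hTB', hTB, hδ', hKε, h2κ⟩ := hE T ((le_max_left _ _).trans hT)
  have hTS : CS ≤ T := (le_max_right _ _).trans hT
  have hT0 : 0 < T := by linarith
  have hL : 0 < Real.log T := by linarith
  have hL1 : 1 ≤ Real.log T := by linarith
  have hLA : 0 < Real.log T ^ A := Real.rpow_pos_of_pos hL A
  have hcard : 0 < (S.card : ℝ) := by exact_mod_cast Finset.card_pos.2 hne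
  set y : ℕ := zz η T with hy
  set z : ℕ := zz cE T with hz
  have hTB1 : 1 ≤ Real.log T ^ B := Real.one_le_rpow hL1 (by linarith)
  have hTB'1 : 1 ≤ Real.log T ^ B' := Real.one_le_rpow hL1 (by linarith)
  -- some difference is not zero
  obtain ⟨x0, hx0, hDD⟩ : ∃ x ∈ S, DD w (BX y z u v) x T (Real.log T ^ B) ≠ 0 := by
    by_contra hc
    push Not at hc
    have h1 : ∑ x ∈ S, g0 x * ((DD w (BX y z u v) x T (Real.log T ^ B) : ℝ) : ℂ) = 0 := by
      refine Finset.sum_eq_zero ?_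
      intro x hxS
      rw [hc x hxS]
      simp
    rw [h1, norm_zero] at hbig
    have h2 : 0 < (S.card : ℝ) * (1 / Real.log T ^ A) := by positivity
    linarith
  -- total scale
  have hPX : T ^ 2 / CR ≤ PX u v ∧ PX u v ≤ CR * T ^ 2 := by
    have h1 : SW w (BX y z u v) x0 T ≠ 0 ∨ SW w (BX y z u v) x0 (Real.log T ^ B) ≠ 0 := by
      by_contra hc
      push Not at hc
      apply hDD
      unfold DD
      rw [hc.1, hc.2]
      simp
    rcases h1 with h | h
    · exact hR T 0 x0 T y z (fun _ _ => 0) u v (by linarith) (by linarith) (hx x0 hx0).1 (hx x0 hx0).2 (Or.inl h)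
    · exact hR T 0 x0 (Real.log T ^ B) y z (fun _ _ => 0) u v (by linarith) hTB1 (hx x0 hx0).1 (hx x0 hx0).2 (Or.inl h)
  -- every slot function is not zero
  have hsl : ∀ j, sl y z u v j ≠ 0 := by
    intro j hj
    apply hDD
    have hBX : BX y z u v = 0 := by
      rw [BX_eq]
      exact Finset.prod_eq_zero (Finset.mem_univ j) hj
    rw [hBX]
    exact BB_aux.DD_zero w x0 T _
  obtain ⟨m, e, l, he, hel, hprod⟩ := exists_index (ol u v)
  have hsc : ∀ i, sc (ol u v (e i)) = 2 ^ l i := by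
    intro i
    rw [hel]
    rfl
  have hprodN : ∏ i, (2 : ℝ) ^ l i = PX u v := by
    rw [PX_eq, ← hprod ℝ (fun j => sc (ol u v j)) (by
      intro j hj
      simp only [hj]
      rfl)]
    exact Finset.prod_congr rfl (fun i _ => (hsc i).symm)
  -- products of arithmetic functions
  have hPd' := hPd (Fin 4 ⊕ Fin (4 * SS η)) Finset.univ (sl y z u v) (fun j => sc (ol u v j) / 2) (fun j => Yn (ol u v j))
    (by
      intro j _
      have := sc_pos (ol u v j)
      positivity)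
    (by
      intro j _ n hn
      exact sl_supp y z u v j n hn)
  obtain ⟨hPd1, hPd2, hPd3⟩ := hPd'
  rw [← BX_eq] at hPd1 hPd2 hPd3
  have hmass : ∑ n ∈ Finset.Icc 1 (∏ j, Yn (ol u v j)), |BX y z u v n| ≤ M * T ^ 2 := by
    refine (hPd2 _).trans ?_
    have h1 : ∀ j : Fin 4 ⊕ Fin (4 * SS η), ∑ n ∈ Finset.Icc 1 (Yn (ol u v j)), |sl y z u v j n| ≤ 2 * sc (ol u v j) := by
      intro j
      calc ∑ n ∈ Finset.Icc 1 (Yn (ol u v j)), |sl y z u v j n| ≤ ∑ n ∈ Finset.Icc 1 (Yn (ol u v j)), (1 : ℝ) :=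
            Finset.sum_le_sum fun n _ => sl_le y z u v j n
        _ = ((Yn (ol u v j) : ℕ) : ℝ) := by simp
        _ = 2 * sc (ol u v j) := Yn_cast _
    refine (Finset.prod_le_prod (fun j _ => Finset.sum_nonneg fun n _ => abs_nonneg _) (fun j _ => h1 j)).trans ?_
    rw [Finset.prod_mul_distrib, ← PX_eq]
    simp only [Finset.prod_const, Finset.card_univ, Fintype.card_sum, Fintype.card_fin]
    rw [hM, mul_assoc]
    exact mul_le_mul_of_nonneg_left hPX.2 (by positivity)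
  obtain ⟨T', g, hT'1, hT'2, hg, hint⟩ := hF T (Real.log T ^ B') (Real.log T ^ B) M (1 / Real.log T ^ A)
    (∏ j, Yn (ol u v j)) (fun n => BX y z u v n) S g0 hT3 hTB'1 hTB' hTB1 hTB (by linarith) (by positivity)
    (fun n hn => ⟨(hPd1 n hn).1, (hPd1 n hn).2.2⟩) hmass hδ' (fun x hxS => (hx x hxS).1) hg0 hbig
  have hscale2 : ∀ i, ∀ r, e i = Sum.inr r → (2 : ℝ) ^ l i ≤ T ^ (cE + κ) := fun i r hr =>
    (sl_scale η κ T (by linarith) h2κ u v hsl (e i) (l i) (hel i)).2 r hr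
  have hscale4 : ∀ i, (2 : ℝ) ^ l i ≤ T ^ (1 / 2 + κ / 4) := by
    intro i
    rcases he' : e i with k | r
    · have h2 : u k = some (l i) := by
        have := hel i
        rw [he'] at this
        exact this
      by_contra hc
      push Not at hc
      exact hLg k ⟨l i, h2, hc⟩
    · refine (hscale2 i r he').trans (Real.rpow_le_rpow_of_exponent_le (by linarith) ?_)
      unfold cE
      linarith
  have hscale : ∀ i, T ^ η / 2 ≤ (2 : ℝ) ^ l i ∧ (2 : ℝ) ^ l i ≤ T ^ (1 / 2 + κ) := by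
    intro i
    refine ⟨(sl_scale η κ T (by linarith) h2κ u v hsl (e i) (l i) (hel i)).1, (hscale4 i).trans ?_⟩
    exact Real.rpow_le_rpow_of_exponent_le (by linarith) (by linarith)
  have hgrp : ∀ a : Fin 3, a = 0 ∨ a = 1 →
      ∏ i ∈ Finset.univ.filter (fun i => XAA_aux.grp (e i) = a), (2 : ℝ) ^ l i ≤ T ^ (1 + κ) := by
    intro a ha
    refine (XAA_aux.grp_prod T (κ / 4) (by linarith) (by linarith) (fun i => (2 : ℝ) ^ l i) e he a ha
      (fun i => by positivity) hscale4).trans ?_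
    exact Real.rpow_le_rpow_of_exponent_le (by linarith) (by linarith)
  have hDp : ∀ t : ℝ, ‖Dp (∏ j, Yn (ol u v j)) (fun n => ((BX y z u v n : ℝ) : ℂ)) t‖ =
      ∏ i, ‖PB (fun n => ((sl y z u v (e i) n : ℝ) : ℂ)) (2 ^ l i) t‖ := by
    intro t
    rw [hPd3 _ t le_rfl, norm_prod, ← hprod ℝ (fun j => ‖Dp (Yn (ol u v j)) (fun n => ((sl y z u v j n : ℝ) : ℂ)) t‖) (by
      intro j hj
      simp only [hj]
      rw [sl_none y z u v j hj, BB_aux.Dp_none, norm_one])]
    refine Finset.prod_congr rfl ?_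
    intro i _
    rw [hel, BB_aux.Dp_some]
  refine ⟨T', g, m, fun i n => ((sl y z u v (e i) n : ℝ) : ℂ), fun i => 2 ^ l i, fun i => XAA_aux.grp (e i),
    hTB'1.trans hT'1, hT'2, hg, ?_, hscale, ?_, ?_, hgrp 0 (Or.inl rfl), hgrp 1 (Or.inr rfl), ?_, ?_, ?_, ?_⟩
  · intro i
    constructor
    · intro n
      rw [Complex.norm_real]
      exact sl_le y z u v (e i) n
    · intro n hn
      have h1 : sl y z u v (e i) n ≠ 0 := by
        intro h
        apply hn
        simp only [h]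
        simp
      obtain ⟨h2, h3⟩ := sl_supp y z u v (e i) n h1
      rw [hsc] at h2
      refine ⟨h2, ?_⟩
      have h4 : (n : ℝ) ≤ ((Yn (ol u v (e i)) : ℕ) : ℝ) := by exact_mod_cast h3
      rwa [Yn_cast, hsc] at h4
  · rw [hprodN]
    refine le_trans ?_ hPX.1
    rw [Real.rpow_sub hT0, Real.rpow_two]
    refine div_le_div_of_nonneg_left (by positivity) (by linarith) (hKR.trans hKε)
  · rw [hprodN]
    refine hPX.2.trans ?_
    rw [Real.rpow_add hT0, Real.rpow_two, mul_comm]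
    exact mul_le_mul_of_nonneg_left (hKR.trans hKε) (by positivity)
  · intro i hi
    rcases he' : e i with k | r
    · exfalso
      change XAA_aux.grp (e i) = 2 at hi
      rw [he'] at hi
      simp only [XAA_aux.grp] at hi
      split_ifs at hi
      · exact absurd hi (by decide)
      · exact absurd hi (by decide)
    · exact hscale2 i r he'
  · refine hSh.trans (le_of_eq ?_)
    exact (prod_grp u v e (fun i => (2 : ℝ) ^ l i) hsc (fun F hF => hprod ℝ F hF)).symm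
  · intro i t ht
    have h1 : (2 : ℝ) ^ l i ≤ T ^ (5 / 2 : ℝ) := (hscale i).2.trans
      (Real.rpow_le_rpow_of_exponent_le (by linarith) (by linarith))
    have h2 : t ≤ T ^ 3 := by
      have h3 : T ^ (1 + ε) ≤ T ^ (2 : ℝ) := Real.rpow_le_rpow_of_exponent_le (by linarith) (by linarith)
      rw [Real.rpow_two] at h3
      have h4 : 3 * T ^ 2 ≤ T ^ 3 := by
        have : T ^ 3 = T * T ^ 2 := by ring
        rw [this]
        exact mul_le_mul_of_nonneg_right hT3 (by positivity)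
      have h5 : 0 ≤ T ^ 2 := by positivity
      linarith [ht.2]
    obtain ⟨h3, h4⟩ := hSa' T t (l i) z hTS (hscale i).1 h1 (hT'1.trans ht.1) h2
    rcases he' : e i with k | r
    · have h5 : u k = some (l i) := by
        have := hel i
        rw [he'] at this
        exact this
      have h6 : sl y z u v (Sum.inl k) = rb y (l i) := by
        change ms y (u k) = rb y (l i)
        rw [h5]
        rfl
      simp only [he', h6]
      exact h3
    · have h5 : v r = some (l i) := by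
        have := hel i
        rw [he'] at this
        exact this
      have h6 : sl y z u v (Sum.inr r) = pbl y z (l i) := by
        change ps y z (v r) = pbl y z (l i)
        rw [h5]
        rfl
      simp only [he', h6]
      exact h4
  · have h1 : (∫ t in T'..(2 * T'), ‖GS S g t‖ * ‖Dp (∏ j, Yn (ol u v j)) (fun n => ((BX y z u v n : ℝ) : ℂ)) t‖) =
        ∫ t in T'..(2 * T'), ‖GS S g t‖ * ∏ i, ‖PB (fun n => ((sl y z u v (e i) n : ℝ) : ℂ)) (2 ^ l i) t‖ := by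
      refine intervalIntegral.integral_congr ?_
      intro t _
      simp only [hDp]
    rw [h1] at hint
    rw [hprodN]
    set I : ℝ := ∫ t in T'..(2 * T'), ‖GS S g t‖ * ∏ i, ‖PB (fun n => ((sl y z u v (e i) n : ℝ) : ℂ)) (2 ^ l i) t‖ with hI
    have h2 : Real.log T ^ (A + 2) = Real.log T ^ A * Real.log T ^ 2 := by
      rw [Real.rpow_add hL, Real.rpow_two]
    rw [h2, div_le_iff₀ (by positivity)]
    have h3 : (S.card : ℝ) * PX u v ≤ S.card * (CR * T ^ 2) := mul_le_mul_of_nonneg_left hPX.2 hcard.le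
    have h4 : S.card * T ^ 2 ≤ CF * Real.log T * I * Real.log T ^ A := by
      have h5 : (S.card : ℝ) * (1 / Real.log T ^ A * T ^ 2) = S.card * T ^ 2 / Real.log T ^ A := by
        field_simp
      rw [h5, div_le_iff₀ hLA] at hint
      exact hint
    have hI0 : 0 ≤ I := by
      have h5 : 0 < (S.card : ℝ) * T ^ 2 := by positivity
      by_contra hc
      push Not at hc
      have h6 : CF * Real.log T * I * Real.log T ^ A ≤ 0 := by
        have : CF * Real.log T * I ≤ 0 := mul_nonpos_of_nonneg_of_nonpos (by positivity) hc.le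
        exact mul_nonpos_of_nonpos_of_nonneg this hLA.le
      linarith
    calc (S.card : ℝ) * PX u v ≤ S.card * (CR * T ^ 2) := h3
      _ = CR * (S.card * T ^ 2) := by ring
      _ ≤ CR * (CF * Real.log T * I * Real.log T ^ A) := mul_le_mul_of_nonneg_left h4 (by linarith)
      _ = (CF * CR) * (I * (Real.log T ^ A * Real.log T)) := by ring
      _ ≤ Real.log T * (I * (Real.log T ^ A * Real.log T)) :=
          mul_le_mul_of_nonneg_right (by linarith) (by positivity)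
      _ = I * (Real.log T ^ A * Real.log T ^ 2) := by ring

theorem ev_card (C1 : ℝ) : ∃ C : ℝ, 1 ≤ C ∧ ∀ T : ℝ, C ≤ T → C1 * T ^ rE + 1 ≤ T ^ (1 / 3 : ℝ) := by
  have h1 : ∀ᶠ T : ℝ in atTop, |C1| + 1 ≤ T ^ (1 / 3 - rE) :=
    (tendsto_rpow_atTop (by unfold rE; norm_num)).eventually_ge_atTop _
  obtain ⟨C, hC⟩ := Filter.eventually_atTop.1 h1
  refine ⟨max C 1, le_max_right _ _, ?_⟩
  intro T hT
  have h2 := hC T ((le_max_left _ _).trans hT)
  have hT1 : 1 ≤ T := (le_max_right _ _).trans hT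
  have hT0 : 0 < T := by linarith
  have h3 : 1 ≤ T ^ rE := Real.one_le_rpow hT1 (by unfold rE; norm_num)
  calc C1 * T ^ rE + 1 ≤ |C1| * T ^ rE + 1 * T ^ rE := by
        refine add_le_add (mul_le_mul_of_nonneg_right (le_abs_self _) (by linarith)) (by linarith)
    _ = (|C1| + 1) * T ^ rE := by ring
    _ ≤ T ^ (1 / 3 - rE) * T ^ rE := mul_le_mul_of_nonneg_right h2 (by linarith)
    _ = T ^ (1 / 3 : ℝ) := by
        rw [← Real.rpow_add hT0]
        congr 1
        ring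

end XBB_aux

theorem iXBB (hC : StCellXB rE cE) (hF4 : StF4) (hPd : StPd) (hRg : StXRg) (hSa : StSa) : StXBB := by
  intro β hβ hβ2
  obtain ⟨κ, hκ, hκβ, hC1⟩ := hC β hβ hβ2
  refine ⟨κ / 4, by positivity, by linarith, ?_⟩
  intro w hw η A hη hη2 hA
  obtain ⟨ε, hε, hε2, hC2⟩ := hC1 η hη hη2
  obtain ⟨A1, C1, hA1, hC11, hC3⟩ := hC2 (A + 2) (by linarith)
  obtain ⟨B0, hB0, hR⟩ := XBB_aux.red hF4 hPd hRg hSa β κ hκ (by linarith) w hw η A ε A1 hη hη2 hA hε hε2 hA1
  refine ⟨B0, hB0, ?_⟩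
  intro B hB
  obtain ⟨C2, hC21, hR2⟩ := hR B hB
  obtain ⟨C4, hC41, hC4⟩ := XBB_aux.ev_card C1
  refine ⟨max (max C1 C2) C4, hC41.trans (le_max_right _ _), ?_⟩
  intro T u v hT hLg hSh S hS hP
  have hTC1 : C1 ≤ T := ((le_max_left _ _).trans (le_max_left _ _)).trans hT
  have hTC2 : C2 ≤ T := ((le_max_right _ _).trans (le_max_left _ _)).trans hT
  have hTC4 : C4 ≤ T := (le_max_right _ _).trans hT
  have hT1 : 1 ≤ T := hC11.trans hTC1
  have hT0 : 0 < T := by linarith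
  have hr : 0 < T ^ rE := Real.rpow_pos_of_pos hT0 _
  by_contra hc
  push Not at hc
  have h1 : C1 * T ^ rE < S.card :=
    (mul_le_mul_of_nonneg_right ((le_max_left _ _).trans (le_max_left _ _)) hr.le).trans_lt hc
  have hk : ⌊C1 * T ^ rE⌋₊ + 1 ≤ S.card := by
    have : ⌊C1 * T ^ rE⌋₊ < S.card := (Nat.floor_lt (by positivity)).2 h1
    omega
  obtain ⟨S', hS', hcard⟩ := Finset.exists_subset_card_eq hk
  have hne : S'.Nonempty := by
    rw [← Finset.card_pos, hcard]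
    omega
  have hcard1 : (S'.card : ℝ) ≤ T ^ (1 / 3 : ℝ) := by
    rw [hcard]
    push_cast
    have : (⌊C1 * T ^ rE⌋₊ : ℝ) ≤ C1 * T ^ rE := Nat.floor_le (by positivity)
    linarith [hC4 T hTC4]
  have hcard2 : C1 * T ^ rE < S'.card := by
    rw [hcard]
    push_cast
    exact Nat.lt_floor_add_one _
  have hg0 : ∀ x : ℝ, ‖(if 0 ≤ DD w (BX (zz η T) (zz cE T) u v) x T (Real.log T ^ B) then (1 : ℂ) else -1)‖ ≤ 1 := by
    intro x
    split_ifs <;> simp
  obtain ⟨T', g, m, a, N, gr, hT'1, hT'2, hg, hblk, hN, hp1, hp2, hp3, hp4, hp5, hp6, hsav, hint⟩ := hR2 T u v S'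
    (fun x => if 0 ≤ DD w (BX (zz η T) (zz cE T) u v) x T (Real.log T ^ B) then (1 : ℂ) else -1)
    hTC2 hLg hSh hne (fun x hx => ⟨(hP x (hS' hx)).1, (hP x (hS' hx)).2.1⟩) hg0
    (BB_aux.signs S' _ _ (fun x hx => (hP x (hS' hx)).2.2))
  have h2 := hC3 T T' m a N gr S' g hTC1 hT'1 hT'2 hblk hN hp1 hp2 hp3 hp4 hp5 hp6 hsav
    ⟨fun x hx => hS.1 x (hS' hx), fun x hx y hy hxy => hS.2 x (hS' hx) y (hS' hy) hxy⟩ hcard1
    (BB_aux.g_le T hT0 _ g hg0 hg) hint
  linarith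

end Pool.Agent.Work.MP_a8fbd7_nt.EX.ASM
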