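import Mathlib
import Pool.Agent.Work.MP_a8fbd7_nt.EX.ASM.Stmts
import Pool.Agent.Work.MP_a8fbd7_nt.OX.ASM.Win
import Pool.Agent.Work.MP_a8fbd7_nt.OX.SV.Drop

/-!
MP_a8fbd7_nt, EX/ASM, item XBd: the boundary terms.
-/

set_option autoImplicit false

open MeasureTheory Set Filter Topology

noncomputable section

namespace Pool.Agent.Work.MP_a8fbd7_nt.EX.ASM

open Pool.Agent.Work.MP_56b8f5_nt.UC (IsWt Bl Dp Om psi eta Sep)
open Pool.Agent.Work.MP_a8fbd7_nt.OX
open Pool.Agent.Work.MP_a8fbd7_nt.OX.ID (Rough roughOne pb rg)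
open Pool.Agent.Work.MP_a8fbd7_nt.OX.ASM
open Pool.Agent.Work.MP_a8fbd7_nt.EX

namespace XBd_aux

/-- product with a power as a sum over tuples -/
theorem mul_pow_apply (F f : ArithmeticFunction ℝ) (k n : ℕ) :
    (F * f ^ k) n = ∑ g ∈ Nat.finMulAntidiag (k + 1) n, F (g 0) * ∏ i : Fin k, f (g i.succ) := by
  rw [ArithmeticFunction.mul_apply]
  simp_rw [Win.pow_apply f k, Finset.mul_sum]
  rw [Finset.sum_sigma']
  refine Finset.sum_bij' (fun (x : (_ : ℕ × ℕ) × (Fin k → ℕ)) _ => (Fin.cons x.1.1 x.2 : Fin (k + 1) → ℕ))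
    (fun (g : Fin (k + 1) → ℕ) _ => (⟨(g 0, ∏ i, g (Fin.succ i)), Fin.tail g⟩ : (_ : ℕ × ℕ) × (Fin k → ℕ)))
    ?_ ?_ ?_ ?_ ?_
  · rintro ⟨⟨a, b⟩, g⟩ h
    simp only [Finset.mem_sigma, Nat.mem_divisorsAntidiagonal, Nat.mem_finMulAntidiag] at h ⊢
    rw [Fin.prod_univ_succ]
    simp only [Fin.cons_zero, Fin.cons_succ]
    refine ⟨?_, h.1.2⟩
    rw [h.2.1, h.1.1]
  · intro g h
    simp only [Finset.mem_sigma, Nat.mem_divisorsAntidiagonal, Nat.mem_finMulAntidiag] at h ⊢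
    rw [Fin.prod_univ_succ] at h
    refine ⟨⟨h.1, h.2⟩, rfl, ?_⟩
    intro h0
    rw [h0, mul_zero] at h
    exact h.2 h.1.symm
  · rintro ⟨⟨a, b⟩, g⟩ h
    simp only [Finset.mem_sigma, Nat.mem_divisorsAntidiagonal, Nat.mem_finMulAntidiag] at h ⊢
    simp only [Fin.cons_zero, Fin.cons_succ, Fin.tail_cons]
    rw [h.2.1]
  · intro g h
    simp only [Fin.cons_self_tail]
  · rintro ⟨⟨a, b⟩, g⟩ h
    simp only [Fin.cons_zero, Fin.cons_succ]

open Classical in
/-- the rough quadruples with product in a finite set and first entry in `P` -/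
def TT (y : ℕ) (P : ℕ → Prop) (S : Finset ℕ) : Finset (Fin 4 → ℕ) :=
  S.biUnion fun n => (Nat.finMulAntidiag 4 n).filter fun g => (∀ i, Rough y (g i)) ∧ P (g 0)

theorem mem_TT {y : ℕ} {P : ℕ → Prop} {S : Finset ℕ} {g : Fin 4 → ℕ} (h : g ∈ TT y P S) :
    (∏ i, g i) ∈ S ∧ (∀ i, Rough y (g i)) ∧ P (g 0) := by
  classical
  rw [TT, Finset.mem_biUnion] at h
  obtain ⟨n, hn, hg⟩ := h
  rw [Finset.mem_filter, Nat.mem_finMulAntidiag] at hg
  rw [hg.1.1]
  exact ⟨hn, hg.2⟩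

/-- the two windows -/
def PP (T κ1 K Y : ℝ) (n : ℕ) : Prop := Y / K ≤ (n : ℝ) ∧ (n : ℝ) ≤ K * Y

theorem sum_le (y : ℕ) (T κ1 K : ℝ) (S : Finset ℕ) :
    ∑ n ∈ S, |(bw y T κ1 K * rg y ^ 3) n| ≤
      ((TT y (PP T κ1 K (T ^ (1 / 2 - κ1))) S).card : ℝ) + ((TT y (PP T κ1 K (T ^ (1 / 2 + κ1))) S).card : ℝ) := by
  classical
  have key : ∀ n ∈ S, |(bw y T κ1 K * rg y ^ 3) n| ≤
      (((Nat.finMulAntidiag 4 n).filter fun g => (∀ i, Rough y (g i)) ∧ PP T κ1 K (T ^ (1 / 2 - κ1)) (g 0)).card : ℝ) +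
      (((Nat.finMulAntidiag 4 n).filter fun g => (∀ i, Rough y (g i)) ∧ PP T κ1 K (T ^ (1 / 2 + κ1)) (g 0)).card : ℝ) := by
    intro n _
    rw [mul_pow_apply, Finset.card_filter, Finset.card_filter, Nat.cast_sum, Nat.cast_sum, ← Finset.sum_add_distrib]
    refine (Finset.abs_sum_le_sum_abs _ _).trans (Finset.sum_le_sum fun g hg => ?_)
    rw [Nat.mem_finMulAntidiag] at hg
    have hne : ∀ i, g i ≠ 0 := by
      intro i h0
      exact hg.2 (hg.1 ▸ Finset.prod_eq_zero (Finset.mem_univ i) h0)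
    have hr : ∀ m : ℕ, m ≠ 0 → rg y m = if Rough y m then 1 else 0 := by
      intro m hm
      rw [Pool.Agent.Work.MP_a8fbd7_nt.OX.ID.rg_apply]
      simp [hm]
    by_cases hR : ∀ i, Rough y (g i)
    · by_cases hP : PP T κ1 K (T ^ (1 / 2 - κ1)) (g 0) ∨ PP T κ1 K (T ^ (1 / 2 + κ1)) (g 0)
      · have h1 : |bw y T κ1 K (g 0) * ∏ i : Fin 3, rg y (g i.succ)| ≤ 1 := by
          have h2 : ∏ i : Fin 3, rg y (g i.succ) = 1 := by
            apply Finset.prod_eq_one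
            intro i _
            rw [hr _ (hne _), if_pos (hR _)]
          rw [h2, mul_one]
          show |(if _ then rg y (g 0) else 0 : ℝ)| ≤ 1
          rw [hr _ (hne _), if_pos (hR 0)]
          split_ifs <;> norm_num
        refine h1.trans ?_
        rcases hP with hP | hP
        · rw [if_pos ⟨hR, hP⟩]
          have : (0 : ℝ) ≤ ((if (∀ i, Rough y (g i)) ∧ PP T κ1 K (T ^ (1 / 2 + κ1)) (g 0) then 1 else 0 : ℕ) : ℝ) :=
            Nat.cast_nonneg _
          push_cast at this ⊢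
          linarith
        · rw [if_pos (show (∀ i, Rough y (g i)) ∧ PP T κ1 K (T ^ (1 / 2 + κ1)) (g 0) from ⟨hR, hP⟩)]
          have : (0 : ℝ) ≤ ((if (∀ i, Rough y (g i)) ∧ PP T κ1 K (T ^ (1 / 2 - κ1)) (g 0) then 1 else 0 : ℕ) : ℝ) :=
            Nat.cast_nonneg _
          push_cast at this ⊢
          linarith
      · have h1 : bw y T κ1 K (g 0) = 0 := by
          show (if _ then rg y (g 0) else 0 : ℝ) = 0
          rw [if_neg]
          rintro ⟨-, h2⟩
          exact hP h2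
        rw [h1, zero_mul, abs_zero]
        positivity
    · have h1 : bw y T κ1 K (g 0) * ∏ i : Fin 3, rg y (g i.succ) = 0 := by
        push Not at hR
        obtain ⟨i, hi⟩ := hR
        rcases Fin.eq_zero_or_eq_succ i with h0 | ⟨j, hj⟩
        · subst h0
          have h2 : bw y T κ1 K (g 0) = 0 := by
            show (if _ then rg y (g 0) else 0 : ℝ) = 0
            rw [hr _ (hne _), if_neg hi]
            simp
          rw [h2, zero_mul]
        · subst hj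
          rw [Finset.prod_eq_zero (Finset.mem_univ j), mul_zero]
          rw [hr _ (hne _), if_neg hi]
      rw [h1, abs_zero]
      positivity
  refine (Finset.sum_le_sum key).trans ?_
  rw [Finset.sum_add_distrib]
  have hd : ∀ P : ℕ → Prop, ((TT y P S).card : ℝ) =
      ∑ n ∈ S, (((Nat.finMulAntidiag 4 n).filter fun g => (∀ i, Rough y (g i)) ∧ P (g 0)).card : ℝ) := by
    intro P
    rw [TT, Finset.card_biUnion, Nat.cast_sum]
    intro a _ b _ hab
    rw [Function.onFun, Finset.disjoint_left]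
    intro g hg hg'
    rw [Finset.mem_filter, Nat.mem_finMulAntidiag] at hg hg'
    exact hab (hg.1.1.symm.trans hg'.1.1)
  rw [hd, hd]

end XBd_aux

open XBd_aux in
theorem iXBd : StXBd := by
  intro w hw hw0 η κ1 K hη hη' hκ hκ' hK
  obtain ⟨Cw, hCw, hWb, hwin⟩ := Win.window w hw
  set D : ℝ := 4 * (1 + Cw) with hD
  have hD8 : 8 ≤ D := by linarith
  have hD0 : 0 < D := by linarith
  set N : ℕ := ⌈3 / η⌉₊ with hN
  have hK0 : 0 < K := by linarith
  set L0 : ℝ := 1 + Real.log (2 * K ^ 2) with hL0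
  have hL0pos : 0 ≤ L0 := by
    have : 0 ≤ Real.log (2 * K ^ 2) := Real.log_nonneg (by nlinarith)
    linarith
  set C0 : ℝ := Cw ^ 2 * (2 * (300 * 4 ^ N * L0 * (4 / η ^ 2))) with hC0
  refine ⟨max (max C0 ((2 * K) ^ 4)) (max (D * 2 ^ (N + 1)) ((4 : ℝ) ^ (1 / η))), ?_, ?_⟩
  · have : (1 : ℝ) ≤ (2 * K) ^ 4 := one_le_pow₀ (by linarith)
    exact this.trans ((le_max_right _ _).trans (le_max_left _ _))
  intro T T' x hT hT' hTT hx1 hx2
  have hTa : (2 * K) ^ 4 ≤ T := ((le_max_right _ _).trans (le_max_left _ _)).trans hT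
  have hTb : D * 2 ^ (N + 1) ≤ T := ((le_max_left _ _).trans (le_max_right _ _)).trans hT
  have hTc : (4 : ℝ) ^ (1 / η) ≤ T := ((le_max_right _ _).trans (le_max_right _ _)).trans hT
  have hT16 : 16 ≤ T := by
    have : (2 : ℝ) ^ 4 ≤ (2 * K) ^ 4 := by gcongr; linarith
    linarith
  have hT0 : 0 < T := by linarith
  have hT1 : 1 ≤ T := by linarith
  have hx0 : 0 < x := lt_of_lt_of_le (by positivity) hx1
  have hT'0 : 0 < T' := by linarith
  have hl0 : 0 < Real.log T := Real.log_pos (by linarith)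
  -- the window
  obtain ⟨x1, hxa, hxb, hn⟩ := hwin x T' hx0 hT'
  have hx10 : 0 < x1 := lt_of_lt_of_le (by positivity) hxa
  set h : ℝ := Cw * (x / T') with hh
  have hxT : T ≤ x / T' := by
    rw [le_div_iff₀ hT'0]
    nlinarith
  have hhT : T ≤ h := by nlinarith
  have hh0 : 0 < h := by linarith
  have hend : x1 + h ≤ D * T ^ 2 := by
    have h1 : x / T' ≤ x := div_le_self hx0.le hT'
    have h2 : h ≤ Cw * x := by rw [hh]; gcongr
    have h3 : x1 + h ≤ (1 + Cw) * x := by linarith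
    calc x1 + h ≤ (1 + Cw) * x := h3
      _ ≤ (1 + Cw) * (4 * T ^ 2) := by gcongr
      _ = D * T ^ 2 := by rw [hD]; ring
  -- level
  set y : ℕ := zz η T with hy
  have hTη : (4 : ℝ) ≤ T ^ η := by
    have h1 : ((4 : ℝ) ^ (1 / η)) ^ η ≤ T ^ η := Real.rpow_le_rpow (by positivity) hTc hη.le
    rwa [← Real.rpow_mul (by norm_num), one_div_mul_cancel hη.ne', Real.rpow_one] at h1
  have hyle : (y : ℝ) ≤ T ^ η := Nat.floor_le (by positivity)
  have hyge : T ^ η / 2 ≤ (y : ℝ) := by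
    have h1 := Nat.lt_floor_add_one (T ^ η)
    have h2 : (y : ℝ) = (⌊T ^ η⌋₊ : ℝ) := by rw [hy, zz]
    linarith
  have hy2 : 2 ≤ y := by
    have : (2 : ℝ) ≤ y := by linarith
    exact_mod_cast this
  have hly : η / 2 * Real.log T ≤ Real.log y := by
    have h1 := Real.log_le_log (by positivity) hyge
    rw [Real.log_div (by positivity) (by norm_num), Real.log_rpow hT0] at h1
    have h2 := Real.log_le_log (by norm_num) hTη
    rw [Real.log_rpow hT0, show (4 : ℝ) = 2 ^ 2 by norm_num, Real.log_pow] at h2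
    push_cast at h2
    linarith
  have hcond2 : x1 + h ≤ (y : ℝ) ^ (N + 1) := by
    have h1 : (T ^ η / 2) ^ (N + 1) ≤ (y : ℝ) ^ (N + 1) := by gcongr
    have h2 : T ^ (3 : ℝ) ≤ (T ^ η) ^ (N + 1) := by
      rw [← Real.rpow_natCast, ← Real.rpow_mul hT0.le]
      apply Real.rpow_le_rpow_of_exponent_le hT1
      have h3 : 3 / η ≤ (N : ℝ) := Nat.le_ceil _
      rw [div_le_iff₀ hη] at h3
      push_cast
      nlinarith
    have h4 : T ^ (3 : ℝ) = T * T ^ 2 := by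
      rw [show (3 : ℝ) = ((3 : ℕ) : ℝ) by norm_num, Real.rpow_natCast]
      ring
    calc x1 + h ≤ D * T ^ 2 := hend
      _ = (D * 2 ^ (N + 1)) * T ^ 2 / 2 ^ (N + 1) := by field_simp
      _ ≤ T * T ^ 2 / 2 ^ (N + 1) := by gcongr
      _ ≤ (T ^ η) ^ (N + 1) / 2 ^ (N + 1) := by rw [← h4]; gcongr
      _ = (T ^ η / 2) ^ (N + 1) := by rw [div_pow]
      _ ≤ (y : ℝ) ^ (N + 1) := h1
  -- one window
  have hK2 : 2 * K ≤ T ^ (9 / 20 : ℝ) := by
    have h1 : ((2 * K) ^ 4) ^ (9 / 20 : ℝ) ≤ T ^ (9 / 20 : ℝ) := Real.rpow_le_rpow (by positivity) hTa (by norm_num)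
    rw [← Real.rpow_natCast, ← Real.rpow_mul (by positivity)] at h1
    refine le_trans ?_ h1
    calc 2 * K = (2 * K) ^ (1 : ℝ) := (Real.rpow_one _).symm
      _ ≤ (2 * K) ^ (((4 : ℕ) : ℝ) * (9 / 20)) := by
        apply Real.rpow_le_rpow_of_exponent_le (by linarith)
        norm_num
  have hK3 : K ≤ T ^ (1 / 4 : ℝ) := by
    have h1 : ((2 * K) ^ 4) ^ (1 / 4 : ℝ) ≤ T ^ (1 / 4 : ℝ) := Real.rpow_le_rpow (by positivity) hTa (by norm_num)
    rw [← Real.rpow_natCast, ← Real.rpow_mul (by positivity)] at h1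
    norm_num at h1
    linarith
  have one : ∀ Y : ℝ, T ^ (9 / 20 : ℝ) ≤ Y → Y ≤ T ^ (11 / 20 : ℝ) →
      ((TT y (PP T κ1 K Y) (Win.Wn x1 h)).card : ℝ) ≤ 300 * 4 ^ N * L0 * (4 / η ^ 2) * (h / Real.log T ^ 2) := by
    intro Y hYa hYb
    have hY0 : 0 < Y := lt_of_lt_of_le (by positivity) hYa
    have hc1 : 1 ≤ Y / (2 * K) := by
      rw [le_div_iff₀ (by positivity)]
      linarith
    have hc2 : Y / (2 * K) ≤ K * Y := by
      rw [div_le_iff₀ (by positivity)]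
      have : 1 ≤ K * (2 * K) := by nlinarith
      nlinarith
    have hc3 : (y : ℝ) ^ 3 * (K * Y) ≤ h := by
      have h1 : (y : ℝ) ^ 3 ≤ T ^ (3 / 20 : ℝ) := by
        calc (y : ℝ) ^ 3 ≤ (T ^ η) ^ 3 := by gcongr
          _ = T ^ (η * 3) := by
            rw [← Real.rpow_natCast, ← Real.rpow_mul hT0.le]
            norm_num
          _ ≤ T ^ (3 / 20 : ℝ) := Real.rpow_le_rpow_of_exponent_le hT1 (by linarith)
      calc (y : ℝ) ^ 3 * (K * Y) ≤ T ^ (3 / 20 : ℝ) * (T ^ (1 / 4 : ℝ) * T ^ (11 / 20 : ℝ)) := by gcongr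
        _ = T ^ (19 / 20 : ℝ) := by
          rw [← Real.rpow_add hT0, ← Real.rpow_add hT0]
          norm_num
        _ ≤ T ^ (1 : ℝ) := Real.rpow_le_rpow_of_exponent_le hT1 (by norm_num)
        _ = T := Real.rpow_one _
        _ ≤ h := hhT
    have hcard := Pool.Agent.Work.MP_a8fbd7_nt.OX.SV.drop_tuples (k := 4) (z := y) (K := N) x1 h (Y / (2 * K)) (K * Y)
      hy2 hx10.le hc1 hc2 hc3 hcond2 (TT y (PP T κ1 K Y) (Win.Wn x1 h))
      (fun f hf i => (mem_TT hf).2.1 i)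
      (fun f hf => (Win.mem_Wn hx10.le).1 (mem_TT hf).1)
      (fun f hf => by
        obtain ⟨h1, h2⟩ := (mem_TT hf).2.2
        refine ⟨0, lt_of_lt_of_le ?_ h1, h2⟩
        apply div_lt_div_of_pos_left hY0 hK0
        linarith)
    refine hcard.trans ?_
    have hlog : Real.log (K * Y / (Y / (2 * K))) = Real.log (2 * K ^ 2) := by
      congr 1
      field_simp
    have h1 : (η / 2 * Real.log T) ^ 2 ≤ Real.log y ^ 2 := by gcongr
    rw [hlog, ← hL0]
    calc 300 * ((4 : ℕ) : ℝ) ^ N * h * L0 / Real.log y ^ 2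
        ≤ 300 * ((4 : ℕ) : ℝ) ^ N * h * L0 / (η / 2 * Real.log T) ^ 2 := by gcongr
      _ = 300 * 4 ^ N * L0 * (4 / η ^ 2) * (h / Real.log T ^ 2) := by
        push_cast
        field_simp
        ring
  have h1 := one (T ^ (1 / 2 - κ1)) (Real.rpow_le_rpow_of_exponent_le hT1 (by linarith))
    (Real.rpow_le_rpow_of_exponent_le hT1 (by linarith))
  have h2 := one (T ^ (1 / 2 + κ1)) (Real.rpow_le_rpow_of_exponent_le hT1 (by linarith))
    (Real.rpow_le_rpow_of_exponent_le hT1 (by linarith))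
  have h3 := sum_le y T κ1 K (Win.Wn x1 h)
  have hSW := Win.SW_abs_le w (fun n => (bw y T κ1 K * rg y ^ 3) n) x T' x1 h Cw hx10.le hWb hn
  have h4 : SW w (fun n => (bw y T κ1 K * rg y ^ 3) n) x T' ≤
      Cw * (2 * (300 * 4 ^ N * L0 * (4 / η ^ 2)) * (h / Real.log T ^ 2)) := by
    refine (le_abs_self _).trans (hSW.trans ?_)
    apply mul_le_mul_of_nonneg_left _ (by linarith)
    refine h3.trans ?_
    linarith
  calc T' / x * SW w (fun n => (bw y T κ1 K * rg y ^ 3) n) x T'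
      ≤ T' / x * (Cw * (2 * (300 * 4 ^ N * L0 * (4 / η ^ 2)) * (h / Real.log T ^ 2))) := by gcongr
    _ = C0 / Real.log T ^ 2 := by
      rw [hh, hC0]
      field_simp
    _ ≤ max (max C0 ((2 * K) ^ 4)) (max (D * 2 ^ (N + 1)) ((4 : ℝ) ^ (1 / η))) / Real.log T ^ 2 := by
      gcongr
      exact (le_max_left _ _).trans (le_max_left _ _)

end Pool.Agent.Work.MP_a8fbd7_nt.EX.ASM
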