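import Mathlib
import Pool.Agent.Work.MP_a8fbd7_nt.EX.ASM.Stmts

/-!
MP_a8fbd7_nt, block EX/ASM, item XCc: bound for the coefficients of the boxes.
-/

set_option autoImplicit false

noncomputable section

namespace Pool.Agent.Work.MP_a8fbd7_nt.EX.ASM

open Pool.Agent.Work.MP_a8fbd7_nt.OX
open Pool.Agent.Work.MP_a8fbd7_nt.OX.ASM
open Pool.Agent.Work.MP_a8fbd7_nt.EX

namespace XCc_aux

theorem abs_term (s a b : ℕ) :
    |(-1 : ℝ) ^ s * (a.factorial : ℝ) / (b.factorial : ℝ)| = (a.factorial : ℝ) / (b.factorial : ℝ) := by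
  rw [abs_div, abs_mul, abs_pow, abs_neg, abs_one, one_pow, one_mul, Nat.abs_cast, Nat.abs_cast]

end XCc_aux

open XCc_aux in
theorem iXCc : StXCc := by
  intro T κ1 S u v
  unfold ccX cwX
  rw [abs_mul, Finset.abs_prod, mul_comm]
  have h1 : ∏ i : Fin 4, |(-1 : ℝ) ^ nsi v i * ((S - nsi v i).factorial : ℝ) / (S.factorial : ℝ)| =
      ∏ i : Fin 4, ((S - nsi v i).factorial : ℝ) / (S.factorial : ℝ) :=
    Finset.prod_congr rfl fun i _ => abs_term _ _ _
  rw [h1]
  refine mul_le_mul_of_nonneg_right ?_ ?_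
  · split_ifs <;> rw [abs_le] <;> constructor <;> norm_num
  · exact Finset.prod_nonneg fun i _ => by positivity

end Pool.Agent.Work.MP_a8fbd7_nt.EX.ASM
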