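import Mathlib
import Pool.Agent.Work.MP_a8fbd7_nt.EX.ASM.Stmts
import Pool.Agent.Work.MP_a8fbd7_nt.OX.ASM.Win
import Pool.Agent.Work.MP_a8fbd7_nt.OX.SV.Drop

/-!
MP_a8fbd7_nt, EX/ASM, item XDr: the dropped term `(al z T κ1) ^ 4`.
-/

set_option autoImplicit false

open MeasureTheory Set Filter Topology

noncomputable section

namespace Pool.Agent.Work.MP_a8fbd7_nt.EX.ASM

open Pool.Agent.Work.MP_56b8f5_nt.UC (IsWt Bl Dp Om psi eta Sep)
open Pool.Agent.Work.MP_a8fbd7_nt.OX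
open Pool.Agent.Work.MP_a8fbd7_nt.OX.ID (Rough roughOne pb rg rg_apply)
open Pool.Agent.Work.MP_a8fbd7_nt.OX.ASM
open Pool.Agent.Work.MP_a8fbd7_nt.EX

namespace XDr_aux

/-- the property of the entries -/
def PQ (z : ℕ) (T κ1 : ℝ) (n : ℕ) : Prop :=
  (n ≠ 0 ∧ T ^ (1 / 2 - κ1) < (n : ℝ) ∧ (n : ℝ) ≤ T ^ (1 / 2 + κ1)) ∧ Rough z n

open Classical in
theorem al_apply (z : ℕ) (T κ1 : ℝ) (n : ℕ) : al z T κ1 n = if PQ z T κ1 n then 1 else 0 := by
  have h0 : al z T κ1 n = if n ≠ 0 ∧ T ^ (1 / 2 - κ1) < (n : ℝ) ∧ (n : ℝ) ≤ T ^ (1 / 2 + κ1) then rg z n else 0 := rfl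
  rw [h0]
  by_cases h : n ≠ 0 ∧ T ^ (1 / 2 - κ1) < (n : ℝ) ∧ (n : ℝ) ≤ T ^ (1 / 2 + κ1)
  · rw [if_pos h, rg_apply]
    by_cases h2 : Rough z n
    · rw [if_pos ⟨h.1, h2⟩, if_pos ⟨h, h2⟩]
    · rw [if_neg (fun h' => h2 h'.2), if_neg (fun h' => h2 h'.2)]
  · rw [if_neg h, if_neg (fun h' => h h'.1)]

open Classical in
/-- the tuples with product in a finite set -/
def TT (P : ℕ → Prop) (k : ℕ) (S : Finset ℕ) : Finset (Fin k → ℕ) :=
  S.biUnion fun n => (Nat.finMulAntidiag k n).filter fun g => ∀ i, P (g i)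

theorem mem_TT {P : ℕ → Prop} {k : ℕ} {S : Finset ℕ} {g : Fin k → ℕ} (h : g ∈ TT P k S) :
    (∏ i, g i) ∈ S ∧ ∀ i, P (g i) := by
  classical
  rw [TT, Finset.mem_biUnion] at h
  obtain ⟨n, hn, hg⟩ := h
  rw [Finset.mem_filter, Nat.mem_finMulAntidiag] at hg
  rw [hg.1.1]
  exact ⟨hn, hg.2⟩

theorem sum_pow (z k : ℕ) (T κ1 : ℝ) (S : Finset ℕ) :
    ∑ n ∈ S, (al z T κ1 ^ k) n = ((TT (PQ z T κ1) k S).card : ℝ) := by
  classical
  rw [TT, Finset.card_biUnion, Nat.cast_sum]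
  · refine Finset.sum_congr rfl fun n _ => ?_
    rw [Win.pow_apply, Finset.card_filter, Nat.cast_sum]
    refine Finset.sum_congr rfl fun g _ => ?_
    simp only [al_apply]
    rw [Finset.prod_ite_zero, Finset.prod_const_one]
    by_cases h : ∀ i : Fin k, PQ z T κ1 (g i)
    · rw [if_pos (fun i _ => h i), if_pos h, Nat.cast_one]
    · rw [if_neg (fun h' => h fun i => h' i (Finset.mem_univ i)), if_neg h, Nat.cast_zero]
  · intro a _ b _ hab
    rw [Function.onFun, Finset.disjoint_left]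
    intro g hg hg'
    rw [Finset.mem_filter, Nat.mem_finMulAntidiag] at hg hg'
    exact hab (hg.1.1.symm.trans hg'.1.1)

end XDr_aux

open XDr_aux in
theorem iXDr : StXDr := by
  intro w hw hw0
  obtain ⟨Cw, hCw, hWb, hwin⟩ := Win.window w hw
  refine ⟨Cw ^ 2 * (300 * 4 ^ 44 * 8000), by nlinarith [one_le_pow₀ hCw (n := 2)], ?_⟩
  intro κ1 hκ hκ'
  set D : ℝ := 4 * (1 + Cw) with hD
  have hD8 : 8 ≤ D := by linarith
  refine ⟨max ((D * 2 ^ 45) ^ 4) (max (2 ^ 40) (Real.exp (1 / κ1))),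
    (show (1 : ℝ) ≤ 2 ^ 40 by norm_num).trans ((le_max_left _ _).trans (le_max_right _ _)), ?_⟩
  intro T T' x hT hT' hTT hx1 hx2
  have hTb : (D * 2 ^ 45) ^ 4 ≤ T := (le_max_left _ _).trans hT
  have hTc : 2 ^ 40 ≤ T := ((le_max_left _ _).trans (le_max_right _ _)).trans hT
  have hTd : Real.exp (1 / κ1) ≤ T := ((le_max_right _ _).trans (le_max_right _ _)).trans hT
  have hT0 : 0 < T := lt_of_lt_of_le (by norm_num) hTc
  have hT1 : 1 ≤ T := le_trans (by norm_num) hTc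
  have hx0 : 0 < x := lt_of_lt_of_le (by positivity) hx1
  have hT'0 : 0 < T' := by linarith
  have hD0 : 0 < D := by linarith
  -- logarithms
  have hlT : 40 * Real.log 2 ≤ Real.log T := by
    have h1 := Real.log_le_log (by norm_num) hTc
    rw [Real.log_pow] at h1
    exact_mod_cast h1
  have hl2 : 0 < Real.log 2 := Real.log_pos (by norm_num)
  have hl0 : 0 < Real.log T := by linarith
  have hlog : 1 ≤ κ1 * Real.log T := by
    have h1 := Real.log_le_log (Real.exp_pos _) hTd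
    rw [Real.log_exp, div_le_iff₀ hκ] at h1
    linarith
  -- the window
  obtain ⟨x1, hxa, hxb, hn⟩ := hwin x T' hx0 hT'
  have hx10 : 0 < x1 := lt_of_lt_of_le (by positivity) hxa
  set h : ℝ := Cw * (x / T') with hh
  have hxT : T ≤ x / T' := by
    rw [le_div_iff₀ hT'0]
    nlinarith
  have hhT : T ≤ h := by nlinarith
  have hh0 : 0 < h := by linarith
  have hend : x1 + h ≤ D * T ^ 2 := by
    have h1 : x / T' ≤ x := div_le_self hx0.le hT'
    have h2 : h ≤ Cw * x := by rw [hh]; gcongr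
    have h3 : x1 + h ≤ (1 + Cw) * x := by linarith
    calc x1 + h ≤ (1 + Cw) * x := h3
      _ ≤ (1 + Cw) * (4 * T ^ 2) := by gcongr
      _ = D * T ^ 2 := by rw [hD]; ring
  -- levels
  set z : ℕ := zz cE T with hz
  set z' : ℕ := ⌊T ^ (1 / 20 : ℝ)⌋₊ with hz'
  have hzz : z' ≤ z := by
    rw [hz, hz', zz]
    apply Nat.floor_mono
    apply Real.rpow_le_rpow_of_exponent_le hT1
    rw [cE]
    norm_num
  have ht4 : (4 : ℝ) ≤ T ^ (1 / 20 : ℝ) := by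
    have h1 : ((2 : ℝ) ^ 40) ^ (1 / 20 : ℝ) ≤ T ^ (1 / 20 : ℝ) := Real.rpow_le_rpow (by norm_num) hTc (by norm_num)
    have h2 : ((2 : ℝ) ^ 40) ^ (1 / 20 : ℝ) = 4 := by
      rw [← Real.rpow_natCast, ← Real.rpow_mul (by norm_num)]
      norm_num
    linarith
  have hz'le : (z' : ℝ) ≤ T ^ (1 / 20 : ℝ) := Nat.floor_le (by positivity)
  have hz'ge : T ^ (1 / 20 : ℝ) / 2 ≤ (z' : ℝ) := by
    have := Nat.lt_floor_add_one (T ^ (1 / 20 : ℝ))
    linarith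
  have hz'2 : 2 ≤ z' := by
    have : (2 : ℝ) ≤ z' := by linarith
    exact_mod_cast this
  have hlz : Real.log T / 40 ≤ Real.log z' := by
    have h1 := Real.log_le_log (by positivity) hz'ge
    rw [Real.log_div (by positivity) (by norm_num), Real.log_rpow hT0] at h1
    linarith
  -- the windows of the entries
  set Y1 : ℝ := T ^ (1 / 2 - κ1) with hY1
  set Y2 : ℝ := T ^ (1 / 2 + κ1) with hY2
  have hY1one : 1 ≤ Y1 := Real.one_le_rpow hT1 (by linarith)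
  have hY12 : Y1 ≤ Y2 := Real.rpow_le_rpow_of_exponent_le hT1 (by linarith)
  have hcond1 : (z' : ℝ) ^ 3 * Y2 ≤ h := by
    have h1 : (z' : ℝ) ^ 3 ≤ T ^ (3 / 20 : ℝ) := by
      calc (z' : ℝ) ^ 3 ≤ (T ^ (1 / 20 : ℝ)) ^ 3 := by gcongr
        _ = T ^ (3 / 20 : ℝ) := by
          rw [← Real.rpow_natCast, ← Real.rpow_mul hT0.le]
          norm_num
    have h2 : Y2 ≤ T ^ (17 / 20 : ℝ) := by
      rw [hY2]
      apply Real.rpow_le_rpow_of_exponent_le hT1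
      linarith
    calc (z' : ℝ) ^ 3 * Y2 ≤ T ^ (3 / 20 : ℝ) * T ^ (17 / 20 : ℝ) := by gcongr
      _ = T := by
        rw [← Real.rpow_add hT0]
        norm_num
      _ ≤ h := hhT
  have hcond2 : x1 + h ≤ (z' : ℝ) ^ (44 + 1) := by
    have h1 : (T ^ (1 / 20 : ℝ) / 2) ^ (44 + 1) ≤ (z' : ℝ) ^ (44 + 1) := by gcongr
    have h2 : (T ^ (1 / 20 : ℝ) / 2) ^ (44 + 1) = T ^ (1 / 4 : ℝ) * T ^ 2 / 2 ^ 45 := by
      rw [div_pow, ← Real.rpow_natCast (T ^ (1 / 20 : ℝ)), ← Real.rpow_mul hT0.le, ← Real.rpow_natCast T 2,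
        ← Real.rpow_add hT0]
      norm_num
    have h3 : D * 2 ^ 45 ≤ T ^ (1 / 4 : ℝ) := by
      have h4 := Real.rpow_le_rpow (by positivity) hTb (z := 1 / 4) (by norm_num)
      rw [← Real.rpow_natCast, ← Real.rpow_mul (by positivity)] at h4
      norm_num at h4
      norm_num
      exact h4
    calc x1 + h ≤ D * T ^ 2 := hend
      _ = (D * 2 ^ 45) * T ^ 2 / 2 ^ 45 := by ring
      _ ≤ T ^ (1 / 4 : ℝ) * T ^ 2 / 2 ^ 45 := by gcongr
      _ ≤ (z' : ℝ) ^ (44 + 1) := by rw [← h2]; exact h1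
  have hcard := Pool.Agent.Work.MP_a8fbd7_nt.OX.SV.drop_tuples (k := 4) (z := z') (K := 44) x1 h Y1 Y2 hz'2 hx10.le
    hY1one hY12 hcond1 hcond2 (TT (PQ z T κ1) 4 (Win.Wn x1 h))
    (fun f hf i => Pool.Agent.Work.MP_a8fbd7_nt.OX.SV.Rough.anti hzz ((mem_TT hf).2 i).2)
    (fun f hf => (Win.mem_Wn hx10.le).1 (mem_TT hf).1)
    (fun f hf => ⟨0, ((mem_TT hf).2 0).1.2⟩)
  -- the total
  have hlY : 1 + Real.log (Y2 / Y1) ≤ 5 * κ1 * Real.log T := by
    have h1 : Y2 / Y1 = T ^ (2 * κ1) := by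
      rw [hY2, hY1, ← Real.rpow_sub hT0]
      congr 1
      ring
    rw [h1, Real.log_rpow hT0]
    linarith
  have hfin : ((TT (PQ z T κ1) 4 (Win.Wn x1 h)).card : ℝ) ≤ 300 * 4 ^ 44 * 8000 * (h * κ1 / Real.log T) := by
    refine hcard.trans ?_
    have h1 : (Real.log T / 40) ^ 2 ≤ Real.log z' ^ 2 := by gcongr
    calc 300 * ((4 : ℕ) : ℝ) ^ 44 * h * (1 + Real.log (Y2 / Y1)) / Real.log z' ^ 2
        ≤ 300 * ((4 : ℕ) : ℝ) ^ 44 * h * (5 * κ1 * Real.log T) / (Real.log T / 40) ^ 2 := by gcongr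
      _ = 300 * 4 ^ 44 * 8000 * (h * κ1 / Real.log T) := by
        push_cast
        field_simp
        ring
  have hSW := Win.SW_abs_le w (fun n => (al z T κ1 ^ 4) n) x T' x1 h Cw hx10.le hWb hn
  have habs : ∑ n ∈ Win.Wn x1 h, |(al z T κ1 ^ 4) n| = ((TT (PQ z T κ1) 4 (Win.Wn x1 h)).card : ℝ) := by
    rw [← sum_pow]
    refine Finset.sum_congr rfl fun n _ => abs_of_nonneg ?_
    rw [Win.pow_apply]
    refine Finset.sum_nonneg fun g _ => Finset.prod_nonneg fun i _ => ?_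
    rw [al_apply]
    split_ifs <;> norm_num
  rw [habs] at hSW
  have h1 : SW w (fun n => (al z T κ1 ^ 4) n) x T' ≤ Cw * (300 * 4 ^ 44 * 8000 * (h * κ1 / Real.log T)) :=
    (le_abs_self _).trans (hSW.trans (by gcongr))
  calc T' / x * SW w (fun n => (al z T κ1 ^ 4) n) x T'
      ≤ T' / x * (Cw * (300 * 4 ^ 44 * 8000 * (h * κ1 / Real.log T))) := by gcongr
    _ = Cw ^ 2 * (300 * 4 ^ 44 * 8000) * κ1 / Real.log T := by
      rw [hh]
      field_simp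

end Pool.Agent.Work.MP_a8fbd7_nt.EX.ASM
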