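import Pool.Agent.Work.MP_a8fbd7_nt.EX.ASM.Stmts
import Pool.Agent.Work.MP_a8fbd7_nt.OX.ASM.I_Ex
import Pool.Agent.Work.MP_a8fbd7_nt.OX.ASM.I_Rg
import Pool.Agent.Work.MP_a8fbd7_nt.OX.ASM.I_V1

/-!
MP_a8fbd7_nt, block EX, part ASM, item XEx: expansion of the sieve function `g` into boxes.
-/

set_option autoImplicit false

noncomputable section

namespace Pool.Agent.Work.MP_a8fbd7_nt.EX.ASM

open Finset
open Pool.Agent.Work.MP_56b8f5_nt.UC (psi eta)
open Pool.Agent.Work.MP_a8fbd7_nt.OX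
open Pool.Agent.Work.MP_a8fbd7_nt.OX.ID (Rough roughOne pb rg rg_eq rg_apply rg_pow_expand_error HasSq exErr exErr_pos
  af_sum af_smul af_sub Dom dom_rg dom_pb pair_ne)
open Pool.Agent.Work.MP_a8fbd7_nt.OX.ASM
open Pool.Agent.Work.MP_a8fbd7_nt.OX.ASM.V1_aux (NN nn_one nn_prod nn_ms nn_ps)
open Pool.Agent.Work.MP_a8fbd7_nt.EX

namespace XEx_aux

/-! ### The slots of one variable -/

/-- the part of `v` belonging to the variable `i` -/
def pt {S : ℕ} (v : Fin (4 * S) → Option ℕ) (i : Fin 4) : Fin S → Option ℕ := fun s => v (finProdFinEquiv (i, s))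

theorem own_mk {S : ℕ} (i : Fin 4) (s : Fin S) : own (finProdFinEquiv (i, s)) = i := by
  unfold own
  rw [Equiv.symm_apply_apply]

theorem prod_all {S : ℕ} {M : Type*} [CommMonoid M] (f : Fin (4 * S) → M) :
    ∏ r, f r = ∏ i : Fin 4, ∏ s : Fin S, f (finProdFinEquiv (i, s)) := by
  rw [← Equiv.prod_comp finProdFinEquiv, Fintype.prod_prod_type]

theorem sum_all {S : ℕ} {M : Type*} [AddCommMonoid M] (f : Fin (4 * S) → M) :
    ∑ r, f r = ∑ i : Fin 4, ∑ s : Fin S, f (finProdFinEquiv (i, s)) := by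
  rw [← Equiv.sum_comp finProdFinEquiv, Fintype.sum_prod_type]

open Classical in
theorem prod_own {S : ℕ} (f : Fin (4 * S) → ℝ) (i : Fin 4) :
    ∏ r ∈ univ.filter (fun r => own r = i), f r = ∏ s : Fin S, f (finProdFinEquiv (i, s)) := by
  rw [prod_filter, prod_all, prod_eq_single i]
  · exact prod_congr rfl fun s _ => by rw [if_pos (own_mk i s)]
  · intro j _ hj
    exact prod_eq_one fun s _ => by rw [if_neg (by rw [own_mk]; exact hj)]
  · intro h
    exact absurd (mem_univ i) h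

theorem nsi_eq {S : ℕ} (v : Fin (4 * S) → Option ℕ) (i : Fin 4) : nsi v i = ns (pt v i) := by
  classical
  unfold nsi ns
  rw [card_filter, card_filter, sum_all, sum_eq_single i]
  · refine sum_congr rfl fun s _ => ?_
    unfold pt
    simp only [own_mk, true_and]
  · intro j _ hj
    refine sum_eq_zero fun s _ => ?_
    rw [if_neg]
    rintro ⟨h, -⟩
    rw [own_mk] at h
    exact hj h
  · intro h
    exact absurd (mem_univ i) h

theorem triv_iff {S : ℕ} (u : Fin 4 → Option ℕ) (v : Fin (4 * S) → Option ℕ) (i : Fin 4) :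
    triv u v i ↔ u i = none ∧ ∀ s, pt v i s = none := by
  unfold triv pt
  constructor
  · rintro ⟨h1, h2⟩
    exact ⟨h1, fun s => h2 _ (own_mk i s)⟩
  · rintro ⟨h1, h2⟩
    refine ⟨h1, fun r hr => ?_⟩
    obtain ⟨⟨j, s⟩, rfl⟩ := finProdFinEquiv.surjective r
    rw [own_mk] at hr
    subst hr
    exact h2 s

theorem svr_eq {S : ℕ} (u : Fin 4 → Option ℕ) (v : Fin (4 * S) → Option ℕ) (i : Fin 4) :
    svr u v i = sc (u i) * ∏ s, sc (pt v i s) := by
  unfold svr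
  rw [prod_own]
  rfl

/-! ### Boxes of one variable -/

/-- box function of one variable -/
def B1 (y z : ℕ) {S : ℕ} (o : Option ℕ) (v0 : Fin S → Option ℕ) : ArithmeticFunction ℝ := ms y o * ∏ s, ps y z (v0 s)

/-- coefficient of a box of one variable -/
def c1 {S : ℕ} (v0 : Fin S → Option ℕ) : ℝ := (-1 : ℝ) ^ ns v0 * ((S - ns v0).factorial : ℝ) / (S.factorial : ℝ)

/-- scales of the rough slot -/
def OO (T : ℝ) : Finset (Option ℕ) := Finset.insertNone (Finset.range (LL T))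

/-- the function `R~` -/
def Rt (y z S : ℕ) (T : ℝ) : ArithmeticFunction ℝ := ∑ o ∈ OO T, ∑ v0 ∈ Bx S T, c1 v0 • B1 y z o v0

/-- scale inside the window -/
def ins (T κ1 : ℝ) {S : ℕ} (o : Option ℕ) (v0 : Fin S → Option ℕ) : Prop :=
  T ^ (1 / 2 - κ1) ≤ sc o * ∏ s, sc (v0 s) ∧ sc o * ∏ s, sc (v0 s) ≤ T ^ (1 / 2 + κ1)

open Classical in
/-- the function `α~` -/
def At (y z S : ℕ) (T κ1 : ℝ) : ArithmeticFunction ℝ :=
  ∑ o ∈ OO T, ∑ v0 ∈ Bx S T, (c1 v0 * if ins T κ1 o v0 then 1 else 0) • B1 y z o v0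

theorem BX_eq (y z : ℕ) {S : ℕ} (u : Fin 4 → Option ℕ) (v : Fin (4 * S) → Option ℕ) :
    BX y z u v = ∏ i, B1 y z (u i) (pt v i) := by
  unfold BX B1
  rw [prod_mul_distrib, prod_all]
  rfl

theorem sum_pt {S : ℕ} (T : ℝ) {M : Type*} [AddCommMonoid M] (F : (Fin 4 → Fin S → Option ℕ) → M) :
    ∑ v ∈ Bx (4 * S) T, F (pt v) = ∑ v' ∈ Fintype.piFinset (fun _ : Fin 4 => Bx S T), F v' := by
  refine sum_nbij' (fun v => pt v) (fun v' r => v' (finProdFinEquiv.symm r).1 (finProdFinEquiv.symm r).2) ?_ ?_ ?_ ?_ ?_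
  · intro v hv
    unfold Bx at hv ⊢
    simp only [Fintype.mem_piFinset] at hv ⊢
    intro i s
    exact hv _
  · intro v' hv
    unfold Bx at hv ⊢
    simp only [Fintype.mem_piFinset] at hv ⊢
    intro r
    exact hv _ _
  · intro v _
    funext r
    show v (finProdFinEquiv ((finProdFinEquiv.symm r).1, (finProdFinEquiv.symm r).2)) = v r
    rw [Prod.mk.eta, Equiv.apply_symm_apply]
  · intro v' _
    funext i s
    show v' (finProdFinEquiv.symm (finProdFinEquiv (i, s))).1 (finProdFinEquiv.symm (finProdFinEquiv (i, s))).2 = v' i s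
    rw [Equiv.symm_apply_apply]
  · intro v _
    rfl

theorem box_prod (y z S : ℕ) (T : ℝ) (n : ℕ) (φ : Fin 4 → Option ℕ → (Fin S → Option ℕ) → ℝ) :
    ∑ u ∈ Bx 4 T, ∑ v ∈ Bx (4 * S) T, (∏ i, φ i (u i) (pt v i)) * BX y z u v n =
      (∏ i, ∑ o ∈ OO T, ∑ v0 ∈ Bx S T, φ i o v0 • B1 y z o v0) n := by
  have h1 : ∏ i, ∑ o ∈ OO T, ∑ v0 ∈ Bx S T, φ i o v0 • B1 y z o v0 =
      ∑ u ∈ Bx 4 T, ∑ v ∈ Bx (4 * S) T, ∏ i, φ i (u i) (pt v i) • B1 y z (u i) (pt v i) := by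
    unfold Bx
    rw [Finset.prod_univ_sum (fun _ : Fin 4 => OO T)
      (fun i o => ∑ v0 ∈ Fintype.piFinset fun _ : Fin S => Finset.insertNone (Finset.range (LL T)), φ i o v0 • B1 y z o v0)]
    refine sum_congr rfl fun u _ => ?_
    rw [Finset.prod_univ_sum (fun _ : Fin 4 => Fintype.piFinset fun _ : Fin S => Finset.insertNone (Finset.range (LL T)))
      (fun i v0 => φ i (u i) v0 • B1 y z (u i) v0)]
    exact (sum_pt T (fun v' => ∏ i, φ i (u i) (v' i) • B1 y z (u i) (v' i))).symm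
  rw [h1, af_sum]
  refine sum_congr rfl fun u _ => ?_
  rw [af_sum]
  refine sum_congr rfl fun v _ => ?_
  rw [BX_eq, ← af_smul]
  congr 1
  rw [Finset.prod_smul]

open Classical in
theorem triv_sum (y z S : ℕ) (T : ℝ) :
    ∑ o ∈ OO T, ∑ v0 ∈ Bx S T, (c1 v0 * if (o = none ∧ ∀ s, v0 s = none) then 1 else 0) • B1 y z o v0 = 1 := by
  rw [sum_eq_single none]
  · rw [sum_eq_single (fun _ => none)]
    · rw [if_pos ⟨rfl, fun _ => rfl⟩]
      have h1 : ns (fun _ : Fin S => (none : Option ℕ)) = 0 := by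
        unfold ns
        simp
      have h2 : B1 y z none (fun _ : Fin S => none) = 1 := by
        unfold B1
        have : ∀ s : Fin S, ps y z none = (1 : ArithmeticFunction ℝ) := fun _ => rfl
        rw [show (∏ s : Fin S, ps y z none) = 1 from prod_eq_one fun s _ => rfl]
        rw [mul_one]
        rfl
      rw [h2]
      unfold c1
      rw [h1, pow_zero, Nat.sub_zero, one_mul, mul_one, div_self, one_smul]
      exact_mod_cast (Nat.factorial_pos _).ne'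
    · intro v0 _ hv
      rw [if_neg, mul_zero, zero_smul]
      rintro ⟨-, h⟩
      exact hv (funext h)
    · intro h
      exfalso
      apply h
      unfold Bx
      rw [Fintype.mem_piFinset]
      intro s
      exact Finset.none_mem_insertNone
  · intro o _ ho
    refine sum_eq_zero fun v0 _ => ?_
    rw [if_neg, mul_zero, zero_smul]
    rintro ⟨h, -⟩
    exact ho h
  · intro h
    exact absurd Finset.none_mem_insertNone h

open Classical in
theorem key_pow (y z S : ℕ) (T : ℝ) (n k : ℕ) (hk : k ≤ 4) :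
    ∑ u ∈ Bx 4 T, ∑ v ∈ Bx (4 * S) T, ((∏ i, c1 (pt v i)) * (if ∀ i : Fin 4, k ≤ i.val → triv u v i then 1 else 0)) * BX y z u v n =
      (Rt y z S T ^ k) n := by
  set φ : Fin 4 → Option ℕ → (Fin S → Option ℕ) → ℝ := fun i o v0 =>
    c1 v0 * (if (k ≤ i.val → (o = none ∧ ∀ s, v0 s = none)) then 1 else 0) with hφ
  have h1 : ∀ (u : Fin 4 → Option ℕ) (v : Fin (4 * S) → Option ℕ), (∏ i, c1 (pt v i)) *
      (if ∀ i : Fin 4, k ≤ i.val → triv u v i then (1 : ℝ) else 0) = ∏ i, φ i (u i) (pt v i) := by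
    intro u v
    rw [hφ]
    simp only
    rw [prod_mul_distrib, Finset.prod_ite_zero, prod_const_one]
    congr 1
    have : (∀ i : Fin 4, k ≤ i.val → triv u v i) ↔ ∀ i ∈ (univ : Finset (Fin 4)), k ≤ i.val → u i = none ∧ ∀ s, pt v i s = none := by
      constructor
      · intro h i _ hi
        exact (triv_iff u v i).1 (h i hi)
      · intro h i hi
        exact (triv_iff u v i).2 (h i (mem_univ i) hi)
    by_cases hc : ∀ i : Fin 4, k ≤ i.val → triv u v i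
    · rw [if_pos hc, if_pos (this.1 hc)]
    · rw [if_neg hc, if_neg fun h => hc (this.2 h)]
  rw [sum_congr rfl fun u _ => sum_congr rfl fun v _ => by rw [h1 u v], box_prod y z S T n φ]
  congr 1
  have h2 : ∀ i : Fin 4, ∑ o ∈ OO T, ∑ v0 ∈ Bx S T, φ i o v0 • B1 y z o v0 = if i.val < k then Rt y z S T else 1 := by
    intro i
    by_cases hi : i.val < k
    · rw [if_pos hi]
      unfold Rt
      refine sum_congr rfl fun o _ => sum_congr rfl fun v0 _ => ?_
      rw [hφ]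
      simp only
      rw [if_pos (fun h => absurd h (by omega)), mul_one]
    · rw [if_neg hi, ← triv_sum y z S T]
      refine sum_congr rfl fun o _ => sum_congr rfl fun v0 _ => ?_
      rw [hφ]
      simp only
      have hk' : k ≤ i.val := by omega
      by_cases hc : o = none ∧ ∀ s, v0 s = none
      · rw [if_pos hc, if_pos (fun _ => hc)]
      · rw [if_neg hc, if_neg (fun h => hc (h hk'))]
  rw [prod_congr rfl fun i _ => h2 i, Finset.prod_ite, prod_const, prod_const_one, mul_one]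
  congr 1
  rw [Fin.card_filter_val_lt]
  omega

open Classical in
theorem key_ins (y z S : ℕ) (T κ1 : ℝ) (n : ℕ) :
    ∑ u ∈ Bx 4 T, ∑ v ∈ Bx (4 * S) T, ((∏ i, c1 (pt v i)) * (if kept T κ1 u v then 0 else 1)) * BX y z u v n =
      (At y z S T κ1 ^ 4) n := by
  set φ : Fin 4 → Option ℕ → (Fin S → Option ℕ) → ℝ := fun _ o v0 => c1 v0 * (if ins T κ1 o v0 then 1 else 0) with hφ
  have h1 : ∀ (u : Fin 4 → Option ℕ) (v : Fin (4 * S) → Option ℕ), (∏ i, c1 (pt v i)) *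
      (if kept T κ1 u v then (0 : ℝ) else 1) = ∏ i, φ i (u i) (pt v i) := by
    intro u v
    rw [hφ]
    simp only
    rw [prod_mul_distrib, Finset.prod_ite_zero, prod_const_one]
    congr 1
    have : kept T κ1 u v ↔ ¬ ∀ i ∈ (univ : Finset (Fin 4)), ins T κ1 (u i) (pt v i) := by
      unfold kept ins
      simp only [svr_eq, mem_univ, true_implies]
    by_cases hc : kept T κ1 u v
    · rw [if_pos hc, if_neg (this.1 hc)]
    · rw [if_neg hc, if_pos (not_not.1 fun h => hc (this.2 h))]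
  rw [sum_congr rfl fun u _ => sum_congr rfl fun v _ => by rw [h1 u v], box_prod y z S T n φ]
  congr 1
  have h2 : ∀ i : Fin 4, ∑ o ∈ OO T, ∑ v0 ∈ Bx S T, φ i o v0 • B1 y z o v0 = At y z S T κ1 := fun i => rfl
  rw [prod_congr rfl fun i _ => h2 i, prod_const, card_univ, Fintype.card_fin]

open Classical in
/-- **the expansion** -/
theorem sum_ccX (y z S : ℕ) (T κ1 : ℝ) (n : ℕ) :
    ∑ u ∈ Bx 4 T, ∑ v ∈ Bx (4 * S) T, ccX T κ1 u v * BX y z u v n =
      104 / 35 * Rt y z S T n - 57 / 35 * (Rt y z S T ^ 2) n + 8 / 15 * (Rt y z S T ^ 3) n -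
        11 / 140 * ((Rt y z S T ^ 4) n - (At y z S T κ1 ^ 4) n) := by
  have k1 := key_pow y z S T n 1 (by norm_num)
  have k2 := key_pow y z S T n 2 (by norm_num)
  have k3 := key_pow y z S T n 3 (by norm_num)
  have k4 := key_pow y z S T n 4 (by norm_num)
  have k5 := key_ins y z S T κ1 n
  rw [pow_one] at k1
  rw [← k1, ← k2, ← k3, ← k4, ← k5]
  simp only [mul_sum, ← sum_sub_distrib, ← sum_add_distrib]
  refine sum_congr rfl fun u _ => sum_congr rfl fun v _ => ?_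
  have hc : ∏ i, (-1 : ℝ) ^ nsi v i * ((S - nsi v i).factorial : ℝ) / (S.factorial : ℝ) = ∏ i, c1 (pt v i) := by
    refine prod_congr rfl fun i _ => ?_
    unfold c1
    rw [nsi_eq]
  unfold ccX
  rw [hc]
  have h4 : ∀ i : Fin 4, 4 ≤ i.val → triv u v i := fun i hi => absurd i.isLt (by omega)
  rw [if_pos h4]
  split_ifs <;> ring

/-! ### Bounds -/

/-- `|f m| ≤ g m` for `m ≤ M` -/
def Dm (M : ℕ) (f g : ArithmeticFunction ℝ) : Prop := ∀ m ≤ M, |f m| ≤ g m

theorem Dm.mul {M : ℕ} {f g f' g' : ArithmeticFunction ℝ} (h : Dm M f g) (h' : Dm M f' g') :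
    Dm M (f * f') (g * g') := by
  intro n hn
  rw [ArithmeticFunction.mul_apply, ArithmeticFunction.mul_apply]
  refine (abs_sum_le_sum_abs _ _).trans (sum_le_sum fun p hp => ?_)
  have hd := Nat.mem_divisorsAntidiagonal.1 hp
  have h1 : p.1 ≤ n := Nat.le_of_dvd (Nat.pos_of_ne_zero hd.2) (Dvd.intro _ hd.1)
  have h2 : p.2 ≤ n := Nat.le_of_dvd (Nat.pos_of_ne_zero hd.2) (Dvd.intro_left _ hd.1)
  rw [abs_mul]
  exact mul_le_mul (h _ (h1.trans hn)) (h' _ (h2.trans hn)) (abs_nonneg _) ((abs_nonneg _).trans (h _ (h1.trans hn)))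

theorem Dm.add {M : ℕ} {f g f' g' : ArithmeticFunction ℝ} (h : Dm M f g) (h' : Dm M f' g') :
    Dm M (f + f') (g + g') := by
  intro n hn
  rw [ArithmeticFunction.add_apply, ArithmeticFunction.add_apply]
  exact (abs_add_le _ _).trans (add_le_add (h n hn) (h' n hn))

theorem Dm.pow {M : ℕ} {f g : ArithmeticFunction ℝ} (h : Dm M f g) : ∀ k : ℕ, Dm M (f ^ k) (g ^ k)
  | 0 => fun n _ => by
    rw [pow_zero, pow_zero, ArithmeticFunction.one_apply]
    split_ifs <;> simp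
  | k + 1 => by
    rw [pow_succ, pow_succ]
    exact (Dm.pow h k).mul h

theorem Dm.tele {M : ℕ} {f h G E : ArithmeticFunction ℝ} (hf : Dm M f G) (hh : Dm M h G) (hd : Dm M (f - h) E) :
    ∀ k : ℕ, Dm M (f ^ (k + 1) - h ^ (k + 1)) ((k + 1 : ℕ) • (E * G ^ k))
  | 0 => by
    rw [zero_add, pow_one, pow_one, pow_zero, mul_one, one_smul]
    exact hd
  | k + 1 => by
    have h1 : f ^ (k + 1 + 1) - h ^ (k + 1 + 1) = f ^ (k + 1) * (f - h) + (f ^ (k + 1) - h ^ (k + 1)) * h := by ring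
    have h2 := ((hf.pow (k + 1)).mul hd).add ((Dm.tele hf hh hd k).mul hh)
    have h3 : G ^ (k + 1) * E + ((k + 1 : ℕ) • (E * G ^ k)) * G = ((k + 1 + 1 : ℕ)) • (E * G ^ (k + 1)) := by
      simp only [nsmul_eq_mul]
      push_cast
      ring
    rw [h1]
    rw [h3] at h2
    exact h2

theorem nn_rg (y : ℕ) : NN (rg y) := by
  intro n
  rw [rg_apply]
  split_ifs <;> norm_num

theorem nn_pow {f : ArithmeticFunction ℝ} (h : NN f) : ∀ k : ℕ, NN (f ^ k)
  | 0 => by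
    rw [pow_zero]
    exact nn_one
  | k + 1 => by
    rw [pow_succ]
    exact (nn_pow h k).mul h

theorem le_mul_rg {A : ArithmeticFunction ℝ} (hA : NN A) (y n : ℕ) : A n ≤ (A * rg y) n := by
  rcases eq_or_ne n 0 with rfl | hn
  · simp
  rw [ArithmeticFunction.mul_apply]
  have h1 : A n = A n * rg y 1 := by
    have : rg y 1 = 1 := by
      rw [rg_apply, if_pos]
      refine ⟨one_ne_zero, fun p hp h => absurd (Nat.dvd_one.1 h) hp.one_lt.ne'⟩
    rw [this, mul_one]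
  have h2 : (n, 1) ∈ n.divisorsAntidiagonal := Nat.mem_divisorsAntidiagonal.2 ⟨mul_one n, hn⟩
  calc A n = A n * rg y 1 := h1
    _ ≤ ∑ p ∈ n.divisorsAntidiagonal, A p.1 * rg y p.2 :=
      single_le_sum (f := fun p : ℕ × ℕ => A p.1 * rg y p.2) (fun p _ => mul_nonneg (hA _) (nn_rg y _)) h2

theorem mul_rg_mono {A : ArithmeticFunction ℝ} (hA : NN A) (y n k : ℕ) (hk : k ≤ 3) :
    (A * rg y ^ k) n ≤ (A * rg y ^ 3) n := by
  have h : ∀ j, (A * rg y ^ j) n ≤ (A * rg y ^ (j + 1)) n := by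
    intro j
    rw [pow_succ, ← mul_assoc]
    exact le_mul_rg (hA.mul (nn_pow (nn_rg y) j)) y n
  have h0 := h 0
  have h1 := h 1
  have h2 := h 2
  interval_cases k
  · exact (h0.trans h1).trans h2
  · exact h1.trans h2
  · exact h2
  · exact le_rfl

/-- rough numbers with a square factor -/
def E1 (y : ℕ) : ArithmeticFunction ℝ := ⟨fun m => sqr y m * rg y m, by simp⟩

theorem E1_apply (y m : ℕ) : E1 y m = sqr y m * rg y m := rfl

theorem sqr_nonneg (y m : ℕ) : 0 ≤ sqr y m := by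
  unfold sqr
  split_ifs <;> norm_num

theorem nn_E1 (y : ℕ) : NN (E1 y) := fun m => mul_nonneg (sqr_nonneg y m) (nn_rg y m)

theorem nn_bw (y : ℕ) (T κ1 K : ℝ) : NN (bw y T κ1 K) := by
  classical
  intro m
  have : bw y T κ1 K m = if m ≠ 0 ∧ ((T ^ (1 / 2 - κ1) / K ≤ m ∧ (m : ℝ) ≤ K * T ^ (1 / 2 - κ1)) ∨
    (T ^ (1 / 2 + κ1) / K ≤ m ∧ (m : ℝ) ≤ K * T ^ (1 / 2 + κ1))) then rg y m else 0 := rfl
  rw [this]
  split_ifs
  · exact nn_rg y m
  · exact le_rfl

theorem sqr_mono {y a n : ℕ} (h : a ∣ n) : sqr y a ≤ sqr y n := by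
  unfold sqr
  by_cases ha : ∃ p : ℕ, p.Prime ∧ y < p ∧ p ^ 2 ∣ a
  · rw [if_pos ha, if_pos]
    obtain ⟨p, h1, h2, h3⟩ := ha
    exact ⟨p, h1, h2, h3.trans h⟩
  · rw [if_neg ha]
    split_ifs <;> norm_num

theorem E1_mul_le {y S n : ℕ} (hy : 1 ≤ y) (hn : n ≤ y ^ (S + 1)) :
    (E1 y * rg y ^ 3) n ≤ 4 ^ S * sqr y n := by
  have h1 : (E1 y * rg y ^ 3) n ≤ sqr y n * (rg y ^ 4) n := by
    have : (rg y ^ 4) = rg y * rg y ^ 3 := by ring
    rw [this, ArithmeticFunction.mul_apply, ArithmeticFunction.mul_apply, mul_sum]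
    refine sum_le_sum fun p hp => ?_
    obtain ⟨hp1, hp2, hp3, hp4⟩ := pair_ne hp
    rw [E1_apply, mul_assoc]
    exact mul_le_mul_of_nonneg_right (sqr_mono (Dvd.intro _ hp1))
      (mul_nonneg (nn_rg y _) (nn_pow (nn_rg y) 3 _))
  have h2 : (rg y ^ 4) n ≤ ((4 : ℕ) : ℝ) ^ S := ((dom_rg y).pow (k := 4)).le_pow (by norm_num) hy hn
  calc (E1 y * rg y ^ 3) n ≤ sqr y n * (rg y ^ 4) n := h1
    _ ≤ sqr y n * ((4 : ℕ) : ℝ) ^ S := mul_le_mul_of_nonneg_left h2 (sqr_nonneg y n)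
    _ = 4 ^ S * sqr y n := by
      push_cast
      ring

/-! ### The functions `R~` and `α~` -/

theorem sum_gen (y z S L m : ℕ) (T k : ℝ) (hL : LL T = L + 1) (hm : m ≤ 2 ^ L) :
    ∑ o ∈ OO T, ∑ v0 ∈ Bx S T, (k ^ ns v0 * ((S - ns v0).factorial : ℝ) / (S.factorial : ℝ)) * B1 y z o v0 m =
      ∑ s ∈ range (S + 1), k ^ s / (s.factorial : ℝ) * (pb y z ^ s * rg y ^ 1) m := by
  have h1 : ∑ o ∈ OO T, ∑ v0 ∈ Bx S T, (k ^ ns v0 * ((S - ns v0).factorial : ℝ) / (S.factorial : ℝ)) • B1 y z o v0 =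
      rgt y (LL T) * ∑ s ∈ range (S + 1), (k ^ s / (s.factorial : ℝ)) • pbt y z (LL T) ^ s := by
    rw [← sum_v y z S T k]
    have : rgt y (LL T) = ∑ o ∈ OO T, ms y o := by
      unfold OO rgt
      rw [sum_none]
      rfl
    rw [this, sum_mul_sum]
    refine sum_congr rfl fun o _ => sum_congr rfl fun v0 _ => ?_
    unfold B1
    rw [mul_smul_comm]
  have h2 := DFunLike.congr_fun h1 m
  rw [af_sum] at h2
  rw [mul_sum, af_sum] at h2
  have h3 : ∀ s ∈ range (S + 1), (rgt y (LL T) * ((k ^ s / (s.factorial : ℝ)) • pbt y z (LL T) ^ s)) m =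
      k ^ s / (s.factorial : ℝ) * (pb y z ^ s * rg y ^ 1) m := by
    intro s _
    rw [← ((pbt_eq y z L).pow s).mul ((rgt_eq y L).pow 1) m hm, mul_smul_comm, af_smul, pow_one, hL,
      mul_comm (rgt y (L + 1))]
  rw [sum_congr rfl h3] at h2
  rw [← h2]
  refine sum_congr rfl fun o _ => ?_
  rw [af_sum]
  exact sum_congr rfl fun v0 _ => by rw [af_smul]

/-- bound for `|R~|` -/
def C0 (S : ℕ) : ℝ := ∑ s ∈ range (S + 1), 1 / (s.factorial : ℝ) * ((s : ℝ) + 1) ^ S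

theorem C0_nonneg (S : ℕ) : 0 ≤ C0 S := sum_nonneg fun s _ => by positivity

theorem nn_B1 (y z : ℕ) {S : ℕ} (o : Option ℕ) (v0 : Fin S → Option ℕ) : NN (B1 y z o v0) :=
  (nn_ms y o).mul (nn_prod _ _ fun s _ => nn_ps y z (v0 s))

theorem abs_c1 {S : ℕ} (v0 : Fin S → Option ℕ) :
    |c1 v0| = (1 : ℝ) ^ ns v0 * ((S - ns v0).factorial : ℝ) / (S.factorial : ℝ) := by
  unfold c1
  rw [abs_div, abs_mul, abs_pow, abs_neg, abs_one, Nat.abs_cast, Nat.abs_cast]

theorem sum_abs {y z S L m : ℕ} {T : ℝ} (hy : 1 ≤ y) (hL : LL T = L + 1) (hm : m ≤ 2 ^ L) (hmy : m ≤ y ^ (S + 1)) :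
    ∑ o ∈ OO T, ∑ v0 ∈ Bx S T, |c1 v0| * B1 y z o v0 m ≤ C0 S * rg y m := by
  rcases eq_or_ne m 0 with rfl | hm0
  · simp
  have h1 := sum_gen y z S L m T 1 hL hm
  rw [sum_congr rfl fun o _ => sum_congr rfl fun v0 _ => by rw [abs_c1], h1]
  by_cases hr : Rough y m
  · rw [rg_apply, if_pos ⟨hm0, hr⟩, mul_one]
    unfold C0
    refine sum_le_sum fun s _ => ?_
    rw [one_pow]
    refine mul_le_mul_of_nonneg_left ?_ (by positivity)
    have h2 := (((dom_pb y z).pow (k := s)).mul ((dom_rg y).pow (k := 1))).le_pow (by omega) hy hmy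
    push_cast at h2
    exact h2
  · rw [rg_apply, if_neg (fun h => hr h.2), mul_zero]
    refine (sum_eq_zero fun s _ => ?_).le
    have h2 := ((((dom_pb y z).pow (k := s)).mul ((dom_rg y).pow (k := 1))) m).2.2 hr
    rw [h2, mul_zero]

theorem sub_abs {y z S L m : ℕ} {T : ℝ} (hy : 1 ≤ y) (hL : LL T = L + 1) (hm : m ≤ 2 ^ L) (hmy : m ≤ y ^ (S + 1))
    (a : Option ℕ → (Fin S → Option ℕ) → ℝ) (ha : ∀ o v0, |a o v0| ≤ 1) :
    |∑ o ∈ OO T, ∑ v0 ∈ Bx S T, (c1 v0 * a o v0) * B1 y z o v0 m| ≤ C0 S * rg y m := by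
  refine le_trans ?_ (sum_abs hy hL hm hmy (z := z))
  refine (abs_sum_le_sum_abs _ _).trans (sum_le_sum fun o _ => ?_)
  refine (abs_sum_le_sum_abs _ _).trans (sum_le_sum fun v0 _ => ?_)
  rw [abs_mul, abs_mul, abs_of_nonneg (nn_B1 y z o v0 m)]
  refine mul_le_mul_of_nonneg_right ?_ (nn_B1 y z o v0 m)
  calc |c1 v0| * |a o v0| ≤ |c1 v0| * 1 := mul_le_mul_of_nonneg_left (ha o v0) (abs_nonneg _)
    _ = |c1 v0| := mul_one _

theorem Rt_apply (y z S m : ℕ) (T : ℝ) : Rt y z S T m = ∑ o ∈ OO T, ∑ v0 ∈ Bx S T, c1 v0 * B1 y z o v0 m := by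
  unfold Rt
  rw [af_sum]
  refine sum_congr rfl fun o _ => ?_
  rw [af_sum]
  exact sum_congr rfl fun v0 _ => by rw [af_smul]

open Classical in
theorem At_apply (y z S m : ℕ) (T κ1 : ℝ) : At y z S T κ1 m =
    ∑ o ∈ OO T, ∑ v0 ∈ Bx S T, (c1 v0 * if ins T κ1 o v0 then 1 else 0) * B1 y z o v0 m := by
  unfold At
  rw [af_sum]
  refine sum_congr rfl fun o _ => ?_
  rw [af_sum]
  exact sum_congr rfl fun v0 _ => by rw [af_smul]

theorem Rt_abs {y z S L m : ℕ} {T : ℝ} (hy : 1 ≤ y) (hL : LL T = L + 1) (hm : m ≤ 2 ^ L) (hmy : m ≤ y ^ (S + 1)) :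
    |Rt y z S T m| ≤ C0 S * rg y m := by
  have h := sub_abs hy hL hm hmy (z := z) (fun _ _ => 1) (fun _ _ => by rw [abs_one])
  rw [Rt_apply]
  simpa only [mul_one] using h

theorem At_abs {y z S L m : ℕ} {T : ℝ} (κ1 : ℝ) (hy : 1 ≤ y) (hL : LL T = L + 1) (hm : m ≤ 2 ^ L)
    (hmy : m ≤ y ^ (S + 1)) : |At y z S T κ1 m| ≤ C0 S * rg y m := by
  classical
  rw [At_apply]
  exact sub_abs hy hL hm hmy (z := z) (fun o v0 => if ins T κ1 o v0 then 1 else 0) (fun _ _ => by split_ifs <;> simp)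

theorem Rt_rg {y z S L m : ℕ} {T : ℝ} (hy : 1 ≤ y) (hyz : y ≤ z) (hL : LL T = L + 1) (hm : m ≤ 2 ^ L)
    (hmy : m ≤ y ^ (S + 1)) : |rg z m - Rt y z S T m| ≤ exErr S 1 * E1 y m := by
  classical
  rcases eq_or_ne m 0 with rfl | hm0
  · simp
  have h1 := sum_gen y z S L m T (-1) hL hm
  have h2 : Rt y z S T m = ∑ s ∈ range (S + 1), (-((1 : ℕ) : ℝ)) ^ s / (s.factorial : ℝ) * (pb y z ^ s * rg y ^ 1) m := by
    rw [Rt_apply, Nat.cast_one, ← h1]
    rfl
  have h3 := rg_pow_expand_error (k := 1) hy hyz hmy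
  rw [← h2, pow_one (rg z)] at h3
  refine h3.trans ?_
  split_ifs with hc
  · have e1 : sqr y m = 1 := by
      unfold sqr
      rw [if_pos]
      obtain ⟨p, p1, p2, p3, p4⟩ := hc.2
      exact ⟨p, p1, p2, p4⟩
    have e2 : rg y m = 1 := by
      rw [rg_apply, if_pos ⟨hm0, hc.1⟩]
    rw [E1_apply, e1, e2, mul_one, mul_one]
  · exact mul_nonneg (exErr_pos S 1).le (nn_E1 y m)

/-! ### Supports -/

theorem supp_mul {f g : ArithmeticFunction ℝ} {a b a' b' : ℝ} (ha' : 0 ≤ a')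
    (hf : ∀ n : ℕ, f n ≠ 0 → a ≤ n ∧ (n : ℝ) ≤ b) (hg : ∀ n : ℕ, g n ≠ 0 → a' ≤ n ∧ (n : ℝ) ≤ b') (n : ℕ)
    (hn : (f * g) n ≠ 0) : a * a' ≤ n ∧ (n : ℝ) ≤ b * b' := by
  rw [ArithmeticFunction.mul_apply] at hn
  obtain ⟨p, hp, hp2⟩ := exists_ne_zero_of_sum_ne_zero hn
  obtain ⟨h1, -, -, -⟩ := pair_ne hp
  obtain ⟨f1, f2⟩ := hf _ (left_ne_zero_of_mul hp2)
  obtain ⟨g1, g2⟩ := hg _ (right_ne_zero_of_mul hp2)
  rw [← h1]
  push_cast
  have h3 : (0 : ℝ) ≤ (p.1 : ℝ) := Nat.cast_nonneg _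
  have h4 : (0 : ℝ) ≤ (p.2 : ℝ) := Nat.cast_nonneg _
  exact ⟨mul_le_mul f1 g1 ha' h3, mul_le_mul f2 g2 h4 (h3.trans f2)⟩

theorem supp_prod {ι : Type} (I : Finset ι) (f : ι → ArithmeticFunction ℝ) (c : ι → ℝ) (hc : ∀ i ∈ I, 0 ≤ c i)
    (h : ∀ i ∈ I, ∀ n : ℕ, f i n ≠ 0 → c i / 2 ≤ n ∧ (n : ℝ) ≤ 2 * c i) :
    ∀ n : ℕ, (∏ i ∈ I, f i) n ≠ 0 → (∏ i ∈ I, c i) / 2 ^ I.card ≤ n ∧ (n : ℝ) ≤ 2 ^ I.card * ∏ i ∈ I, c i := by
  classical
  induction I using Finset.induction_on with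
  | empty =>
    intro n hn
    have h1 : n = 1 := by
      by_contra h2
      exact hn (ArithmeticFunction.one_apply_ne h2)
    subst h1
    simp
  | insert a s ha ih =>
    intro n hn
    rw [prod_insert ha] at hn ⊢
    have hc' : ∀ i ∈ s, 0 ≤ c i := fun i hi => hc i (mem_insert_of_mem hi)
    have hp : 0 ≤ ∏ i ∈ s, c i := prod_nonneg hc'
    have hca := hc a (mem_insert_self a s)
    have h1 := supp_mul (a := c a / 2) (a' := (∏ i ∈ s, c i) / 2 ^ s.card) (by positivity)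
      (h a (mem_insert_self a s)) (ih hc' fun i hi => h i (mem_insert_of_mem hi)) n hn
    rw [card_insert_of_notMem ha]
    refine ⟨le_trans (le_of_eq ?_) h1.1, le_trans h1.2 (le_of_eq ?_)⟩
    · rw [pow_succ]
      field_simp
    · rw [pow_succ]
      ring

theorem B1_supp {y z S : ℕ} (o : Option ℕ) (v0 : Fin S → Option ℕ) (m : ℕ) (h : B1 y z o v0 m ≠ 0) :
    (sc o * ∏ s, sc (v0 s)) / 2 ^ (S + 1) ≤ m ∧ (m : ℝ) ≤ 2 ^ (S + 1) * (sc o * ∏ s, sc (v0 s)) := by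
  have hsc : ∀ o : Option ℕ, 0 ≤ sc o := fun o => (Rg_aux.sc_pos o).le
  have h2 : ∀ (o : Option ℕ) (n : ℕ), n ≤ Rg_aux.Yn o → (n : ℝ) ≤ 2 * sc o := by
    intro o n hn
    rw [← Rg_aux.Yn_cast]
    exact_mod_cast hn
  have h1 := supp_mul (a := sc o / 2) (b := 2 * sc o) (a' := (∏ s, sc (v0 s)) / 2 ^ (univ : Finset (Fin S)).card)
    (b' := 2 ^ (univ : Finset (Fin S)).card * ∏ s, sc (v0 s))
    (div_nonneg (prod_nonneg fun s _ => hsc _) (by positivity))
    (fun n hn => ⟨(Rg_aux.ms_supp y o n hn).1, h2 _ _ (Rg_aux.ms_supp y o n hn).2⟩)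
    (supp_prod univ (fun s => ps y z (v0 s)) (fun s => sc (v0 s)) (fun s _ => hsc _)
      fun s _ n hn => ⟨(Rg_aux.ps_supp y z _ n hn).1, h2 _ _ (Rg_aux.ps_supp y z _ n hn).2⟩) m h
  rw [card_univ, Fintype.card_fin] at h1
  refine ⟨le_trans (le_of_eq ?_) h1.1, le_trans h1.2 (le_of_eq ?_)⟩
  · rw [pow_succ]
    field_simp
  · rw [pow_succ]
    ring

/-! ### The window -/

open Classical in
theorem bw_apply (y : ℕ) (T κ1 K : ℝ) (m : ℕ) : bw y T κ1 K m =
    if m ≠ 0 ∧ ((T ^ (1 / 2 - κ1) / K ≤ m ∧ (m : ℝ) ≤ K * T ^ (1 / 2 - κ1)) ∨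
      (T ^ (1 / 2 + κ1) / K ≤ m ∧ (m : ℝ) ≤ K * T ^ (1 / 2 + κ1))) then rg y m else 0 := rfl

open Classical in
theorem al_apply (z : ℕ) (T κ1 : ℝ) (m : ℕ) : al z T κ1 m =
    if m ≠ 0 ∧ T ^ (1 / 2 - κ1) < m ∧ (m : ℝ) ≤ T ^ (1 / 2 + κ1) then rg z m else 0 := rfl

theorem rg_le {y z : ℕ} (h : y ≤ z) (m : ℕ) : rg z m ≤ rg y m := by
  rw [rg_apply, rg_apply]
  by_cases hc : m ≠ 0 ∧ Rough z m
  · rw [if_pos hc, if_pos ⟨hc.1, Pool.Agent.Work.MP_a8fbd7_nt.OX.ID.Rough.mono h hc.2⟩]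
  · rw [if_neg hc]
    split_ifs <;> norm_num

theorem al_nn (z : ℕ) (T κ1 : ℝ) : NN (al z T κ1) := by
  classical
  intro m
  rw [al_apply]
  split_ifs
  · exact nn_rg z m
  · exact le_rfl

theorem al_le {y z : ℕ} (h : y ≤ z) (T κ1 : ℝ) (m : ℕ) : al z T κ1 m ≤ rg y m := by
  classical
  rw [al_apply]
  split_ifs
  · exact rg_le h m
  · exact nn_rg y m

/-- the constant -/
def cst (S : ℕ) : ℝ := 1 + C0 S + exErr S 1

theorem al_At {y z S L m : ℕ} {T κ1 : ℝ} (hy : 1 ≤ y) (hyz : y ≤ z) (hL : LL T = L + 1) (hm : m ≤ 2 ^ L)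
    (hmy : m ≤ y ^ (S + 1)) (hT : 1 ≤ T) (hκ : 0 < κ1) :
    |al z T κ1 m - At y z S T κ1 m| ≤ cst S * (E1 y m + bw y T κ1 (2 ^ (S + 1)) m) := by
  classical
  have c1' := C0_nonneg S
  have c2' := (exErr_pos S 1).le
  have hcst : 0 ≤ cst S := by
    unfold cst
    linarith
  have hE := nn_E1 y m
  have hB := nn_bw y T κ1 (2 ^ (S + 1)) m
  have hA := At_abs (z := z) κ1 hy hL hm hmy
  have hal := al_le hyz T κ1 m
  have hal0 := al_nn z T κ1 m
  have hW : T ^ (1 / 2 - κ1) ≤ T ^ (1 / 2 + κ1) := Real.rpow_le_rpow_of_exponent_le hT (by linarith)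
  have hK : (1 : ℝ) ≤ 2 ^ (S + 1) := one_le_pow₀ (by norm_num)
  have hKp : (0 : ℝ) < 2 ^ (S + 1) := by positivity
  have hT1 : 0 < T ^ (1 / 2 - κ1) := Real.rpow_pos_of_pos (by linarith) _
  have hT2 : 0 < T ^ (1 / 2 + κ1) := Real.rpow_pos_of_pos (by linarith) _
  rcases eq_or_ne m 0 with rfl | hm0
  · simp
  by_cases hr : Rough y m
  · have hrg : rg y m = 1 := by
      rw [rg_apply, if_pos ⟨hm0, hr⟩]
    rw [hrg, mul_one] at hA
    rw [hrg] at hal
    by_cases hb : (T ^ (1 / 2 - κ1) / 2 ^ (S + 1) ≤ m ∧ (m : ℝ) ≤ 2 ^ (S + 1) * T ^ (1 / 2 - κ1)) ∨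
      (T ^ (1 / 2 + κ1) / 2 ^ (S + 1) ≤ m ∧ (m : ℝ) ≤ 2 ^ (S + 1) * T ^ (1 / 2 + κ1))
    · have hbw : bw y T κ1 (2 ^ (S + 1)) m = 1 := by
        rw [bw_apply, if_pos ⟨hm0, hb⟩, hrg]
      rw [hbw]
      have h1 : |al z T κ1 m - At y z S T κ1 m| ≤ 1 + C0 S := by
        refine (abs_sub _ _).trans (add_le_add ?_ hA)
        rw [abs_of_nonneg hal0]
        exact hal
      refine h1.trans ?_
      have h2 : cst S * 1 ≤ cst S * (E1 y m + 1) := mul_le_mul_of_nonneg_left (by linarith) hcst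
      refine le_trans ?_ h2
      unfold cst
      linarith
    · push Not at hb
      obtain ⟨hb1, hb2⟩ := hb
      rcases lt_or_ge (m : ℝ) (T ^ (1 / 2 - κ1) / 2 ^ (S + 1)) with hlow | hlow
      · -- below the window
        have h1 : al z T κ1 m = 0 := by
          rw [al_apply, if_neg]
          rintro ⟨-, h2, -⟩
          rw [lt_div_iff₀ hKp] at hlow
          have : (m : ℝ) * 1 ≤ m * 2 ^ (S + 1) := mul_le_mul_of_nonneg_left hK (Nat.cast_nonneg _)
          linarith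
        have h2 : At y z S T κ1 m = 0 := by
          rw [At_apply]
          refine sum_eq_zero fun o _ => sum_eq_zero fun v0 _ => ?_
          by_cases hB1 : B1 y z o v0 m = 0
          · rw [hB1, mul_zero]
          · rw [if_neg, mul_zero, zero_mul]
            rintro ⟨h3, -⟩
            have h4 := (B1_supp o v0 m hB1).1
            rw [div_le_iff₀ hKp] at h4
            rw [lt_div_iff₀ hKp] at hlow
            linarith
        rw [h1, h2, sub_zero, abs_zero]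
        exact mul_nonneg hcst (by linarith)
      · have hm1 := hb1 hlow
        rcases lt_or_ge (m : ℝ) (T ^ (1 / 2 + κ1) / 2 ^ (S + 1)) with hmid | hmid
        · -- inside the window
          have hm2 : (m : ℝ) * 2 ^ (S + 1) < T ^ (1 / 2 + κ1) := by
            rw [lt_div_iff₀ hKp] at hmid
            exact hmid
          have hm3 : (m : ℝ) * 1 ≤ m * 2 ^ (S + 1) := mul_le_mul_of_nonneg_left hK (Nat.cast_nonneg _)
          have hm4 : 1 * T ^ (1 / 2 - κ1) ≤ 2 ^ (S + 1) * T ^ (1 / 2 - κ1) := mul_le_mul_of_nonneg_right hK hT1.le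
          have h1 : al z T κ1 m = rg z m := by
            rw [al_apply, if_pos]
            exact ⟨hm0, by linarith, by linarith⟩
          have h2 : At y z S T κ1 m = Rt y z S T m := by
            rw [At_apply, Rt_apply]
            refine sum_congr rfl fun o _ => sum_congr rfl fun v0 _ => ?_
            by_cases hB1 : B1 y z o v0 m = 0
            · rw [hB1, mul_zero, mul_zero]
            · rw [if_pos, mul_one]
              obtain ⟨h4, h5⟩ := B1_supp o v0 m hB1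
              rw [div_le_iff₀ hKp] at h4
              refine ⟨?_, by linarith⟩
              have h6 : 2 ^ (S + 1) * T ^ (1 / 2 - κ1) < 2 ^ (S + 1) * (sc o * ∏ s, sc (v0 s)) := by linarith
              exact (lt_of_mul_lt_mul_left h6 hKp.le).le
          rw [h1, h2]
          have h3 := Rt_rg (z := z) hy hyz hL hm hmy
          refine h3.trans ?_
          have h4 : exErr S 1 * E1 y m ≤ cst S * E1 y m := by
            refine mul_le_mul_of_nonneg_right ?_ hE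
            unfold cst
            linarith
          refine h4.trans (mul_le_mul_of_nonneg_left (by linarith) hcst)
        · -- above the window
          have hm2 := hb2 hmid
          have hm4 : 1 * T ^ (1 / 2 + κ1) ≤ 2 ^ (S + 1) * T ^ (1 / 2 + κ1) := mul_le_mul_of_nonneg_right hK hT2.le
          have h1 : al z T κ1 m = 0 := by
            rw [al_apply, if_neg]
            rintro ⟨-, -, h2⟩
            linarith
          have h2 : At y z S T κ1 m = 0 := by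
            rw [At_apply]
            refine sum_eq_zero fun o _ => sum_eq_zero fun v0 _ => ?_
            by_cases hB1 : B1 y z o v0 m = 0
            · rw [hB1, mul_zero]
            · rw [if_neg, mul_zero, zero_mul]
              rintro ⟨-, h3⟩
              have h4 := (B1_supp o v0 m hB1).2
              have h5 : 2 ^ (S + 1) * (sc o * ∏ s, sc (v0 s)) ≤ 2 ^ (S + 1) * T ^ (1 / 2 + κ1) :=
                mul_le_mul_of_nonneg_left h3 hKp.le
              linarith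
          rw [h1, h2, sub_zero, abs_zero]
          exact mul_nonneg hcst (by linarith)
  · have hrg : rg y m = 0 := by
      rw [rg_apply, if_neg fun h => hr h.2]
    rw [hrg, mul_zero] at hA
    rw [hrg] at hal
    have h1 : al z T κ1 m = 0 := le_antisymm hal hal0
    have h2 : At y z S T κ1 m = 0 := abs_eq_zero.1 (le_antisymm hA (abs_nonneg _))
    rw [h1, h2, sub_zero, abs_zero]
    exact mul_nonneg hcst (by linarith)

/-! ### Powers -/

theorem fin_bd {y n : ℕ} {c : ℝ} {f h E0 : ArithmeticFunction ℝ} (hc : 1 ≤ c) (hE0 : NN E0)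
    (hf : Dm n f (c • rg y)) (hh : Dm n h (c • rg y)) (hd : Dm n (f - h) (c • E0)) (k : ℕ) (hk : k ≤ 3) :
    |(f ^ (k + 1)) n - (h ^ (k + 1)) n| ≤ 4 * c ^ 4 * (E0 * rg y ^ 3) n := by
  have h1 := Dm.tele hf hh hd k n le_rfl
  rw [af_sub] at h1
  have h2 : ((k + 1 : ℕ) • (c • E0 * (c • rg y) ^ k) : ArithmeticFunction ℝ) n =
      ((k + 1 : ℕ) : ℝ) * (c ^ (k + 1) * (E0 * rg y ^ k) n) := by
    rw [smul_pow, smul_mul_smul_comm, ← Nat.cast_smul_eq_nsmul ℝ, af_smul, af_smul, pow_succ, mul_comm c]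
  rw [h2] at h1
  refine h1.trans ?_
  have h3 := mul_rg_mono hE0 y n k hk
  have h4 : 0 ≤ (E0 * rg y ^ k) n := hE0.mul (nn_pow (nn_rg y) k) n
  have h5 : c ^ (k + 1) ≤ c ^ 4 := pow_le_pow_right₀ hc (by omega)
  have h6 : ((k + 1 : ℕ) : ℝ) ≤ 4 := by
    have : k + 1 ≤ 4 := by omega
    exact_mod_cast this
  have hc0 : 0 ≤ c := by linarith
  calc ((k + 1 : ℕ) : ℝ) * (c ^ (k + 1) * (E0 * rg y ^ k) n)
      ≤ 4 * (c ^ 4 * (E0 * rg y ^ 3) n) :=
        mul_le_mul h6 (mul_le_mul h5 h3 h4 (by positivity)) (by positivity) (by norm_num)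
    _ = 4 * c ^ 4 * (E0 * rg y ^ 3) n := by ring

end XEx_aux

open XEx_aux

theorem iXEx : StXEx := by
  classical
  intro η κ1 hη hη2 hκ hκ2
  set S := SS η with hS
  set c := cst S with hc
  have c0 := C0_nonneg S
  have e0 := (exErr_pos S 1).le
  have hc1 : 1 ≤ c := by
    rw [hc]
    unfold cst
    linarith
  have hc2 : C0 S ≤ c := by
    rw [hc]
    unfold cst
    linarith
  have hc3 : exErr S 1 ≤ c := by
    rw [hc]
    unfold cst
    linarith
  have hcp : 0 ≤ c := by linarith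
  refine ⟨max (2 ^ (2 * (S + 1))) (24 * c ^ 4 * 4 ^ S), ?_, ?_⟩
  · exact le_trans (one_le_pow₀ (by norm_num)) (le_max_left _ _)
  intro T n hT hn2 hn
  have hT2 : (2 : ℝ) ^ (2 * (S + 1)) ≤ T := (le_max_left _ _).trans hT
  have hT0 : 1 ≤ T := (one_le_pow₀ (by norm_num)).trans hT2
  have hTp : 0 < T := by linarith
  have hcE : η ≤ cE := by
    unfold cE
    linarith
  set y := zz η T with hy
  set z := zz cE T with hz
  have hy1 : 1 ≤ y := zz_pos hη.le hT0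
  have hyz : y ≤ z := zz_mono hcE hT0
  -- `n ≤ y ^ (S + 1)`
  have hny : n ≤ y ^ (S + 1) := by
    apply le_zz_pow hη.le hT0 hn
    have h1 : (2 : ℝ) ^ (S + 1) ≤ T ^ (1 / 2 : ℝ) := by
      rw [← Real.sqrt_eq_rpow]
      apply Real.le_sqrt_of_sq_le
      rw [← pow_mul, mul_comm]
      exact hT2
    have h2 : 3 ≤ η * S := by
      have : 3 / η ≤ (S : ℝ) := by
        rw [hS]
        exact Nat.le_ceil _
      rw [div_le_iff₀ hη] at this
      linarith
    calc T ^ (2 + 1 / 20 : ℝ) * 2 ^ (S + 1) ≤ T ^ (2 + 1 / 20 : ℝ) * T ^ (1 / 2 : ℝ) :=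
          mul_le_mul_of_nonneg_left h1 (by positivity)
      _ = T ^ (2 + 1 / 20 + 1 / 2 : ℝ) := (Real.rpow_add hTp _ _).symm
      _ ≤ T ^ (η * ((S + 1 : ℕ) : ℝ)) := by
          apply Real.rpow_le_rpow_of_exponent_le hT0
          push_cast
          linarith
  have hnL : n ≤ 2 ^ ⌈3 * Real.log T⌉₊ := le_two_pow hT0 hn
  set L := ⌈3 * Real.log T⌉₊ with hL
  have hLL : LL T = L + 1 := rfl
  set E0 : ArithmeticFunction ℝ := E1 y + bw y T κ1 (2 ^ (S + 1)) with hE0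
  have hE0n : NN E0 := (nn_E1 y).add (nn_bw y T κ1 _)
  -- the five bounds
  have d1 : Dm n (rg z) (c • rg y) := by
    intro m _
    rw [af_smul, abs_of_nonneg (nn_rg z m)]
    have h1 := rg_le hyz m
    have h2 := nn_rg y m
    nlinarith
  have d2 : Dm n (Rt y z S T) (c • rg y) := by
    intro m hm
    rw [af_smul]
    exact (Rt_abs hy1 hLL (hm.trans hnL) (hm.trans hny)).trans (mul_le_mul_of_nonneg_right hc2 (nn_rg y m))
  have d3 : Dm n (rg z - Rt y z S T) (c • E0) := by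
    intro m hm
    rw [af_smul, af_sub, hE0, ArithmeticFunction.add_apply]
    refine (Rt_rg hy1 hyz hLL (hm.trans hnL) (hm.trans hny)).trans ?_
    have h1 := nn_E1 y m
    have h2 := nn_bw y T κ1 (2 ^ (S + 1)) m
    calc exErr S 1 * E1 y m ≤ c * E1 y m := mul_le_mul_of_nonneg_right hc3 h1
      _ ≤ c * (E1 y m + bw y T κ1 (2 ^ (S + 1)) m) := mul_le_mul_of_nonneg_left (by linarith) hcp
  have d4 : Dm n (al z T κ1) (c • rg y) := by
    intro m _
    rw [af_smul, abs_of_nonneg (al_nn z T κ1 m)]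
    have h1 := al_le hyz T κ1 m
    have h2 := nn_rg y m
    nlinarith
  have d5 : Dm n (At y z S T κ1) (c • rg y) := by
    intro m hm
    rw [af_smul]
    exact (At_abs κ1 hy1 hLL (hm.trans hnL) (hm.trans hny)).trans (mul_le_mul_of_nonneg_right hc2 (nn_rg y m))
  have d6 : Dm n (al z T κ1 - At y z S T κ1) (c • E0) := by
    intro m hm
    rw [af_smul, af_sub, hE0, ArithmeticFunction.add_apply]
    exact al_At hy1 hyz hLL (hm.trans hnL) (hm.trans hny) hT0 hκ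
  have b1 := fin_bd hc1 hE0n d1 d2 d3 0 (by norm_num)
  have b2 := fin_bd hc1 hE0n d1 d2 d3 1 (by norm_num)
  have b3 := fin_bd hc1 hE0n d1 d2 d3 2 (by norm_num)
  have b4 := fin_bd hc1 hE0n d1 d2 d3 3 (by norm_num)
  have b5 := fin_bd hc1 hE0n d4 d5 d6 3 (by norm_num)
  rw [zero_add, pow_one, pow_one] at b1
  norm_num only at b2 b3 b4 b5
  rw [sum_ccX]
  set X := (E0 * rg y ^ 3) n with hX
  have hX0 : 0 ≤ X := hE0n.mul (nn_pow (nn_rg y) 3) n
  have hXe : X ≤ 4 ^ S * (sqr y n + (bw y T κ1 (2 ^ (S + 1)) * rg y ^ 3) n) := by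
    have h1 : X = (E1 y * rg y ^ 3) n + (bw y T κ1 (2 ^ (S + 1)) * rg y ^ 3) n := by
      rw [hX, hE0, add_mul, ArithmeticFunction.add_apply]
    have h2 := E1_mul_le hy1 hny
    have h3 : 0 ≤ (bw y T κ1 (2 ^ (S + 1)) * rg y ^ 3) n := (nn_bw y T κ1 _).mul (nn_pow (nn_rg y) 3) n
    have h4 : (1 : ℝ) ≤ 4 ^ S := one_le_pow₀ (by norm_num)
    rw [h1, mul_add]
    have h5 : 1 * (bw y T κ1 (2 ^ (S + 1)) * rg y ^ 3) n ≤ 4 ^ S * (bw y T κ1 (2 ^ (S + 1)) * rg y ^ 3) n :=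
      mul_le_mul_of_nonneg_right h4 h3
    linarith
  have hY0 : 0 ≤ sqr y n + (bw y T κ1 (2 ^ (S + 1)) * rg y ^ 3) n :=
    add_nonneg (sqr_nonneg y n) ((nn_bw y T κ1 _).mul (nn_pow (nn_rg y) 3) n)
  set W := 4 * c ^ 4 * X with hW
  have hW0 : 0 ≤ W := by positivity
  have hmain : |gX z T κ1 n - (104 / 35 * Rt y z S T n - 57 / 35 * (Rt y z S T ^ 2) n + 8 / 15 * (Rt y z S T ^ 3) n -
      11 / 140 * ((Rt y z S T ^ 4) n - (At y z S T κ1 ^ 4) n))| ≤ 6 * W := by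
    have he : gX z T κ1 n - (104 / 35 * Rt y z S T n - 57 / 35 * (Rt y z S T ^ 2) n + 8 / 15 * (Rt y z S T ^ 3) n -
        11 / 140 * ((Rt y z S T ^ 4) n - (At y z S T κ1 ^ 4) n)) =
        104 / 35 * (rg z n - Rt y z S T n) - 57 / 35 * ((rg z ^ 2) n - (Rt y z S T ^ 2) n) +
          8 / 15 * ((rg z ^ 3) n - (Rt y z S T ^ 3) n) - 11 / 140 * ((rg z ^ 4) n - (Rt y z S T ^ 4) n) +
          11 / 140 * ((al z T κ1 ^ 4) n - (At y z S T κ1 ^ 4) n) := by
      unfold gX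
      ring
    rw [he]
    rw [abs_le] at b1 b2 b3 b4 b5 ⊢
    constructor <;> linarith [b1.1, b1.2, b2.1, b2.2, b3.1, b3.2, b4.1, b4.2, b5.1, b5.2]
  refine hmain.trans ?_
  have h7 : 6 * W ≤ (24 * c ^ 4 * 4 ^ S) * (sqr y n + (bw y T κ1 (2 ^ (S + 1)) * rg y ^ 3) n) := by
    rw [hW]
    have h8 : 24 * c ^ 4 * X ≤ 24 * c ^ 4 * (4 ^ S * (sqr y n + (bw y T κ1 (2 ^ (S + 1)) * rg y ^ 3) n)) :=
      mul_le_mul_of_nonneg_left hXe (by positivity)
    linarith
  exact h7.trans (mul_le_mul_of_nonneg_right (le_max_right _ _) hY0)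

end Pool.Agent.Work.MP_a8fbd7_nt.EX.ASM
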