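import Mathlib
import Pool.Agent.Work.MP_a8fbd7_nt.EX.ASM.Stmts

/-!
MP_a8fbd7_nt, block EX, part ASM: item XGa (gaps between primes).
In a block `[T², 2T²]` the grid points `T² + j λT/8` which lie in a gap `(p, q)` with `q - p ≥ λ√p` (and are not too near to `q`) are exceptional points of `StXMn` for
a weight supported in `[1, e^(λ/64)]`; every `⌈32/λ⌉`-th grid point gives a set which is `1/T`-separated in log scale.
-/

set_option autoImplicit false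

open MeasureTheory Set Filter Topology

noncomputable section

namespace Pool.Agent.Work.MP_a8fbd7_nt.EX.ASM

open Pool.Agent.Work.MP_56b8f5_nt.UC (IsWt Bl Dp Om psi eta Sep)
open Pool.Agent.Work.MP_a8fbd7_nt.OX
open Pool.Agent.Work.MP_a8fbd7_nt.OX.ID (Rough roughOne pb rg)
open Pool.Agent.Work.MP_a8fbd7_nt.OX.ASM
open Pool.Agent.Work.MP_a8fbd7_nt.EX

namespace XGa_aux

/-- pair of consecutive primes -/
def CP (g : ℕ × ℕ) : Prop := g.1.Prime ∧ g.2.Prime ∧ g.1 < g.2 ∧ ∀ q : ℕ, q.Prime → g.1 < q → g.2 ≤ q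

lemma bertrand {g : ℕ × ℕ} (h : CP g) : g.2 ≤ 2 * g.1 := by
  obtain ⟨q, hq, h1, h2⟩ := Nat.exists_prime_lt_and_le_two_mul g.1 h.1.ne_zero
  exact (h.2.2.2 q hq h1).trans h2

lemma inj {g g' : ℕ × ℕ} (h : CP g) (h' : CP g') (he : g.1 = g'.1) : g = g' := by
  refine Prod.ext he (le_antisymm ?_ ?_)
  · exact h.2.2.2 _ h'.2.1 (he ▸ h'.2.2.1)
  · exact h'.2.2.2 _ h.2.1 (he ▸ h.2.2.1)

/-- two gaps with a common point are equal -/
lemma gap_eq {g g' : ℕ × ℕ} (h : CP g) (h' : CP g') {x : ℝ} (h1 : (g.1 : ℝ) < x) (h2 : x < g.2)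
    (h3 : (g'.1 : ℝ) < x) (h4 : x < g'.2) : g = g' := by
  have a1 : g.1 < g'.2 := by exact_mod_cast h1.trans h4
  have a2 : g'.1 < g.2 := by exact_mod_cast h3.trans h2
  apply inj h h'
  rcases lt_trichotomy g.1 g'.1 with hlt | he | hgt
  · exact absurd (h.2.2.2 _ h'.1 hlt) (not_le.2 a2)
  · exact he
  · exact absurd (h'.2.2.2 _ h.1 hgt) (not_le.2 a1)

/-- no primes in the window -/
lemma SW_zero {w : ℝ → ℝ} {β T x : ℝ} {g : ℕ × ℕ} (hg : CP g) (hw : ∀ u, w u ≠ 0 → 1 ≤ u ∧ u ≤ Real.exp β)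
    (hβ0 : 0 ≤ β) (hβ : β ≤ 1) (hT : 1 ≤ T) (hx : (g.1 : ℝ) < x) (hx4 : x ≤ 4 * T ^ 2)
    (hq : x + 8 * β * T < g.2) : SW w pr x T = 0 := by
  unfold SW
  have hz : ∀ n : ℕ, pr n * w (((n : ℝ) / x) ^ T) = 0 := by
    intro n
    by_contra hne
    have hp : n.Prime := by
      by_contra hp
      apply hne
      simp [pr, hp]
    have hwn : w (((n : ℝ) / x) ^ T) ≠ 0 := fun h => hne (by rw [h, mul_zero])
    obtain ⟨h1, h2⟩ := hw _ hwn
    have hx0 : 0 < x := (Nat.cast_nonneg _).trans_lt hx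
    have hn0 : (0 : ℝ) < n := by exact_mod_cast hp.pos
    have hd : 0 < (n : ℝ) / x := div_pos hn0 hx0
    have hT0 : 0 < T := by linarith
    have hge : x ≤ n := by
      by_contra hlt
      push Not at hlt
      have h3 : (n : ℝ) / x < 1 := (div_lt_one hx0).2 hlt
      exact absurd h1 (not_le.2 (Real.rpow_lt_one hd.le h3 hT0))
    have hle : (n : ℝ) ≤ x + 8 * β * T := by
      have h3 : T * Real.log (n / x) ≤ β := by
        have h4 := Real.log_le_log (Real.rpow_pos_of_pos hd T) h2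
        rwa [Real.log_rpow hd, Real.log_exp] at h4
      have h4 : Real.log (n / x) ≤ β / T := by
        rw [le_div_iff₀ hT0]
        linarith
      have h5 : (n : ℝ) / x ≤ Real.exp (β / T) := by
        rwa [← Real.log_le_iff_le_exp hd]
      have hb0 : 0 ≤ β / T := div_nonneg hβ0 hT0.le
      have hb1 : β / T ≤ 1 := by
        rw [div_le_one hT0]
        linarith
      have h6 : Real.exp (β / T) - 1 ≤ 2 * (β / T) := by
        have h7 := Real.abs_exp_sub_one_le (x := β / T) (by rw [abs_of_nonneg hb0]; exact hb1)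
        rw [abs_of_nonneg hb0] at h7
        exact (le_abs_self _).trans h7
      have h8 : (n : ℝ) ≤ (1 + 2 * (β / T)) * x := by
        rw [← div_le_iff₀ hx0]
        linarith
      have h9 : 2 * (β / T) * x ≤ 2 * (β / T) * (4 * T ^ 2) :=
        mul_le_mul_of_nonneg_left hx4 (by positivity)
      have h10 : 2 * (β / T) * (4 * T ^ 2) = 8 * β * T := by
        field_simp
        ring
      nlinarith
    have h11 : g.2 ≤ n := hg.2.2.2 n hp (by exact_mod_cast hx.trans_le hge)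
    have h12 : (g.2 : ℝ) ≤ n := by exact_mod_cast h11
    linarith
  simp [hz]

/-- grid points -/
def gr (T s : ℝ) (j : ℕ) : ℝ := T ^ 2 + j * s

/-- first index of a gap -/
def j0 (T s : ℝ) (g : ℕ × ℕ) : ℕ := ⌊((g.1 : ℝ) - T ^ 2) / s⌋₊ + 1

/-- number of indices of a gap -/
def nj (s : ℝ) (g : ℕ × ℕ) : ℕ := ⌈((g.2 : ℝ) - g.1) / s⌉₊ - 2

/-- indices of a gap -/
def Jg (T s : ℝ) (g : ℕ × ℕ) : Finset ℕ := Finset.Ico (j0 T s g) (j0 T s g + nj s g)

lemma mem_Jg {T s : ℝ} {g : ℕ × ℕ} {j : ℕ} (hs : 0 < s) (hp : T ^ 2 ≤ g.1) (hgap : 8 * s ≤ (g.2 : ℝ) - g.1)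
    (hj : j ∈ Jg T s g) : (g.1 : ℝ) < gr T s j ∧ gr T s j + s < g.2 := by
  rw [Jg, Finset.mem_Ico] at hj
  obtain ⟨h1, h2⟩ := hj
  have hy0 : 0 ≤ ((g.1 : ℝ) - T ^ 2) / s := div_nonneg (by linarith) hs.le
  have hf1 := Nat.lt_floor_add_one (((g.1 : ℝ) - T ^ 2) / s)
  have hf2 := Nat.floor_le hy0
  have hz8 : 8 ≤ ((g.2 : ℝ) - g.1) / s := by
    rw [le_div_iff₀ hs]
    exact hgap
  have hc1 := Nat.ceil_lt_add_one (a := ((g.2 : ℝ) - g.1) / s) (by linarith)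
  have hc2 := Nat.le_ceil (((g.2 : ℝ) - g.1) / s)
  have hc3 : 8 ≤ ⌈((g.2 : ℝ) - g.1) / s⌉₊ := by
    have : (8 : ℝ) ≤ (⌈((g.2 : ℝ) - g.1) / s⌉₊ : ℝ) := hz8.trans hc2
    exact_mod_cast this
  have hn : ((nj s g : ℕ) : ℝ) = (⌈((g.2 : ℝ) - g.1) / s⌉₊ : ℝ) - 2 := by
    rw [nj, Nat.cast_sub (by omega)]
    norm_num
  have hj0 : ((j0 T s g : ℕ) : ℝ) = (⌊((g.1 : ℝ) - T ^ 2) / s⌋₊ : ℝ) + 1 := by
    rw [j0]
    push_cast
    ring
  have h1' : ((j0 T s g : ℕ) : ℝ) ≤ j := by exact_mod_cast h1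
  have h2' : (j : ℝ) + 1 ≤ (j0 T s g : ℝ) + (nj s g : ℝ) := by exact_mod_cast h2
  constructor
  · have h3 : ((g.1 : ℝ) - T ^ 2) / s < j := by linarith
    rw [div_lt_iff₀ hs] at h3
    unfold gr
    linarith
  · have h3 : (j : ℝ) + 1 < ((g.2 : ℝ) - T ^ 2) / s := by
      have e : ((g.2 : ℝ) - T ^ 2) / s = ((g.1 : ℝ) - T ^ 2) / s + ((g.2 : ℝ) - g.1) / s := by
        rw [← add_div]
        congr 1
        ring
      rw [e]
      linarith
    rw [lt_div_iff₀ hs] at h3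
    unfold gr
    linarith

lemma card_Jg {T s : ℝ} {g : ℕ × ℕ} (hs : 0 < s) (hgap : 8 * s ≤ (g.2 : ℝ) - g.1) :
    1 ≤ (Jg T s g).card ∧ (3 / 4) * (((g.2 : ℝ) - g.1) / s) ≤ ((Jg T s g).card : ℝ) := by
  have hz8 : 8 ≤ ((g.2 : ℝ) - g.1) / s := by
    rw [le_div_iff₀ hs]
    exact hgap
  have hc2 := Nat.le_ceil (((g.2 : ℝ) - g.1) / s)
  have hc3 : 8 ≤ ⌈((g.2 : ℝ) - g.1) / s⌉₊ := by
    have : (8 : ℝ) ≤ (⌈((g.2 : ℝ) - g.1) / s⌉₊ : ℝ) := hz8.trans hc2
    exact_mod_cast this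
  have hcard : (Jg T s g).card = ⌈((g.2 : ℝ) - g.1) / s⌉₊ - 2 := by
    rw [Jg, Nat.card_Ico, nj]
    omega
  constructor
  · rw [hcard]
    omega
  · rw [hcard, Nat.cast_sub (by omega)]
    push_cast
    linarith

/-- separation -/
lemma lsep {T s : ℝ} {m r : ℕ} {J : Finset ℕ} (hT : 1 ≤ T) (hs : 0 < s) (hm : 4 * T ≤ m * s)
    (hJ : ∀ j ∈ J, gr T s j ≤ 4 * T ^ 2) (hr : ∀ j ∈ J, j % m = r) : LSep (J.image (gr T s)) T := by
  have hpos : ∀ j : ℕ, 0 < gr T s j := fun j => by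
    unfold gr
    have : 0 ≤ (j : ℝ) * s := by positivity
    nlinarith
  have key : ∀ i ∈ J, ∀ j ∈ J, i < j → 1 ≤ T * (Real.log (gr T s j) - Real.log (gr T s i)) := by
    intro i hi j hj hij
    have h1 : i + m ≤ j := by
      have h2 : (i : ℕ) ≡ j [MOD m] := by
        rw [Nat.ModEq, hr i hi, hr j hj]
      have h3 := (Nat.modEq_iff_dvd' hij.le).1 h2
      have h4 := Nat.le_of_dvd (by omega) h3
      omega
    have h1' : (i : ℝ) + m ≤ j := by exact_mod_cast h1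
    have h2 : 4 * T ≤ gr T s j - gr T s i := by
      unfold gr
      nlinarith
    have h3 := Real.log_le_sub_one_of_pos (div_pos (hpos i) (hpos j))
    rw [Real.log_div (hpos i).ne' (hpos j).ne'] at h3
    have h4 : gr T s i / gr T s j - 1 = -((gr T s j - gr T s i) / gr T s j) := by
      have := (hpos j).ne'
      field_simp
      ring
    have h5 : 1 / T ≤ (gr T s j - gr T s i) / gr T s j := by
      rw [div_le_div_iff₀ (by linarith) (hpos j)]
      have := hJ j hj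
      nlinarith
    have h6 : 1 / T ≤ Real.log (gr T s j) - Real.log (gr T s i) := by linarith
    rw [div_le_iff₀ (by linarith)] at h6
    linarith
  refine ⟨?_, ?_⟩
  · intro x hx
    obtain ⟨j, hj, rfl⟩ := Finset.mem_image.1 hx
    exact hpos j
  · intro x hx y hy hne
    obtain ⟨i, hi, rfl⟩ := Finset.mem_image.1 hx
    obtain ⟨j, hj, rfl⟩ := Finset.mem_image.1 hy
    have hT0 : 0 ≤ T := by linarith
    rcases lt_trichotomy i j with h | h | h
    · have h1 := key i hi j hj h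
      have h2 : Real.log (gr T s j) - Real.log (gr T s i) ≤ |Real.log (gr T s i) - Real.log (gr T s j)| := by
        rw [abs_sub_comm]
        exact le_abs_self _
      exact h1.trans (mul_le_mul_of_nonneg_left h2 hT0)
    · exact absurd (by rw [h]) hne
    · have h1 := key j hj i hi h
      exact h1.trans (mul_le_mul_of_nonneg_left (le_abs_self _) hT0)

lemma gr_inj {T s : ℝ} (hs : 0 < s) : Function.Injective (gr T s) := by
  intro i j h
  unfold gr at h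
  have h1 : (i : ℝ) * s = j * s := by linarith
  exact_mod_cast mul_right_cancel₀ hs.ne' h1

/-- one block -/
lemma block {P : ℝ → Prop} {B lam T : ℝ} (hlam : 0 < lam) (hlam1 : lam ≤ 1) (hT : 1 ≤ T) (hP : PackLe T P B)
    (G : Finset (ℕ × ℕ)) (hG : ∀ g ∈ G, CP g ∧ T ^ 2 ≤ g.1 ∧ (g.1 : ℝ) ≤ 2 * T ^ 2 ∧ lam * T ≤ (g.2 : ℝ) - g.1)
    (hPz : ∀ g ∈ G, ∀ x : ℝ, (g.1 : ℝ) < x → x ≤ 4 * T ^ 2 → x + lam * T / 8 < g.2 → P x) :
    (G.card : ℝ) ≤ (⌈32 / lam⌉₊ : ℝ) * B ∧ ∑ g ∈ G, ((g.2 : ℝ) - g.1) ≤ T * ((⌈32 / lam⌉₊ : ℝ) * B) := by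
  set s : ℝ := lam * T / 8 with hs_def
  have hT0 : 0 < T := by linarith
  have hs : 0 < s := by positivity
  set m : ℕ := ⌈32 / lam⌉₊ with hm_def
  have hm : 32 / lam ≤ (m : ℝ) := Nat.le_ceil _
  have hms : 4 * T ≤ m * s := by
    have h1 : 32 ≤ (m : ℝ) * lam := by
      rw [div_le_iff₀ hlam] at hm
      exact hm
    rw [hs_def]
    nlinarith
  have hm0 : 0 < m := Nat.ceil_pos.2 (by positivity)
  have hgap : ∀ g ∈ G, 8 * s ≤ (g.2 : ℝ) - g.1 := by
    intro g hg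
    have := (hG g hg).2.2.2
    rw [hs_def]
    linarith
  have hmem : ∀ g ∈ G, ∀ j ∈ Jg T s g, (g.1 : ℝ) < gr T s j ∧ gr T s j + s < g.2 := fun g hg j hj =>
    mem_Jg hs (hG g hg).2.1 (hgap g hg) hj
  have hle4 : ∀ g ∈ G, ∀ j ∈ Jg T s g, gr T s j ≤ 4 * T ^ 2 := by
    intro g hg j hj
    have h1 := (hmem g hg j hj).2
    have h2 : ((g.2 : ℕ) : ℝ) ≤ 2 * (g.1 : ℝ) := by exact_mod_cast bertrand (hG g hg).1
    have h3 := (hG g hg).2.2.1
    linarith
  have hdisj : Set.PairwiseDisjoint (↑G : Set (ℕ × ℕ)) (Jg T s) := by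
    intro g hg g' hg' hne
    rw [Function.onFun, Finset.disjoint_left]
    intro j hj hj'
    apply hne
    have h1 := hmem g hg j hj
    have h2 := hmem g' hg' j hj'
    exact gap_eq (hG g hg).1 (hG g' hg').1 h1.1 (by linarith [h1.2]) h2.1 (by linarith [h2.2])
  set U : Finset ℕ := G.biUnion (Jg T s) with hU_def
  have hUcard : U.card = ∑ g ∈ G, (Jg T s g).card := Finset.card_biUnion (fun a ha b hb hab => hdisj ha hb hab)
  have hUP : ∀ j ∈ U, T ^ 2 ≤ gr T s j ∧ gr T s j ≤ 4 * T ^ 2 ∧ P (gr T s j) := by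
    intro j hj
    obtain ⟨g, hg, hjg⟩ := Finset.mem_biUnion.1 hj
    have h1 := hmem g hg j hjg
    have h2 := hle4 g hg j hjg
    refine ⟨?_, h2, hPz g hg _ h1.1 h2 h1.2⟩
    have := (hG g hg).2.1
    linarith [h1.1]
  have hfib : ∀ r : ℕ, ((U.filter (fun j => j % m = r)).card : ℝ) ≤ B := by
    intro r
    have h1 : LSep ((U.filter (fun j => j % m = r)).image (gr T s)) T :=
      lsep hT hs hms (fun j hj => (hUP j (Finset.mem_filter.1 hj).1).2.1) (fun j hj => (Finset.mem_filter.1 hj).2)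
    have h2 := hP _ h1 (by
      intro x hx
      obtain ⟨j, hj, rfl⟩ := Finset.mem_image.1 hx
      exact hUP j (Finset.mem_filter.1 hj).1)
    rwa [Finset.card_image_of_injective _ (gr_inj hs)] at h2
  have hUB : (U.card : ℝ) ≤ m * B := by
    have h1 : U.card = ∑ r ∈ Finset.range m, (U.filter (fun j => j % m = r)).card :=
      Finset.card_eq_sum_card_fiberwise (fun j _ => by
        simpa using Nat.mod_lt j hm0)
    rw [h1]
    push_cast
    calc ∑ r ∈ Finset.range m, ((U.filter (fun j => j % m = r)).card : ℝ) ≤ ∑ r ∈ Finset.range m, B :=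
          Finset.sum_le_sum (fun r _ => hfib r)
      _ = m * B := by rw [Finset.sum_const, Finset.card_range, nsmul_eq_mul]
  constructor
  · have h1 : G.card ≤ U.card := by
      rw [hUcard, Finset.card_eq_sum_ones]
      exact Finset.sum_le_sum (fun g hg => (card_Jg hs (hgap g hg)).1)
    have h2 : (G.card : ℝ) ≤ U.card := by exact_mod_cast h1
    exact h2.trans hUB
  · have h1 : ∑ g ∈ G, (3 / 4) * (((g.2 : ℝ) - g.1) / s) ≤ U.card := by
      rw [hUcard]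
      push_cast
      exact Finset.sum_le_sum (fun g hg => (card_Jg hs (hgap g hg)).2)
    have h2 : ∑ g ∈ G, (3 / 4) * (((g.2 : ℝ) - g.1) / s) = (3 / 4) * ((∑ g ∈ G, ((g.2 : ℝ) - g.1)) / s) := by
      rw [Finset.sum_div, Finset.mul_sum]
    rw [h2] at h1
    have h3 : (∑ g ∈ G, ((g.2 : ℝ) - g.1)) / s ≤ 4 / 3 * (m * B) := by linarith
    rw [div_le_iff₀ hs] at h3
    have hmB : 0 ≤ (m : ℝ) * B := (Nat.cast_nonneg _).trans hUB
    have h4 : 4 / 3 * ((m : ℝ) * B) * s ≤ T * ((m : ℝ) * B) := by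
      have h5 : 4 / 3 * s ≤ T := by
        rw [hs_def]
        nlinarith
      nlinarith
    exact h3.trans h4

/-- trivial bounds for a block -/
lemma block_triv {T : ℝ} (G : Finset (ℕ × ℕ)) (hG : ∀ g ∈ G, CP g ∧ (g.1 : ℝ) ≤ 2 * T ^ 2) :
    (G.card : ℝ) ≤ 2 * T ^ 2 + 1 ∧ ∑ g ∈ G, ((g.2 : ℝ) - g.1) ≤ (2 * T ^ 2 + 1) * (2 * T ^ 2) := by
  have h1 : G.card ≤ ⌊2 * T ^ 2⌋₊ + 1 := by
    have h2 : (G.image Prod.fst).card = G.card :=
      Finset.card_image_of_injOn (fun g hg g' hg' h => inj (hG g hg).1 (hG g' hg').1 h)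
    have h3 : G.image Prod.fst ⊆ Finset.range (⌊2 * T ^ 2⌋₊ + 1) := by
      intro n hn
      obtain ⟨g, hg, rfl⟩ := Finset.mem_image.1 hn
      rw [Finset.mem_range, Nat.lt_succ_iff]
      exact Nat.le_floor (hG g hg).2
    rw [← h2]
    exact (Finset.card_le_card h3).trans (by rw [Finset.card_range])
  have h2 : (G.card : ℝ) ≤ 2 * T ^ 2 + 1 := by
    have h3 : (G.card : ℝ) ≤ (⌊2 * T ^ 2⌋₊ : ℝ) + 1 := by exact_mod_cast h1
    have h4 := Nat.floor_le (a := 2 * T ^ 2) (by positivity)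
    linarith
  refine ⟨h2, ?_⟩
  calc ∑ g ∈ G, ((g.2 : ℝ) - g.1) ≤ ∑ _g ∈ G, (2 * T ^ 2) := by
        refine Finset.sum_le_sum (fun g hg => ?_)
        have h3 : ((g.2 : ℕ) : ℝ) ≤ 2 * (g.1 : ℝ) := by exact_mod_cast bertrand (hG g hg).1
        have := (hG g hg).2
        linarith
    _ = G.card * (2 * T ^ 2) := by rw [Finset.sum_const, nsmul_eq_mul]
    _ ≤ (2 * T ^ 2 + 1) * (2 * T ^ 2) := mul_le_mul_of_nonneg_right h2 (by positivity)

/-- bound for every block -/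
lemma block_all (hMn : StXMn) (hWt : StWt) {lam : ℝ} (hlam : 0 < lam) (hlam1 : lam ≤ 1) : ∃ C : ℝ, 1 ≤ C ∧ ∀ T : ℝ, 1 ≤ T →
    ∀ G : Finset (ℕ × ℕ), (∀ g ∈ G, CP g ∧ T ^ 2 ≤ g.1 ∧ (g.1 : ℝ) ≤ 2 * T ^ 2 ∧ lam * T ≤ (g.2 : ℝ) - g.1) →
    (G.card : ℝ) ≤ C * T ^ r1E ∧ ∑ g ∈ G, ((g.2 : ℝ) - g.1) ≤ C * T ^ (1 + r1E) := by
  obtain ⟨w, hw, hw01, -, hsupp, hI, -⟩ := hWt (lam / 256) (lam / 128) (lam / 256) (by linarith) (by positivity)
  have hIpos : 0 < Iw w := by linarith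
  have hsupp' : ∀ u, w u ≠ 0 → 1 ≤ u ∧ u ≤ Real.exp (lam / 64) := by
    intro u hu
    obtain ⟨h1, h2⟩ := hsupp u hu
    refine ⟨?_, h2.trans (Real.exp_le_exp.2 (by linarith))⟩
    simpa using h1
  obtain ⟨C, hC1, hC⟩ := hMn w hw (fun u => (hw01 u).1) (Iw w / 50) (by linarith)
  set m : ℝ := (⌈32 / lam⌉₊ : ℝ) with hm_def
  have hm0 : 0 ≤ m := Nat.cast_nonneg _
  have hr : (0 : ℝ) ≤ r1E := by unfold r1E; norm_num
  refine ⟨m * C + (2 * C ^ 2 + 1) * (2 * C ^ 2) + (2 * C ^ 2 + 1), ?_, ?_⟩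
  · have h1 : 0 ≤ m * C := by positivity
    have h2 : 0 ≤ (2 * C ^ 2 + 1) * (2 * C ^ 2) := by positivity
    have h3 : 0 ≤ C ^ 2 := by positivity
    linarith
  intro T hT G hG
  have hT0 : 0 < T := by linarith
  have hTr : 1 ≤ T ^ r1E := Real.one_le_rpow hT hr
  have hTr' : 1 ≤ T ^ (1 + r1E) := Real.one_le_rpow hT (by linarith)
  have hTe : T ^ (1 + r1E) = T * T ^ r1E := by rw [Real.rpow_add hT0, Real.rpow_one]
  rcases le_or_gt C T with hCT | hCT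
  · have h1 := block hlam hlam1 hT (hC T hCT) G hG (by
      intro g hg x hx hx4 hq
      have h2 : SW w pr x T = 0 := SW_zero (hG g hg).1 hsupp' (by positivity) (by linarith) hT hx hx4
        (by linarith)
      rw [h2]
      simp only [mul_zero]
      linarith)
    obtain ⟨h2, h3⟩ := h1
    have h4 : (0 : ℝ) ≤ ((2 * C ^ 2 + 1) * (2 * C ^ 2) + (2 * C ^ 2 + 1)) * T ^ r1E := by positivity
    have h5 : (0 : ℝ) ≤ ((2 * C ^ 2 + 1) * (2 * C ^ 2) + (2 * C ^ 2 + 1)) * T ^ (1 + r1E) := by positivity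
    constructor
    · linarith
    · calc ∑ g ∈ G, ((g.2 : ℝ) - g.1) ≤ T * (m * (C * T ^ r1E)) := h3
        _ = m * C * T ^ (1 + r1E) := by rw [hTe]; ring
        _ ≤ _ := by linarith
  · have h1 := block_triv (T := T) G (fun g hg => ⟨(hG g hg).1, (hG g hg).2.2.1⟩)
    have hT2 : T ^ 2 ≤ C ^ 2 := by nlinarith
    have hmC : 0 ≤ m * C := by positivity
    have hA : 0 ≤ (2 * C ^ 2 + 1) * (2 * C ^ 2) := by positivity
    have hB : 0 ≤ 2 * C ^ 2 + 1 := by positivity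
    have hT20 : 0 ≤ T ^ 2 := by positivity
    constructor
    · have h2 : (G.card : ℝ) ≤ 2 * C ^ 2 + 1 := by linarith [h1.1]
      have h3 : (2 * C ^ 2 + 1) * 1 ≤ (m * C + (2 * C ^ 2 + 1) * (2 * C ^ 2) + (2 * C ^ 2 + 1)) * T ^ r1E :=
        mul_le_mul (by linarith) hTr (by norm_num) (by linarith)
      linarith
    · have h2 : (2 * T ^ 2 + 1) * (2 * T ^ 2) ≤ (2 * C ^ 2 + 1) * (2 * C ^ 2) :=
        mul_le_mul (by linarith) (by linarith) (by positivity) hB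
      have h3 : (2 * C ^ 2 + 1) * (2 * C ^ 2) * 1 ≤
          (m * C + (2 * C ^ 2 + 1) * (2 * C ^ 2) + (2 * C ^ 2 + 1)) * T ^ (1 + r1E) :=
        mul_le_mul (by linarith) hTr' (by norm_num) (by linarith)
      linarith [h1.2]

/-- number of dyadic blocks -/
lemma num_blocks (X : ℕ) (hX : 1 ≤ X) : ((Nat.log 2 X + 1 : ℕ) : ℝ) ≤ 20001 * (X : ℝ) ^ (1 / 10000 : ℝ) := by
  have hX0 : (1 : ℝ) ≤ X := by exact_mod_cast hX
  have h1 : ((2 : ℝ)) ^ (Nat.log 2 X) ≤ X := by exact_mod_cast Nat.pow_log_le_self 2 (by omega)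
  have h2 : (Nat.log 2 X : ℝ) * Real.log 2 ≤ Real.log X := by
    have h3 := Real.log_le_log (by positivity) h1
    rwa [Real.log_pow] at h3
  have h3 := Real.log_two_gt_d9
  have h4 : Real.log X ≤ (X : ℝ) ^ (1 / 10000 : ℝ) / (1 / 10000) :=
    Real.log_le_rpow_div (by linarith) (by norm_num)
  have h5 : 1 ≤ (X : ℝ) ^ (1 / 10000 : ℝ) := Real.one_le_rpow hX0 (by norm_num)
  have h6 : (Nat.log 2 X : ℝ) * (1 / 2) ≤ (Nat.log 2 X : ℝ) * Real.log 2 :=
    mul_le_mul_of_nonneg_left (by linarith) (Nat.cast_nonneg _)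
  push_cast
  linarith

end XGa_aux

open XGa_aux in
theorem iXGa (hMn : StXMn) (hWt : StWt) : StXGa := by
  intro lam hlam hlam1
  obtain ⟨C, hC1, hC⟩ := block_all hMn hWt hlam hlam1
  refine ⟨20001 * C, by linarith, ?_⟩
  intro X hX G hG
  have hX0 : (1 : ℝ) ≤ X := by exact_mod_cast hX
  have hXpos : (0 : ℝ) < X := by linarith
  have hCP : ∀ g ∈ G, CP g := fun g hg => ⟨(hG g hg).1, (hG g hg).2.1, (hG g hg).2.2.1, (hG g hg).2.2.2.2.1⟩
  have hr : (0 : ℝ) ≤ r1E := by unfold r1E; norm_num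
  -- the blocks
  have hmaps : ∀ g ∈ G, Nat.log 2 g.1 ∈ Finset.range (Nat.log 2 X + 1) := by
    intro g hg
    rw [Finset.mem_range, Nat.lt_succ_iff]
    exact Nat.log_mono_right (hG g hg).2.2.2.1
  have hblock : ∀ k ∈ Finset.range (Nat.log 2 X + 1),
      ((G.filter (fun g => Nat.log 2 g.1 = k)).card : ℝ) ≤ C * (X : ℝ) ^ (r1E / 2) ∧
      ∑ g ∈ G.filter (fun g => Nat.log 2 g.1 = k), ((g.2 : ℝ) - g.1) ≤ C * (X : ℝ) ^ ((1 + r1E) / 2) := by
    intro k hk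
    rw [Finset.mem_range, Nat.lt_succ_iff] at hk
    set T : ℝ := Real.sqrt (2 ^ k) with hT_def
    have hT2 : T ^ 2 = 2 ^ k := Real.sq_sqrt (by positivity)
    have h2k : (1 : ℝ) ≤ 2 ^ k := one_le_pow₀ (by norm_num)
    have hT1 : 1 ≤ T := by
      rw [hT_def]
      exact Real.one_le_sqrt.2 h2k
    have h2X : ((2 : ℝ)) ^ k ≤ X := by
      have h1 : (2 : ℕ) ^ k ≤ 2 ^ (Nat.log 2 X) := Nat.pow_le_pow_right (by norm_num) hk
      have h2 : 2 ^ (Nat.log 2 X) ≤ X := Nat.pow_log_le_self 2 (by omega)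
      exact_mod_cast h1.trans h2
    have hTX : T ≤ (X : ℝ) ^ (1 / 2 : ℝ) := by
      rw [hT_def, ← Real.sqrt_eq_rpow]
      exact Real.sqrt_le_sqrt h2X
    obtain ⟨h1, h2⟩ := hC T hT1 (G.filter (fun g => Nat.log 2 g.1 = k)) (by
      intro g hg
      obtain ⟨hg1, hg2⟩ := Finset.mem_filter.1 hg
      have hp0 : g.1 ≠ 0 := (hG g hg1).1.ne_zero
      have h3 : 2 ^ k ≤ g.1 := by
        rw [← hg2]
        exact Nat.pow_log_le_self 2 hp0
      have h4 : g.1 < 2 ^ (k + 1) := by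
        rw [← hg2]
        exact Nat.lt_pow_succ_log_self (by norm_num) _
      have h3' : ((2 : ℝ)) ^ k ≤ g.1 := by exact_mod_cast h3
      have h4' : (g.1 : ℝ) ≤ 2 ^ (k + 1) := by exact_mod_cast h4.le
      refine ⟨hCP g hg1, by rw [hT2]; exact h3', ?_, ?_⟩
      · rw [hT2]
        rw [pow_succ] at h4'
        linarith
      · have h5 := (hG g hg1).2.2.2.2.2
        have h6 : T ≤ Real.sqrt g.1 := by
          rw [hT_def]
          exact Real.sqrt_le_sqrt h3'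
        exact (mul_le_mul_of_nonneg_left h6 hlam.le).trans h5)
    have hpow : ∀ a : ℝ, 0 ≤ a → T ^ a ≤ (X : ℝ) ^ (a / 2) := by
      intro a ha
      calc T ^ a ≤ ((X : ℝ) ^ (1 / 2 : ℝ)) ^ a := Real.rpow_le_rpow (by linarith) hTX ha
        _ = (X : ℝ) ^ (a / 2) := by
          rw [← Real.rpow_mul hXpos.le]
          congr 1
          ring
    exact ⟨h1.trans (mul_le_mul_of_nonneg_left (hpow _ hr) (by linarith)),
      h2.trans (mul_le_mul_of_nonneg_left (hpow _ (by linarith)) (by linarith))⟩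
  have hnum := num_blocks X hX
  have hfin : ∀ a b : ℝ, a + 1 / 10000 = b →
      ((Nat.log 2 X + 1 : ℕ) : ℝ) * (C * (X : ℝ) ^ a) ≤ 20001 * C * (X : ℝ) ^ b := by
    intro a b hab
    have h1 : (0 : ℝ) ≤ C * (X : ℝ) ^ a := by positivity
    calc ((Nat.log 2 X + 1 : ℕ) : ℝ) * (C * (X : ℝ) ^ a) ≤ 20001 * (X : ℝ) ^ (1 / 10000 : ℝ) * (C * (X : ℝ) ^ a) :=
          mul_le_mul_of_nonneg_right hnum h1
      _ = 20001 * C * ((X : ℝ) ^ a * (X : ℝ) ^ (1 / 10000 : ℝ)) := by ring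
      _ = 20001 * C * (X : ℝ) ^ b := by rw [← Real.rpow_add hXpos, hab]
  constructor
  · have h1 : G.card = ∑ k ∈ Finset.range (Nat.log 2 X + 1), (G.filter (fun g => Nat.log 2 g.1 = k)).card :=
      Finset.card_eq_sum_card_fiberwise (fun g hg => hmaps g hg)
    rw [h1]
    push_cast
    calc ∑ k ∈ Finset.range (Nat.log 2 X + 1), ((G.filter (fun g => Nat.log 2 g.1 = k)).card : ℝ)
        ≤ ∑ _k ∈ Finset.range (Nat.log 2 X + 1), C * (X : ℝ) ^ (r1E / 2) :=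
          Finset.sum_le_sum (fun k hk => (hblock k hk).1)
      _ = ((Nat.log 2 X + 1 : ℕ) : ℝ) * (C * (X : ℝ) ^ (r1E / 2)) := by
          rw [Finset.sum_const, Finset.card_range, nsmul_eq_mul]
      _ ≤ _ := hfin _ _ (by unfold r1E; norm_num)
  · rw [← Finset.sum_fiberwise_of_maps_to hmaps]
    calc ∑ k ∈ Finset.range (Nat.log 2 X + 1), ∑ g ∈ G.filter (fun g => Nat.log 2 g.1 = k), ((g.2 : ℝ) - g.1)
        ≤ ∑ _k ∈ Finset.range (Nat.log 2 X + 1), C * (X : ℝ) ^ ((1 + r1E) / 2) :=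
          Finset.sum_le_sum (fun k hk => (hblock k hk).2)
      _ = ((Nat.log 2 X + 1 : ℕ) : ℝ) * (C * (X : ℝ) ^ ((1 + r1E) / 2)) := by
          rw [Finset.sum_const, Finset.card_range, nsmul_eq_mul]
      _ ≤ _ := hfin _ _ (by unfold r1E; norm_num)

end Pool.Agent.Work.MP_a8fbd7_nt.EX.ASM
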