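import Mathlib
import Pool.Agent.Work.MP_a8fbd7_nt.EX.ASM.Stmts
import Pool.Agent.Work.MP_a8fbd7_nt.OX.ASM.I_Li

/-!
MP_a8fbd7_nt, block EX, part ASM, item XLi: primes in windows and boxes.
Statement: helper89.  Proof: helper30 (modelled on OX/ASM/I_Li.lean by helper64).
-/

set_option autoImplicit false

open MeasureTheory Set Filter Topology

noncomputable section

namespace Pool.Agent.Work.MP_a8fbd7_nt.EX.ASM

open Pool.Agent.Work.MP_56b8f5_nt.UC (IsWt Bl Dp Om psi eta Sep)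
open Pool.Agent.Work.MP_a8fbd7_nt.OX
open Pool.Agent.Work.MP_a8fbd7_nt.OX.ID (Rough roughOne pb rg)
open Pool.Agent.Work.MP_a8fbd7_nt.OX.ASM
open Pool.Agent.Work.MP_a8fbd7_nt.EX

namespace XLi_aux

theorem rg_nonneg (z n : ℕ) : 0 ≤ rg z n := by
  rw [Pool.Agent.Work.MP_a8fbd7_nt.OX.ID.rg_apply]
  split_ifs <;> norm_num

theorem al_nonneg (z : ℕ) (T κ1 : ℝ) (n : ℕ) : 0 ≤ al z T κ1 n := by
  unfold al
  rw [ArithmeticFunction.coe_mk]
  split_ifs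
  · exact rg_nonneg z n
  · exact le_refl _

theorem pow_nonneg_apply (f : ArithmeticFunction ℝ) (hf : ∀ n, 0 ≤ f n) :
    ∀ (s d : ℕ), 0 ≤ (f ^ s) d
  | 0, d => by
    rw [pow_zero, ArithmeticFunction.one_apply]
    split_ifs <;> norm_num
  | s + 1, d => by
    rw [pow_succ, ArithmeticFunction.mul_apply]
    exact Finset.sum_nonneg fun p _ => mul_nonneg (pow_nonneg_apply f hf s _) (hf _)

theorem aJ_nonneg (z J n : ℕ) : 0 ≤ aJ z J n := by
  unfold aJ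
  split_ifs <;> norm_num

theorem final1 (L S P a3 a6 a7 a8 q bS zS bB CE CP CS CZ CB C1 κ Ct : ℝ) (_hL : 0 ≤ L)
    (hCE : 0 ≤ CE) (hCP : 0 ≤ CP) (hk : 0 ≤ C1 * κ / L)
    (ha3 : 0 ≤ a3) (ha6 : 0 ≤ a6) (ha7 : 0 ≤ a7) (ha8 : 0 ≤ a8)
    (h : S ≤ P - 24 / 35 * a3 - 240 / 7 * a6 - 1632 / 5 * a7 - 2064 * a8 + 11 / 140 * q +
      CP * zS + CE * (bS + bB))
    (hq : q ≤ C1 * κ / L) (hb : bS ≤ CS / L ^ 2) (hz : zS ≤ CZ / L ^ 2) (hB : bB ≤ CB / L ^ 2)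
    (hCt : CP * CZ + CE * (CS + CB) ≤ Ct) : S ≤ P + C1 * κ / L + Ct / L ^ 2 := by
  have h1 : CP * zS ≤ CP * (CZ / L ^ 2) := mul_le_mul_of_nonneg_left hz hCP
  have h2 : CE * (bS + bB) ≤ CE * (CS / L ^ 2 + CB / L ^ 2) :=
    mul_le_mul_of_nonneg_left (add_le_add hb hB) hCE
  have h3 : (CP * CZ + CE * (CS + CB)) / L ^ 2 ≤ Ct / L ^ 2 :=
    div_le_div_of_nonneg_right hCt (by positivity)
  have h4 : (CP * CZ + CE * (CS + CB)) / L ^ 2 = CP * (CZ / L ^ 2) + CE * (CS / L ^ 2 + CB / L ^ 2) := by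
    ring
  linarith

theorem final2 (L S P a3 a6 a7 a8 q bS zS bB CE CP CS CZ CB Ct : ℝ) (_hL : 0 ≤ L)
    (hCE : 0 ≤ CE) (hCP : 0 ≤ CP) (hq : 0 ≤ q)
    (h : P - 24 / 35 * a3 - 240 / 7 * a6 - 1632 / 5 * a7 - 2064 * a8 + 11 / 140 * q -
      CP * zS - CE * (bS + bB) ≤ S)
    (hb : bS ≤ CS / L ^ 2) (hz : zS ≤ CZ / L ^ 2) (hB : bB ≤ CB / L ^ 2)
    (hCt : CP * CZ + CE * (CS + CB) ≤ Ct) :
    P - 24 / 35 * a3 - 240 / 7 * a6 - 1632 / 5 * a7 - 2064 * a8 - Ct / L ^ 2 ≤ S := by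
  have h1 : CP * zS ≤ CP * (CZ / L ^ 2) := mul_le_mul_of_nonneg_left hz hCP
  have h2 : CE * (bS + bB) ≤ CE * (CS / L ^ 2 + CB / L ^ 2) :=
    mul_le_mul_of_nonneg_left (add_le_add hb hB) hCE
  have h3 : (CP * CZ + CE * (CS + CB)) / L ^ 2 ≤ Ct / L ^ 2 :=
    div_le_div_of_nonneg_right hCt (by positivity)
  have h4 : (CP * CZ + CE * (CS + CB)) / L ^ 2 = CP * (CZ / L ^ 2) + CE * (CS / L ^ 2 + CB / L ^ 2) := by
    ring
  linarith

end XLi_aux

open Classical Li_aux XLi_aux in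
theorem iXLi (hEx : StXEx) (hPw : StXPw) (hSq : StXSq) (hDr : StXDr) (hBd : StXBd) : StXLi := by
  intro w hw hw0
  obtain ⟨C1, hC1, hDr'⟩ := hDr w hw hw0
  obtain ⟨CP, hCP, hP⟩ := hPw
  refine ⟨C1, hC1, ?_⟩
  intro η κ1 hη hη2 hκ hκ2
  obtain ⟨CE, hCE, hE⟩ := hEx η κ1 hη hη2 hκ hκ2
  obtain ⟨CD, hCD, hD⟩ := hDr' κ1 hκ hκ2
  obtain ⟨CS, hCS, hS⟩ := hSq w hw hw0 η hη (by linarith)
  obtain ⟨CZ, hCZ, hZ⟩ := hSq w hw hw0 cE (by norm_num [cE]) (by norm_num [cE])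
  obtain ⟨CB, hCB, hB⟩ := hBd w hw hw0 η κ1 (2 ^ (SS η + 1)) hη hη2 hκ hκ2
    (one_le_pow₀ (by norm_num))
  obtain ⟨a, b, ha, hab, hs⟩ := hw.supp
  have hma : 0 < min a 1 := lt_min ha one_pos
  have hmb : 1 ≤ max b 1 := le_max_right _ _
  have p1 : 0 ≤ 2 / min a 1 := by positivity
  have p2 : 0 ≤ (4 * max b 1) ^ 20 := by positivity
  have p3 : 0 ≤ CP * CZ + CE * (CS + CB) := by positivity
  refine ⟨CE + CP + CD + CS + CZ + CB + (CP * CZ + CE * (CS + CB)) + 2 / min a 1 +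
    (4 * max b 1) ^ 20, by linarith, ?_⟩
  intro T T' x hT hT'1 hT'2 hx hx4
  have hTE : CE ≤ T := by linarith
  have hTP : CP ≤ T := by linarith
  have hTD : CD ≤ T := by linarith
  have hTS : CS ≤ T := by linarith
  have hTZ : CZ ≤ T := by linarith
  have hTB : CB ≤ T := by linarith
  have hTa : 2 / min a 1 ≤ T := by linarith
  have hTb : (4 * max b 1) ^ 20 ≤ T := by linarith
  have hT2 : 2 ≤ T := by linarith
  have hT1 : 1 ≤ T := by linarith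
  have hT0 : 0 < T := by linarith
  have hx0 : 0 < x := by nlinarith
  have hlog : 0 ≤ Real.log T := Real.log_nonneg hT1
  set y : ℕ := zz η T with hy
  set z : ℕ := zz cE T with hz
  set Wt : ℕ → ℝ := fun n => w (((n : ℝ) / x) ^ T') with hWt
  have hWt0 : ∀ n, 0 ≤ Wt n := fun n => hw0 _
  -- the window
  have hwin : ∀ n : ℕ, Wt n ≠ 0 → T ≤ n ∧ (n : ℝ) ≤ T ^ (2 + 1 / 20 : ℝ) := by
    intro n hn
    obtain ⟨h1, h2⟩ := window ha hs hT1 hT'1 hx hx4 hn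
    constructor
    · have h3 : T ≤ min a 1 * T ^ 2 := by
        rw [div_le_iff₀ hma] at hTa
        have h5 : T * 1 ≤ T * (T * min a 1) := by
          apply mul_le_mul_of_nonneg_left _ hT0.le
          linarith
        nlinarith
      exact h3.trans h1
    · refine h2.trans ?_
      have h3 : 4 * max b 1 ≤ T ^ (1 / 20 : ℝ) := by
        have h4 : ((4 * max b 1) ^ 20 : ℝ) ^ (1 / 20 : ℝ) ≤ T ^ (1 / 20 : ℝ) :=
          Real.rpow_le_rpow (by positivity) hTb (by norm_num)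
        have h5 : ((4 * max b 1) ^ 20 : ℝ) ^ (1 / 20 : ℝ) = 4 * max b 1 := by
          rw [← Real.rpow_natCast, ← Real.rpow_mul (by positivity)]
          norm_num
        rwa [h5] at h4
      have h6 : T ^ (2 + 1 / 20 : ℝ) = T ^ 2 * T ^ (1 / 20 : ℝ) := by
        rw [Real.rpow_add hT0]
        congr 1
        exact_mod_cast Real.rpow_natCast T 2
      rw [h6]
      nlinarith [sq_nonneg T]
  set I : Finset ℕ := (Finset.Icc 2 ⌊T ^ (2 + 1 / 20 : ℝ)⌋₊).filter (fun n => T ≤ (n : ℝ)) with hI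
  have hout : ∀ n : ℕ, n ∉ I → w (((n : ℝ) / x) ^ T') = 0 := by
    intro n hn
    by_contra h
    obtain ⟨h1, h2⟩ := hwin n h
    apply hn
    rw [hI, Finset.mem_filter, Finset.mem_Icc]
    refine ⟨⟨?_, Nat.le_floor h2⟩, h1⟩
    exact_mod_cast hT2.trans h1
  have hmem : ∀ n ∈ I, 2 ≤ n ∧ T ≤ (n : ℝ) ∧ (n : ℝ) ≤ T ^ (2 + 1 / 20 : ℝ) := by
    intro n hn
    rw [hI, Finset.mem_filter, Finset.mem_Icc] at hn
    exact ⟨hn.1.1, hn.2, (Nat.le_floor_iff (by positivity)).1 hn.1.2⟩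
  have hSW : ∀ c : ℕ → ℝ, SW w c x T' = ∑ n ∈ I, c n * Wt n := fun c => SW_eq I hout c
  -- the functions
  set bB : ℕ → ℝ := fun n => (bw y T κ1 (2 ^ (SS η + 1)) * rg y ^ 3) n with hbB
  set ro : ℕ → ℝ := fun n => (al z T κ1 ^ 4) n with hro
  set Sn : ℕ → ℝ := fun n => ∑ u ∈ Bx 4 T, ∑ v ∈ Bx (4 * SS η) T, ccX T κ1 u v * BX y z u v n with hSn
  have hS1 := hS T T' x hTS hT'1 hT'2 hx hx4
  have hZ1 := hZ T T' x hTZ hT'1 hT'2 hx hx4
  have hB1 := hB T T' x hTB hT'1 hT'2 hx hx4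
  have hD1 := hD T T' x hTD hT'1 hT'2 hx hx4
  have hTx : 0 ≤ T' / x := by positivity
  -- the sum over the boxes
  have hlin : ∑ u ∈ Bx 4 T, ∑ v ∈ Bx (4 * SS η) T, ccX T κ1 u v * (T' / x * SW w (BX y z u v) x T') =
      T' / x * SW w Sn x T' := by
    have h2 : ∀ n : ℕ, Sn n * Wt n =
        ∑ u ∈ Bx 4 T, ∑ v ∈ Bx (4 * SS η) T, ccX T κ1 u v * (BX y z u v n * Wt n) := by
      intro n
      rw [hSn]
      simp only
      rw [Finset.sum_mul]
      refine Finset.sum_congr rfl fun u _ => ?_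
      rw [Finset.sum_mul]
      exact Finset.sum_congr rfl fun v _ => by ring
    have h3 : ∑ n ∈ I, ∑ u ∈ Bx 4 T, ∑ v ∈ Bx (4 * SS η) T, ccX T κ1 u v * (BX y z u v n * Wt n) =
        ∑ u ∈ Bx 4 T, ∑ v ∈ Bx (4 * SS η) T, ∑ n ∈ I, ccX T κ1 u v * (BX y z u v n * Wt n) := by
      rw [Finset.sum_comm]
      exact Finset.sum_congr rfl fun u _ => Finset.sum_comm
    rw [hSW Sn]
    simp only [h2]
    rw [h3, Finset.mul_sum]
    refine Finset.sum_congr rfl fun u _ => ?_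
    rw [Finset.mul_sum]
    refine Finset.sum_congr rfl fun v _ => ?_
    rw [hSW, ← Finset.mul_sum]
    ring
  -- pointwise inequalities
  have hpt : ∀ n ∈ I, |Sn n - (pr n - 24 / 35 * aJ z 3 n - 240 / 7 * aJ z 6 n - 1632 / 5 * aJ z 7 n -
      2064 * aJ z 8 n + 11 / 140 * ro n)| ≤ CP * sqr z n + CE * (sqr y n + bB n) := by
    intro n hn
    obtain ⟨h1, h2, h3⟩ := hmem n hn
    have h4 := hE T n hTE h1 h3
    have h5 := hP T κ1 n hTP h2 h3
    have h6 : |gX z T κ1 n - Sn n| ≤ CE * (sqr y n + bB n) := h4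
    have h7 : |gX z T κ1 n - (pr n - 24 / 35 * aJ z 3 n - 240 / 7 * aJ z 6 n -
        1632 / 5 * aJ z 7 n - 2064 * aJ z 8 n + 11 / 140 * ro n)| ≤ CP * sqr z n := h5
    rw [abs_le] at h6 h7 ⊢
    constructor <;> linarith [h6.1, h6.2, h7.1, h7.2]
  -- linearity
  have hcomb : SW w Sn x T' ≤ SW w pr x T' - 24 / 35 * SW w (aJ z 3) x T' -
      240 / 7 * SW w (aJ z 6) x T' - 1632 / 5 * SW w (aJ z 7) x T' - 2064 * SW w (aJ z 8) x T' +
      11 / 140 * SW w ro x T' + CP * SW w (sqr z) x T' + CE * (SW w (sqr y) x T' + SW w bB x T') := by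
    simp only [hSW, Finset.mul_sum, ← Finset.sum_add_distrib, ← Finset.sum_sub_distrib]
    refine Finset.sum_le_sum fun n hn => ?_
    have h1 := (abs_le.1 (hpt n hn)).2
    have h2 : Sn n ≤ pr n - 24 / 35 * aJ z 3 n - 240 / 7 * aJ z 6 n - 1632 / 5 * aJ z 7 n -
      2064 * aJ z 8 n + 11 / 140 * ro n + (CP * sqr z n + CE * (sqr y n + bB n)) := by linarith
    have h3 := mul_le_mul_of_nonneg_right h2 (hWt0 n)
    refine h3.trans (le_of_eq ?_)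
    ring
  have hcomb2 : SW w pr x T' - 24 / 35 * SW w (aJ z 3) x T' -
      240 / 7 * SW w (aJ z 6) x T' - 1632 / 5 * SW w (aJ z 7) x T' - 2064 * SW w (aJ z 8) x T' +
      11 / 140 * SW w ro x T' - CP * SW w (sqr z) x T' - CE * (SW w (sqr y) x T' + SW w bB x T') ≤
      SW w Sn x T' := by
    simp only [hSW, Finset.mul_sum, ← Finset.sum_add_distrib, ← Finset.sum_sub_distrib]
    refine Finset.sum_le_sum fun n hn => ?_
    have h1 := (abs_le.1 (hpt n hn)).1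
    have h2 : pr n - 24 / 35 * aJ z 3 n - 240 / 7 * aJ z 6 n - 1632 / 5 * aJ z 7 n -
      2064 * aJ z 8 n + 11 / 140 * ro n - (CP * sqr z n + CE * (sqr y n + bB n)) ≤ Sn n := by linarith
    have h3 := mul_le_mul_of_nonneg_right h2 (hWt0 n)
    refine le_trans (le_of_eq ?_) h3
    ring
  have hnn : ∀ c : ℕ → ℝ, (∀ n, 0 ≤ c n) → 0 ≤ T' / x * SW w c x T' := by
    intro c hc
    apply mul_nonneg hTx
    rw [hSW]
    exact Finset.sum_nonneg fun n _ => mul_nonneg (hc n) (hWt0 n)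
  rw [hlin]
  constructor
  · refine final1 (Real.log T) _ (T' / x * SW w pr x T') (T' / x * SW w (aJ z 3) x T')
      (T' / x * SW w (aJ z 6) x T') (T' / x * SW w (aJ z 7) x T') (T' / x * SW w (aJ z 8) x T')
      (T' / x * SW w ro x T') (T' / x * SW w (sqr y) x T') (T' / x * SW w (sqr z) x T')
      (T' / x * SW w bB x T') CE CP CS CZ CB C1 κ1 _ hlog (by linarith) (by linarith)
      (by positivity) (hnn _ (aJ_nonneg z 3)) (hnn _ (aJ_nonneg z 6)) (hnn _ (aJ_nonneg z 7))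
      (hnn _ (aJ_nonneg z 8)) ?_ hD1 hS1 hZ1 hB1 (by linarith)
    have h1 := mul_le_mul_of_nonneg_left hcomb hTx
    refine h1.trans (le_of_eq ?_)
    ring
  · refine final2 (Real.log T) _ (T' / x * SW w pr x T') (T' / x * SW w (aJ z 3) x T')
      (T' / x * SW w (aJ z 6) x T') (T' / x * SW w (aJ z 7) x T') (T' / x * SW w (aJ z 8) x T')
      (T' / x * SW w ro x T') (T' / x * SW w (sqr y) x T') (T' / x * SW w (sqr z) x T')
      (T' / x * SW w bB x T') CE CP CS CZ CB _ hlog (by linarith) (by linarith)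
      (hnn _ (fun n => pow_nonneg_apply _ (al_nonneg z T κ1) 4 n)) ?_ hS1 hZ1 hB1 (by linarith)
    have h1 := mul_le_mul_of_nonneg_left hcomb2 hTx
    refine le_trans (le_of_eq ?_) h1
    ring

end Pool.Agent.Work.MP_a8fbd7_nt.EX.ASM
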