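import Mathlib
import Pool.Agent.Work.MP_a8fbd7_nt.EX.ASM.Stmts
import Pool.Agent.Work.MP_a8fbd7_nt.OX.ASM.I_PN

/-!
MP_a8fbd7_nt, block EX, part ASM, item XMe: Mertens' theorem in cells.
Author: helper6.
-/

set_option autoImplicit false

open MeasureTheory Set Filter Topology

noncomputable section

namespace Pool.Agent.Work.MP_a8fbd7_nt.EX.ASM

open Pool.Agent.Work.MP_a8fbd7_nt
open Pool.Agent.Work.MP_a8fbd7_nt.OX
open Pool.Agent.Work.MP_a8fbd7_nt.OX.ASM
open Pool.Agent.Work.MP_a8fbd7_nt.OX.ASM.PN_aux (lint sum_pr il_cont lint_hd)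
open Pool.Agent.Work.MP_a8fbd7_nt.EX

namespace XMe_aux

/-- antiderivative of `lint t / t² + C / (t log² t)` -/
def GG (C : ℝ) (t : ℝ) : ℝ := -(lint t / t) + Real.log (Real.log t) - C / Real.log t

lemma GG_hd {C t : ℝ} (ht : 2 ≤ t) :
    HasDerivAt (GG C) (lint t / t ^ 2 + C / (t * Real.log t ^ 2)) t := by
  have ht0 : t ≠ 0 := by linarith
  have hl : 0 < Real.log t := Real.log_pos (by linarith)
  have h1 : HasDerivAt (fun t => lint t / t) ((1 / Real.log t * t - lint t * 1) / t ^ 2) t :=
    (lint_hd ht).div (hasDerivAt_id t) ht0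
  have h2 : HasDerivAt (fun t => Real.log (Real.log t)) (t⁻¹ / Real.log t) t :=
    (Real.hasDerivAt_log ht0).log hl.ne'
  have h3 : HasDerivAt (fun t => C / Real.log t) ((0 * Real.log t - C * t⁻¹) / Real.log t ^ 2) t :=
    (hasDerivAt_const t C).div (Real.hasDerivAt_log ht0) hl.ne'
  have h4 := (h1.neg.add h2).sub h3
  refine h4.congr_deriv ?_
  field_simp
  ring

/-- Mertens' theorem between `a` and `b`, `e ≤ a ≤ b` -/
lemma mertens {C a b : ℝ} (hC : 0 ≤ C) (ha : 2 ≤ a) (hab : a ≤ b)
    (hE : ∀ t : ℝ, 2 ≤ t → |(Nat.primeCounting ⌊t⌋₊ : ℝ) - lint t| ≤ C * t / Real.log t ^ 2) :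
    ∑ k ∈ Finset.Ioc ⌊a⌋₊ ⌊b⌋₊, (1 / (k : ℝ)) * pr k ≤
      Real.log (Real.log b) - Real.log (Real.log a) + C / Real.log a + 2 * (C / Real.log a ^ 2) := by
  have ha0 : 0 < a := by linarith
  have hb2 : 2 ≤ b := ha.trans hab
  have hb0 : 0 < b := by linarith
  have hla : 0 < Real.log a := Real.log_pos (by linarith)
  have hlb : 0 < Real.log b := Real.log_pos (by linarith)
  have hlab : Real.log a ≤ Real.log b := Real.log_le_log ha0 hab
  have uI : uIcc a b = Icc a b := uIcc_of_le hab
  have hg : ∀ t ∈ Icc a b, HasDerivAt (fun t : ℝ => 1 / t) (-(1 / t ^ 2)) t := by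
    intro t ht
    have ht0 : t ≠ 0 := by
      have := ht.1
      intro h
      linarith
    have h1 := hasDerivAt_inv ht0
    have h2 : (fun t : ℝ => 1 / t) = fun t => t⁻¹ := by
      funext t
      simp
    rw [h2]
    refine h1.congr_deriv ?_
    simp
  have hc : ContinuousOn (fun t : ℝ => -(1 / t ^ 2)) (Icc a b) := by
    intro t ht
    have ht0 : t ^ 2 ≠ 0 := by
      have := ht.1
      have : 0 < t := by linarith
      positivity
    exact ((continuousAt_const.div (continuousAt_id.pow 2) ht0).neg).continuousWithinAt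
  have hd : ∀ t ∈ Icc a b, deriv (fun t : ℝ => 1 / t) t = -(1 / t ^ 2) := fun t ht => (hg t ht).deriv
  have hi : IntegrableOn (deriv (fun t : ℝ => 1 / t)) (Icc a b) :=
    hc.integrableOn_Icc.congr_fun (fun t ht => (hd t ht).symm) measurableSet_Icc
  have h1 := sum_mul_eq_sub_sub_integral_mul pr (by linarith : (0 : ℝ) ≤ a) hab
    (fun t ht => (hg t ht).differentiableAt) hi
  have h3 : ∫ t in Ioc a b, deriv (fun t : ℝ => 1 / t) t * ∑ k ∈ Finset.Icc 0 ⌊t⌋₊, pr k =
      - ∫ t in a..b, (Nat.primeCounting ⌊t⌋₊ : ℝ) / t ^ 2 := by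
    rw [intervalIntegral.integral_of_le hab, ← integral_neg]
    apply setIntegral_congr_fun measurableSet_Ioc
    intro t ht
    dsimp only
    rw [hd t (Ioc_subset_Icc_self ht), sum_pr]
    ring
  rw [h3, sum_pr, sum_pr] at h1
  have hPm : Monotone (fun t : ℝ => (Nat.primeCounting ⌊t⌋₊ : ℝ)) := by
    intro a b hab
    dsimp only
    exact_mod_cast Nat.monotone_primeCounting (Nat.floor_le_floor hab)
  have j2 : IntervalIntegrable (fun t : ℝ => (Nat.primeCounting ⌊t⌋₊ : ℝ) / t ^ 2) volume a b := by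
    have k1 : IntervalIntegrable (fun t : ℝ => (Nat.primeCounting ⌊t⌋₊ : ℝ)) volume a b := hPm.intervalIntegrable
    have k2 := k1.continuousOn_mul (g := fun t : ℝ => -(1 / t ^ 2)) (by rw [uI]; exact hc)
    refine k2.neg.congr ?_
    intro t _
    simp only [Pi.neg_apply]
    ring
  have hLc : ContinuousOn lint (Icc a b) :=
    fun t ht => (lint_hd (ha.trans ht.1)).continuousAt.continuousWithinAt
  have j3 : IntervalIntegrable (fun t : ℝ => lint t / t ^ 2 + C / (t * Real.log t ^ 2)) volume a b := by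
    apply ContinuousOn.intervalIntegrable
    rw [uI]
    apply ContinuousOn.add
    · apply hLc.div (continuousOn_id.pow 2)
      intro t ht
      have := ht.1
      have h0 : 0 < t := by linarith
      have h1 : 0 < t ^ 2 := by positivity
      exact h1.ne'
    · apply continuousOn_const.div
      · apply continuousOn_id.mul
        apply ContinuousOn.pow
        apply ContinuousOn.log continuousOn_id
        intro t ht
        have := ht.1
        simp only [id]
        intro h
        linarith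
      · intro t ht
        have := ht.1
        have h0 : 0 < t := by linarith
        have hl : 0 < Real.log t := Real.log_pos (by linarith)
        positivity
  have h4 : ∫ t in a..b, (Nat.primeCounting ⌊t⌋₊ : ℝ) / t ^ 2 ≤
      ∫ t in a..b, (lint t / t ^ 2 + C / (t * Real.log t ^ 2)) := by
    apply intervalIntegral.integral_mono_on hab j2 j3
    intro t ht
    have ht2 : 2 ≤ t := ha.trans ht.1
    have ht0 : 0 < t := by linarith
    have hl : 0 < Real.log t := Real.log_pos (by linarith)
    have hE' := (abs_le.1 (hE t ht2)).2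
    have h5 : C / (t * Real.log t ^ 2) = (C * t / Real.log t ^ 2) / t ^ 2 := by
      field_simp
    rw [h5, ← add_div]
    apply div_le_div_of_nonneg_right _ (by positivity)
    linarith
  have h6 : ∫ t in a..b, (lint t / t ^ 2 + C / (t * Real.log t ^ 2)) = GG C b - GG C a := by
    apply intervalIntegral.integral_eq_sub_of_hasDerivAt _ j3
    intro t ht
    rw [uI] at ht
    exact GG_hd (ha.trans ht.1)
  have hEb := (abs_le.1 (hE b hb2)).2
  have hEa := (abs_le.1 (hE a ha)).1
  have e1 : 1 / b * (Nat.primeCounting ⌊b⌋₊ : ℝ) ≤ lint b / b + C / Real.log b ^ 2 := by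
    have : C / Real.log b ^ 2 = (C * b / Real.log b ^ 2) / b := by field_simp
    rw [this, ← add_div, one_div, inv_mul_eq_div]
    apply div_le_div_of_nonneg_right _ hb0.le
    linarith
  have e2 : lint a / a - C / Real.log a ^ 2 ≤ 1 / a * (Nat.primeCounting ⌊a⌋₊ : ℝ) := by
    have : C / Real.log a ^ 2 = (C * a / Real.log a ^ 2) / a := by field_simp
    rw [this, ← sub_div, one_div, inv_mul_eq_div]
    apply div_le_div_of_nonneg_right _ ha0.le
    linarith
  have e3 : C / Real.log b ^ 2 ≤ C / Real.log a ^ 2 := by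
    apply div_le_div_of_nonneg_left hC (by positivity)
    exact pow_le_pow_left₀ hla.le hlab 2
  have e4 : 0 ≤ C / Real.log b := by positivity
  rw [h1]
  unfold GG at h6
  linarith

end XMe_aux

open Classical in
open XMe_aux in
/-- item XMe -/
theorem iXMe (hP : ZF.StPnt) : StXMe := by
  intro δ hδ
  obtain ⟨C0, hC0, hP⟩ := hP 2 (by norm_num)
  have hE : ∀ t : ℝ, 2 ≤ t → |(Nat.primeCounting ⌊t⌋₊ : ℝ) - lint t| ≤ C0 * t / Real.log t ^ 2 := by
    intro t ht
    have h := hP t ht
    rw [Real.rpow_two] at h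
    exact h
  refine ⟨Real.exp (5 + 15 * C0 / δ), Real.one_le_exp (by positivity), ?_⟩
  intro T j hT hj1 hj2
  have hT0 : 0 < T := lt_of_lt_of_le (Real.exp_pos _) hT
  have hlT : 5 + 15 * C0 / δ ≤ Real.log T := by
    rw [Real.le_log_iff_exp_le hT0]
    exact hT
  have h15 : 0 ≤ 15 * C0 / δ := by positivity
  have hl5 : 5 ≤ Real.log T := by linarith
  have hlC : 15 * C0 ≤ δ * Real.log T := by
    have h1 : 15 * C0 / δ ≤ Real.log T := by linarith
    rw [div_le_iff₀ hδ] at h1
    linarith
  have hj : (119 : ℝ) ≤ j := by exact_mod_cast hj1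
  have hj0 : (0 : ℝ) < j := by linarith
  set a : ℝ := T ^ ((j : ℝ) / 500) with ha
  set b : ℝ := T ^ (((j : ℝ) + 1) / 500) with hb
  have hla : Real.log a = (j : ℝ) / 500 * Real.log T := Real.log_rpow hT0 _
  have hlb : Real.log b = ((j : ℝ) + 1) / 500 * Real.log T := Real.log_rpow hT0 _
  have ha0 : 0 < a := Real.rpow_pos_of_pos hT0 _
  have hla1 : 119 / 500 * Real.log T ≤ Real.log a := by
    rw [hla]
    apply mul_le_mul_of_nonneg_right _ (by linarith)
    linarith
  have hla2 : 1 ≤ Real.log a := by linarith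
  have ha2 : 2 ≤ a := by
    have h1 : Real.exp 1 ≤ a := by
      rw [← Real.le_log_iff_exp_le ha0]
      exact hla2
    have h2 := Real.exp_one_gt_d9
    linarith
  have hT1 : 1 ≤ T := by
    have h1 : Real.exp 0 ≤ T := by
      rw [← Real.le_log_iff_exp_le hT0]
      linarith
    rwa [Real.exp_zero] at h1
  have hab : a ≤ b := by
    apply Real.rpow_le_rpow_of_exponent_le hT1
    apply div_le_div_of_nonneg_right _ (by norm_num)
    linarith
  have hm := mertens (by linarith : (0 : ℝ) ≤ C0) ha2 hab hE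
  have hsum : ∑ p ∈ (Finset.Ioc ⌊a⌋₊ ⌊b⌋₊).filter Nat.Prime, (1 : ℝ) / p =
      ∑ k ∈ Finset.Ioc ⌊a⌋₊ ⌊b⌋₊, (1 / (k : ℝ)) * pr k := by
    rw [Finset.sum_filter]
    apply Finset.sum_congr rfl
    intro k _
    unfold pr
    split_ifs <;> simp
  have hll : Real.log (Real.log b) - Real.log (Real.log a) = Real.log (((j : ℝ) + 1) / j) := by
    rw [hla, hlb, ← Real.log_div (by positivity) (by positivity)]
    congr 1
    field_simp
  have hsq : C0 / Real.log a ^ 2 ≤ C0 / Real.log a := by
    apply div_le_div_of_nonneg_left (by linarith) (by linarith)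
    nlinarith
  have hfin : 3 * (C0 / Real.log a) ≤ δ := by
    rw [mul_div_assoc', div_le_iff₀ (by linarith)]
    nlinarith
  rw [hsum]
  rw [hll] at hm
  linarith

end Pool.Agent.Work.MP_a8fbd7_nt.EX.ASM
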