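import Mathlib
import Pool.Agent.Work.MP_a8fbd7_nt.EX.ASM.Stmts

/-!
MP_a8fbd7_nt, block EX, part ASM, item XNu: the numerical constant (Kronecker substitution).
-/

set_option autoImplicit false

open MeasureTheory Set Filter Topology

noncomputable section

namespace Pool.Agent.Work.MP_a8fbd7_nt.EX.ASM

namespace XNu_aux

/-- base of the Kronecker substitution -/
def B : ℕ := 2 ^ 400

/-- `10^12` times an upper bound for `log ((j+1)/j)` -/
def aa (j : ℕ) : ℕ := if j ≤ 881 then 1000000000000 * (2 * j + 1) / (2 * j * (j + 1)) + 1 else 0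

/-- binary splitting: `∑_{k < 2^d} aa (lo + k) B^k` -/
def G : ℕ → ℕ → ℕ
  | 0, lo => aa lo
  | d + 1, lo => G d lo + B ^ (2 ^ d) * G d (lo + 2 ^ d)

/-- binary splitting: `∑_{k < 2^d} aa (lo + k)` -/
def H : ℕ → ℕ → ℕ
  | 0, lo => aa lo
  | d + 1, lo => H d lo + H d (lo + 2 ^ d)

theorem G_eq (d : ℕ) : ∀ lo : ℕ, G d lo = ∑ k ∈ Finset.range (2 ^ d), aa (lo + k) * B ^ k := by
  induction d with
  | zero => intro lo; simp [G]
  | succ d ih =>
    intro lo
    rw [G, ih, ih, pow_succ, mul_two, Finset.sum_range_add, Finset.mul_sum]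
    congr 1
    apply Finset.sum_congr rfl
    intro k _
    rw [pow_add, add_assoc]
    ring

theorem H_eq (d : ℕ) : ∀ lo : ℕ, H d lo = ∑ k ∈ Finset.range (2 ^ d), aa (lo + k) := by
  induction d with
  | zero => intro lo; simp [H]
  | succ d ih =>
    intro lo
    rw [H, ih, ih, pow_succ, mul_two, Finset.sum_range_add]
    congr 1
    apply Finset.sum_congr rfl
    intro k _
    rw [add_assoc]

theorem Icc_eq : Finset.Icc (119 : ℕ) 881 = Finset.Ico 119 882 := by
  ext x; simp only [Finset.mem_Icc, Finset.mem_Ico]; omega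

theorem sum_eq (g : ℕ → ℕ) (hg : ∀ j, 882 ≤ j → g j = 0) :
    ∑ j ∈ Finset.Icc (119 : ℕ) 881, g j = ∑ k ∈ Finset.range (2 ^ 10), g (119 + k) := by
  rw [Icc_eq, Finset.sum_Ico_eq_sum_range]
  apply Finset.sum_subset
  · intro x hx
    simp only [Finset.mem_range] at hx ⊢
    omega
  · intro x _ hx
    simp only [Finset.mem_range] at hx
    exact hg _ (by omega)

theorem aa_zero (j : ℕ) (hj : 882 ≤ j) : aa j = 0 := by
  unfold aa; rw [if_neg (by omega)]

theorem sumB : ∑ j ∈ Finset.Icc (119 : ℕ) 881, aa j * B ^ j = B ^ 119 * G 10 119 := by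
  rw [sum_eq (fun j => aa j * B ^ j) (fun j hj => by simp only [aa_zero j hj, zero_mul]), G_eq,
    Finset.mul_sum]
  apply Finset.sum_congr rfl
  intro k _
  simp only [pow_add]
  ring

theorem sumA : ∑ j ∈ Finset.Icc (119 : ℕ) 881, aa j = H 10 119 := by
  rw [sum_eq aa aa_zero, H_eq]

/-- the Kronecker substitution -/
theorem key (n : ℕ) (a : ℕ → ℕ) (C : ℕ) (hC : 2 ≤ C) (s : Finset ℕ) (m : ℕ)
    (hlt : (∑ j ∈ s, a j) ^ n < C - 1) :
    ∑ f ∈ (Fintype.piFinset (fun _ : Fin n => s)).filter (fun f => ∑ i, f i ≤ m), ∏ i, a (f i) =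
      ((∑ j ∈ s, a j * C ^ j) ^ n % C ^ (m + 1)) % (C - 1) := by
  set F := Fintype.piFinset (fun _ : Fin n => s) with hF
  set S := ∑ f ∈ F.filter (fun f => ∑ i, f i ≤ m), ∏ i, a (f i) with hS
  set L := ∑ f ∈ F.filter (fun f => ∑ i, f i ≤ m), (∏ i, a (f i)) * C ^ (∑ i, f i) with hL
  have hSlt : S < C - 1 := by
    refine lt_of_le_of_lt ?_ hlt
    have h1 : (∑ j ∈ s, a j) ^ n = ∑ f ∈ F, ∏ i, a (f i) := by
      have := Finset.prod_univ_sum (fun _ : Fin n => s) (fun _ j => a j)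
      rw [← this, Finset.prod_const, Finset.card_univ, Fintype.card_fin]
    rw [h1]
    exact Finset.sum_le_sum_of_subset (Finset.filter_subset _ _)
  have h2 : (∑ j ∈ s, a j * C ^ j) ^ n = ∑ f ∈ F, (∏ i, a (f i)) * C ^ (∑ i, f i) := by
    have := Finset.prod_univ_sum (fun _ : Fin n => s) (fun _ j => a j * C ^ j)
    rw [Finset.prod_const, Finset.card_univ, Fintype.card_fin] at this
    rw [this]
    apply Finset.sum_congr rfl
    intro f _
    rw [Finset.prod_mul_distrib, Finset.prod_pow_eq_pow_sum]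
  have h3 : C ^ (m + 1) ∣ ∑ f ∈ F.filter (fun f => ¬ ∑ i, f i ≤ m), (∏ i, a (f i)) * C ^ (∑ i, f i) := by
    apply Finset.dvd_sum
    intro f hf
    rw [Finset.mem_filter] at hf
    exact Dvd.dvd.mul_left (pow_dvd_pow C (by omega)) _
  obtain ⟨M, hM⟩ := h3
  have h4 : (∑ j ∈ s, a j * C ^ j) ^ n = L + C ^ (m + 1) * M := by
    rw [h2, ← hM, hL, Finset.sum_filter_add_sum_filter_not]
  have hL1 : L < C ^ (m + 1) := by
    have : L ≤ S * C ^ m := by
      rw [hL, hS, Finset.sum_mul]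
      apply Finset.sum_le_sum
      intro f hf
      rw [Finset.mem_filter] at hf
      exact Nat.mul_le_mul_left _ (Nat.pow_le_pow_right (by omega) hf.2)
    refine lt_of_le_of_lt this ?_
    rw [pow_succ, mul_comm]
    exact Nat.mul_lt_mul_of_pos_left (by omega) (by positivity)
  rw [h4, Nat.add_mul_mod_self_left, Nat.mod_eq_of_lt hL1]
  have hmod : L ≡ S [MOD (C - 1)] := by
    rw [hL, hS]
    have hC1 : C ≡ 1 [MOD (C - 1)] := by
      have : C = (C - 1) + 1 := by omega
      conv_lhs => rw [this]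
      simp [Nat.ModEq]
    have : ∀ f ∈ F.filter (fun f => ∑ i, f i ≤ m),
        (∏ i, a (f i)) * C ^ (∑ i, f i) ≡ ∏ i, a (f i) [MOD (C - 1)] := by
      intro f _
      calc (∏ i, a (f i)) * C ^ (∑ i, f i) ≡ (∏ i, a (f i)) * 1 ^ (∑ i, f i) [MOD (C - 1)] :=
            Nat.ModEq.mul_left _ (hC1.pow _)
        _ = ∏ i, a (f i) := by rw [one_pow, mul_one]
    exact Nat.ModEq.sum this
  rw [hmod, Nat.mod_eq_of_lt hSlt]

theorem log_bd (j : ℕ) (h1 : 119 ≤ j) (h2 : j ≤ 881) :
    Real.log (((j : ℝ) + 1) / (j : ℝ)) ≤ (aa j : ℝ) / 1000000000000 := by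
  have hj : (0 : ℝ) < j := by
    have : 0 < j := by omega
    exact_mod_cast this
  have ht : (1 : ℝ) ≤ ((j : ℝ) + 1) / j := by
    rw [le_div_iff₀ hj]; linarith
  have ht0 : (0 : ℝ) < ((j : ℝ) + 1) / j := by positivity
  have h3 : Real.log (((j : ℝ) + 1) / j) ≤ ((((j : ℝ) + 1) / j) - (((j : ℝ) + 1) / j)⁻¹) / 2 := by
    rw [← Real.sinh_log ht0]
    exact Real.self_le_sinh_iff.2 (Real.log_nonneg ht)
  refine h3.trans ?_
  have h4 : ((((j : ℝ) + 1) / j) - (((j : ℝ) + 1) / j)⁻¹) / 2 = (2 * j + 1) / (2 * j * (j + 1)) := by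
    field_simp
    ring
  rw [h4, le_div_iff₀ (by norm_num)]
  unfold aa
  rw [if_pos h2]
  have h5 : 1000000000000 * (2 * j + 1) < (1000000000000 * (2 * j + 1) / (2 * j * (j + 1)) + 1) * (2 * j * (j + 1)) := by
    have hpos : 0 < 2 * j * (j + 1) := by
      have : 0 < j := by omega
      positivity
    have := Nat.lt_mul_div_succ (1000000000000 * (2 * j + 1)) hpos
    rwa [mul_comm (2 * j * (j + 1)) _] at this
  have h6 : (1000000000000 : ℝ) * (2 * j + 1) ≤ ((1000000000000 * (2 * j + 1) / (2 * j * (j + 1)) + 1 : ℕ) : ℝ) * (2 * j * (j + 1)) := by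
    exact_mod_cast h5.le
  rw [div_mul_eq_mul_div, div_le_iff₀ (by positivity)]
  linarith

/-- the mass in terms of the sum of the coefficients -/
theorem mass_le (n : ℕ) (V : ℕ) (hlt : (H 10 119) ^ n < B - 1)
    (hV : ((B ^ 119 * G 10 119) ^ n % B ^ (881 + 1)) % (B - 1) = V) :
    mass n ≤ (V : ℝ) / 1000000000000 ^ n := by
  have h1 := key n aa B (by decide +kernel) (Finset.Icc (119 : ℕ) 881) 881 (by rw [sumA]; exact hlt)
  rw [sumB, hV] at h1
  rw [← h1]
  unfold mass
  push_cast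
  rw [Finset.sum_div]
  apply Finset.sum_le_sum
  intro f hf
  rw [Finset.mem_filter, Fintype.mem_piFinset] at hf
  calc ∏ i, Real.log (((f i : ℝ) + 1) / (f i : ℝ)) ≤ ∏ i, ((aa (f i) : ℝ) / 1000000000000) := by
        apply Finset.prod_le_prod
        · intro i _
          have h2 := Finset.mem_Icc.1 (hf.1 i)
          have hj : (0 : ℝ) < (f i : ℝ) := by
            have : 0 < f i := by omega
            exact_mod_cast this
          apply Real.log_nonneg
          rw [le_div_iff₀ hj]; linarith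
        · intro i _
          have h2 := Finset.mem_Icc.1 (hf.1 i)
          exact log_bd (f i) h2.1 h2.2
    _ = (∏ i, (aa (f i) : ℝ)) / 1000000000000 ^ n := by
        rw [Finset.prod_div_distrib, Finset.prod_const, Finset.card_univ, Fintype.card_fin]

theorem lt2 : (H 10 119) ^ 2 < B - 1 := by decide +kernel

theorem val2 : ((B ^ 119 * G 10 119) ^ 2 % B ^ (881 + 1)) % (B - 1) = 2649008151495648362871357 := by decide +kernel

theorem lt5 : (H 10 119) ^ 5 < B - 1 := by decide +kernel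

theorem val5 : ((B ^ 119 * G 10 119) ^ 5 % B ^ (881 + 1)) % (B - 1) = 151414173848515079143669659353274057107957114281688509278975 := by decide +kernel

theorem lt6 : (H 10 119) ^ 6 < B - 1 := by decide +kernel

theorem val6 : ((B ^ 119 * G 10 119) ^ 6 % B ^ (881 + 1)) % (B - 1) = 4214022223045339810636443434667592642495669977926834248520527880503237 := by decide +kernel

theorem lt7 : (H 10 119) ^ 7 < B - 1 := by decide +kernel

theorem val7 : ((B ^ 119 * G 10 119) ^ 7 % B ^ (881 + 1)) % (B - 1) = 417213597526119005574350456563910445841092921793118335932489086247850197420158 := by decide +kernel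

end XNu_aux

theorem iXNu : StXNu := by
  unfold StXNu
  have h2 := XNu_aux.mass_le 2 _ XNu_aux.lt2 XNu_aux.val2
  have h5 := XNu_aux.mass_le 5 _ XNu_aux.lt5 XNu_aux.val5
  have h6 := XNu_aux.mass_le 6 _ XNu_aux.lt6 XNu_aux.val6
  have h7 := XNu_aux.mass_le 7 _ XNu_aux.lt7 XNu_aux.val7
  norm_num at h2 h5 h6 h7
  linarith

end Pool.Agent.Work.MP_a8fbd7_nt.EX.ASM
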