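import Mathlib
import Pool.Agent.Work.MP_a8fbd7_nt.EX.ASM.Stmts
import Pool.Agent.Work.MP_a8fbd7_nt.OX.ID.Expand2

/-!
MP_a8fbd7_nt, EX/ASM, item XPw: pointwise values of the sieve function `g`.
-/

set_option autoImplicit false

noncomputable section

namespace Pool.Agent.Work.MP_a8fbd7_nt.EX.ASM

open Pool.Agent.Work.MP_56b8f5_nt.UC (IsWt Bl Dp Om psi eta Sep)
open Pool.Agent.Work.MP_a8fbd7_nt.OX
open Pool.Agent.Work.MP_a8fbd7_nt.OX.ID (Rough roughOne pb rg rg_apply sum_divisors_pow_omega dom_rg Dom)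
open Pool.Agent.Work.MP_a8fbd7_nt.OX.ASM
open Pool.Agent.Work.MP_a8fbd7_nt.EX

namespace XPw_aux

open ArithmeticFunction Finset
open scoped ArithmeticFunction.Omega

theorem rg_pow_sqfree (z : ℕ) : ∀ (k : ℕ) {d : ℕ}, Squarefree d → Rough z d →
    (rg z ^ k) d = (k : ℝ) ^ Ω d
  | 0, d, hd, hb => by
    rw [pow_zero, one_apply]
    by_cases h : d = 1
    · rw [if_pos h, h, cardFactors_one, pow_zero]
    · rw [if_neg h, Nat.cast_zero, zero_pow]
      intro h0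
      rcases cardFactors_eq_zero_iff_eq_zero_or_one.1 h0 with h' | h'
      · exact hd.ne_zero h'
      · exact h h'
  | k + 1, d, hd, hb => by
    classical
    rw [pow_succ, mul_apply, Nat.sum_divisorsAntidiagonal
      (f := fun a b => (rg z ^ k) a * rg z b)]
    have h1 : ∀ e ∈ d.divisors, (rg z ^ k) e * rg z (d / e) = (k : ℝ) ^ Ω e := by
      intro e he
      have he' := Nat.dvd_of_mem_divisors he
      have hde : d / e ∣ d := Nat.div_dvd_of_dvd he'
      have hde0 : d / e ≠ 0 := (hd.squarefree_of_dvd hde).ne_zero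
      rw [rg_pow_sqfree z k (hd.squarefree_of_dvd he') (hb.of_dvd he'), rg_apply,
        if_pos ⟨hde0, hb.of_dvd hde⟩, mul_one]
    rw [sum_congr rfl h1, sum_divisors_pow_omega hd]
    push_cast
    ring

theorem rg_pow_not (z k : ℕ) {n : ℕ} (h : ¬ Rough z n) : (rg z ^ k) n = 0 :=
  ((dom_rg z).pow (k := k) n).2.2 h

theorem rg_pow_bd {z k n : ℕ} (hz : 1 ≤ z) (hk : 1 ≤ k) (hn : n ≤ z ^ (8 + 1)) :
    0 ≤ (rg z ^ k) n ∧ (rg z ^ k) n ≤ (k : ℝ) ^ 8 :=
  ⟨((dom_rg z).pow (k := k) n).1, ((dom_rg z).pow (k := k)).le_pow hk hz hn⟩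

theorem sqr_nonneg' (z n : ℕ) : 0 ≤ sqr z n := by
  classical
  unfold sqr
  split_ifs <;> norm_num

theorem aJ_bd (z J n : ℕ) : 0 ≤ aJ z J n ∧ aJ z J n ≤ 1 := by
  classical
  unfold aJ
  split_ifs <;> norm_num

theorem pr_bd (n : ℕ) : 0 ≤ pr n ∧ pr n ≤ 1 := by
  unfold pr
  split_ifs <;> norm_num

theorem core {z n : ℕ} (hz : 1 ≤ z) (hzn : z < n) (hn : n ≤ z ^ (8 + 1)) :
    |104 / 35 * rg z n - 57 / 35 * (rg z ^ 2) n + 8 / 15 * (rg z ^ 3) n - 11 / 140 * (rg z ^ 4) n -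
      (pr n - 24 / 35 * aJ z 3 n - 240 / 7 * aJ z 6 n - 1632 / 5 * aJ z 7 n - 2064 * aJ z 8 n)| ≤
      2 ^ 100 * sqr z n := by
  classical
  have hs0 := sqr_nonneg' z n
  have hn0 : n ≠ 0 := by omega
  by_cases hR : Rough z n
  · by_cases hs : Squarefree n
    · refine le_trans (le_of_eq ?_) (mul_nonneg (by norm_num) hs0)
      rw [abs_eq_zero]
      have h1 : rg z n = 1 := by rw [rg_apply, if_pos ⟨hn0, hR⟩]
      have hJ8 : Ω n ≤ 8 := hR.cardFactors_le hz (by omega) hn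
      have hJ1 : 1 ≤ Ω n := by
        rw [Nat.one_le_iff_ne_zero]
        intro h0
        rcases cardFactors_eq_zero_iff_eq_zero_or_one.1 h0 with h' | h'
        · exact hn0 h'
        · omega
      have hpr : pr n = if Ω n = 1 then 1 else 0 := by
        unfold pr
        by_cases hp : n.Prime
        · rw [if_pos hp, if_pos (cardFactors_eq_one_iff_prime.2 hp)]
        · rw [if_neg hp, if_neg fun h => hp (cardFactors_eq_one_iff_prime.1 h)]
      have haJ : ∀ J, aJ z J n = if Ω n = J then 1 else 0 := by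
        intro J
        unfold aJ
        by_cases hJ : Ω n = J
        · rw [if_pos ⟨hR, hJ⟩, if_pos hJ]
        · rw [if_neg fun h => hJ h.2, if_neg hJ]
      rw [h1, rg_pow_sqfree z 2 hs hR, rg_pow_sqfree z 3 hs hR, rg_pow_sqfree z 4 hs hR, hpr, haJ, haJ, haJ, haJ]
      generalize Ω n = J at hJ8 hJ1 ⊢
      interval_cases J <;> norm_num
    · have hsq : sqr z n = 1 := by
        unfold sqr
        rw [if_pos]
        rw [Nat.squarefree_iff_prime_squarefree] at hs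
        push Not at hs
        obtain ⟨p, hp, hpn⟩ := hs
        exact ⟨p, hp, hR p hp ((Dvd.intro _ rfl).trans hpn), by rw [pow_two]; exact hpn⟩
      rw [hsq, mul_one, abs_le]
      have b1 := rg_pow_bd (k := 1) hz le_rfl hn
      have b2 := rg_pow_bd (k := 2) hz (by norm_num) hn
      have b3 := rg_pow_bd (k := 3) hz (by norm_num) hn
      have b4 := rg_pow_bd (k := 4) hz (by norm_num) hn
      have c3 := aJ_bd z 3 n
      have c6 := aJ_bd z 6 n
      have c7 := aJ_bd z 7 n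
      have c8 := aJ_bd z 8 n
      have c0 := pr_bd n
      rw [pow_one] at b1
      push_cast at b1 b2 b3 b4
      norm_num at b1 b2 b3 b4
      constructor <;> linarith [b1.1, b1.2, b2.1, b2.2, b3.1, b3.2, b4.1, b4.2, c3.1, c3.2, c6.1, c6.2, c7.1, c7.2,
        c8.1, c8.2, c0.1, c0.2]
  · refine le_trans (le_of_eq ?_) (mul_nonneg (by norm_num) hs0)
    have h1 : rg z n = 0 := by rw [rg_apply, if_neg fun h => hR h.2]
    have hpr : pr n = 0 := by
      unfold pr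
      rw [if_neg]
      intro hp
      apply hR
      intro q hq hqn
      rw [(Nat.prime_dvd_prime_iff_eq hq hp).1 hqn]
      exact hzn
    have haJ : ∀ J, aJ z J n = 0 := by
      intro J
      unfold aJ
      rw [if_neg fun h => hR h.1]
    rw [h1, rg_pow_not z 2 hR, rg_pow_not z 3 hR, rg_pow_not z 4 hR, hpr, haJ, haJ, haJ, haJ]
    norm_num

theorem z_bd {T : ℝ} (hT : 2 ^ 100 ≤ T) : 1 ≤ zz cE T ∧ ((zz cE T : ℕ) : ℝ) < T ∧
    T ^ (2 + 1 / 20 : ℝ) ≤ ((zz cE T : ℕ) : ℝ) ^ 9 := by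
  have hT0 : 0 < T := lt_of_lt_of_le (by positivity) hT
  have hT1 : 1 ≤ T := le_trans (by norm_num) hT
  have hc : cE = 119 / 500 := rfl
  set X : ℝ := T ^ cE with hX
  have hX0 : 0 < X := Real.rpow_pos_of_pos hT0 _
  have h2 : (2 : ℝ) ≤ X := by
    have h3 : ((2 : ℝ) ^ (100 : ℕ)) ^ cE ≤ X := Real.rpow_le_rpow (by positivity) hT (by rw [hc]; norm_num)
    refine le_trans ?_ h3
    rw [← Real.rpow_natCast, ← Real.rpow_mul (by norm_num), hc]
    calc (2 : ℝ) = 2 ^ (1 : ℝ) := (Real.rpow_one 2).symm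
      _ ≤ _ := Real.rpow_le_rpow_of_exponent_le (by norm_num) (by norm_num)
  have hfl : ((zz cE T : ℕ) : ℝ) ≤ X := by
    unfold zz
    exact Nat.floor_le hX0.le
  have hfl2 : X < ((zz cE T : ℕ) : ℝ) + 1 := by
    unfold zz
    exact Nat.lt_floor_add_one _
  have hz1 : (1 : ℝ) < ((zz cE T : ℕ) : ℝ) + 1 := by linarith
  refine ⟨?_, ?_, ?_⟩
  · have h4 : (0 : ℝ) < ((zz cE T : ℕ) : ℝ) := by linarith
    exact_mod_cast h4
  · refine hfl.trans_lt ?_
    calc X < T ^ (1 : ℝ) := Real.rpow_lt_rpow_of_exponent_lt (lt_of_lt_of_le (by norm_num) hT) (by rw [hc]; norm_num)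
      _ = T := Real.rpow_one T
  · have h5 : X / 2 ≤ ((zz cE T : ℕ) : ℝ) := by linarith
    have h6 : (X / 2) ^ 9 ≤ ((zz cE T : ℕ) : ℝ) ^ 9 := pow_le_pow_left₀ (by positivity) h5 9
    refine le_trans ?_ h6
    rw [div_pow, le_div_iff₀ (by positivity)]
    have h7 : (2 : ℝ) ^ 9 ≤ T ^ (9 / 100 : ℝ) := by
      have h3 : ((2 : ℝ) ^ (100 : ℕ)) ^ (9 / 100 : ℝ) ≤ T ^ (9 / 100 : ℝ) :=
        Real.rpow_le_rpow (by positivity) hT (by norm_num)
      refine le_trans (le_of_eq ?_) h3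
      rw [← Real.rpow_natCast, ← Real.rpow_natCast, ← Real.rpow_mul (by norm_num)]
      norm_num
    calc T ^ (2 + 1 / 20 : ℝ) * 2 ^ 9 ≤ T ^ (2 + 1 / 20 : ℝ) * T ^ (9 / 100 : ℝ) := by gcongr
      _ = T ^ (2 + 1 / 20 + 9 / 100 : ℝ) := (Real.rpow_add hT0 _ _).symm
      _ ≤ T ^ (cE * (9 : ℕ) : ℝ) := Real.rpow_le_rpow_of_exponent_le hT1 (by rw [hc]; norm_num)
      _ = X ^ 9 := by rw [hX, Real.rpow_mul hT0.le, Real.rpow_natCast]

end XPw_aux

open XPw_aux in
theorem iXPw : StXPw := by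
  refine ⟨2 ^ 100, by norm_num, ?_⟩
  intro T κ1 n hT hTn hn
  obtain ⟨h1, h2, h3⟩ := z_bd hT
  have h4 : zz cE T < n := by exact_mod_cast h2.trans_le hTn
  have h5 : n ≤ zz cE T ^ (8 + 1) := by
    have : (n : ℝ) ≤ ((zz cE T : ℕ) : ℝ) ^ (8 + 1) := hn.trans h3
    exact_mod_cast this
  have h6 := core h1 h4 h5
  unfold gX
  refine le_trans (le_of_eq ?_) h6
  congr 1
  ring

end Pool.Agent.Work.MP_a8fbd7_nt.EX.ASM
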