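/-
MP_a8fbd7_nt, block EX, part ASM, item XRg: relevant boxes.  Copy of `OX/ASM/I_Rg.lean` (helper9) with four `u`-slots.
-/
import Pool.Agent.Work.MP_a8fbd7_nt.EX.ASM.Stmts
import Pool.Agent.Work.MP_a8fbd7_nt.OX.ASM.I_Rg

set_option autoImplicit false

open MeasureTheory Set Filter Topology

namespace Pool.Agent.Work.MP_a8fbd7_nt.EX.ASM

open Pool.Agent.Work.MP_56b8f5_nt.UC (IsWt Bl Dp Om psi eta Sep)
open Pool.Agent.Work.MP_a8fbd7_nt.OX
open Pool.Agent.Work.MP_a8fbd7_nt.OX.ID (Rough roughOne pb rg)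
open Pool.Agent.Work.MP_a8fbd7_nt.OX.ASM
open Pool.Agent.Work.MP_a8fbd7_nt.EX

namespace XRg_aux

/-- support of a product of slot functions -/
theorem prod_supp (hPd : StPd) {S : ℕ} (u : Fin 4 → Option ℕ) (v : Fin S → Option ℕ)
    (f : Fin 4 → ArithmeticFunction ℝ) (g : Fin S → ArithmeticFunction ℝ)
    (hf : ∀ i n, f i n ≠ 0 → sc (u i) / 2 ≤ n ∧ n ≤ Rg_aux.Yn (u i))
    (hg : ∀ i n, g i n ≠ 0 → sc (v i) / 2 ≤ n ∧ n ≤ Rg_aux.Yn (v i)) (n : ℕ)
    (hn : ((∏ i, f i) * ∏ r, g r) n ≠ 0) :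
    1 ≤ n ∧ PX u v / 2 ^ (4 + S) ≤ n ∧ (n : ℝ) ≤ 2 ^ (4 + S) * PX u v := by
  have h := hPd (Fin 4 ⊕ Fin S) Finset.univ (Sum.elim f g)
    (Sum.elim (fun i => sc (u i) / 2) (fun i => sc (v i) / 2))
    (Sum.elim (fun i => Rg_aux.Yn (u i)) (fun i => Rg_aux.Yn (v i)))
    (by
      rintro (i | i) -
      · have := Rg_aux.sc_pos (u i)
        simp only [Sum.elim_inl]
        positivity
      · have := Rg_aux.sc_pos (v i)
        simp only [Sum.elim_inr]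
        positivity)
    (by
      rintro (i | i) - m hm
      · exact hf i m hm
      · exact hg i m hm)
  rw [Fintype.prod_sum_type, Fintype.prod_sum_type, Fintype.prod_sum_type] at h
  simp only [Sum.elim_inl, Sum.elim_inr] at h
  obtain ⟨h1, h2, h3⟩ := h.1 n hn
  refine ⟨h1, ?_, ?_⟩
  · refine le_trans (le_of_eq ?_) h2
    rw [Finset.prod_div_distrib, Finset.prod_div_distrib]
    simp only [Finset.prod_const, Finset.card_univ, Fintype.card_fin]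
    unfold PX
    rw [pow_add]
    field_simp
  · have h4 : (n : ℝ) ≤ (((∏ i, Rg_aux.Yn (u i)) * ∏ i, Rg_aux.Yn (v i) : ℕ) : ℝ) := by
      exact_mod_cast h3
    refine h4.trans (le_of_eq ?_)
    push_cast
    simp only [Rg_aux.Yn_cast, Finset.prod_mul_distrib, Finset.prod_const, Finset.card_univ,
      Fintype.card_fin]
    unfold PX
    rw [pow_add]
    ring

end XRg_aux

/-- ITEM XRg -/
theorem iXRg (hPd : StPd) : StXRg := by
  intro w hw S
  obtain ⟨-, a, b, ha, hab, hsupp⟩ := hw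
  have hm : 0 < min a 1 := lt_min ha one_pos
  have hm1 : min a 1 ≤ 1 := min_le_right _ _
  have hM1 : 1 ≤ max b 1 := le_max_right _ _
  have hP : (1 : ℝ) ≤ 2 ^ (4 + S) := one_le_pow₀ (by norm_num)
  have hP0 : (0 : ℝ) < 2 ^ (4 + S) := by positivity
  have hmi : 1 ≤ 1 / min a 1 := by
    rw [le_div_iff₀ hm]
    linarith
  refine ⟨2 ^ (4 + S) * (4 * max b 1) * (1 / min a 1), ?_, ?_⟩
  · have h1 : (1 : ℝ) ≤ 4 * max b 1 := by linarith
    exact one_le_mul_of_one_le_of_one_le (one_le_mul_of_one_le_of_one_le hP h1) hmi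
  intro T κ x T' y z lw u v hT hT' hx1 hx2 hSW
  have hT0 : 0 < T ^ 2 := by positivity
  have hx0 : 0 < x := hT0.trans_le hx1
  have hPS : 0 < PX u v := by
    unfold PX
    exact mul_pos (Finset.prod_pos fun i _ => Rg_aux.sc_pos _) (Finset.prod_pos fun i _ => Rg_aux.sc_pos _)
  obtain ⟨n, hn1, hlo, hup, hwn⟩ : ∃ n : ℕ, 1 ≤ n ∧ PX u v / 2 ^ (4 + S) ≤ n ∧
      (n : ℝ) ≤ 2 ^ (4 + S) * PX u v ∧ w (((n : ℝ) / x) ^ T') ≠ 0 := by
    rcases hSW with h | h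
    · obtain ⟨n, h1, h2⟩ := Rg_aux.sw_ne w _ x T' h
      obtain ⟨h3, h4, h5⟩ := XRg_aux.prod_supp hPd u v (fun i => ms y (u i)) (fun r => ps y z (v r))
        (fun i n => Rg_aux.ms_supp y (u i) n) (fun i n => Rg_aux.ps_supp y z (v i) n) n h1
      exact ⟨n, h3, h4, h5, h2⟩
    · obtain ⟨n, h1, h2⟩ := Rg_aux.sw_ne w _ x T' h
      obtain ⟨h3, h4, h5⟩ := XRg_aux.prod_supp hPd u v (fun i => msA y T κ (lw i) (u i))
        (fun r => ps y z (v r)) (fun i n => Rg_aux.msA_supp y T κ (lw i) (u i) n)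
        (fun i n => Rg_aux.ps_supp y z (v i) n) n h1
      exact ⟨n, h3, h4, h5, h2⟩
  have hn0 : (0 : ℝ) < n := by
    have : (1 : ℝ) ≤ n := by exact_mod_cast hn1
    linarith
  have hu0 : 0 < (n : ℝ) / x := div_pos hn0 hx0
  obtain ⟨h1, h2⟩ := hsupp _ hwn
  obtain ⟨h3, h4⟩ := Rg_aux.window a b _ T' hu0 hT' h1 h2
  rw [le_div_iff₀ hx0] at h3
  rw [div_le_iff₀ hx0] at h4
  have h5 : min a 1 * T ^ 2 ≤ n := le_trans (mul_le_mul_of_nonneg_left hx1 hm.le) h3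
  have h6 : (n : ℝ) ≤ max b 1 * (4 * T ^ 2) :=
    h4.trans (mul_le_mul_of_nonneg_left hx2 (by linarith))
  constructor
  · rw [div_le_iff₀ (by positivity)]
    have h7 : min a 1 * T ^ 2 ≤ 2 ^ (4 + S) * PX u v := h5.trans hup
    have h8 : T ^ 2 ≤ 2 ^ (4 + S) * PX u v * (1 / min a 1) := by
      rw [mul_one_div, le_div_iff₀ hm]
      linarith
    have h9 : 2 ^ (4 + S) * PX u v * (1 / min a 1) * 1 ≤
        2 ^ (4 + S) * PX u v * (1 / min a 1) * (4 * max b 1) :=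
      mul_le_mul_of_nonneg_left (by linarith) (by positivity)
    calc T ^ 2 ≤ 2 ^ (4 + S) * PX u v * (1 / min a 1) * 1 := by linarith
      _ ≤ 2 ^ (4 + S) * PX u v * (1 / min a 1) * (4 * max b 1) := h9
      _ = PX u v * (2 ^ (4 + S) * (4 * max b 1) * (1 / min a 1)) := by ring
  · have h7 : PX u v ≤ 2 ^ (4 + S) * (max b 1 * (4 * T ^ 2)) := by
      rw [div_le_iff₀ hP0] at hlo
      have h8 : (n : ℝ) * 2 ^ (4 + S) ≤ max b 1 * (4 * T ^ 2) * 2 ^ (4 + S) :=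
        mul_le_mul_of_nonneg_right h6 hP0.le
      linarith
    have h9 : 2 ^ (4 + S) * (max b 1 * (4 * T ^ 2)) * 1 ≤
        2 ^ (4 + S) * (max b 1 * (4 * T ^ 2)) * (1 / min a 1) :=
      mul_le_mul_of_nonneg_left hmi (by positivity)
    calc PX u v ≤ 2 ^ (4 + S) * (max b 1 * (4 * T ^ 2)) * 1 := by linarith
      _ ≤ 2 ^ (4 + S) * (max b 1 * (4 * T ^ 2)) * (1 / min a 1) := h9
      _ = 2 ^ (4 + S) * (4 * max b 1) * (1 / min a 1) * T ^ 2 := by ring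

end Pool.Agent.Work.MP_a8fbd7_nt.EX.ASM
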