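import Pool.Agent.Work.MP_a8fbd7_nt.EX.ASM.Stmts

/-!
MP_a8fbd7_nt, block EX, part ASM, item XSh: short slots.
-/

set_option autoImplicit false

open MeasureTheory Set Filter Topology

noncomputable section

namespace Pool.Agent.Work.MP_a8fbd7_nt.EX.ASM

open Pool.Agent.Work.MP_a8fbd7_nt.OX
open Pool.Agent.Work.MP_a8fbd7_nt.OX.ID (Rough roughOne pb rg)
open Pool.Agent.Work.MP_a8fbd7_nt.OX.ASM
open Pool.Agent.Work.MP_a8fbd7_nt.EX

namespace XSh_aux

lemma sc_one_le (o : Option ℕ) : 1 ≤ sc o := by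
  cases o with
  | none => simp [sc]
  | some l => simpa [sc] using one_le_pow₀ (by norm_num : (1 : ℝ) ≤ 2)

lemma sc_pos (o : Option ℕ) : 0 < sc o := lt_of_lt_of_le one_pos (sc_one_le o)

lemma prod_one_le {ι : Type*} (s : Finset ι) (f : ι → ℝ) (hf : ∀ i ∈ s, 1 ≤ f i) :
    1 ≤ ∏ i ∈ s, f i := by
  classical
  induction s using Finset.induction_on with
  | empty => simp
  | insert a s ha ih =>
    rw [Finset.prod_insert ha]
    exact one_le_mul_of_one_le_of_one_le (hf a (Finset.mem_insert_self a s))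
      (ih fun i hi => hf i (Finset.mem_insert_of_mem hi))

lemma prod_le_pow {ι : Type*} (s : Finset ι) (f : ι → ℝ) (b : ℝ) (h0 : ∀ i ∈ s, 0 ≤ f i)
    (hf : ∀ i ∈ s, f i ≤ b) : ∏ i ∈ s, f i ≤ b ^ s.card := by
  rw [← Finset.prod_const]
  exact Finset.prod_le_prod h0 hf

lemma sc_le_of_not_Lg {T κ : ℝ} (hT : 1 ≤ T) (hκ : 0 < κ) {o : Option ℕ} (h : ¬ Lg T κ o) :
    sc o ≤ T ^ (1 / 2 + κ) := by
  cases o with
  | none =>
    simp only [sc]
    exact Real.one_le_rpow hT (by linarith)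
  | some l =>
    simp only [sc]
    by_contra hc
    exact h ⟨l, rfl, lt_of_not_ge hc⟩

end XSh_aux

open XSh_aux in
theorem iXSh : StXSh := by
  classical
  intro κ1 κ2 T S u v h1 h1' h2 h2' hT hu hk hPX
  by_contra hcon
  have hP : ∏ r, sc (v r) < T ^ (κ1 / 2) := lt_of_not_ge hcon
  have hT0 : 0 < T := by linarith
  apply hk
  intro i
  have hb : ∀ j, sc (u j) ≤ T ^ (1 / 2 + κ2) := fun j => sc_le_of_not_Lg hT h2 (hu j)
  have hrest : ∏ j ∈ Finset.univ.erase i, sc (u j) ≤ T ^ (3 / 2 + 3 * κ2) := by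
    have h3 := prod_le_pow (Finset.univ.erase i) (fun j => sc (u j)) (T ^ (1 / 2 + κ2))
      (fun j _ => (sc_pos _).le) (fun j _ => hb j)
    have hc : (Finset.univ.erase i).card = 3 := by
      rw [Finset.card_erase_of_mem (Finset.mem_univ i)]; simp
    rw [hc, ← Real.rpow_natCast, ← Real.rpow_mul hT0.le] at h3
    have he : (1 / 2 + κ2) * ((3 : ℕ) : ℝ) = 3 / 2 + 3 * κ2 := by push_cast; ring
    rwa [he] at h3
  have hsplit : ∏ j, sc (u j) = sc (u i) * ∏ j ∈ Finset.univ.erase i, sc (u j) :=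
    (Finset.mul_prod_erase Finset.univ (fun j => sc (u j)) (Finset.mem_univ i)).symm
  have hPpos : 0 < ∏ r, sc (v r) := Finset.prod_pos fun r _ => sc_pos _
  have hrpos : 0 < ∏ j ∈ Finset.univ.erase i, sc (u j) := Finset.prod_pos fun r _ => sc_pos _
  have hlow : T ^ (1 / 2 - κ1) ≤ sc (u i) := by
    have e1 : T ^ (2 - κ1 / 100) ≤ sc (u i) * T ^ (3 / 2 + 3 * κ2) * T ^ (κ1 / 2) := by
      calc T ^ (2 - κ1 / 100) ≤ PX u v := hPX
        _ = sc (u i) * (∏ j ∈ Finset.univ.erase i, sc (u j)) * ∏ r, sc (v r) := by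
            unfold PX; rw [hsplit]
        _ ≤ sc (u i) * T ^ (3 / 2 + 3 * κ2) * T ^ (κ1 / 2) := by
            apply mul_le_mul (mul_le_mul_of_nonneg_left hrest (sc_pos _).le) hP.le hPpos.le
            exact mul_nonneg (sc_pos _).le (Real.rpow_nonneg hT0.le _)
    have e2 : T ^ (1 / 2 - κ1) * (T ^ (3 / 2 + 3 * κ2) * T ^ (κ1 / 2)) ≤ T ^ (2 - κ1 / 100) := by
      rw [← Real.rpow_add hT0, ← Real.rpow_add hT0]
      apply Real.rpow_le_rpow_of_exponent_le hT
      linarith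
    have hpos : 0 < T ^ (3 / 2 + 3 * κ2) * T ^ (κ1 / 2) :=
      mul_pos (Real.rpow_pos_of_pos hT0 _) (Real.rpow_pos_of_pos hT0 _)
    have e3 : T ^ (1 / 2 - κ1) * (T ^ (3 / 2 + 3 * κ2) * T ^ (κ1 / 2)) ≤
        sc (u i) * (T ^ (3 / 2 + 3 * κ2) * T ^ (κ1 / 2)) := by
      rw [← mul_assoc (sc (u i))]
      exact e2.trans e1
    exact le_of_mul_le_mul_right e3 hpos
  have hsub1 : 1 ≤ ∏ r ∈ Finset.univ.filter (fun r => own r = i), sc (v r) :=
    prod_one_le _ _ fun r _ => sc_one_le _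
  have hsub2 : ∏ r ∈ Finset.univ.filter (fun r => own r = i), sc (v r) ≤ ∏ r, sc (v r) := by
    rw [← Finset.prod_filter_mul_prod_filter_not Finset.univ (fun r => own r = i) (fun r => sc (v r))]
    exact le_mul_of_one_le_right (by linarith) (prod_one_le _ _ fun r _ => sc_one_le _)
  constructor
  · unfold svr
    exact hlow.trans (le_mul_of_one_le_right (sc_pos _).le hsub1)
  · unfold svr
    calc sc (u i) * ∏ r ∈ Finset.univ.filter (fun r => own r = i), sc (v r)
        ≤ T ^ (1 / 2 + κ2) * T ^ (κ1 / 2) := by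
          apply mul_le_mul (hb i) (hsub2.trans hP.le) (by linarith)
          exact Real.rpow_nonneg hT0.le _
      _ ≤ T ^ (1 / 2 + κ1) := by
          rw [← Real.rpow_add hT0]
          apply Real.rpow_le_rpow_of_exponent_le hT
          linarith

end Pool.Agent.Work.MP_a8fbd7_nt.EX.ASM
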