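import Mathlib
import Pool.Agent.Work.MP_a8fbd7_nt.EX.ASM.Stmts
import Pool.Agent.Work.MP_a8fbd7_nt.OX.ASM.Win
import Pool.Agent.Work.MP_a8fbd7_nt.OX.ASM.I_Sq

/-!
MP_a8fbd7_nt, EX/ASM, item XSq: square factors in windows.

`n` in the window `(x1, x1 + h]` divisible by `p ^ 2`, `p > y`: for `p ≤ T ^ (3/5)` at most `h / p ^ 2 + 1` values `n`;
for `p > T ^ (3/5)` the number `m = n / p ^ 2` is at most `D T ^ (4/5)`, and for each `m` the numbers `p` have gaps
`(p' - p) √x1 ≤ h`.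
-/

set_option autoImplicit false

open Set Filter Topology

noncomputable section

namespace Pool.Agent.Work.MP_a8fbd7_nt.EX.ASM

open Pool.Agent.Work.MP_56b8f5_nt.UC (IsWt)
open Pool.Agent.Work.MP_a8fbd7_nt.OX
open Pool.Agent.Work.MP_a8fbd7_nt.OX.ASM
open Pool.Agent.Work.MP_a8fbd7_nt.EX

namespace XSq_aux

open OX.ASM.Sq_aux

open Classical in
/-- numbers `m p ^ 2` in a window with fixed `m` -/
theorem count_fix (x1 h : ℝ) (h1 : 1 ≤ x1) (hh : 0 ≤ h) (m : ℕ) (hm : 1 ≤ m) :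
    (((Win.Wn x1 h).filter fun n => ∃ r : ℕ, m * r ^ 2 = n).card : ℝ) ≤ h / Real.sqrt x1 + 1 := by
  set S := (Win.Wn x1 h).filter fun n => ∃ r : ℕ, m * r ^ 2 = n with hS
  set R : Finset ℕ := (Finset.range (⌊x1 + h⌋₊ + 1)).filter fun r => m * r ^ 2 ∈ Win.Wn x1 h with hR
  have hx0 : (0 : ℝ) ≤ x1 := by linarith
  have hsub : S ⊆ R.image fun r => m * r ^ 2 := by
    intro n hn
    rw [hS, Finset.mem_filter] at hn
    obtain ⟨hn, r, rfl⟩ := hn
    rw [Finset.mem_image]
    refine ⟨r, ?_, rfl⟩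
    rw [hR, Finset.mem_filter, Finset.mem_range]
    refine ⟨?_, hn⟩
    have h2 := (Win.mem_Wn hx0).1 hn
    have h3 : m * r ^ 2 ≤ ⌊x1 + h⌋₊ := Nat.le_floor h2.2
    have h4 : r ≤ m * r ^ 2 := (Nat.le_self_pow (by norm_num) r).trans (Nat.le_mul_of_pos_left _ (by omega))
    omega
  have hc : (S.card : ℝ) ≤ R.card := by
    exact_mod_cast (Finset.card_le_card hsub).trans Finset.card_image_le
  refine hc.trans ?_
  have hs0 : 0 < Real.sqrt x1 := Real.sqrt_pos.2 (by linarith)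
  apply count_gap _ _ _ hs0 hh
  intro r hr s hs hrs
  rw [hR, Finset.mem_filter, Win.mem_Wn hx0] at hr hs
  have hr1 := hr.2.1
  have hs2 := hs.2.2
  push_cast at hr1 hs2
  have hm1 : (1 : ℝ) ≤ m := by exact_mod_cast hm
  have hr0 : (0 : ℝ) ≤ r := Nat.cast_nonneg r
  have hrs' : (r : ℝ) ≤ s := by exact_mod_cast hrs
  have h2 : Real.sqrt x1 ≤ m * r := by
    apply Real.sqrt_le_iff.2
    refine ⟨by positivity, ?_⟩
    have : (m : ℝ) * r ^ 2 ≤ (m * r) ^ 2 := by
      rw [mul_pow]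
      have : (m : ℝ) ≤ m ^ 2 := by nlinarith
      gcongr
    linarith
  have h3 : ((s : ℝ) - r) * (m * r) ≤ m * (s : ℝ) ^ 2 - m * (r : ℝ) ^ 2 := by
    have e : m * (s : ℝ) ^ 2 - m * (r : ℝ) ^ 2 = (s - r) * (m * r) + m * s * (s - r) := by ring
    rw [e]
    have : 0 ≤ (m : ℝ) * s * (s - r) := mul_nonneg (by positivity) (by linarith)
    linarith
  have h4 : ((s : ℝ) - r) * Real.sqrt x1 ≤ ((s : ℝ) - r) * (m * r) := by
    apply mul_le_mul_of_nonneg_left h2
    linarith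
  linarith

end XSq_aux

open OX.ASM.Sq_aux XSq_aux in
open Classical in
theorem iXSq : StXSq := by
  intro w hw hw0 η hη hη'
  obtain ⟨Cw, hCw, hWb, hwin⟩ := Win.window w hw
  have hCw0 : 0 < Cw := by linarith
  set D : ℝ := 4 * (1 + Cw) with hD
  have hD8 : 8 ≤ D := by linarith
  have hD0 : 0 < D := by linarith
  set K1 : ℝ := 2 * Cw ^ 2 * (4 / η ^ 2) + (Cw + D * Cw ^ 3 + D * Cw) * 100 with hK1
  have hK1p : 0 < K1 := by positivity
  refine ⟨max (max D (4 ^ (1 / η))) K1, by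
    refine le_trans ?_ ((le_max_left _ _).trans (le_max_left _ _))
    linarith, ?_⟩
  intro T T' x hT hT' hTT hx1 hx2
  have hTD : D ≤ T := ((le_max_left _ _).trans (le_max_left _ _)).trans hT
  have hTE : (4 : ℝ) ^ (1 / η) ≤ T := ((le_max_right _ _).trans (le_max_left _ _)).trans hT
  have hT8 : 8 ≤ T := hD8.trans hTD
  have hT0 : 0 < T := by linarith
  have hT1 : 1 ≤ T := by linarith
  have hx0 : 0 < x := lt_of_lt_of_le (by positivity) hx1
  have hT'0 : 0 < T' := by linarith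
  have hl1 : 1 ≤ Real.log T := by
    rw [Real.le_log_iff_exp_le hT0]
    have := Real.exp_one_lt_d9
    linarith
  have hl0 : 0 < Real.log T := by linarith
  -- the window
  obtain ⟨x1, hxa, hxb, hn⟩ := hwin x T' hx0 hT'
  have hx10 : 0 < x1 := lt_of_lt_of_le (by positivity) hxa
  set h : ℝ := Cw * (x / T') with hh
  have hTTx : T * T' ≤ x := by
    calc T * T' ≤ T * T := by gcongr
      _ = T ^ 2 := by ring
      _ ≤ x := hx1
  have hxT : T ≤ x / T' := by
    rw [le_div_iff₀ hT'0]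
    exact hTTx
  have hhT : T ≤ h := by
    calc T ≤ x / T' := hxT
      _ = 1 * (x / T') := (one_mul _).symm
      _ ≤ h := by rw [hh]; gcongr
  have hh0 : 0 < h := by linarith
  have hend : x1 + h ≤ D * T ^ 2 := by
    have h1 : x / T' ≤ x := div_le_self hx0.le hT'
    have h2 : h ≤ Cw * x := by rw [hh]; gcongr
    have h3 : x1 + h ≤ (1 + Cw) * x := by linarith
    calc x1 + h ≤ (1 + Cw) * x := h3
      _ ≤ (1 + Cw) * (4 * T ^ 2) := by gcongr
      _ = D * T ^ 2 := by rw [hD]; ring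
  have hx1T : T ≤ x1 := by
    refine le_trans ?_ hxa
    rw [le_div_iff₀ hCw0]
    have : Cw ≤ T := by linarith
    calc T * Cw ≤ T * T := by gcongr
      _ = T ^ 2 := by ring
      _ ≤ x := hx1
  have hx11 : 1 ≤ x1 := by linarith
  -- `√x1 ≥ T / Cw`
  have hsq : T / Cw ≤ Real.sqrt x1 := by
    apply Real.le_sqrt_of_sq_le
    rw [div_pow]
    calc T ^ 2 / Cw ^ 2 ≤ x / Cw := by
          rw [div_le_div_iff₀ (by positivity) hCw0]
          have h1 : T ^ 2 * Cw ≤ x * Cw := by gcongr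
          have h2 : x * Cw ≤ x * Cw ^ 2 := by
            have : Cw ≤ Cw ^ 2 := by nlinarith
            gcongr
          linarith
      _ ≤ x1 := hxa
  have hsq0 : 0 < Real.sqrt x1 := lt_of_lt_of_le (by positivity) hsq
  set y : ℕ := zz η T with hy
  set z : ℕ := zz (3 / 5) T with hz
  have hzle : (z : ℝ) ≤ T ^ (3 / 5 : ℝ) := Nat.floor_le (by positivity)
  have hTη : (4 : ℝ) ≤ T ^ η := by
    have h1 := Real.rpow_le_rpow (by positivity) hTE hη.le
    rwa [← Real.rpow_mul (by norm_num), one_div, inv_mul_cancel₀ hη.ne', Real.rpow_one] at h1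
  have hyge : T ^ η / 2 ≤ (y : ℝ) := by
    have := Nat.lt_floor_add_one (T ^ η)
    rw [hy, zz]
    linarith
  have hy1 : 1 ≤ y := by
    have : (1 : ℝ) ≤ y := by linarith
    exact_mod_cast this
  have hTx : T' / x * h = Cw := by
    rw [hh]
    field_simp
  set M : ℕ := ⌊D * T ^ (4 / 5 : ℝ)⌋₊ with hM
  have hMle : (M : ℝ) ≤ D * T ^ (4 / 5 : ℝ) := Nat.floor_le (by positivity)
  set P : ℕ → Prop := fun n => ∃ p : ℕ, p.Prime ∧ y < p ∧ p ^ 2 ∣ n with hP
  have hSW := Win.SW_abs_le w (sqr y) x T' x1 h Cw hx10.le hWb hn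
  have hsum : ∑ n ∈ Win.Wn x1 h, |sqr y n| ≤
      h * (2 / T ^ η) + T ^ (3 / 5 : ℝ) + (D * T ^ (4 / 5 : ℝ)) * (h / Real.sqrt x1 + 1) := by
    have e1 : ∑ n ∈ Win.Wn x1 h, |sqr y n| = (((Win.Wn x1 h).filter P).card : ℝ) := by
      rw [Finset.card_filter, Nat.cast_sum]
      refine Finset.sum_congr rfl fun n _ => ?_
      by_cases hPn : P n
      · rw [sqr, if_pos hPn, if_pos hPn, abs_one, Nat.cast_one]
      · rw [sqr, if_neg hPn, if_neg hPn, abs_zero, Nat.cast_zero]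
    rw [e1]
    have hsub : (Win.Wn x1 h).filter P ⊆ ((Finset.Ioc y z).biUnion
        fun p => (Win.Wn x1 h).filter fun n => p ^ 2 ∣ n) ∪ ((Finset.Icc 1 M).biUnion
        fun m => (Win.Wn x1 h).filter fun n => ∃ r : ℕ, m * r ^ 2 = n) := by
      intro n hn'
      rw [Finset.mem_filter] at hn'
      obtain ⟨hn1, p, hp, hyp, hpn⟩ := hn'
      rw [Finset.mem_union]
      rcases le_or_gt p z with hpz | hpz
      · left
        rw [Finset.mem_biUnion]
        exact ⟨p, Finset.mem_Ioc.2 ⟨hyp, hpz⟩, Finset.mem_filter.2 ⟨hn1, hpn⟩⟩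
      · right
        rw [Finset.mem_biUnion]
        obtain ⟨m, hm⟩ := hpn
        have hnW := (Win.mem_Wn hx10.le).1 hn1
        have hn0 : 0 < (n : ℝ) := hx10.trans hnW.1
        have hm0 : m ≠ 0 := by
          rintro rfl
          rw [mul_zero] at hm
          rw [hm, Nat.cast_zero] at hn0
          exact lt_irrefl _ hn0
        refine ⟨m, Finset.mem_Icc.2 ⟨Nat.one_le_iff_ne_zero.2 hm0, ?_⟩,
          Finset.mem_filter.2 ⟨hn1, p, by rw [hm, mul_comm]⟩⟩
        apply Nat.le_floor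
        have hpT : T ^ (3 / 5 : ℝ) ≤ p := by
          rw [hz, zz] at hpz
          exact ((Nat.floor_lt (by positivity)).1 hpz).le
        have h1 : (n : ℝ) = (p : ℝ) ^ 2 * m := by exact_mod_cast hm
        have h2 : (p : ℝ) ^ 2 * m ≤ D * T ^ 2 := by rw [← h1]; exact hnW.2.trans hend
        have h3 : (T ^ (3 / 5 : ℝ)) ^ 2 * (m : ℝ) ≤ D * T ^ 2 := by
          refine le_trans ?_ h2
          gcongr
        have e2 : T ^ 2 = (T ^ (3 / 5 : ℝ)) ^ 2 * T ^ (4 / 5 : ℝ) := by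
          rw [← Real.rpow_natCast (T ^ (3 / 5 : ℝ)), ← Real.rpow_mul hT0.le, ← Real.rpow_add hT0, ← Real.rpow_natCast]
          norm_num
        rw [e2] at h3
        have h4 : (T ^ (3 / 5 : ℝ)) ^ 2 * (m : ℝ) ≤ (T ^ (3 / 5 : ℝ)) ^ 2 * (D * T ^ (4 / 5 : ℝ)) := by
          linarith
        exact le_of_mul_le_mul_left h4 (by positivity)
    have h1 : (((Win.Wn x1 h).filter P).card : ℝ) ≤
        ∑ p ∈ Finset.Ioc y z, (((Win.Wn x1 h).filter fun n => p ^ 2 ∣ n).card : ℝ) +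
        ∑ m ∈ Finset.Icc 1 M, (((Win.Wn x1 h).filter fun n => ∃ r : ℕ, m * r ^ 2 = n).card : ℝ) := by
      exact_mod_cast (Finset.card_le_card hsub).trans ((Finset.card_union_le _ _).trans
        (Nat.add_le_add Finset.card_biUnion_le Finset.card_biUnion_le))
    refine h1.trans ?_
    refine add_le_add ?_ ?_
    · rcases le_or_gt y z with hyz | hyz
      · calc ∑ p ∈ Finset.Ioc y z, (((Win.Wn x1 h).filter fun n => p ^ 2 ∣ n).card : ℝ)
            ≤ ∑ p ∈ Finset.Ioc y z, (h * (1 / (p : ℝ) ^ 2) + 1) := by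
              refine Finset.sum_le_sum fun p hp => ?_
              rw [Finset.mem_Ioc] at hp
              have h2 := count_mult x1 h hx10.le hh0.le (p ^ 2) (Nat.one_le_pow _ _ (by omega))
              push_cast at h2
              rw [mul_one_div]
              exact h2
          _ = h * ∑ p ∈ Finset.Ioc y z, 1 / (p : ℝ) ^ 2 + ((z : ℝ) - y) := by
              rw [Finset.sum_add_distrib, Finset.mul_sum, Finset.sum_const, Nat.card_Ioc, nsmul_eq_mul, mul_one,
                Nat.cast_sub hyz]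
          _ ≤ h * (2 / T ^ η) + T ^ (3 / 5 : ℝ) := by
              have h2 := sum_sq y hy1 z hyz
              have hz0 : (0 : ℝ) < z := by exact_mod_cast (by omega : 0 < z)
              have h3 : (1 : ℝ) / y ≤ 2 / T ^ η := by
                rw [div_le_div_iff₀ (by positivity) (by positivity)]
                linarith
              have h4 : (0 : ℝ) ≤ 1 / z := by positivity
              have h5 : ∑ m ∈ Finset.Ioc y z, (1 : ℝ) / (m : ℝ) ^ 2 ≤ 2 / T ^ η := by linarith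
              have hy0 : (0 : ℝ) ≤ y := Nat.cast_nonneg y
              gcongr
              linarith
      · rw [Finset.Ioc_eq_empty (by omega), Finset.sum_empty]
        positivity
    · calc ∑ m ∈ Finset.Icc 1 M, (((Win.Wn x1 h).filter fun n => ∃ r : ℕ, m * r ^ 2 = n).card : ℝ)
          ≤ ∑ m ∈ Finset.Icc 1 M, (h / Real.sqrt x1 + 1) := by
            refine Finset.sum_le_sum fun m hm => ?_
            rw [Finset.mem_Icc] at hm
            exact count_fix x1 h hx11 hh0.le m hm.1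
        _ = (M : ℝ) * (h / Real.sqrt x1 + 1) := by
            rw [Finset.sum_const, Nat.card_Icc, nsmul_eq_mul, Nat.add_sub_cancel]
        _ ≤ (D * T ^ (4 / 5 : ℝ)) * (h / Real.sqrt x1 + 1) := by gcongr
  have h1 : SW w (sqr y) x T' ≤ Cw * (h * (2 / T ^ η) + T ^ (3 / 5 : ℝ) +
      (D * T ^ (4 / 5 : ℝ)) * (h / Real.sqrt x1 + 1)) :=
    (le_abs_self _).trans (hSW.trans (by gcongr))
  have hT'x : T' / x ≤ 1 / T := by
    rw [div_le_div_iff₀ hx0 hT0, one_mul, mul_comm]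
    exact hTTx
  have eT : T = T ^ (1 / 5 : ℝ) * T ^ (4 / 5 : ℝ) := by
    rw [← Real.rpow_add hT0]
    norm_num
  have hT15 : 0 < T ^ (1 / 5 : ℝ) := by positivity
  have hT45 : 0 < T ^ (4 / 5 : ℝ) := by positivity
  have hK : T' / x * SW w (sqr y) x T' ≤ K1 / Real.log T ^ 2 := by
    calc T' / x * SW w (sqr y) x T'
        ≤ T' / x * (Cw * (h * (2 / T ^ η) + T ^ (3 / 5 : ℝ) +
          (D * T ^ (4 / 5 : ℝ)) * (h / Real.sqrt x1 + 1))) := by gcongr
      _ = (T' / x * h) * (Cw * (2 / T ^ η)) + T' / x * (Cw * T ^ (3 / 5 : ℝ)) +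
          (T' / x * h) * (Cw * (D * T ^ (4 / 5 : ℝ)) / Real.sqrt x1) +
          T' / x * (Cw * (D * T ^ (4 / 5 : ℝ))) := by ring
      _ ≤ Cw * (Cw * (2 / T ^ η)) + 1 / T * (Cw * T ^ (4 / 5 : ℝ)) +
          Cw * (Cw * (D * T ^ (4 / 5 : ℝ)) / (T / Cw)) + 1 / T * (Cw * (D * T ^ (4 / 5 : ℝ))) := by
          rw [hTx]
          have h2 : T ^ (3 / 5 : ℝ) ≤ T ^ (4 / 5 : ℝ) := Real.rpow_le_rpow_of_exponent_le hT1 (by norm_num)
          gcongr
      _ = 2 * Cw ^ 2 * (1 / T ^ η) + (Cw + D * Cw ^ 3 + D * Cw) * (T ^ (4 / 5 : ℝ) / T) := by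
          rw [div_div_eq_mul_div]
          ring
      _ = 2 * Cw ^ 2 * (1 / T ^ η) + (Cw + D * Cw ^ 3 + D * Cw) * (1 / T ^ (1 / 5 : ℝ)) := by
          have e : T ^ (4 / 5 : ℝ) / T = 1 / T ^ (1 / 5 : ℝ) := by
            rw [div_eq_div_iff hT0.ne' hT15.ne', one_mul]
            conv_rhs => rw [eT]
            ring
          rw [e]
      _ ≤ 2 * Cw ^ 2 * (4 / η ^ 2 / Real.log T ^ 2) + (Cw + D * Cw ^ 3 + D * Cw) * (100 / Real.log T ^ 2) := by
          have h2 := log_sq_le η hη T hT1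
          have h3 := log_sq_le (1 / 5) (by norm_num) T hT1
          have h4 : 1 / T ^ η ≤ 4 / η ^ 2 / Real.log T ^ 2 := by
            rw [div_le_div_iff₀ (by positivity) (by positivity)]
            linarith
          have h5 : 1 / T ^ (1 / 5 : ℝ) ≤ 100 / Real.log T ^ 2 := by
            rw [div_le_div_iff₀ (by positivity) (by positivity)]
            norm_num at h3
            linarith
          gcongr
      _ = K1 / Real.log T ^ 2 := by
          rw [hK1]
          ring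
  refine hK.trans ?_
  gcongr
  exact le_max_right _ _

end Pool.Agent.Work.MP_a8fbd7_nt.EX.ASM
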