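import Pool.Agent.Work.MP_a8fbd7_nt.EX.ASM.Stmts
import Pool.Agent.Work.MP_a8fbd7_nt.OX.ASM.I_V1

/-!
MP_a8fbd7_nt, block EX, part ASM, item XV1: the vector sieve sandwich (four `u`-slots).
-/

set_option autoImplicit false

open MeasureTheory Set Filter Topology

noncomputable section

namespace Pool.Agent.Work.MP_a8fbd7_nt.EX.ASM

open Pool.Agent.Work.MP_56b8f5_nt.UC (IsWt Bl Dp Om psi eta Sep)
open Pool.Agent.Work.MP_a8fbd7_nt.OX
open Pool.Agent.Work.MP_a8fbd7_nt.OX.ID (Rough roughOne pb rg)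
open Pool.Agent.Work.MP_a8fbd7_nt.OX.ASM
open Pool.Agent.Work.MP_a8fbd7_nt.OX.ASM.V1_aux
open Pool.Agent.Work.MP_a8fbd7_nt.EX

theorem iXV1 : StXV1 := by
  classical
  intro T κ D C0 E y z n0 lp lm u v n hT hκ hS
  set V : ArithmeticFunction ℝ := ∏ r, ps y z (v r) with hV
  have hVnn : NN V := nn_prod _ _ (fun r _ => nn_ps y z (v r))
  obtain ⟨g0, d0, x0, e0⟩ := slot hT hκ hS (u 0)
  obtain ⟨g1, d1, x1, e1⟩ := slot hT hκ hS (u 1)
  obtain ⟨g2, d2, x2, e2⟩ := slot hT hκ hS (u 2)
  obtain ⟨g3, d3, x3, e3⟩ := slot hT hκ hS (u 3)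
  have f0 := nn_ms y (u 0)
  have f1 := nn_ms y (u 1)
  have f2 := nn_ms y (u 2)
  have f3 := nn_ms y (u 3)
  set G0 := msA y T κ lp (u 0) with hG0
  set G1 := msA y T κ lp (u 1) with hG1
  set G2 := msA y T κ lp (u 2) with hG2
  set G3 := msA y T κ lp (u 3) with hG3
  set F0 := ms y (u 0) with hF0
  set F1 := ms y (u 1) with hF1
  set F2 := ms y (u 2) with hF2
  set F3 := ms y (u 3) with hF3
  set M0 := msA y T κ (fun d => lp d - lm d) (u 0) with hM0
  set M1 := msA y T κ (fun d => lp d - lm d) (u 1) with hM1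
  set M2 := msA y T κ (fun d => lp d - lm d) (u 2) with hM2
  set M3 := msA y T κ (fun d => lp d - lm d) (u 3) with hM3
  have b0 : BXA y z T κ (Function.update (fun _ => lp) 0 (fun d => lp d - lm d)) u v = M0 * G1 * G2 * G3 * V := by
    unfold BXA
    rw [Fin.prod_univ_four]
    simp [Function.update, hM0, hG1, hG2, hG3, hV]
  have b1 : BXA y z T κ (Function.update (fun _ => lp) 1 (fun d => lp d - lm d)) u v = G0 * M1 * G2 * G3 * V := by
    unfold BXA
    rw [Fin.prod_univ_four]
    simp [Function.update, hM1, hG0, hG2, hG3, hV]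
  have b2 : BXA y z T κ (Function.update (fun _ => lp) 2 (fun d => lp d - lm d)) u v = G0 * G1 * M2 * G3 * V := by
    unfold BXA
    rw [Fin.prod_univ_four]
    simp [Function.update, hM2, hG0, hG1, hG3, hV]
  have b3 : BXA y z T κ (Function.update (fun _ => lp) 3 (fun d => lp d - lm d)) u v = G0 * G1 * G2 * M3 * V := by
    unfold BXA
    rw [Fin.prod_univ_four]
    simp [Function.update, hM3, hG0, hG1, hG2, hV]
  have bF : BX y z u v = F0 * F1 * F2 * F3 * V := by
    unfold BX
    rw [Fin.prod_univ_four]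
  have bG : BXA y z T κ (fun _ => lp) u v = G0 * G1 * G2 * G3 * V := by
    unfold BXA
    rw [Fin.prod_univ_four]
  constructor
  · have hup : NN (((if Lg T κ (u 0) then M0 else 0) * G1 * G2 * G3 + G0 * (if Lg T κ (u 1) then M1 else 0) * G2 * G3 +
        G0 * G1 * (if Lg T κ (u 2) then M2 else 0) * G3 + G0 * G1 * G2 * (if Lg T κ (u 3) then M3 else 0)) * V -
        (G0 * G1 * G2 * G3 * V - F0 * F1 * F2 * F3 * V)) := by
      set X0 := (if Lg T κ (u 0) then M0 else 0) with hX0
      set X1 := (if Lg T κ (u 1) then M1 else 0) with hX1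
      set X2 := (if Lg T κ (u 2) then M2 else 0) with hX2
      set X3 := (if Lg T κ (u 3) then M3 else 0) with hX3
      have key : (X0 * G1 * G2 * G3 + G0 * X1 * G2 * G3 + G0 * G1 * X2 * G3 + G0 * G1 * G2 * X3) * V -
          (G0 * G1 * G2 * G3 * V - F0 * F1 * F2 * F3 * V) =
          ((X0 - (G0 - F0)) * G1 * G2 * G3 + (X1 - (G1 - F1)) * G0 * G2 * G3 + (G1 - F1) * (G0 - F0) * G2 * G3 +
            (X2 - (G2 - F2)) * G0 * G1 * G3 + (G2 - F2) * (G0 - F0) * G1 * G3 + (G2 - F2) * F0 * (G1 - F1) * G3 +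
            (X3 - (G3 - F3)) * G0 * G1 * G2 + (G3 - F3) * (G0 - F0) * G1 * G2 + (G3 - F3) * F0 * (G1 - F1) * G2 +
            (G3 - F3) * F0 * F1 * (G2 - F2)) * V := by
        ring
      rw [key]
      have t1 := ((x0.mul g1).mul g2).mul g3
      have t2 := ((x1.mul g0).mul g2).mul g3
      have t3 := ((d1.mul d0).mul g2).mul g3
      have t4 := ((x2.mul g0).mul g1).mul g3
      have t5 := ((d2.mul d0).mul g1).mul g3
      have t6 := ((d2.mul f0).mul d1).mul g3
      have t7 := ((x3.mul g0).mul g1).mul g2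
      have t8 := ((d3.mul d0).mul g1).mul g2
      have t9 := ((d3.mul f0).mul d1).mul g2
      have t10 := ((d3.mul f0).mul f1).mul d2
      exact (((((((((t1.add t2).add t3).add t4).add t5).add t6).add t7).add t8).add t9).add t10).mul hVnn
    have hlow : NN (G0 * G1 * G2 * G3 * V - F0 * F1 * F2 * F3 * V) := by
      have key : G0 * G1 * G2 * G3 * V - F0 * F1 * F2 * F3 * V =
          ((G0 - F0) * G1 * G2 * G3 + F0 * (G1 - F1) * G2 * G3 + F0 * F1 * (G2 - F2) * G3 + F0 * F1 * F2 * (G3 - F3)) * V := by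
        ring
      rw [key]
      have t1 := ((d0.mul g1).mul g2).mul g3
      have t2 := ((f0.mul d1).mul g2).mul g3
      have t3 := ((f0.mul f1).mul d2).mul g3
      have t4 := ((f0.mul f1).mul f2).mul d3
      exact (((t1.add t2).add t3).add t4).mul hVnn
    have h1 := hup n
    have h2 := hlow n
    rw [sub_apply', sub_apply'] at h1
    rw [sub_apply'] at h2
    rw [bF, bG, abs_sub_comm, abs_of_nonneg h2, Finset.sum_filter, Fin.sum_univ_four, b0, b1, b2, b3]
    have hsum : ((if Lg T κ (u 0) then (M0 * G1 * G2 * G3 * V) n else 0) + (if Lg T κ (u 1) then (G0 * M1 * G2 * G3 * V) n else 0) +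
        (if Lg T κ (u 2) then (G0 * G1 * M2 * G3 * V) n else 0) + (if Lg T κ (u 3) then (G0 * G1 * G2 * M3 * V) n else 0)) =
        (((if Lg T κ (u 0) then M0 else 0) * G1 * G2 * G3 + G0 * (if Lg T κ (u 1) then M1 else 0) * G2 * G3 +
        G0 * G1 * (if Lg T κ (u 2) then M2 else 0) * G3 + G0 * G1 * G2 * (if Lg T κ (u 3) then M3 else 0)) * V) n := by
      rw [add_mul, add_mul, add_mul, ArithmeticFunction.add_apply, ArithmeticFunction.add_apply, ArithmeticFunction.add_apply]
      congr 1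
      · congr 1
        · congr 1
          · split_ifs <;> simp
          · split_ifs <;> simp
        · split_ifs <;> simp
      · split_ifs <;> simp
    rw [hsum]
    linarith
  · intro i
    fin_cases i
    · show 0 ≤ BXA y z T κ (Function.update (fun _ => lp) 0 (fun d => lp d - lm d)) u v n
      rw [b0]
      exact (((e0.mul g1).mul g2).mul g3).mul hVnn n
    · show 0 ≤ BXA y z T κ (Function.update (fun _ => lp) 1 (fun d => lp d - lm d)) u v n
      rw [b1]
      exact (((g0.mul e1).mul g2).mul g3).mul hVnn n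
    · show 0 ≤ BXA y z T κ (Function.update (fun _ => lp) 2 (fun d => lp d - lm d)) u v n
      rw [b2]
      exact (((g0.mul g1).mul e2).mul g3).mul hVnn n
    · show 0 ≤ BXA y z T κ (Function.update (fun _ => lp) 3 (fun d => lp d - lm d)) u v n
      rw [b3]
      exact (((g0.mul g1).mul g2).mul e3).mul hVnn n

end Pool.Agent.Work.MP_a8fbd7_nt.EX.ASM
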